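import Pool.Agent.Sch.L1

/-!
# The Banach algebra `W = ℓ¹(ℕ × ℕ)` of double power series
-/

open scoped ENNReal

noncomputable section

namespace Pool.Agent.Sch

/-- Absolutely summable real double power series `∑ a (m,n) z^m z̄^n`. -/
def W : Type := L1 (ℕ × ℕ)

instance : NormedAddCommGroup W := inferInstanceAs (NormedAddCommGroup (L1 (ℕ × ℕ)))
instance : NormedSpace ℝ W := inferInstanceAs (NormedSpace ℝ (L1 (ℕ × ℕ)))
instance : CompleteSpace W := inferInstanceAs (CompleteSpace (L1 (ℕ × ℕ)))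
instance : CoeFun W fun _ => ℕ × ℕ → ℝ := ⟨fun a => (show L1 (ℕ × ℕ) from a)⟩

/-- The monomial `z^p.1 z̄^p.2`. -/
def mono (p : ℕ × ℕ) : W := (e p : L1 (ℕ × ℕ))

@[simp] theorem norm_mono (p : ℕ × ℕ) : ‖mono p‖ = 1 := norm_e (ι := ℕ × ℕ) p

theorem mono_apply (p q : ℕ × ℕ) : mono p q = if q = p then 1 else 0 := e_apply p q

/-- Continuous linear maps on `W` from values on monomials. -/
def liftW {E : Type*} [NormedAddCommGroup E] [NormedSpace ℝ E] [CompleteSpace E]
    (v : ℕ × ℕ → E) (C : ℝ) (hv : ∀ p, ‖v p‖ ≤ C) : W →L[ℝ] E := lift v C hv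

@[simp] theorem liftW_mono {E : Type*} [NormedAddCommGroup E] [NormedSpace ℝ E] [CompleteSpace E]
    (v : ℕ × ℕ → E) (C : ℝ) (hv : ∀ p, ‖v p‖ ≤ C) (p : ℕ × ℕ) :
    liftW v C hv (mono p) = v p := lift_e v C hv p

theorem hasSum_liftW {E : Type*} [NormedAddCommGroup E] [NormedSpace ℝ E] [CompleteSpace E]
    (v : ℕ × ℕ → E) (C : ℝ) (hv : ∀ p, ‖v p‖ ≤ C) (a : W) :
    HasSum (fun p => a p • v p) (liftW v C hv a) := hasSum_lift v C hv a

theorem norm_liftW_apply_le {E : Type*} [NormedAddCommGroup E] [NormedSpace ℝ E] [CompleteSpace E]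
    (v : ℕ × ℕ → E) (C : ℝ) (hv : ∀ p, ‖v p‖ ≤ C) (a : W) :
    ‖liftW v C hv a‖ ≤ C * ‖a‖ := norm_lift_apply_le v C hv a

theorem norm_liftW_le {E : Type*} [NormedAddCommGroup E] [NormedSpace ℝ E] [CompleteSpace E]
    (v : ℕ × ℕ → E) (C : ℝ) (hv : ∀ p, ‖v p‖ ≤ C) (hC : 0 ≤ C) :
    ‖liftW v C hv‖ ≤ C := norm_lift_le v C hv hC

theorem hasSum_mono (a : W) : HasSum (fun p => a p • mono p) a := hasSum_e (ι := ℕ × ℕ) a

theorem W_ext {a b : W} (h : ∀ p, a p = b p) : a = b :=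
  lp.ext (funext h)

theorem clmW_ext {F : Type*} [NormedAddCommGroup F] [NormedSpace ℝ F] {A B : W →L[ℝ] F}
    (h : ∀ p, A (mono p) = B (mono p)) : A = B :=
  clm_ext (ι := ℕ × ℕ) h

theorem norm_clmW_apply_le {F : Type*} [NormedAddCommGroup F] [NormedSpace ℝ F] (A : W →L[ℝ] F)
    {C : ℝ} (h : ∀ p, ‖A (mono p)‖ ≤ C) (a : W) : ‖A a‖ ≤ C * ‖a‖ :=
  norm_clm_apply_le (ι := ℕ × ℕ) A h a

/-- Coefficient functional. -/
def coeffW (p : ℕ × ℕ) : W →L[ℝ] ℝ := coord (ι := ℕ × ℕ) p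

@[simp] theorem coeffW_apply (p : ℕ × ℕ) (a : W) : coeffW p a = a p := rfl

@[simp] theorem W_add_apply (a b : W) (p : ℕ × ℕ) : (a + b) p = a p + b p := rfl
@[simp] theorem W_sub_apply (a b : W) (p : ℕ × ℕ) : (a - b) p = a p - b p := rfl
@[simp] theorem W_neg_apply (a : W) (p : ℕ × ℕ) : (-a) p = -(a p) := rfl
@[simp] theorem W_smul_apply (c : ℝ) (a : W) (p : ℕ × ℕ) : (c • a) p = c * a p := rfl
@[simp] theorem W_zero_apply (p : ℕ × ℕ) : (0 : W) p = 0 := rfl

theorem W_norm_eq (a : W) : ‖a‖ = ∑' p, ‖a p‖ := norm_eq (ι := ℕ × ℕ) a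
theorem W_summable_norm (a : W) : Summable fun p => ‖a p‖ := summable_norm_coe (ι := ℕ × ℕ) a
theorem W_norm_coe_le (a : W) (p : ℕ × ℕ) : ‖a p‖ ≤ ‖a‖ := norm_coe_le (ι := ℕ × ℕ) a p

/-- Element of `W` from a summable family. -/
def mkW (f : ℕ × ℕ → ℝ) (hf : Summable fun i => ‖f i‖) : W := mk f hf

@[simp] theorem mkW_apply (f : ℕ × ℕ → ℝ) (hf : Summable fun i => ‖f i‖) (i : ℕ × ℕ) :
    mkW f hf i = f i := rfl

/-- Convolution as a continuous bilinear map. -/
def mulCLM : W →L[ℝ] W →L[ℝ] W :=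
  liftW (fun p => liftW (fun q => mono (p + q)) 1 (fun q => (norm_mono _).le)) 1
    (fun p => norm_liftW_le _ _ _ zero_le_one)

@[simp] theorem mulCLM_mono (p q : ℕ × ℕ) : mulCLM (mono p) (mono q) = mono (p + q) := by
  simp [mulCLM]

instance : Mul W := ⟨fun a b => mulCLM a b⟩
instance : One W := ⟨mono 0⟩

theorem mul_def (a b : W) : a * b = mulCLM a b := rfl
theorem one_def : (1 : W) = mono 0 := rfl

@[simp] theorem mono_mul_mono (p q : ℕ × ℕ) : mono p * mono q = mono (p + q) := mulCLM_mono p q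

theorem norm_mulCLM_apply_le (a b : W) : ‖mulCLM a b‖ ≤ ‖a‖ * ‖b‖ := by
  have h1 : ‖mulCLM‖ ≤ 1 := norm_liftW_le _ _ _ zero_le_one
  calc ‖mulCLM a b‖ ≤ ‖mulCLM‖ * ‖a‖ * ‖b‖ := mulCLM.le_opNorm₂ a b
    _ ≤ 1 * ‖a‖ * ‖b‖ := by gcongr
    _ = ‖a‖ * ‖b‖ := by ring

private theorem mul_comm' (a b : W) : a * b = b * a := by
  have h : mulCLM = mulCLM.flip := by
    refine clmW_ext fun p => clmW_ext fun q => ?_
    rw [ContinuousLinearMap.flip_apply, mulCLM_mono, mulCLM_mono, add_comm]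
  rw [mul_def, mul_def]
  conv_lhs => rw [h]
  rfl

private theorem one_mul' (a : W) : 1 * a = a := by
  have h : mulCLM (mono 0) = ContinuousLinearMap.id ℝ W := by
    refine clmW_ext fun q => ?_
    rw [mulCLM_mono, zero_add]; rfl
  rw [mul_def, one_def, h]; rfl

private theorem mul_assoc' (a b c : W) : a * b * c = a * (b * c) := by
  -- linear in `c`
  have h1 : ∀ p q r, mulCLM (mulCLM (mono p) (mono q)) (mono r)
      = mulCLM (mono p) (mulCLM (mono q) (mono r)) := by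
    intro p q r
    simp [add_assoc]
  have h2 : ∀ p q, mulCLM (mulCLM (mono p) (mono q)) = (mulCLM (mono p)).comp (mulCLM (mono q)) :=
    fun p q => clmW_ext fun r => h1 p q r
  have h3 : ∀ p, mulCLM.comp (mulCLM (mono p))
      = (ContinuousLinearMap.compL ℝ W W W (mulCLM (mono p))).comp mulCLM :=
    fun p => clmW_ext fun q => h2 p q
  have h4 : ∀ (p : ℕ × ℕ) (b c : W), mulCLM (mulCLM (mono p) b) c = mulCLM (mono p) (mulCLM b c) := by
    intro p b c
    have := congrArg (fun L => L b c) (h3 p)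
    simpa using this
  have h5 : ((mulCLM.flip c).comp (mulCLM.flip b)) = mulCLM.flip (mulCLM b c) :=
    clmW_ext fun p => by
      simpa using h4 p b c
  have := congrArg (fun L => L a) h5
  simpa [mul_def] using this

instance : CommRing W :=
  { (inferInstance : AddCommGroup W) with
    mul := (· * ·)
    one := 1
    left_distrib := fun a b c => by simp [mul_def]
    right_distrib := fun a b c => by simp [mul_def]
    zero_mul := fun a => by simp [mul_def]
    mul_zero := fun a => by simp [mul_def]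
    mul_assoc := mul_assoc'
    one_mul := one_mul'
    mul_one := fun a => by rw [mul_comm']; exact one_mul' a
    mul_comm := mul_comm' }

instance : NormedCommRing W :=
  { (inferInstance : NormedAddCommGroup W), (inferInstance : CommRing W) with
    norm_mul_le := norm_mulCLM_apply_le }

instance : NormedAlgebra ℝ W :=
  { Algebra.ofModule (R := ℝ) (A := W) (fun r x y => by simp [mul_def])
      (fun r x y => by simp [mul_def]) with
    norm_smul_le := fun r x => (norm_smul r x).le }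

instance : NormOneClass W := ⟨norm_mono 0⟩

theorem mulCLM_apply (a b : W) : mulCLM a b = a * b := rfl

end Pool.Agent.Sch
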