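import Pool.Agent.Sch.Defs

/-!
# M8b: if the closure of the domain is a hyperbolic ball, then `ψ` is linear
-/

open scoped ENNReal Topology
open Complex (I)

noncomputable section

namespace Pool.Agent.Sch.BallAux

/-! ### The Cayley transform -/

theorem one_sub_ne {ζ : ℂ} (h : ‖ζ‖ < 1) : (1 - ζ) ≠ 0 := by
  intro h0
  have : ζ = 1 := (sub_eq_zero.1 h0).symm
  rw [this] at h
  simp at h

theorem one_add_ne {ζ : ℂ} (h : ‖ζ‖ < 1) : (1 + ζ) ≠ 0 := by
  have := one_sub_ne (ζ := -ζ) (by simpa using h)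
  simpa using this

theorem cay_im {ζ : ℂ} (h : ‖ζ‖ < 1) : 0 < (cay ζ).im := by
  have h1 := one_sub_ne h
  have h2 : (cay ζ).im = (1 - ‖ζ‖ ^ 2) / Complex.normSq (1 - ζ) := by
    unfold cay
    rw [Complex.div_im, ← Complex.normSq_eq_norm_sq, Complex.normSq_apply ζ]
    simp only [Complex.mul_im, Complex.mul_re, Complex.I_re, Complex.I_im, Complex.add_re,
      Complex.add_im, Complex.one_re, Complex.one_im, Complex.sub_re, Complex.sub_im]
    have h3 : Complex.normSq (1 - ζ) ≠ 0 := by simpa using h1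
    field_simp
    ring
  rw [h2]
  have h3 : 0 < Complex.normSq (1 - ζ) := by
    rw [Complex.normSq_pos]; exact h1
  have h4 : ‖ζ‖ ^ 2 < 1 := by
    have := norm_nonneg ζ
    nlinarith
  exact div_pos (by linarith) h3

theorem cay_inj {ζ ξ : ℂ} (h : ‖ζ‖ < 1) (h' : ‖ξ‖ < 1) (he : cay ζ = cay ξ) : ζ = ξ := by
  unfold cay at he
  rw [div_eq_div_iff (one_sub_ne h) (one_sub_ne h')] at he
  have h1 : I * (2 * (ζ - ξ)) = 0 := by linear_combination he
  have h2 : ζ - ξ = 0 := by
    rcases mul_eq_zero.1 h1 with h2 | h2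
    · exact absurd h2 Complex.I_ne_zero
    · rcases mul_eq_zero.1 h2 with h3 | h3
      · norm_num at h3
      · exact h3
  exact sub_eq_zero.1 h2

theorem cay_neg {ζ : ℂ} (h : ‖ζ‖ < 1) : cay (-ζ) = (-cay ζ)⁻¹ := by
  have h1 := one_sub_ne h
  have h2 := one_add_ne h
  unfold cay
  have h3 := Complex.I_ne_zero
  rw [inv_neg, inv_div, sub_neg_eq_add, ← sub_eq_add_neg, ← neg_div, div_eq_div_iff h2
    (mul_ne_zero h3 h2)]
  linear_combination (1 - ζ) * (1 + ζ) * Complex.I_sq

theorem norm_cay_sub {ζ : ℂ} (h : ‖ζ‖ < 1) : ‖cay ζ - I‖ / ‖cay ζ + I‖ = ‖ζ‖ := by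
  have h1 := one_sub_ne h
  have e1 : cay ζ - I = (2 * I / (1 - ζ)) * ζ := by
    unfold cay; field_simp; ring
  have e2 : cay ζ + I = 2 * I / (1 - ζ) := by
    unfold cay; field_simp; ring
  have h4 : ‖(2 * I / (1 - ζ))‖ ≠ 0 := by
    rw [norm_ne_zero_iff]
    exact div_ne_zero (mul_ne_zero two_ne_zero Complex.I_ne_zero) h1
  rw [e1, e2, norm_mul]
  field_simp

/-- Distance to `i` in terms of the Cayley coordinate. -/
theorem dist_I_le_iff {τ : UpperHalfPlane} {ζ : ℂ} (h : ‖ζ‖ < 1) (hτ : (τ : ℂ) = cay ζ) (r : ℝ) :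
    dist τ UpperHalfPlane.I ≤ r ↔ ‖ζ‖ ≤ Real.tanh (r / 2) := by
  have h1 : Real.tanh (dist τ UpperHalfPlane.I / 2) = ‖ζ‖ := by
    rw [UpperHalfPlane.tanh_half_dist, hτ, UpperHalfPlane.coe_I, Complex.dist_eq, Complex.dist_eq,
      Complex.conj_I, sub_neg_eq_add, norm_cay_sub h]
  have h2 : dist τ UpperHalfPlane.I / 2 = Real.artanh ‖ζ‖ := by
    rw [← h1, Real.artanh_tanh]
  have h3 : r / 2 = Real.artanh (Real.tanh (r / 2)) := (Real.artanh_tanh _).symm
  have h4 : ‖ζ‖ ∈ Set.Ioo (-1 : ℝ) 1 := ⟨by linarith [norm_nonneg ζ], h⟩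
  have h5 : Real.tanh (r / 2) ∈ Set.Ioo (-1 : ℝ) 1 := ⟨Real.neg_one_lt_tanh _, Real.tanh_lt_one _⟩
  constructor
  · intro hd
    have : Real.artanh ‖ζ‖ ≤ Real.artanh (Real.tanh (r / 2)) := by
      rw [← h2, ← h3]; linarith
    exact (Real.artanh_le_artanh_iff h4 h5).1 this
  · intro hd
    have := (Real.artanh_le_artanh_iff h4 h5).2 hd
    rw [← h2, ← h3] at this
    linarith

/-! ### Balls in the hyperbolic plane -/

theorem closedBall_center_unique {x y : ℂ} {s t : ℝ} (hs : 0 ≤ s) (ht : 0 ≤ t)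
    (h : Metric.closedBall x s = Metric.closedBall y t) : x = y := by
  by_contra hne
  have key : ∀ (x y : ℂ) (s t : ℝ), 0 ≤ s → 0 ≤ t → x ≠ y →
      Metric.closedBall x s ⊆ Metric.closedBall y t → ‖x - y‖ + s ≤ t := by
    intro x y s t hs ht hxy hsub
    have hd : 0 < ‖x - y‖ := norm_pos_iff.2 (sub_ne_zero.2 hxy)
    have hm : x + ((s / ‖x - y‖ : ℝ) : ℂ) * (x - y) ∈ Metric.closedBall x s := by
      rw [Metric.mem_closedBall, Complex.dist_eq, add_sub_cancel_left, norm_mul,
        Complex.norm_real, Real.norm_eq_abs, abs_of_nonneg (by positivity)]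
      rw [div_mul_cancel₀ _ hd.ne']
    have := hsub hm
    rw [Metric.mem_closedBall, Complex.dist_eq] at this
    have e : x + ((s / ‖x - y‖ : ℝ) : ℂ) * (x - y) - y
        = ((1 + s / ‖x - y‖ : ℝ) : ℂ) * (x - y) := by
      push_cast; ring
    rw [e, norm_mul, Complex.norm_real, Real.norm_eq_abs, abs_of_nonneg (by positivity), add_mul,
      one_mul, div_mul_cancel₀ _ hd.ne'] at this
    exact this
  have h1 := key x y s t hs ht hne h.le
  have h2 := key y x t s ht hs (Ne.symm hne) h.ge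
  have h3 : 0 < ‖x - y‖ := norm_pos_iff.2 (sub_ne_zero.2 hne)
  have h4 : 0 < ‖y - x‖ := norm_pos_iff.2 (sub_ne_zero.2 (Ne.symm hne))
  linarith

theorem hyp_center_unique {c c' : UpperHalfPlane} {r : ℝ} (hr : 0 ≤ r)
    (h : Metric.closedBall c r = Metric.closedBall c' r) : c = c' := by
  have h1 := UpperHalfPlane.image_coe_closedBall c r
  rw [h, UpperHalfPlane.image_coe_closedBall c' r] at h1
  have hs : 0 ≤ Real.sinh r := Real.sinh_nonneg_iff.2 hr
  have h2 := closedBall_center_unique (mul_nonneg c'.im_pos.le hs) (mul_nonneg c.im_pos.le hs) h1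
  have h3 : c'.center r = c.center r := UpperHalfPlane.ext h2
  have h4 : (c'.center r).re = (c.center r).re := by rw [h3]
  have h5 : (c'.center r).im = (c.center r).im := by rw [h3]
  rw [UpperHalfPlane.center_re, UpperHalfPlane.center_re] at h4
  rw [UpperHalfPlane.center_im, UpperHalfPlane.center_im] at h5
  have h6 : c'.im = c.im := mul_right_cancel₀ (Real.cosh_pos r).ne' h5
  exact UpperHalfPlane.ext_re_im h4.symm h6.symm

/-- The isometry `τ ↦ -1/τ`. -/
def sS (τ : UpperHalfPlane) : UpperHalfPlane := ⟨(-(τ : ℂ))⁻¹, UpperHalfPlane.im_inv_neg_coe_pos τ⟩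

@[simp] theorem coe_sS (τ : UpperHalfPlane) : ((sS τ : UpperHalfPlane) : ℂ) = (-(τ : ℂ))⁻¹ := rfl

theorem sS_sS (τ : UpperHalfPlane) : sS (sS τ) = τ := by
  apply UpperHalfPlane.ext
  rw [coe_sS, coe_sS]
  have := UpperHalfPlane.ne_zero τ
  field_simp

theorem sS_isometry (x y : UpperHalfPlane) : dist (sS x) (sS y) = dist x y := by
  have h : sS = fun z => (ModularGroup.S • z : UpperHalfPlane) := by
    funext z
    rw [UpperHalfPlane.modular_S_smul]
    rfl
  have hi : Isometry (fun z => (ModularGroup.S • z : UpperHalfPlane)) := by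
    have h1 := isometry_smul UpperHalfPlane
      ((Matrix.SpecialLinearGroup.map (Int.castRingHom ℝ)) ModularGroup.S)
    exact h1
  rw [h]
  exact hi.dist_eq x y

/-! ### Elementary facts on `ψ` -/

theorem kap_pos : 0 < kap := Real.sqrt_pos.2 (by norm_num)

theorem kap_lt_one : kap < 1 := by
  unfold kap
  rw [Real.sqrt_lt' one_pos]; norm_num

theorem psi_zero (q : L1 ℕ) : psi q 0 = 0 := by
  unfold psi
  simp

theorem psi_neg (q : L1 ℕ) (z : ℂ) : psi q (-z) = -psi q z := by
  unfold psi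
  rw [← tsum_neg]
  refine tsum_congr fun j => ?_
  have : (-z) ^ (4 * j + 1) = -(z ^ (4 * j + 1)) := by
    rw [Odd.neg_pow]
    exact ⟨2 * j, by ring⟩
  rw [this]
  ring

theorem dpsi_zero (q : L1 ℕ) : dpsi q 0 = q 0 := by
  unfold dpsi
  rw [tsum_eq_single 0]
  · simp
  · intro j hj
    rw [zero_pow (by omega), mul_zero]

/-- Vanishing power series have vanishing coefficients. -/
theorem coeff_zero_of_small (a : L1 ℕ) (δ : ℝ) (hδ : 0 < δ) (hδ1 : δ ≤ 1)
    (h : ∀ x : ℝ, 0 < x → x < δ → ∑' j : ℕ, a j * x ^ j = 0) : ∀ j, a j = 0 := by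
  intro j
  induction j using Nat.strong_induction_on with
  | _ j ih =>
    by_contra hne
    have hs : ∀ k, Summable fun i => ‖a (i + k)‖ := fun k =>
      (summable_nat_add_iff k).2 (summable_norm_coe a)
    set C : ℝ := ∑' i, ‖a (i + (j + 1))‖ with hC
    have hC0 : 0 ≤ C := tsum_nonneg fun i => norm_nonneg _
    have key : ∀ x : ℝ, 0 < x → x < δ → ‖a j‖ ≤ x * C := by
      intro x hx hxδ
      have hx1 : x < 1 := lt_of_lt_of_le hxδ hδ1
      have hsum : Summable fun i => a i * x ^ i := by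
        refine Summable.of_norm_bounded (summable_norm_coe a) fun i => ?_
        rw [norm_mul, norm_pow, Real.norm_of_nonneg hx.le]
        exact mul_le_of_le_one_right (norm_nonneg _) (pow_le_one₀ hx.le hx1.le)
      have h1 := h x hx hxδ
      rw [← hsum.sum_add_tsum_nat_add (j + 1), Finset.sum_range_succ,
        Finset.sum_eq_zero (fun i hi => by rw [ih i (Finset.mem_range.1 hi), zero_mul]),
        zero_add] at h1
      have h2 : ∑' i, a (i + (j + 1)) * x ^ (i + (j + 1))
          = (x ^ j * x) * ∑' i, a (i + (j + 1)) * x ^ i := by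
        rw [← tsum_mul_left]
        refine tsum_congr fun i => ?_
        rw [pow_add, pow_succ]; ring
      rw [h2] at h1
      have h3 : a j = -(x * ∑' i, a (i + (j + 1)) * x ^ i) := by
        have hxj : x ^ j ≠ 0 := (pow_pos hx j).ne'
        have : x ^ j * (a j + x * ∑' i, a (i + (j + 1)) * x ^ i) = 0 := by
          linear_combination h1
        rcases mul_eq_zero.1 this with h4 | h4
        · exact absurd h4 hxj
        · linarith
      rw [h3, norm_neg, norm_mul, Real.norm_of_nonneg hx.le]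
      refine mul_le_mul_of_nonneg_left ?_ hx.le
      refine tsum_of_norm_bounded (hs (j + 1)).hasSum fun i => ?_
      rw [norm_mul, norm_pow, Real.norm_of_nonneg hx.le]
      exact mul_le_of_le_one_right (norm_nonneg _) (pow_le_one₀ hx.le hx1.le)
    have hpos : 0 < ‖a j‖ := norm_pos_iff.2 hne
    have hx := key (min (δ / 2) (‖a j‖ / (2 * (C + 1)))) (by positivity)
      (lt_of_le_of_lt (min_le_left _ _) (by linarith))
    have h5 : min (δ / 2) (‖a j‖ / (2 * (C + 1))) * C ≤ ‖a j‖ / (2 * (C + 1)) * C :=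
      mul_le_mul_of_nonneg_right (min_le_right _ _) hC0
    have h6 : ‖a j‖ / (2 * (C + 1)) * C ≤ ‖a j‖ / 2 := by
      rw [div_mul_eq_mul_div, div_le_div_iff₀ (by positivity) (by norm_num)]
      nlinarith
    linarith

/-- Everything that is needed from the geometry module. -/
theorem ball_linear_aux (q : L1 ℕ) (h00 : q 0 ≠ 0)
    (hd : ∀ z : ℂ, ‖z‖ < 1 → HasDerivAt (psi q) (dpsi q z) z)
    (hinj : Set.InjOn (psi q) (Metric.ball 0 1))
    (hlt : ∀ z : ℂ, ‖z‖ ≤ 1 → ‖psi q z‖ < 1)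
    (hcl : closure (dom q) =
      {τ : UpperHalfPlane | ∃ z ∈ Metric.closedBall (0 : ℂ) kap, (τ : ℂ) = cay (psi q z)})
    (c : UpperHalfPlane) (r : ℝ) (h : closure (dom q) = Metric.closedBall c r) :
    q = (q 0) • (e 0 : L1 ℕ) := by
  have hk0 := kap_pos
  have hk1 := kap_lt_one
  rw [h] at hcl
  -- the ball is symmetric
  have hmem : ∀ τ : UpperHalfPlane, τ ∈ Metric.closedBall c r ↔
      ∃ z ∈ Metric.closedBall (0 : ℂ) kap, (τ : ℂ) = cay (psi q z) := by
    intro τ; rw [hcl]; rfl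
  have hsym : ∀ τ : UpperHalfPlane, τ ∈ Metric.closedBall c r → sS τ ∈ Metric.closedBall c r := by
    intro τ hτ
    obtain ⟨z, hz, hz2⟩ := (hmem τ).1 hτ
    refine (hmem _).2 ⟨-z, by simpa using hz, ?_⟩
    have hz1 : ‖z‖ ≤ 1 := by
      have : ‖z‖ ≤ kap := by simpa using hz
      linarith
    rw [coe_sS, hz2, psi_neg, cay_neg (hlt z hz1)]
  have hI : UpperHalfPlane.I ∈ Metric.closedBall c r := by
    refine (hmem _).2 ⟨0, by simpa using hk0.le, ?_⟩
    rw [psi_zero, UpperHalfPlane.coe_I]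
    unfold cay; simp
  have hr : 0 ≤ r := dist_nonneg.trans (Metric.mem_closedBall.1 hI)
  have hcc : c = sS c := by
    apply hyp_center_unique hr
    ext τ
    have e1 : τ ∈ Metric.closedBall (sS c) r ↔ sS τ ∈ Metric.closedBall c r := by
      rw [Metric.mem_closedBall, Metric.mem_closedBall, ← sS_isometry τ (sS c), sS_sS]
    rw [e1]
    constructor
    · exact hsym τ
    · intro h2
      have := hsym _ h2
      rwa [sS_sS] at this
  have hc : c = UpperHalfPlane.I := by
    have h1 : (c : ℂ) = (-(c : ℂ))⁻¹ := by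
      conv_lhs => rw [hcc]
      rfl
    have hne := UpperHalfPlane.ne_zero c
    have h2 : (c : ℂ) * c = -1 := by
      have h3 : (c : ℂ) * (-(c : ℂ)) = 1 := by
        calc (c : ℂ) * (-(c : ℂ)) = (-(c : ℂ))⁻¹ * (-(c : ℂ)) := by rw [← h1]
          _ = 1 := inv_mul_cancel₀ (neg_ne_zero.2 hne)
      linear_combination -h3
    have h3 : ((c : ℂ) - I) * (c + I) = 0 := by
      linear_combination h2 - Complex.I_mul_I
    apply UpperHalfPlane.ext
    rw [UpperHalfPlane.coe_I]
    rcases mul_eq_zero.1 h3 with h4 | h4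
    · exact sub_eq_zero.1 h4
    · have h5 : (c : ℂ) = -I := eq_neg_of_add_eq_zero_left h4
      have h6 := c.im_pos
      have h7 : c.im = -1 := by
        rw [← UpperHalfPlane.coe_im, h5]; simp
      linarith
  subst hc
  set R : ℝ := Real.tanh (r / 2) with hR
  have hRlt : R < 1 := Real.tanh_lt_one _
  have hB1 : ∀ z : ℂ, ‖z‖ ≤ kap → ‖psi q z‖ ≤ R := by
    intro z hz
    have hz1 : ‖z‖ ≤ 1 := by linarith
    have hl := hlt z hz1
    have h1 : (⟨cay (psi q z), cay_im hl⟩ : UpperHalfPlane) ∈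
        Metric.closedBall UpperHalfPlane.I r :=
      (hmem _).2 ⟨z, by simpa using hz, rfl⟩
    exact (dist_I_le_iff hl rfl r).1 (Metric.mem_closedBall.1 h1)
  have hB2 : ∀ ζ : ℂ, ‖ζ‖ ≤ R → ∃ z : ℂ, ‖z‖ ≤ kap ∧ psi q z = ζ := by
    intro ζ hζ
    have hl : ‖ζ‖ < 1 := lt_of_le_of_lt hζ hRlt
    have h1 : (⟨cay ζ, cay_im hl⟩ : UpperHalfPlane) ∈ Metric.closedBall UpperHalfPlane.I r :=
      Metric.mem_closedBall.2 ((dist_I_le_iff hl rfl r).2 hζ)
    obtain ⟨z, hz, hz2⟩ := (hmem _).1 h1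
    have hz3 : ‖z‖ ≤ kap := by simpa using hz
    refine ⟨z, hz3, ?_⟩
    exact (cay_inj hl (hlt z (by linarith)) hz2).symm
  -- boundary points go to boundary points
  have hC : ∀ z : ℂ, ‖z‖ = kap → ‖psi q z‖ = R := by
    intro z hz
    by_contra hne
    have hlt' : ‖psi q z‖ < R := lt_of_le_of_ne (hB1 z hz.le) hne
    have hz1 : ‖z‖ < 1 := by linarith
    have hcont : ContinuousAt (psi q) z := (hd z hz1).continuousAt
    have hev : ∀ᶠ y in 𝓝 z, ‖psi q y‖ < R ∧ ‖y‖ < 1 :=
      ((hcont.norm.eventually_lt continuousAt_const hlt').and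
        (continuous_norm.continuousAt.eventually_lt continuousAt_const hz1))
    have htend : Filter.Tendsto (fun s : ℝ => ((1 + s : ℝ) : ℂ) * z) (𝓝[>] 0) (𝓝 z) := by
      have : Filter.Tendsto (fun s : ℝ => ((1 + s : ℝ) : ℂ) * z) (𝓝 0)
          (𝓝 (((1 + 0 : ℝ) : ℂ) * z)) := by
        apply Continuous.tendsto
        fun_prop
      simp only [add_zero, Complex.ofReal_one, one_mul] at this
      exact this.mono_left nhdsWithin_le_nhds
    obtain ⟨s, ⟨hs1, hs2⟩, hs3⟩ := ((htend.eventually hev).and self_mem_nhdsWithin).exists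
    have hs3 : 0 < s := hs3
    obtain ⟨y, hy1, hy2⟩ := hB2 _ hs1.le
    have hyb : y ∈ Metric.ball (0 : ℂ) 1 := by
      rw [mem_ball_zero_iff]; linarith
    have hyb2 : ((1 + s : ℝ) : ℂ) * z ∈ Metric.ball (0 : ℂ) 1 := by
      rw [mem_ball_zero_iff]; exact hs2
    have hy3 := hinj hyb hyb2 hy2
    rw [hy3, norm_mul, Complex.norm_real, Real.norm_of_nonneg (by linarith), hz] at hy1
    nlinarith
  -- the maximum principle
  set f : ℂ → ℂ := dslope (psi q) 0 with hf
  have hfz : ∀ z, z * f z = psi q z := by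
    intro z
    have := sub_smul_dslope (psi q) 0 z
    rw [psi_zero, sub_zero, sub_zero, smul_eq_mul] at this
    exact this
  have hf0 : f 0 = q 0 := by
    rw [hf, dslope_same, (hd 0 (by simp)).deriv, dpsi_zero]
  have hfd : DifferentiableOn ℂ f (Metric.ball 0 1) := by
    rw [hf, Complex.differentiableOn_dslope (Metric.ball_mem_nhds _ one_pos)]
    intro z hz
    exact (hd z (by simpa using hz)).differentiableAt.differentiableWithinAt
  have hfne : ∀ z ∈ Metric.ball (0 : ℂ) 1, f z ≠ 0 := by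
    intro z hz h0
    by_cases hz0 : z = 0
    · subst hz0
      rw [hf0] at h0
      exact h00 (by exact_mod_cast h0)
    · have h1 : psi q z = psi q 0 := by
        rw [← hfz z, h0, mul_zero, psi_zero]
      exact hz0 (hinj hz (Metric.mem_ball_self one_pos) h1)
  have hsub : closure (Metric.ball (0 : ℂ) kap) ⊆ Metric.ball 0 1 := by
    rw [closure_ball _ hk0.ne']
    exact Metric.closedBall_subset_ball hk1
  have hfr : ∀ z ∈ frontier (Metric.ball (0 : ℂ) kap), ‖f z‖ = R / kap := by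
    intro z hz
    rw [frontier_ball _ hk0.ne', mem_sphere_zero_iff_norm] at hz
    have h1 := hC z hz
    rw [← hfz z, norm_mul, hz] at h1
    rw [eq_div_iff hk0.ne', mul_comm]
    exact h1
  have h0cl : (0 : ℂ) ∈ closure (Metric.ball (0 : ℂ) kap) :=
    subset_closure (Metric.mem_ball_self hk0)
  have hup : ∀ z ∈ closure (Metric.ball (0 : ℂ) kap), ‖f z‖ ≤ R / kap := fun z hz =>
    Complex.norm_le_of_forall_mem_frontier_norm_le Metric.isBounded_ball
      (DifferentiableOn.diffContOnCl (hfd.mono hsub)) (fun w hw => (hfr w hw).le) hz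
  have hdn : ‖(f 0)⁻¹‖ ≤ (R / kap)⁻¹ := by
    have hdinv : DifferentiableOn ℂ (fun z => (f z)⁻¹) (closure (Metric.ball (0 : ℂ) kap)) :=
      (hfd.mono hsub).inv (fun z hz => hfne z (hsub hz))
    refine Complex.norm_le_of_forall_mem_frontier_norm_le (f := fun z => (f z)⁻¹)
      Metric.isBounded_ball (DifferentiableOn.diffContOnCl hdinv) (fun w hw => ?_) h0cl
    rw [norm_inv, hfr w hw]
  have hf0ne : f 0 ≠ 0 := hfne 0 (Metric.mem_ball_self one_pos)
  have hRk : 0 < R / kap := lt_of_lt_of_le (norm_pos_iff.2 hf0ne) (hup 0 h0cl)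
  have hf0n : ‖f 0‖ = R / kap := by
    refine le_antisymm (hup 0 h0cl) ?_
    rw [norm_inv] at hdn
    exact (inv_le_inv₀ (norm_pos_iff.2 hf0ne) hRk).1 hdn
  have hconst : Set.EqOn f (Function.const ℂ (f 0)) (Metric.ball 0 kap) := by
    refine Complex.eqOn_of_isPreconnected_of_isMaxOn_norm (convex_ball _ _).isPreconnected
      Metric.isOpen_ball (hfd.mono (subset_closure.trans hsub)) (Metric.mem_ball_self hk0) ?_
    intro z hz
    show ‖f z‖ ≤ ‖f 0‖
    rw [hf0n]
    exact hup z (subset_closure hz)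
  have hlin : ∀ z : ℂ, ‖z‖ < kap → psi q z = z * q 0 := by
    intro z hz
    rw [← hfz z, hconst (by simpa using hz), Function.const_apply, hf0]
  -- coefficients
  have hder : ∀ z : ℂ, ‖z‖ < kap → dpsi q z = q 0 := by
    intro z hz
    have h1 := hd z (by linarith)
    have h2 : HasDerivAt (fun z : ℂ => z * (q 0 : ℂ)) (1 * (q 0 : ℂ)) z :=
      (hasDerivAt_id z).mul_const _
    have h3 : psi q =ᶠ[𝓝 z] fun z => z * (q 0 : ℂ) := by
      have : ∀ᶠ y in 𝓝 z, ‖y‖ < kap :=
        continuous_norm.continuousAt.eventually_lt continuousAt_const hz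
      filter_upwards [this] with y hy using hlin y hy
    have h4 := h2.congr_of_eventuallyEq h3
    rw [one_mul] at h4
    exact h1.unique h4
  set a : L1 ℕ := q - (q 0) • (e 0 : L1 ℕ) with ha
  have ha0 : ∀ j, a j = 0 := by
    refine coeff_zero_of_small a (kap ^ 4) (by positivity) (pow_le_one₀ hk0.le hk1.le) ?_
    intro x hx hxk
    set z : ℝ := x ^ (1 / 4 : ℝ) with hz
    have hz0 : 0 < z := Real.rpow_pos_of_pos hx _
    have hz4 : z ^ 4 = x := by
      rw [hz, ← Real.rpow_natCast, ← Real.rpow_mul hx.le]; norm_num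
    have hzk : z < kap := by
      rw [← hz4] at hxk
      exact lt_of_pow_lt_pow_left₀ 4 hk0.le hxk
    have h1 := hder (z : ℂ) (by rw [Complex.norm_real, Real.norm_of_nonneg hz0.le]; exact hzk)
    have h2 : dpsi q z = ((∑' j : ℕ, q j * x ^ j : ℝ) : ℂ) := by
      unfold dpsi
      rw [Complex.ofReal_tsum]
      refine tsum_congr fun j => ?_
      rw [pow_mul, ← hz4]; push_cast; ring
    rw [h2] at h1
    have h3 : ∑' j : ℕ, q j * x ^ j = q 0 := by exact_mod_cast h1
    have hx1 : x < 1 := lt_of_lt_of_le hxk (pow_le_one₀ hk0.le hk1.le)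
    have hsum : Summable fun i => q i * x ^ i := by
      refine Summable.of_norm_bounded (summable_norm_coe q) fun i => ?_
      rw [norm_mul, norm_pow, Real.norm_of_nonneg hx.le]
      exact mul_le_of_le_one_right (norm_nonneg _) (pow_le_one₀ hx.le hx1.le)
    have h4 : ∀ j, a j * x ^ j = q j * x ^ j - (if j = 0 then q 0 else 0) := by
      intro j
      rw [ha, lp.coeFn_sub, Pi.sub_apply, lp.coeFn_smul, Pi.smul_apply, e_apply, smul_eq_mul]
      by_cases hj : j = 0
      · subst hj; simp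
      · simp [hj]
    rw [tsum_congr h4, (hsum.tsum_sub (hasSum_ite_eq 0 (q 0)).summable), h3, tsum_ite_eq, sub_self]
  have : a = 0 := lp.ext (funext ha0)
  rw [ha] at this
  exact sub_eq_zero.1 this

end Pool.Agent.Sch.BallAux
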