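import Pool.Agent.Sch.Geom
import Pool.Agent.Sch.Ball

/-!
# M8b: final form of `ball_linear`
-/

noncomputable section

namespace Pool.Agent.Sch

/-- If the closure of the domain is a hyperbolic ball then `ψ` is linear. -/
theorem ball_linear (q : L1 ℕ) (ρ : ℝ) (h1 : 3 / 5 < ρ ^ 2) (h2 : ρ ^ 2 < 4 / 5) (h0 : 0 < ρ)
    (hq : ‖q - ρ • (e 0 : L1 ℕ)‖ < 1 / 100) (c : UpperHalfPlane) (r : ℝ)
    (h : closure (dom q) = Metric.closedBall c r) : q = (q 0) • (e 0 : L1 ℕ) := by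
  have hρ1 : 7 / 10 < ρ := by nlinarith
  have hρ2 : ρ < 9 / 10 := by nlinarith
  have hq0 : q 0 ≠ 0 := by
    intro h3
    have h4 := norm_coe_le (q - ρ • (e 0 : L1 ℕ)) 0
    rw [lp.coeFn_sub, Pi.sub_apply, lp.coeFn_smul, Pi.smul_apply, e_self, h3, smul_eq_mul, mul_one,
      zero_sub, norm_neg, Real.norm_of_nonneg h0.le] at h4
    linarith
  exact BallAux.ball_linear_aux q hq0 (hasDerivAt_psi q) (psi_inj q ρ h0 (by linarith))
    (norm_psi_lt q ρ h0 (by linarith)) (dom_geometry q ρ h1 h2 h0 hq).2.2.2.1 c r h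

end Pool.Agent.Sch
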