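import Pool.Agent.Sch.Defs

/-!
# M2a: the numerical signs `Z(1/3) > 0` and `Z(2/5) < 0`
-/

open Finset

noncomputable section

namespace Pool.Agent.Sch

private theorem cf_zero' (α : ℝ) : cf 0 α 0 = 1 := by rw [cf]

private theorem cf_one' (α : ℝ) : cf 0 α 1 = -α := by rw [cf]; simp

private theorem cf_rec' (α : ℝ) (n : ℕ) : cf 0 α (n + 2) =
    ((2 * ((n : ℝ) + 1) ^ 2 - α) * cf 0 α (n + 1) - (n : ℝ) ^ 2 * cf 0 α n) /
      ((n : ℝ) + 2) ^ 2 := by
  rw [cf]
  push_cast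
  rw [add_zero, add_zero, add_zero]
  ring

/-- partial sums of the coefficients -/
private def Sf (α : ℝ) (n : ℕ) : ℝ := ∑ m ∈ range (n + 1), cf 0 α m

private theorem Sf_succ (α : ℝ) (n : ℕ) : Sf α (n + 1) = Sf α n + cf 0 α (n + 1) := by
  rw [Sf, Finset.sum_range_succ, Sf]

private theorem diff_eq (α : ℝ) (n : ℕ) :
    ((n : ℝ) + 1) ^ 2 * cf 0 α (n + 1) - (n : ℝ) ^ 2 * cf 0 α n = -α * Sf α n := by
  induction n with
  | zero => rw [Sf]; simp [cf_zero', cf_one']
  | succ n ih =>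
    rw [Sf_succ, cf_rec']
    have h : ((n : ℝ) + 2) ^ 2 ≠ 0 := by positivity
    push_cast
    have e : ((n : ℝ) + 1 + 1) ^ 2 = ((n : ℝ) + 2) ^ 2 := by ring
    rw [e, mul_div_cancel₀ _ h]
    linarith

private theorem conv_eq (α : ℝ) (n : ℕ) :
    ((n : ℝ) + 1) ^ 2 * cf 0 α (n + 1) = -α * ∑ j ∈ range (n + 1), Sf α j := by
  induction n with
  | zero => have := diff_eq α 0; simpa using this
  | succ n ih =>
    rw [Finset.sum_range_succ, mul_add, ← ih, ← diff_eq α (n + 1)]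
    push_cast
    ring

private theorem geom_bound (n : ℕ) : ∑ m ∈ range (n + 1), (3 / 2 : ℝ) ^ m ≤ 3 * (3 / 2) ^ n := by
  rw [geom_sum_eq (by norm_num)]
  rw [div_le_iff₀ (by norm_num), pow_succ]
  nlinarith [show (0 : ℝ) < (3 / 2) ^ n by positivity]

private theorem coeff_bound (α L : ℝ) (hα : 0 ≤ α) (hα' : α ≤ 26) (hL : 0 ≤ L)
    (h : ∀ m ≤ 12, |cf 0 α m| ≤ L * (3 / 2) ^ m) (m : ℕ) : |cf 0 α m| ≤ L * (3 / 2) ^ m := by
  induction m using Nat.strong_induction_on with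
  | _ m ih =>
    rcases Nat.lt_or_ge m 13 with hm | hm
    · exact h m (by omega)
    · obtain ⟨n, rfl⟩ : ∃ n, m = n + 1 := ⟨m - 1, by omega⟩
      have hS : ∀ j ≤ n, |Sf α j| ≤ 3 * L * (3 / 2) ^ j := by
        intro j hj
        rw [Sf]
        calc |∑ m ∈ range (j + 1), cf 0 α m| ≤ ∑ m ∈ range (j + 1), |cf 0 α m| :=
              Finset.abs_sum_le_sum_abs _ _
          _ ≤ ∑ m ∈ range (j + 1), L * (3 / 2) ^ m := Finset.sum_le_sum fun i hi =>
              ih i (by have := Finset.mem_range.1 hi; omega)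
          _ = L * ∑ m ∈ range (j + 1), (3 / 2 : ℝ) ^ m := by rw [Finset.mul_sum]
          _ ≤ L * (3 * (3 / 2) ^ j) := mul_le_mul_of_nonneg_left (geom_bound j) hL
          _ = 3 * L * (3 / 2) ^ j := by ring
      have hD : |∑ j ∈ range (n + 1), Sf α j| ≤ 9 * L * (3 / 2) ^ n := by
        calc |∑ j ∈ range (n + 1), Sf α j| ≤ ∑ j ∈ range (n + 1), |Sf α j| :=
              Finset.abs_sum_le_sum_abs _ _
          _ ≤ ∑ j ∈ range (n + 1), 3 * L * (3 / 2) ^ j := Finset.sum_le_sum fun i hi =>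
              hS i (by have := Finset.mem_range.1 hi; omega)
          _ = 3 * L * ∑ m ∈ range (n + 1), (3 / 2 : ℝ) ^ m := by rw [Finset.mul_sum]
          _ ≤ 3 * L * (3 * (3 / 2) ^ n) := mul_le_mul_of_nonneg_left (geom_bound n) (by positivity)
          _ = 9 * L * (3 / 2) ^ n := by ring
      have hn : (12 : ℝ) ≤ n := by exact_mod_cast (by omega : 12 ≤ n)
      have hc := conv_eq α n
      have habs : ((n : ℝ) + 1) ^ 2 * |cf 0 α (n + 1)| ≤ 26 * (9 * L * (3 / 2) ^ n) := by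
        have e : ((n : ℝ) + 1) ^ 2 * |cf 0 α (n + 1)| = |((n : ℝ) + 1) ^ 2 * cf 0 α (n + 1)| := by
          rw [abs_mul, abs_of_nonneg (by positivity : (0 : ℝ) ≤ ((n : ℝ) + 1) ^ 2)]
        rw [e, hc, abs_mul, abs_neg, abs_of_nonneg hα]
        exact mul_le_mul hα' hD (abs_nonneg _) (by norm_num)
      have h169 : (169 : ℝ) ≤ ((n : ℝ) + 1) ^ 2 := by nlinarith
      have hp : 0 ≤ L * (3 / 2) ^ n := by positivity
      rw [pow_succ]
      by_contra hcon
      rw [not_le] at hcon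
      have h1 : 169 * (L * ((3 / 2) ^ n * (3 / 2))) < ((n : ℝ) + 1) ^ 2 * |cf 0 α (n + 1)| := by
        rcases eq_or_lt_of_le hp with h0 | h0
        · have : L * ((3 / 2 : ℝ) ^ n * (3 / 2)) = 0 := by
            rw [← mul_assoc, ← h0, zero_mul]
          rw [this] at hcon ⊢
          rw [mul_zero]
          have : (0 : ℝ) < ((n : ℝ) + 1) ^ 2 := by positivity
          exact mul_pos this hcon
        · have h2 : 0 ≤ L * ((3 / 2 : ℝ) ^ n * (3 / 2)) := by positivity
          calc 169 * (L * ((3 / 2) ^ n * (3 / 2))) ≤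
                ((n : ℝ) + 1) ^ 2 * (L * ((3 / 2) ^ n * (3 / 2))) :=
                mul_le_mul_of_nonneg_right h169 h2
            _ < ((n : ℝ) + 1) ^ 2 * |cf 0 α (n + 1)| :=
                mul_lt_mul_of_pos_left hcon (by positivity)
      nlinarith

/-- Tail estimate for the series of `dg 0 α t`. -/
private theorem dg_approx (α t L x : ℝ) (ht : 0 ≤ t) (_hL : 0 ≤ L) (hx : x = 3 / 2 * t) (hx1 : x < 1)
    (h : ∀ m, |cf 0 α m| ≤ L * (3 / 2) ^ m) (N : ℕ) :
    |dg 0 α t - ∑ n ∈ range N, ((n : ℝ) + 1) * cf 0 α (n + 1) * t ^ n| ≤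
      3 / 2 * L * (x ^ N * (x / (1 - x) ^ 2 + (N + 1) / (1 - x))) := by
  have hx0 : 0 ≤ x := by rw [hx]; positivity
  have hxn : ‖x‖ < 1 := by rw [Real.norm_eq_abs, abs_of_nonneg hx0]; exact hx1
  -- the majorant
  have hgeo : HasSum (fun n : ℕ => ((n : ℝ) + N + 1) * x ^ (n + N))
      (x ^ N * (x / (1 - x) ^ 2 + (N + 1) / (1 - x))) := by
    have h1 := hasSum_coe_mul_geometric_of_norm_lt_one hxn
    have h2 := (hasSum_geometric_of_norm_lt_one hxn).mul_left ((N : ℝ) + 1)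
    have h3 := (h1.add h2).mul_left (x ^ N)
    have e : (fun n : ℕ => ((n : ℝ) + N + 1) * x ^ (n + N)) =
        fun n : ℕ => x ^ N * ((n : ℝ) * x ^ n + ((N : ℝ) + 1) * x ^ n) := by
      funext n; rw [pow_add]; ring
    rw [e, div_eq_mul_inv ((N : ℝ) + 1)]
    exact h3
  have hterm : ∀ n : ℕ, ‖((n : ℝ) + 1) * cf 0 α (n + 1) * t ^ n‖ ≤
      3 / 2 * L * (((n : ℝ) + 1) * x ^ n) := by
    intro n
    rw [Real.norm_eq_abs, abs_mul, abs_mul, abs_of_nonneg (by positivity : (0 : ℝ) ≤ (n : ℝ) + 1),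
      abs_of_nonneg (by positivity : (0 : ℝ) ≤ t ^ n)]
    calc ((n : ℝ) + 1) * |cf 0 α (n + 1)| * t ^ n ≤
          ((n : ℝ) + 1) * (L * (3 / 2) ^ (n + 1)) * t ^ n := by
          gcongr
          exact h (n + 1)
      _ = 3 / 2 * L * (((n : ℝ) + 1) * x ^ n) := by rw [hx, mul_pow, pow_succ]; ring
  have hsumm : Summable fun n : ℕ => ((n : ℝ) + 1) * cf 0 α (n + 1) * t ^ n := by
    refine Summable.of_norm_bounded ?_ hterm
    have h1 := hasSum_coe_mul_geometric_of_norm_lt_one hxn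
    have h2 := hasSum_geometric_of_norm_lt_one hxn
    have h3 := ((h1.add h2).mul_left (3 / 2 * L)).summable
    refine h3.congr fun n => ?_
    ring
  have hsplit := hsumm.sum_add_tsum_nat_add N
  have htail : dg 0 α t - ∑ n ∈ range N, ((n : ℝ) + 1) * cf 0 α (n + 1) * t ^ n =
      ∑' n : ℕ, (((n + N : ℕ) : ℝ) + 1) * cf 0 α (n + N + 1) * t ^ (n + N) := by
    rw [dg, ← hsplit]; ring
  rw [htail, ← Real.norm_eq_abs]
  refine tsum_of_norm_bounded (hgeo.mul_left (3 / 2 * L)) fun n => ?_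
  have := hterm (n + N)
  push_cast at this ⊢
  exact this

private theorem cp_0 : cf 0 (26 : ℝ) 0 = 1 := cf_zero' _

private theorem cp_1 : cf 0 (26 : ℝ) 1 = (-26) := cf_one' _

private theorem cp_2 : cf 0 (26 : ℝ) 2 = 156 := by
  refine (cf_rec' _ 0).trans ?_
  norm_num [cp_1, cp_0]

private theorem cp_3 : cf 0 (26 : ℝ) 3 = (-2782 / 9) := by
  refine (cf_rec' _ 1).trans ?_
  norm_num [cp_2, cp_1]

private theorem cp_4 : cf 0 (26 : ℝ) 4 = (1040 / 9) := by
  refine (cf_rec' _ 2).trans ?_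
  norm_num [cp_3, cp_2]

private theorem cp_5 : cf 0 (26 : ℝ) 5 = (10426 / 75) := by
  refine (cf_rec' _ 3).trans ?_
  norm_num [cp_4, cp_3]

private theorem cp_6 : cf 0 (26 : ℝ) 6 = (83668 / 2025) := by
  refine (cf_rec' _ 4).trans ?_
  norm_num [cp_5, cp_4]

private theorem cp_7 : cf 0 (26 : ℝ) 7 = (-65078 / 2025) := by
  refine (cf_rec' _ 5).trans ?_
  norm_num [cp_6, cp_5]

private theorem cp_8 : cf 0 (26 : ℝ) 8 = (-13364 / 225) := by
  refine (cf_rec' _ 6).trans ?_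
  norm_num [cp_7, cp_6]

private theorem cp_9 : cf 0 (26 : ℝ) 9 = (-1815866 / 32805) := by
  refine (cf_rec' _ 7).trans ?_
  norm_num [cp_8, cp_7]

private theorem cp_10 : cf 0 (26 : ℝ) 10 = (-152819524 / 4100625) := by
  refine (cf_rec' _ 8).trans ?_
  norm_num [cp_9, cp_8]

private theorem cp_11 : cf 0 (26 : ℝ) 11 = (-2734984642 / 165391875) := by
  refine (cf_rec' _ 9).trans ?_
  norm_num [cp_10, cp_9]

private theorem cp_12 : cf 0 (26 : ℝ) 12 = (4802887024 / 4465580625) := by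
  refine (cf_rec' _ 10).trans ?_
  norm_num [cp_11, cp_10]

private theorem cn_0 : cf 0 ((117 / 5) : ℝ) 0 = 1 := cf_zero' _

private theorem cn_1 : cf 0 ((117 / 5) : ℝ) 1 = (-117 / 5) := by
  rw [cf_one']; norm_num

private theorem cn_2 : cf 0 ((117 / 5) : ℝ) 2 = (12519 / 100) := by
  refine (cf_rec' _ 0).trans ?_
  norm_num [cn_1, cn_0]

private theorem cn_3 : cf 0 ((117 / 5) : ℝ) 3 = (-105807 / 500) := by
  refine (cf_rec' _ 1).trans ?_
  norm_num [cn_2, cn_1]

private theorem cn_4 : cf 0 ((117 / 5) : ℝ) 4 = (1604889 / 40000) := by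
  refine (cf_rec' _ 2).trans ?_
  norm_num [cn_3, cn_2]

private theorem cn_5 : cf 0 ((117 / 5) : ℝ) 5 = (449915427 / 5000000) := by
  refine (cf_rec' _ 3).trans ?_
  norm_num [cn_4, cn_3]

private theorem cn_6 : cf 0 ((117 / 5) : ℝ) 6 = (4865540199 / 100000000) := by
  refine (cf_rec' _ 4).trans ?_
  norm_num [cn_5, cn_4]

private theorem cn_7 : cf 0 ((117 / 5) : ℝ) 7 = (1174238793 / 500000000) := by
  refine (cf_rec' _ 5).trans ?_
  norm_num [cn_6, cn_5]

private theorem cn_8 : cf 0 ((117 / 5) : ℝ) 8 = (-3940995109311 / 160000000000) := by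
  refine (cf_rec' _ 6).trans ?_
  norm_num [cn_7, cn_6]

private theorem cn_9 : cf 0 ((117 / 5) : ℝ) 9 = (-26582725475813 / 800000000000) := by
  refine (cf_rec' _ 7).trans ?_
  norm_num [cn_8, cn_7]

private theorem cn_10 : cf 0 ((117 / 5) : ℝ) 10 = (-12116236579840809 / 400000000000000) := by
  refine (cf_rec' _ 8).trans ?_
  norm_num [cn_9, cn_8]

private theorem cn_11 : cf 0 ((117 / 5) : ℝ) 11 = (-5315634991147301847 / 242000000000000000) := by
  refine (cf_rec' _ 9).trans ?_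
  norm_num [cn_10, cn_9]

private theorem cn_12 : cf 0 ((117 / 5) : ℝ) 12 = (-238314164435795132919 / 19360000000000000000) := by
  refine (cf_rec' _ 10).trans ?_
  norm_num [cn_11, cn_10]

private theorem cn_13 : cf 0 ((117 / 5) : ℝ) 13 = (-343271633000163026373 / 96800000000000000000) := by
  refine (cf_rec' _ 11).trans ?_
  norm_num [cn_12, cn_11]

private theorem cn_14 : cf 0 ((117 / 5) : ℝ) 14 = (6489075780808286490279 / 1936000000000000000000) := by
  refine (cf_rec' _ 12).trans ?_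
  norm_num [cn_13, cn_12]

private theorem cn_15 : cf 0 ((117 / 5) : ℝ) 15 = (179400578401337647952403 / 22000000000000000000000) := by
  refine (cf_rec' _ 13).trans ?_
  norm_num [cn_14, cn_13]

private theorem cn_16 : cf 0 ((117 / 5) : ℝ) 16 = (3414363987881570138848054089 / 309760000000000000000000000) := by
  refine (cf_rec' _ 14).trans ?_
  norm_num [cn_15, cn_14]

private theorem cn_17 : cf 0 ((117 / 5) : ℝ) 17 = (5499586060517487505639732619427 / 447603200000000000000000000000) := by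
  refine (cf_rec' _ 15).trans ?_
  norm_num [cn_16, cn_15]

private theorem cn_18 : cf 0 ((117 / 5) : ℝ) 18 = (110310426096657292892908860625391 / 8952064000000000000000000000000) := by
  refine (cf_rec' _ 16).trans ?_
  norm_num [cn_17, cn_16]

theorem Z_pos : 0 < dg 0 26 (1 / 3) := by
  have hb : ∀ m, |cf 0 (26 : ℝ) m| ≤ (22256 / 243) * (3 / 2) ^ m := by
    refine coeff_bound 26 (22256 / 243) (by norm_num) (by norm_num) (by norm_num) ?_
    intro m hm
    interval_cases m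
    · rw [cp_0]; norm_num
    · rw [cp_1]; norm_num [abs_le]
    · rw [cp_2]; norm_num [abs_le]
    · rw [cp_3]; norm_num [abs_le]
    · rw [cp_4]; norm_num [abs_le]
    · rw [cp_5]; norm_num [abs_le]
    · rw [cp_6]; norm_num [abs_le]
    · rw [cp_7]; norm_num [abs_le]
    · rw [cp_8]; norm_num [abs_le]
    · rw [cp_9]; norm_num [abs_le]
    · rw [cp_10]; norm_num [abs_le]
    · rw [cp_11]; norm_num [abs_le]
    · rw [cp_12]; norm_num [abs_le]
  have h := dg_approx 26 (1 / 3) (22256 / 243) (1 / 2) (by norm_num) (by norm_num) (by norm_num)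
    (by norm_num) hb 12
  simp only [Finset.sum_range_succ, Finset.sum_range_zero, Nat.reduceAdd, zero_add, cp_1, cp_2, cp_3, cp_4, cp_5, cp_6, cp_7, cp_8,
    cp_9, cp_10, cp_11, cp_12] at h
  have h2 := (abs_le.1 h).1
  norm_num at h2
  linarith

theorem Z_neg : dg 0 (117 / 5) (2 / 5) < 0 := by
  have hb : ∀ m, |cf 0 (117 / 5 : ℝ) m| ≤ (628 / 10) * (3 / 2) ^ m := by
    refine coeff_bound (117 / 5) (628 / 10) (by norm_num) (by norm_num) (by norm_num) ?_
    intro m hm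
    interval_cases m
    · rw [cn_0]; norm_num
    · rw [cn_1]; norm_num [abs_le]
    · rw [cn_2]; norm_num [abs_le]
    · rw [cn_3]; norm_num [abs_le]
    · rw [cn_4]; norm_num [abs_le]
    · rw [cn_5]; norm_num [abs_le]
    · rw [cn_6]; norm_num [abs_le]
    · rw [cn_7]; norm_num [abs_le]
    · rw [cn_8]; norm_num [abs_le]
    · rw [cn_9]; norm_num [abs_le]
    · rw [cn_10]; norm_num [abs_le]
    · rw [cn_11]; norm_num [abs_le]
    · rw [cn_12]; norm_num [abs_le]
  have h := dg_approx (117 / 5) (2 / 5) (628 / 10) (3 / 5) (by norm_num) (by norm_num)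
    (by norm_num) (by norm_num) hb 18
  simp only [Finset.sum_range_succ, Finset.sum_range_zero, Nat.reduceAdd, zero_add, cn_1, cn_2, cn_3, cn_4, cn_5, cn_6, cn_7, cn_8,
    cn_9, cn_10, cn_11, cn_12, cn_13, cn_14, cn_15, cn_16, cn_17, cn_18] at h
  have h2 := (abs_le.1 h).2
  norm_num at h2
  linarith

end Pool.Agent.Sch
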