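import Pool.Agent.Sch.Defs

/-!
# A supersolution for the mode functions `g_k`, `k ≥ 8`
-/

noncomputable section

namespace Pool.Agent.Sch

/-- Sturm comparison: if `p > 0` is a supersolution on `[0,T]` with `p 0 = 1` then
`g T ≥ p T`. -/
theorem super_aux (k : ℕ) (α T : ℝ) (hα0 : 0 ≤ α) (hT0 : 0 < T) (hT1 : T < 1)
    (G DG : ℝ → ℝ) (hG0 : G 0 = 1)
    (hG : ∀ s, |s| < 1 → HasDerivAt G (DG s) s)
    (hode : ∀ s, |s| < 1 →
      HasDerivAt (fun s => s ^ (k + 1) * DG s) (-(α * s ^ k * G s) / (1 - s) ^ 2) s)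
    (p dp ddp : ℝ → ℝ) (hp : ∀ s, HasDerivAt p (dp s) s) (hdp : ∀ s, HasDerivAt dp (ddp s) s)
    (hp0 : p 0 = 1) (hpos : ∀ s ∈ Set.Icc 0 T, 0 < p s)
    (hsup : ∀ s ∈ Set.Icc 0 T, s * ddp s + (k + 1) * dp s + α * p s / (1 - s) ^ 2 ≤ 0) :
    p T ≤ G T := by
  -- comparison as long as `G ≥ 0`
  have key : ∀ τ ∈ Set.Ioc 0 T, (∀ s ∈ Set.Icc 0 τ, 0 ≤ G s) → p τ ≤ G τ := by
    intro τ hτ hnn
    have hτ1 : τ < 1 := lt_of_le_of_lt hτ.2 hT1
    have habs : ∀ s ∈ Set.Icc 0 τ, |s| < 1 := fun s hs => by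
      rw [abs_of_nonneg hs.1]; exact lt_of_le_of_lt hs.2 hτ1
    have hmem : ∀ s ∈ Set.Icc 0 τ, s ∈ Set.Icc 0 T := fun s hs => ⟨hs.1, hs.2.trans hτ.2⟩
    -- Wronskian
    have hW : ∀ s ∈ Set.Icc 0 τ, HasDerivAt
        (fun s => (s ^ (k + 1) * DG s) * p s - G s * (s ^ (k + 1) * dp s))
        (-(s ^ k * G s * (s * ddp s + (k + 1) * dp s + α * p s / (1 - s) ^ 2))) s := by
      intro s hs
      have h1 := (hode s (habs s hs)).mul (hp s)
      have h2 := (hG s (habs s hs)).mul (((hasDerivAt_pow (k + 1) s)).mul (hdp s))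
      have h3 := h1.sub h2
      refine h3.congr_deriv ?_
      have hs1 : (1 - s) ≠ 0 := by
        have := habs s hs
        rw [abs_of_nonneg hs.1] at this
        linarith
      have hk1 : k + 1 - 1 = k := rfl
      simp only [Pi.mul_apply, hk1]
      push_cast
      field_simp
      ring
    have hWmono : MonotoneOn (fun s => (s ^ (k + 1) * DG s) * p s - G s * (s ^ (k + 1) * dp s))
        (Set.Icc 0 τ) := by
      refine monotoneOn_of_deriv_nonneg (convex_Icc 0 τ)
        (fun s hs => (hW s hs).continuousAt.continuousWithinAt)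
        (fun s hs => (hW s (interior_subset hs)).differentiableAt.differentiableWithinAt) ?_
      intro s hs
      have hs' := interior_subset hs
      rw [(hW s hs').deriv]
      have h1 := hsup s (hmem s hs')
      have h2 := hnn s hs'
      have h3 : 0 ≤ s ^ k := pow_nonneg hs'.1 k
      have := mul_nonneg (mul_nonneg h3 h2) (neg_nonneg.mpr h1)
      nlinarith
    have hWnn : ∀ s ∈ Set.Icc 0 τ,
        0 ≤ (s ^ (k + 1) * DG s) * p s - G s * (s ^ (k + 1) * dp s) := by
      intro s hs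
      have h0 : (0 : ℝ) ∈ Set.Icc 0 τ := ⟨le_rfl, hτ.1.le⟩
      have := hWmono h0 hs hs.1
      simpa using this
    -- quotient
    have hq : ∀ s ∈ Set.Icc 0 τ,
        HasDerivAt (fun s => G s / p s) ((DG s * p s - G s * dp s) / (p s) ^ 2) s := by
      intro s hs
      exact (hG s (habs s hs)).div (hp s) (hpos s (hmem s hs)).ne'
    have hqmono : MonotoneOn (fun s => G s / p s) (Set.Icc 0 τ) := by
      refine monotoneOn_of_deriv_nonneg (convex_Icc 0 τ)
        (fun s hs => (hq s hs).continuousAt.continuousWithinAt)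
        (fun s hs => (hq s (interior_subset hs)).differentiableAt.differentiableWithinAt) ?_
      intro s hs
      have hs' := interior_subset hs
      rw [(hq s hs').deriv]
      rw [interior_Icc] at hs
      have hspos : 0 < s ^ (k + 1) := pow_pos hs.1 _
      have h1 := hWnn s hs'
      have h2 : 0 ≤ s ^ (k + 1) * (DG s * p s - G s * dp s) := by
        calc (0:ℝ) ≤ _ := h1
          _ = _ := by ring
      have h3 : 0 ≤ DG s * p s - G s * dp s := by
        by_contra hcon
        push Not at hcon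
        have := mul_neg_of_pos_of_neg hspos hcon
        linarith
      positivity
    have h0 : (0 : ℝ) ∈ Set.Icc 0 τ := ⟨le_rfl, hτ.1.le⟩
    have h1 : τ ∈ Set.Icc 0 τ := ⟨hτ.1.le, le_rfl⟩
    have := hqmono h0 h1 hτ.1.le
    simp only [hG0, hp0, div_one] at this
    rw [le_div_iff₀ (hpos τ (hmem τ h1))] at this
    linarith
  -- no zero of `G` on `[0,T]`
  have hcont : ContinuousOn G (Set.Icc 0 T) := fun s hs =>
    (hG s (by rw [abs_of_nonneg hs.1]; exact lt_of_le_of_lt hs.2 hT1)).continuousAt.continuousWithinAt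
  have hGpos : ∀ s ∈ Set.Icc 0 T, 0 < G s := by
    by_contra hcon
    push Not at hcon
    obtain ⟨s0, hs0, hGs0⟩ := hcon
    set S : Set ℝ := {s ∈ Set.Icc 0 T | G s ≤ 0} with hS
    have hSclosed : IsClosed S := by
      have := hcont.preimage_isClosed_of_isClosed isClosed_Icc (isClosed_Iic (a := (0:ℝ)))
      exact this
    have hSne : S.Nonempty := ⟨s0, hs0, hGs0⟩
    have hSbdd : BddBelow S := ⟨0, fun s hs => hs.1.1⟩
    have hmemS : sInf S ∈ S := hSclosed.csInf_mem hSne hSbdd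
    set s1 := sInf S with hs1
    have hs1T : s1 ∈ Set.Icc 0 T := hmemS.1
    have hs1G : G s1 ≤ 0 := hmemS.2
    have hs1pos : 0 < s1 := by
      rcases eq_or_lt_of_le hs1T.1 with h | h
      · rw [← h, hG0] at hs1G
        linarith
      · exact h
    have hbefore : ∀ s ∈ Set.Ico 0 s1, 0 < G s := by
      intro s hs
      by_contra hc
      push Not at hc
      have : s ∈ S := ⟨⟨hs.1, hs.2.le.trans hs1T.2⟩, hc⟩
      exact absurd (csInf_le hSbdd this) (not_le.mpr hs.2)
    have hs1nn : 0 ≤ G s1 := by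
      have hc : ContinuousWithinAt G (Set.Ico 0 s1) s1 :=
        (hG s1 (by rw [abs_of_pos hs1pos]; exact lt_of_le_of_lt hs1T.2 hT1)).continuousAt.continuousWithinAt
      have hcl : s1 ∈ closure (Set.Ico 0 s1) := by
        rw [closure_Ico hs1pos.ne]
        exact ⟨hs1pos.le, le_rfl⟩
      have := hc.mem_closure hcl (t := Set.Ici 0) (fun s hs => (hbefore s hs).le)
      simpa using this
    have hall : ∀ s ∈ Set.Icc 0 s1, 0 ≤ G s := by
      intro s hs
      rcases eq_or_lt_of_le hs.2 with h | h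
      · rw [h]; exact hs1nn
      · exact (hbefore s ⟨hs.1, h⟩).le
    have := key s1 ⟨hs1pos, hs1T.2⟩ hall
    have h2 := hpos s1 hs1T
    linarith
  exact key T ⟨hT0, le_rfl⟩ (fun s hs => (hGpos s hs).le)

theorem g_zero (k : ℕ) (α : ℝ) : g k α 0 = 1 := by
  unfold g
  rw [tsum_eq_single 0]
  · simp [cf]
  · intro n hn
    simp [hn]

/-- The supersolution bound, from the two facts on `g` of module M1. -/
theorem g_lower_of (k : ℕ) (hk : 8 ≤ k) (t : ℝ) (h1 : 1 / 3 ≤ t) (h2 : t ≤ 2 / 5)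
    (hder : ∀ (k : ℕ) (α t : ℝ), |α| ≤ 30 → |t| < 1 → HasDerivAt (g k α) (dg k α t) t)
    (hode : ∀ (k : ℕ) (α t : ℝ), |α| ≤ 30 → |t| < 1 →
      HasDerivAt (fun s => s ^ (k + 1) * dg k α s) (-(α * t ^ k * g k α t) / (1 - t) ^ 2) t) :
    1 / 20 ≤ g k (6 * (1 + t + 1 / t)) t := by
  have ht0 : 0 < t := by linarith
  set α : ℝ := 6 * (1 + t + 1 / t) with hαdef
  have hαt : α * t = 6 * (t ^ 2 + t + 1) := by
    rw [hαdef]; field_simp; ring
  have hαlo : 117 / 5 ≤ α := by
    by_contra hcon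
    push Not at hcon
    have : α * t < 117 / 5 * t := mul_lt_mul_of_pos_right hcon ht0
    rw [hαt] at this
    nlinarith
  have hαhi : α ≤ 26 := by
    by_contra hcon
    push Not at hcon
    have : 26 * t < α * t := mul_lt_mul_of_pos_right hcon ht0
    rw [hαt] at this
    nlinarith
  have habs : |α| ≤ 30 := by rw [abs_of_nonneg (by linarith)]; linarith
  set b : ℝ := α * (α - 18) / 180 with hb
  have hb0 : 0 ≤ b := by rw [hb]; apply div_nonneg; apply mul_nonneg <;> linarith; norm_num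
  have hb1 : b ≤ 26 * 8 / 180 := by
    rw [hb]
    apply div_le_div_of_nonneg_right _ (by norm_num)
    nlinarith
  -- derivative of p
  have hp : ∀ s : ℝ, HasDerivAt (fun s => 1 - α / 9 * s + b * s ^ 2) (-(α / 9) + 2 * b * s) s := by
    intro s
    have h1 := ((hasDerivAt_id s).const_mul (α / 9)).const_sub 1
    have h2 := (hasDerivAt_pow 2 s).const_mul b
    have h3 := h1.add h2
    refine (h3.congr_deriv ?_)
    norm_num
    ring
  have hdp : ∀ s : ℝ, HasDerivAt (fun s => -(α / 9) + 2 * b * s) (2 * b) s := by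
    intro s
    have h1 := ((hasDerivAt_id s).const_mul (2 * b)).const_add (-(α / 9))
    refine h1.congr_deriv ?_
    ring
  -- p' ≤ 0 on [0,t]
  have hdpneg : ∀ s ∈ Set.Icc 0 t, -(α / 9) + 2 * b * s ≤ 0 := by
    intro s hs
    have : b * s ≤ 26 * 8 / 180 * (2 / 5) :=
      mul_le_mul hb1 (hs.2.trans h2) hs.1 (by norm_num)
    linarith
  have hpt : 1 / 20 ≤ 1 - α / 9 * t + b * t ^ 2 := by
    have e : 1 - α / 9 * t + b * t ^ 2 = 1 - (α * t) / 9 + (α * t) * (α * t - 18 * t) / 180 := by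
      rw [hb]; ring
    rw [e, hαt]
    nlinarith [mul_nonneg (sub_nonneg.mpr h1) (sub_nonneg.mpr h2), sq_nonneg t,
      mul_nonneg (mul_nonneg (sub_nonneg.mpr h1) (sub_nonneg.mpr h2)) ht0.le,
      mul_nonneg (mul_nonneg (sub_nonneg.mpr h1) (sub_nonneg.mpr h2)) (sq_nonneg t)]
  have hanti : AntitoneOn (fun s => 1 - α / 9 * s + b * s ^ 2) (Set.Icc 0 t) := by
    refine antitoneOn_of_deriv_nonpos (convex_Icc 0 t)
      (fun s _ => (hp s).continuousAt.continuousWithinAt)
      (fun s _ => (hp s).differentiableAt.differentiableWithinAt) ?_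
    intro s hs
    rw [(hp s).deriv]
    exact hdpneg s (interior_subset hs)
  have hpos : ∀ s ∈ Set.Icc 0 t, 0 < 1 - α / 9 * s + b * s ^ 2 := by
    intro s hs
    have := hanti hs (Set.right_mem_Icc.mpr ht0.le) hs.2
    simp only at this
    linarith
  have hsup : ∀ s ∈ Set.Icc 0 t, s * (2 * b) + (k + 1) * (-(α / 9) + 2 * b * s) +
      α * (1 - α / 9 * s + b * s ^ 2) / (1 - s) ^ 2 ≤ 0 := by
    intro s hs
    have hk' : (8 : ℝ) ≤ k := by exact_mod_cast hk
    have h3 : ((k : ℝ) + 1) * (-(α / 9) + 2 * b * s) ≤ 9 * (-(α / 9) + 2 * b * s) := by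
      apply mul_le_mul_of_nonpos_right _ (hdpneg s hs)
      linarith
    have hs1 : 0 < 1 - s := by linarith [hs.2]
    have hsq : 0 < (1 - s) ^ 2 := by positivity
    have h4 : (s * (2 * b) + 9 * (-(α / 9) + 2 * b * s)) * (1 - s) ^ 2 +
      α * (1 - α / 9 * s + b * s ^ 2) ≤ 0 := by
      have e : (s * (2 * b) + 9 * (-(α / 9) + 2 * b * s)) * (1 - s) ^ 2 +
        α * (1 - α / 9 * s + b * s ^ 2) =
          α * s ^ 2 * (-(2 * (α - 18) / 9) - 1 + b + (α - 18) / 9 * s) := by
        rw [hb]; ring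
      rw [e]
      apply mul_nonpos_of_nonneg_of_nonpos
      · apply mul_nonneg (by linarith) (sq_nonneg s)
      · have h5 : (α - 18) / 9 * s ≤ (α - 18) / 9 * (2 / 5) :=
          mul_le_mul_of_nonneg_left (hs.2.trans h2) (by linarith)
        linarith
    have h6 : s * (2 * b) + 9 * (-(α / 9) + 2 * b * s) +
        α * (1 - α / 9 * s + b * s ^ 2) / (1 - s) ^ 2 =
        ((s * (2 * b) + 9 * (-(α / 9) + 2 * b * s)) * (1 - s) ^ 2 +
      α * (1 - α / 9 * s + b * s ^ 2)) / (1 - s) ^ 2 := by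
      field_simp
    have h7 : ((s * (2 * b) + 9 * (-(α / 9) + 2 * b * s)) * (1 - s) ^ 2 +
      α * (1 - α / 9 * s + b * s ^ 2)) / (1 - s) ^ 2 ≤ 0 :=
      div_nonpos_of_nonpos_of_nonneg h4 hsq.le
    linarith
  have := super_aux k α t (by linarith) ht0 (by linarith) (g k α) (dg k α) (g_zero k α)
    (fun s hs => hder k α s habs hs) (fun s hs => hode k α s habs hs)
    (fun s => 1 - α / 9 * s + b * s ^ 2) (fun s => -(α / 9) + 2 * b * s) (fun _ => 2 * b)
    hp hdp (by norm_num) hpos hsup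
  linarith

end Pool.Agent.Sch
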