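import Pool.Agent.Sch.Scal
import Pool.Agent.Sch.Num
import Pool.Agent.Sch.Super

/-!
# M3: the base point of the bifurcation
-/

open scoped ENNReal Topology
open Set Filter

noncomputable section

namespace Pool.Agent.Sch

theorem g_lower (k : ℕ) (hk : 8 ≤ k) (t : ℝ) (h1 : 1 / 3 ≤ t) (h2 : t ≤ 2 / 5) :
    1 / 20 ≤ g k (6 * (1 + t + 1 / t)) t :=
  g_lower_of k hk t h1 h2 hasDerivAt_g hasDerivAt_ode

/-- The resonance curve. -/
def Acur (t : ℝ) : ℝ := 6 * (1 + t + 1 / t)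

/-- The Neumann derivative along the resonance curve. -/
def Zf (t : ℝ) : ℝ := dg 0 (6 * (1 + t + 1 / t)) t

theorem Zf_eq (t : ℝ) : Zf t = dg 0 (Acur t) t := rfl

theorem Zf_cont {t : ℝ} (h1 : 3 / 10 < t) (h2 : t < 1 / 2) : ContinuousAt Zf t :=
  (Z_analytic t ⟨h1, h2⟩).continuousAt

theorem Zf_third : 0 < Zf (1 / 3) := by
  have : Zf (1 / 3) = dg 0 26 (1 / 3) := by
    unfold Zf; norm_num
  rw [this]; exact Z_pos

theorem Zf_two_fifth : Zf (2 / 5) < 0 := by
  have : Zf (2 / 5) = dg 0 (117 / 5) (2 / 5) := by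
    unfold Zf; norm_num
  rw [this]; exact Z_neg

/-- The crossing point. -/
theorem exists_crossing : ∃ t : ℝ, 1 / 3 < t ∧ t < 2 / 5 ∧ Zf t = 0 ∧
    (∀ ε > 0, ∃ t1, |t1 - t| < ε ∧ 0 < Zf t1) ∧ (∀ ε > 0, ∃ t1, |t1 - t| < ε ∧ Zf t1 < 0) := by
  set S : Set ℝ := {t | t ∈ Icc (1 / 3 : ℝ) (2 / 5) ∧ 0 < Zf t} with hS
  have hne : S.Nonempty := ⟨1 / 3, ⟨by norm_num, by norm_num⟩, Zf_third⟩
  have hbd : BddAbove S := ⟨2 / 5, fun t ht => ht.1.2⟩
  set t := sSup S with ht
  have h1 : 1 / 3 ≤ t := le_csSup hbd ⟨⟨by norm_num, by norm_num⟩, Zf_third⟩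
  have h2 : t ≤ 2 / 5 := csSup_le hne fun s hs => hs.1.2
  have hc : ContinuousAt Zf t := Zf_cont (by linarith) (by linarith)
  have happ : ∀ ε > 0, ∃ t1 ∈ S, t - ε < t1 ∧ t1 ≤ t := by
    intro ε hε
    obtain ⟨t1, h3, h4⟩ := exists_lt_of_lt_csSup hne (show t - ε < sSup S by
      rw [← ht]; linarith)
    exact ⟨t1, h3, h4, le_csSup hbd h3⟩
  have habove : ∀ s, t < s → s ≤ 2 / 5 → Zf s ≤ 0 := by
    intro s hs hs2
    by_contra hpos
    push Not at hpos
    have : s ≤ t := le_csSup hbd ⟨⟨by linarith, hs2⟩, hpos⟩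
    linarith
  have hz : Zf t = 0 := by
    rcases lt_trichotomy (Zf t) 0 with h3 | h3 | h3
    · exfalso
      have := hc.eventually_lt (continuousAt_const (y := (0 : ℝ))) h3
      obtain ⟨δ, hδ, hδ2⟩ := Metric.eventually_nhds_iff.1 this
      obtain ⟨t1, h4, h5, h6⟩ := happ δ hδ
      have := hδ2 (show dist t1 t < δ by
        rw [Real.dist_eq, abs_lt]; constructor <;> linarith)
      exact absurd h4.2 (not_lt.2 this.le)
    · exact h3
    · exfalso
      have hlt : t < 2 / 5 := by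
        rcases lt_or_eq_of_le h2 with h4 | h4
        · exact h4
        · rw [h4] at h3; exact absurd Zf_two_fifth (not_lt.2 h3.le)
      have := (continuousAt_const (y := (0 : ℝ))).eventually_lt hc h3
      obtain ⟨δ, hδ, hδ2⟩ := Metric.eventually_nhds_iff.1 this
      set s := t + min (δ / 2) ((2 / 5 - t)) with hs
      have hmin : 0 < min (δ / 2) (2 / 5 - t) := lt_min (by linarith) (by linarith)
      have h5 := hδ2 (show dist s t < δ by
        rw [Real.dist_eq, hs, add_sub_cancel_left, abs_of_pos hmin]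
        exact lt_of_le_of_lt (min_le_left _ _) (by linarith))
      have h6 := habove s (by linarith) (by
        have := min_le_right (δ / 2) (2 / 5 - t); linarith)
      linarith
  have h1' : 1 / 3 < t := lt_of_le_of_ne h1 (fun h => by
    have := Zf_third; rw [h, hz] at this; exact lt_irrefl _ this)
  have h2' : t < 2 / 5 := lt_of_le_of_ne h2 (fun h => by
    have := Zf_two_fifth; rw [← h, hz] at this; exact lt_irrefl _ this)
  refine ⟨t, h1', h2', hz, ?_, ?_⟩
  · intro ε hε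
    obtain ⟨t1, h3, h4, h5⟩ := happ ε hε
    exact ⟨t1, by rw [abs_lt]; constructor <;> linarith, h3.2⟩
  · intro ε hε
    by_contra hno
    push Not at hno
    -- then `Zf` vanishes on an interval to the right of `t`
    have hzero : ∀ s, t < s → s < min (t + ε) (2 / 5) → Zf s = 0 := by
      intro s hs1 hs2
      have e1 := lt_of_lt_of_le hs2 (min_le_left _ _)
      have e2 := lt_of_lt_of_le hs2 (min_le_right _ _)
      exact le_antisymm (habove s hs1 e2.le) (hno s (by rw [abs_lt]; constructor <;> linarith))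
    set m := min (t + ε) (2 / 5) with hm
    have hmt : t < m := lt_min (by linarith) h2'
    have hmle : m ≤ 2 / 5 := min_le_right _ _
    set s := (t + m) / 2 with hs
    have hana : AnalyticOnNhd ℝ Zf (Ioo (3 / 10) (1 / 2)) := Z_analytic
    have hev : Zf =ᶠ[𝓝 s] 0 := by
      filter_upwards [Ioo_mem_nhds (show t < s by linarith) (show s < m by linarith)] with y hy
      exact hzero y hy.1 hy.2
    have := hana.eqOn_zero_of_preconnected_of_eventuallyEq_zero isPreconnected_Ioo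
      (show s ∈ Ioo (3 / 10 : ℝ) (1 / 2) from ⟨by linarith, by linarith⟩) hev
    have h7 := this (show (1 / 3 : ℝ) ∈ Ioo (3 / 10 : ℝ) (1 / 2) by constructor <;> norm_num)
    have h8 := Zf_third
    rw [h7] at h8
    exact lt_irrefl _ h8

theorem hasDerivAt_F {α t : ℝ} (hα : |α| ≤ 30) (ht : |t| < 1) :
    HasDerivAt (fun s => s * dg 0 α s) (-(α * g 0 α t) / (1 - t) ^ 2) t := by
  have := hasDerivAt_ode 0 α t hα ht
  simpa using this

/-- At a Neumann point `g_0` does not vanish when `g_8 > 0`. -/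
theorem g0_ne_zero {α t : ℝ} (hα : |α| ≤ 30) (ht : |t| < 1) (ht0 : 0 < t) (h0 : 0 < α)
    (hdg : dg 0 α t = 0) (h8 : g 8 α t ≠ 0) : g 0 α t ≠ 0 := by
  intro hg0
  have h1 : g 1 α t = 0 := by
    have := rel_k 0 α t hα ht
    simp only [Nat.cast_zero, zero_mul, zero_add, add_zero, mul_zero, hdg, sub_zero] at this
    rcases mul_eq_zero.1 this with h | h
    · exact absurd h h0.ne'
    · exact h
  have hstep : ∀ k : ℕ, g k α t = 0 → g (k + 1) α t = 0 → g (k + 2) α t = 0 := by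
    intro k hk hk1
    have := relT k α t hα ht
    rw [hk, hk1, mul_zero, sub_zero, mul_zero] at this
    rcases mul_eq_zero.1 this with h | h
    · exfalso
      have : 0 < (α + (k + 1) * (k + 2)) * t := by positivity
      linarith
    · exact h
  have h2 := hstep 0 hg0 h1
  have h3 := hstep 1 h1 h2
  have h4 := hstep 2 h2 h3
  have h5 := hstep 3 h3 h4
  have h6 := hstep 4 h4 h5
  have h7 := hstep 5 h5 h6
  exact h8 (hstep 6 h6 h7)

/-- Mean value form: difference of `F = s g_0'`. -/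
theorem F_mvt {α a b : ℝ} (hα : |α| ≤ 30) (hab : a < b) (ha : -1 < a) (hb : b < 1) :
    ∃ ξ ∈ Ioo a b, b * dg 0 α b - a * dg 0 α a = (b - a) * (-(α * g 0 α ξ) / (1 - ξ) ^ 2) := by
  obtain ⟨ξ, h1, h2⟩ := exists_hasDerivAt_eq_slope (fun s => s * dg 0 α s)
    (fun t => -(α * g 0 α t) / (1 - t) ^ 2) hab
    (fun x hx => (hasDerivAt_F hα (abs_lt.2 ⟨by linarith [hx.1], by linarith [hx.2]⟩)).continuousAt.continuousWithinAt)
    (fun x hx => hasDerivAt_F hα (abs_lt.2 ⟨by linarith [hx.1], by linarith [hx.2]⟩))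
  refine ⟨ξ, h1, ?_⟩
  have hba : b - a ≠ 0 := by linarith
  rw [eq_div_iff hba] at h2
  linarith

theorem Acur_sub {s t : ℝ} (hs : 0 < s) (ht : 0 < t) :
    s * Acur t - 6 * (1 + s + s ^ 2) = 6 * (1 - s * t) * (s - t) / t := by
  unfold Acur
  field_simp
  ring

theorem Acur_cont {t : ℝ} (ht : 0 < t) : ContinuousAt Acur t := by
  unfold Acur
  have : t ≠ 0 := ht.ne'
  fun_prop (disch := assumption)

/-- The sign of `g_4` at Neumann points near the resonance curve. -/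
theorem sign_g4 {α σ t1 τ : ℝ} (hα : α = Acur t1) (hα0 : 0 < α) (hα1 : α ≤ 30)
    (ht1 : 0 < t1) (ht1' : t1 < 1) (hτ : 0 < τ) (hτ' : τ < 1) (hσ : σ ≠ 0)
    (hg : ∀ s, min t1 τ ≤ s → s ≤ max t1 τ → 0 < σ * g 0 α s)
    (hdg : dg 0 α τ = 0) (hZ : Zf t1 ≠ 0) : 0 < g 4 α τ * Zf t1 := by
  have hZ1 : Zf t1 = dg 0 α t1 := by rw [hα]; rfl
  have hαa : |α| ≤ 30 := abs_le.2 ⟨by linarith, hα1⟩
  have h4 := g4_formula α τ hαa (abs_lt.2 ⟨by linarith, hτ'⟩) hdg hα0
  have hE : α * τ - 6 * (1 + τ + τ ^ 2) = 6 * (1 - τ * t1) * (τ - t1) / t1 := by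
    rw [← Acur_sub hτ ht1, hα]; ring
  rw [hE] at h4
  have hσ2 : 0 < σ ^ 2 := by positivity
  have hgτ := hg τ (min_le_right _ _) (le_max_right _ _)
  have hpp : 0 < (α + 2) * (α + 6) * (α + 12) * τ ^ 3 := by positivity
  have h1m : 0 < 1 - τ * t1 := by nlinarith
  have key : ∀ s : ℝ, s ≠ 0 → (0 < s * (τ - t1)) → (0 < s * (σ * Zf t1)) → 0 < g 4 α τ * Zf t1 := by
    intro s hs h5 h6
    have h7 : 0 < s * (σ * g 4 α τ) := by
      have h8 : (α + 2) * (α + 6) * (α + 12) * τ ^ 3 * (s * (σ * g 4 α τ))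
          = 24 * (σ * g 0 α τ) * (6 * (1 - τ * t1) * (s * (τ - t1)) / t1) := by
        linear_combination s * σ * h4
      have h9 : 0 < (α + 2) * (α + 6) * (α + 12) * τ ^ 3 * (s * (σ * g 4 α τ)) := by
        rw [h8]; positivity
      exact (pos_iff_pos_of_mul_pos h9).1 hpp
    have h10 : 0 < (s ^ 2 * σ ^ 2) * (g 4 α τ * Zf t1) := by
      have := mul_pos h6 h7
      nlinarith [this]
    have h11 : 0 < s ^ 2 * σ ^ 2 := by positivity
    exact (pos_iff_pos_of_mul_pos h10).1 h11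
  rcases lt_trichotomy t1 τ with h | h | h
  · obtain ⟨ξ, hξ, hξ2⟩ := F_mvt (α := α) hαa h (by linarith) hτ'
    rw [hdg, mul_zero, zero_sub, ← hZ1] at hξ2
    have hgξ := hg ξ ((min_le_left _ _).trans hξ.1.le) (hξ.2.le.trans (le_max_right _ _))
    have hξ1 : 0 < 1 - ξ := by linarith [hξ.2]
    refine key 1 one_ne_zero (by linarith) ?_
    have e1 : t1 * (1 * (σ * Zf t1)) = (τ - t1) * (α * (σ * g 0 α ξ)) / (1 - ξ) ^ 2 := by
      rw [one_mul]
      have : t1 * Zf t1 = (τ - t1) * (α * g 0 α ξ) / (1 - ξ) ^ 2 := by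
        have h12 : t1 * Zf t1 = -((τ - t1) * (-(α * g 0 α ξ) / (1 - ξ) ^ 2)) := by linarith
        rw [h12]; ring
      calc t1 * (σ * Zf t1) = σ * (t1 * Zf t1) := by ring
        _ = _ := by rw [this]; ring
    have e2 : 0 < t1 * (1 * (σ * Zf t1)) := by
      rw [e1]
      have : 0 < τ - t1 := by linarith
      positivity
    exact (pos_iff_pos_of_mul_pos e2).1 ht1
  · exfalso
    apply hZ
    rw [hZ1, h]; exact hdg
  · obtain ⟨ξ, hξ, hξ2⟩ := F_mvt (α := α) hαa h (by linarith) ht1'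
    rw [hdg, mul_zero, sub_zero, ← hZ1] at hξ2
    have hgξ := hg ξ ((min_le_right _ _).trans hξ.1.le) (hξ.2.le.trans (le_max_left _ _))
    have hξ1 : 0 < 1 - ξ := by linarith [hξ.2]
    refine key (-1) (by norm_num) (by linarith) ?_
    have e1 : t1 * (-1 * (σ * Zf t1)) = (t1 - τ) * (α * (σ * g 0 α ξ)) / (1 - ξ) ^ 2 := by
      calc t1 * (-1 * (σ * Zf t1)) = -σ * (t1 * Zf t1) := by ring
        _ = _ := by rw [hξ2]; ring
    have e2 : 0 < t1 * (-1 * (σ * Zf t1)) := by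
      rw [e1]
      have : 0 < t1 - τ := by linarith
      positivity
    exact (pos_iff_pos_of_mul_pos e2).1 ht1

theorem base_point : ∃ t α : ℝ, 1 / 3 < t ∧ t < 2 / 5 ∧ 117 / 5 < α ∧ α < 26 ∧
    dg 0 α t = 0 ∧ g 0 α t ≠ 0 ∧ (∀ k, 8 ≤ k → 1 / 20 ≤ g k α t) ∧
    (∀ ε > 0, ∃ t' α', |t' - t| < ε ∧ |α' - α| < ε ∧ dg 0 α' t' = 0 ∧ 0 < g 4 α' t') ∧
    (∀ ε > 0, ∃ t' α', |t' - t| < ε ∧ |α' - α| < ε ∧ dg 0 α' t' = 0 ∧ g 4 α' t' < 0) := by
  obtain ⟨t, ht1, ht2, hZ, hpos, hneg⟩ := exists_crossing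
  have ht0 : 0 < t := by linarith
  have hα1 : 117 / 5 < Acur t := by
    unfold Acur
    have : t * (5 / 2 + 1 / t) < t * (2 / 5 + 5 / 2 + 1 / t) := by
      apply mul_lt_mul_of_pos_left _ ht0; linarith
    have h3 : 29 / 10 < t + 1 / t := by
      rw [← sub_pos]
      have : t + 1 / t - 29 / 10 = (t - 2 / 5) * (t - 5 / 2) / t := by field_simp; ring
      rw [this]
      exact div_pos (mul_pos_of_neg_of_neg (by linarith) (by linarith)) ht0
    linarith
  have hα2 : Acur t < 26 := by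
    unfold Acur
    have h3 : t + 1 / t < 10 / 3 := by
      rw [← sub_neg]
      have : t + 1 / t - 10 / 3 = (t - 1 / 3) * (t - 3) / t := by field_simp; ring
      rw [this]
      exact div_neg_of_neg_of_pos (mul_neg_of_pos_of_neg (by linarith) (by linarith)) ht0
    linarith
  set α := Acur t with hα
  have hαa : |α| ≤ 30 := abs_le.2 ⟨by linarith, by linarith⟩
  have hta : |t| < 1 := abs_lt.2 ⟨by linarith, by linarith⟩
  have hdg : dg 0 α t = 0 := hZ
  have hlow : ∀ k, 8 ≤ k → 1 / 20 ≤ g k α t := fun k hk => g_lower k hk t ht1.le ht2.le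
  have hg0 : g 0 α t ≠ 0 := g0_ne_zero hαa hta ht0 (by linarith) hdg (by
    have := hlow 8 le_rfl
    intro h; rw [h] at this; norm_num at this)
  -- the sign neighbourhood
  set σ := g 0 α t with hσ
  have hcg : ContinuousAt (fun p : ℝ × ℝ => σ * g 0 p.1 p.2) (α, t) :=
    continuousAt_const.mul (continuousAt_g 0 α t (abs_lt.2 ⟨by linarith, by linarith⟩) hta)
  have hσσ : (0 : ℝ) < σ * g 0 α t := by
    rw [← hσ]; exact mul_self_pos.2 hg0
  obtain ⟨δ1, hδ1, hδ1'⟩ := Metric.eventually_nhds_iff.1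
    ((continuousAt_const (y := (0 : ℝ))).eventually_lt hcg hσσ)
  set δ0 : ℝ := min (δ1 / 2) (min ((t - 1 / 3) / 2) (min ((2 / 5 - t) / 2) 1)) with hδ0
  have hδ0pos : 0 < δ0 := lt_min (by linarith) (lt_min (by linarith) (lt_min (by linarith) one_pos))
  have hb1 : δ0 ≤ δ1 / 2 := min_le_left _ _
  have hb2 : δ0 ≤ (t - 1 / 3) / 2 := (min_le_right _ _).trans (min_le_left _ _)
  have hb3 : δ0 ≤ (2 / 5 - t) / 2 :=
    (min_le_right _ _).trans ((min_le_right _ _).trans (min_le_left _ _))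
  have hb4 : δ0 ≤ 1 := (min_le_right _ _).trans ((min_le_right _ _).trans (min_le_right _ _))
  have hN : ∀ β s : ℝ, |β - α| ≤ δ0 → |s - t| ≤ δ0 → 0 < σ * g 0 β s := by
    intro β s h1 h2
    refine hδ1' (y := (β, s)) ?_
    rw [Prod.dist_eq, max_lt_iff, Real.dist_eq, Real.dist_eq]
    constructor <;> simp only <;> linarith
  -- existence of Neumann points
  have hτ : ∀ ε > 0, ∃ η > 0, ∀ β : ℝ, |β - α| < η → |β - α| ≤ δ0 →
      ∃ τ, |τ - t| < ε ∧ |τ - t| ≤ δ0 ∧ dg 0 β τ = 0 := by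
    intro ε hε
    set δ := min (ε / 2) δ0 with hδ
    have hδpos : 0 < δ := lt_min (by linarith) hδ0pos
    have hd1 : δ ≤ ε / 2 := min_le_left _ _
    have hd2 : δ ≤ δ0 := min_le_right _ _
    have hright : σ * dg 0 α (t + δ) < 0 := by
      obtain ⟨ξ, hξ, hξ2⟩ := F_mvt (α := α) hαa (show t < t + δ by linarith) (by linarith)
        (by linarith)
      rw [hdg, mul_zero, sub_zero] at hξ2
      have h1 := hN α ξ (by simpa using hδ0pos.le) (by
        rw [abs_le]; constructor <;> linarith [hξ.1, hξ.2])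
      have h2 : (t + δ) * (σ * dg 0 α (t + δ)) = -(δ * (α * (σ * g 0 α ξ)) / (1 - ξ) ^ 2) := by
        calc (t + δ) * (σ * dg 0 α (t + δ)) = σ * ((t + δ) * dg 0 α (t + δ)) := by ring
          _ = _ := by rw [hξ2]; ring
      have h3 : 0 < 1 - ξ := by linarith [hξ.2]
      have h4 : (t + δ) * (σ * dg 0 α (t + δ)) < 0 := by
        rw [h2]
        have : 0 < α := by linarith
        have : 0 < δ * (α * (σ * g 0 α ξ)) / (1 - ξ) ^ 2 := by positivity
        linarith
      by_contra hcon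
      push Not at hcon
      have : 0 ≤ (t + δ) * (σ * dg 0 α (t + δ)) := mul_nonneg (by linarith) hcon
      linarith
    have hleft : 0 < σ * dg 0 α (t - δ) := by
      obtain ⟨ξ, hξ, hξ2⟩ := F_mvt (α := α) hαa (show t - δ < t by linarith) (by linarith)
        (by linarith)
      rw [hdg, mul_zero, zero_sub] at hξ2
      have h1 := hN α ξ (by simpa using hδ0pos.le) (by
        rw [abs_le]; constructor <;> linarith [hξ.1, hξ.2])
      have h2 : (t - δ) * (σ * dg 0 α (t - δ)) = (δ * (α * (σ * g 0 α ξ)) / (1 - ξ) ^ 2) := by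
        calc (t - δ) * (σ * dg 0 α (t - δ)) = -σ * (-((t - δ) * dg 0 α (t - δ))) := by ring
          _ = _ := by rw [hξ2]; ring
      have h3 : 0 < 1 - ξ := by linarith [hξ.2]
      have h4 : 0 < (t - δ) * (σ * dg 0 α (t - δ)) := by
        rw [h2]
        have : 0 < α := by linarith
        positivity
      exact (pos_iff_pos_of_mul_pos h4).1 (by linarith)
    have hc1 : ContinuousAt (fun β : ℝ => σ * dg 0 β (t + δ)) α := by
      have h1 := continuousAt_dg 0 α (t + δ) (abs_lt.2 ⟨by linarith, by linarith⟩)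
        (abs_lt.2 ⟨by linarith, by linarith⟩)
      have h2 : ContinuousAt (fun β : ℝ => (β, t + δ)) α := by fun_prop
      exact continuousAt_const.mul (ContinuousAt.comp' (f := fun β : ℝ => (β, t + δ)) h1 h2)
    have hc2 : ContinuousAt (fun β : ℝ => σ * dg 0 β (t - δ)) α := by
      have h1 := continuousAt_dg 0 α (t - δ) (abs_lt.2 ⟨by linarith, by linarith⟩)
        (abs_lt.2 ⟨by linarith, by linarith⟩)
      have h2 : ContinuousAt (fun β : ℝ => (β, t - δ)) α := by fun_prop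
      exact continuousAt_const.mul (ContinuousAt.comp' (f := fun β : ℝ => (β, t - δ)) h1 h2)
    obtain ⟨η, hη, hη'⟩ := Metric.eventually_nhds_iff.1
      ((hc1.eventually_lt (continuousAt_const (y := (0 : ℝ))) hright).and
        ((continuousAt_const (y := (0 : ℝ))).eventually_lt hc2 hleft))
    refine ⟨η, hη, fun β hβ hβ0 => ?_⟩
    obtain ⟨h1, h2⟩ := hη' (y := β) (by rwa [Real.dist_eq])
    have hβ1 := abs_le.1 hβ0
    have hcont : ContinuousOn (fun s => σ * dg 0 β s) (Icc (t - δ) (t + δ)) := by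
      intro s hs
      have h3 := continuousAt_dg 0 β s (abs_lt.2 ⟨by linarith [hβ1.1], by linarith [hβ1.2]⟩)
        (abs_lt.2 ⟨by linarith [hs.1], by linarith [hs.2]⟩)
      have h4 : ContinuousAt (fun s : ℝ => (β, s)) s := by fun_prop
      exact (continuousAt_const.mul
        (ContinuousAt.comp' (f := fun s : ℝ => (β, s)) h3 h4)).continuousWithinAt
    obtain ⟨τ, hτ1, hτ2⟩ := intermediate_value_Icc' (show t - δ ≤ t + δ by linarith) hcont
      (show (0 : ℝ) ∈ Icc (σ * dg 0 β (t + δ)) (σ * dg 0 β (t - δ)) from ⟨h1.le, h2.le⟩)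
    have hτ3 : |τ - t| ≤ δ := abs_le.2 ⟨by linarith [hτ1.1], by linarith [hτ1.2]⟩
    refine ⟨τ, by linarith, by linarith, ?_⟩
    rcases mul_eq_zero.1 hτ2 with h | h
    · exact absurd h hg0
    · exact h
  -- choose `t1`
  have hchoose : ∀ ε > 0, ∃ ε' > 0, ∀ t1, |t1 - t| < ε' → Zf t1 ≠ 0 →
      ∃ τ β, |τ - t| < ε ∧ |β - α| < ε ∧ dg 0 β τ = 0 ∧ 0 < g 4 β τ * Zf t1 := by
    intro ε hε
    obtain ⟨η, hη, hη'⟩ := hτ ε hε
    obtain ⟨ε1, hε1, hε1'⟩ := Metric.eventually_nhds_iff.1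
      (Metric.tendsto_nhds.1 (Acur_cont ht0) (min η (min δ0 ε)) (lt_min hη (lt_min hδ0pos hε)))
    refine ⟨min ε1 δ0, lt_min hε1 hδ0pos, fun t1 ht1' hZ1 => ?_⟩
    have h1 : |t1 - t| < ε1 := lt_of_lt_of_le ht1' (min_le_left _ _)
    have h2 : |t1 - t| < δ0 := lt_of_lt_of_le ht1' (min_le_right _ _)
    have h3 := hε1' (y := t1) (by rwa [Real.dist_eq])
    rw [Real.dist_eq, ← hα] at h3
    have h4 : |Acur t1 - α| < η := lt_of_lt_of_le h3 (min_le_left _ _)
    have h5 : |Acur t1 - α| < δ0 :=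
      lt_of_lt_of_le h3 ((min_le_right _ _).trans (min_le_left _ _))
    have h6 : |Acur t1 - α| < ε :=
      lt_of_lt_of_le h3 ((min_le_right _ _).trans (min_le_right _ _))
    obtain ⟨τ, hτ1, hτ2, hτ3⟩ := hη' (Acur t1) h4 h5.le
    have a1 := abs_lt.1 h2
    have a2 := abs_le.1 hτ2
    have a3 := abs_lt.1 h5
    refine ⟨τ, Acur t1, hτ1, h6, hτ3, ?_⟩
    refine sign_g4 (σ := σ) rfl (by linarith [a3.1]) (by linarith [a3.2]) (by linarith [a1.1])
      (by linarith [a1.2]) (by linarith [a2.1]) (by linarith [a2.2]) hg0 ?_ hτ3 hZ1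
    intro s hs1 hs2
    refine hN _ s h5.le ?_
    rw [abs_le]
    constructor
    · have : t - δ0 ≤ min t1 τ := le_min (by linarith [a1.1]) (by linarith [a2.1])
      linarith
    · have : max t1 τ ≤ t + δ0 := max_le (by linarith [a1.2]) (by linarith [a2.2])
      linarith
  refine ⟨t, α, ht1, ht2, hα1, hα2, hdg, hg0, hlow, ?_, ?_⟩
  · intro ε hε
    obtain ⟨ε', hε', h⟩ := hchoose ε hε
    obtain ⟨t1, h1, h2⟩ := hpos ε' hε'
    obtain ⟨τ, β, h3, h4, h5, h6⟩ := h t1 h1 h2.ne'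
    exact ⟨τ, β, h3, h4, h5, (pos_iff_pos_of_mul_pos h6).2 h2⟩
  · intro ε hε
    obtain ⟨ε', hε', h⟩ := hchoose ε hε
    obtain ⟨t1, h1, h2⟩ := hneg ε' hε'
    obtain ⟨τ, β, h3, h4, h5, h6⟩ := h t1 h1 h2.ne
    refine ⟨τ, β, h3, h4, h5, ?_⟩
    by_contra hcon
    push Not at hcon
    have : g 4 β τ * Zf t1 ≤ 0 := mul_nonpos_of_nonneg_of_nonpos hcon h2.le
    linarith

end Pool.Agent.Sch
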