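import Mathlib

/-!
# An abstract bifurcation lemma

`G : X × ℝ → Y` is `C¹` near a zero `(x₀, α₀)` with bijective partial derivative in the first
variable and `f : X × ℝ → ℝ` is `C¹`. If arbitrarily close to the base point there are zeros of
`(G, f)` at which the derivative of `f` along the curve `G = s • y`, `α` fixed, is positive, and
others at which it is negative, then there are solutions of `G = s • y`, `f = 0` with `s ≠ 0`
arbitrarily close to the base point.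
-/

open scoped Topology
open Filter Set

namespace Pool.Agent.Sch

section Bif

variable {X Y : Type*} [NormedAddCommGroup X] [NormedSpace ℝ X] [CompleteSpace X]
    [NormedAddCommGroup Y] [NormedSpace ℝ Y] [CompleteSpace Y]

/-- The local inverse of `(x, α) ↦ (G (x, α), α)`. -/
theorem exists_local_inverse (G : X × ℝ → Y) (x₀ : X) (α₀ : ℝ)
    (hG : ContDiffAt ℝ 1 G (x₀, α₀))
    (hbij : Function.Bijective fun v : X => fderiv ℝ G (x₀, α₀) (v, 0)) :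
    ∃ Ψ : Y × ℝ → X × ℝ, ContDiffAt ℝ 1 Ψ (G (x₀, α₀), α₀) ∧
      Ψ (G (x₀, α₀), α₀) = (x₀, α₀) ∧
      (∀ᶠ p in 𝓝 (x₀, α₀), Ψ (G p, p.2) = p) ∧
      (∀ᶠ r in 𝓝 (G (x₀, α₀), α₀), (G (Ψ r), (Ψ r).2) = r) := by
  set L : X × ℝ →L[ℝ] Y := fderiv ℝ G (x₀, α₀) with hL
  set A : X × ℝ →L[ℝ] Y × ℝ := L.prod (ContinuousLinearMap.snd ℝ X ℝ) with hA
  have hker : A.ker = ⊥ := by
    rw [LinearMap.ker_eq_bot']
    rintro ⟨v, a⟩ h
    have h1 : L (v, a) = 0 := congrArg Prod.fst h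
    have h2 : a = 0 := congrArg Prod.snd h
    subst h2
    have h3 : (fun v : X => L (v, 0)) v = (fun v : X => L (v, 0)) 0 := by
      change L (v, 0) = L (0, 0)
      rw [h1, show ((0, 0) : X × ℝ) = 0 from rfl, map_zero]
    have h4 := hbij.1 h3
    subst h4
    rfl
  have hrange : A.range = ⊤ := by
    rw [LinearMap.range_eq_top]
    rintro ⟨y, a⟩
    obtain ⟨v, hv⟩ := hbij.2 (y - L (0, a))
    refine ⟨(v, a), ?_⟩
    have hv' : L (v, 0) = y - L (0, a) := hv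
    have h1 : L (v, a) = y := by
      have : ((v, a) : X × ℝ) = (v, 0) + (0, a) := by simp
      rw [this, map_add, hv']
      abel
    exact Prod.ext h1 rfl
  set E : (X × ℝ) ≃L[ℝ] (Y × ℝ) := ContinuousLinearEquiv.ofBijective A hker hrange with hE
  have hEA : (E : X × ℝ →L[ℝ] Y × ℝ) = A := by
    ext p <;> rfl
  set Θ : X × ℝ → Y × ℝ := fun p => (G p, p.2) with hΘ
  have hΘc : ContDiffAt ℝ 1 Θ (x₀, α₀) := hG.prodMk contDiffAt_snd
  have hΘd : HasFDerivAt Θ (E : X × ℝ →L[ℝ] Y × ℝ) (x₀, α₀) := by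
    rw [hEA]
    exact ((hG.differentiableAt (by norm_num)).hasFDerivAt).prodMk hasFDerivAt_snd
  have hst : HasStrictFDerivAt Θ (E : X × ℝ →L[ℝ] Y × ℝ) (x₀, α₀) :=
    hΘc.hasStrictFDerivAt' hΘd (by norm_num)
  refine ⟨hΘc.localInverse hΘd (by norm_num), ?_, ?_, ?_, ?_⟩
  · exact hΘc.to_localInverse hΘd (by norm_num)
  · exact hΘc.localInverse_apply_image hΘd (by norm_num)
  · exact hst.eventually_left_inverse
  · exact hst.eventually_right_inverse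

omit [CompleteSpace X] [CompleteSpace Y] in
/-- The derivative of `f` along the branch through a zero `p` of `G`. -/
theorem hasDerivAt_branch (G : X × ℝ → Y) (f : X × ℝ → ℝ) (Ψ : Y × ℝ → X × ℝ) (p : X × ℝ)
    (y : Y) (v : X) (hG : DifferentiableAt ℝ G p) (hf : DifferentiableAt ℝ f p)
    (hGp : G p = 0) (hΨ : DifferentiableAt ℝ Ψ (G p, p.2))
    (hinv : ∀ᶠ p' in 𝓝 p, Ψ (G p', p'.2) = p') (hv : fderiv ℝ G p (v, 0) = y) :
    HasDerivAt (fun s : ℝ => f (Ψ (s • y, p.2))) (fderiv ℝ f p (v, 0)) 0 := by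
  have hΨp : Ψ (G p, p.2) = p := hinv.self_of_nhds
  set L : X × ℝ →L[ℝ] Y := fderiv ℝ G p with hL
  set A : X × ℝ →L[ℝ] Y × ℝ := L.prod (ContinuousLinearMap.snd ℝ X ℝ) with hA
  have hΘd : HasFDerivAt (fun p : X × ℝ => (G p, p.2)) A p :=
    hG.hasFDerivAt.prodMk hasFDerivAt_snd
  have hcomp : HasFDerivAt (fun p' : X × ℝ => Ψ (G p', p'.2))
      ((fderiv ℝ Ψ (G p, p.2)).comp A) p := hΨ.hasFDerivAt.comp p hΘd
  have hid : HasFDerivAt (fun p' : X × ℝ => Ψ (G p', p'.2)) (ContinuousLinearMap.id ℝ (X × ℝ)) p :=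
    (hasFDerivAt_id p).congr_of_eventuallyEq hinv
  have heq := hcomp.unique hid
  have h1 : fderiv ℝ Ψ (G p, p.2) (y, 0) = (v, 0) := by
    have h2 : A (v, 0) = (y, 0) := Prod.ext hv rfl
    rw [← h2]
    have := congrArg (fun B : X × ℝ →L[ℝ] X × ℝ => B (v, 0)) heq
    simpa using this
  have hcurve : HasDerivAt (fun s : ℝ => ((s • y, p.2) : Y × ℝ)) (y, 0) 0 := by
    have h3 : HasDerivAt (fun s : ℝ => s • y) y 0 := by
      simpa using (hasDerivAt_id (0 : ℝ)).smul_const y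
    exact h3.prodMk (hasDerivAt_const _ _)
  have h0 : ((0 : ℝ) • y, p.2) = (G p, p.2) := by rw [zero_smul, hGp]
  have hΨ' : HasFDerivAt Ψ (fderiv ℝ Ψ (G p, p.2)) ((0 : ℝ) • y, p.2) := by
    rw [h0]; exact hΨ.hasFDerivAt
  have h4 : HasDerivAt (fun s : ℝ => Ψ (s • y, p.2)) (v, 0) 0 := by
    have := hΨ'.comp_hasDerivAt (0 : ℝ) hcurve
    rwa [h1] at this
  have hf' : HasFDerivAt f (fderiv ℝ f p) (Ψ ((0 : ℝ) • y, p.2)) := by
    rw [h0, hΨp]; exact hf.hasFDerivAt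
  exact hf'.comp_hasDerivAt (0 : ℝ) h4

theorem eventually_pos_of_hasDerivAt {φ : ℝ → ℝ} {d : ℝ} (h : HasDerivAt φ d 0) (h0 : φ 0 = 0)
    (hd : 0 < d) : ∀ᶠ s in 𝓝[>] (0 : ℝ), 0 < φ s := by
  rw [hasDerivAt_iff_tendsto_slope] at h
  have h1 : ∀ᶠ s in 𝓝[≠] (0 : ℝ), 0 < slope φ 0 s := h.eventually (lt_mem_nhds hd)
  have h2 : ∀ᶠ s in 𝓝[>] (0 : ℝ), 0 < slope φ 0 s :=
    h1.filter_mono (nhdsWithin_mono _ fun s (hs : (0 : ℝ) < s) => ne_of_gt hs)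
  filter_upwards [h2, self_mem_nhdsWithin] with s hs (hs0 : 0 < s)
  rw [slope_def_field, h0, sub_zero, sub_zero] at hs
  exact (div_pos_iff_of_pos_right hs0).1 hs

/-- The abstract bifurcation lemma. -/
theorem bifurcation
    (G : X × ℝ → Y) (f : X × ℝ → ℝ) (x₀ : X) (α₀ : ℝ) (y : Y)
    (hG : ContDiffAt ℝ 1 G (x₀, α₀)) (hf : ContDiffAt ℝ 1 f (x₀, α₀)) (hG0 : G (x₀, α₀) = 0)
    (hbij : Function.Bijective fun v : X => fderiv ℝ G (x₀, α₀) (v, 0))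
    (hpos : ∀ U ∈ 𝓝 (x₀, α₀), ∃ p ∈ U, G p = 0 ∧ f p = 0 ∧
      ∃ v : X, fderiv ℝ G p (v, 0) = y ∧ 0 < fderiv ℝ f p (v, 0))
    (hneg : ∀ U ∈ 𝓝 (x₀, α₀), ∃ p ∈ U, G p = 0 ∧ f p = 0 ∧
      ∃ v : X, fderiv ℝ G p (v, 0) = y ∧ fderiv ℝ f p (v, 0) < 0) :
    ∀ U ∈ 𝓝 (x₀, α₀), ∃ p ∈ U, ∃ s : ℝ, s ≠ 0 ∧ G p = s • y ∧ f p = 0 := by
  intro U hU
  obtain ⟨Ψ, hΨc, hΨ0, hleft, hright⟩ := exists_local_inverse G x₀ α₀ hG hbij
  rw [hG0] at hΨc hΨ0 hright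
  -- good neighbourhood on the right
  have hGe : ∀ᶠ p in 𝓝 (x₀, α₀), ContDiffAt ℝ 1 G p := hG.eventually (by norm_num)
  have hfe : ∀ᶠ p in 𝓝 (x₀, α₀), ContDiffAt ℝ 1 f p := hf.eventually (by norm_num)
  have hΨe : ∀ᶠ r in 𝓝 ((0 : Y), α₀), ContDiffAt ℝ 1 Ψ r := hΨc.eventually (by norm_num)
  have hΨt : Tendsto Ψ (𝓝 ((0 : Y), α₀)) (𝓝 (x₀, α₀)) := by
    have := hΨc.continuousAt.tendsto
    rwa [hΨ0] at this
  have hgood : ∀ᶠ r in 𝓝 ((0 : Y), α₀), ContDiffAt ℝ 1 Ψ r ∧ (G (Ψ r), (Ψ r).2) = r ∧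
      Ψ r ∈ U ∧ ContDiffAt ℝ 1 f (Ψ r) :=
    hΨe.and (hright.and ((hΨt.eventually hU).and (hΨt.eventually hfe)))
  obtain ⟨δ, hδ, hball⟩ := Metric.eventually_nhds_iff_ball.1 hgood
  -- good neighbourhood on the left
  have hΘt : Tendsto (fun p : X × ℝ => (G p, p.2)) (𝓝 (x₀, α₀)) (𝓝 ((0 : Y), α₀)) := by
    have h := (hG.continuousAt.prodMk (continuous_snd.continuousAt (x := (x₀, α₀)))).tendsto
    simpa only [hG0] using h
  have hleft' : ∀ᶠ p in 𝓝 (x₀, α₀), (∀ᶠ p' in 𝓝 p, Ψ (G p', p'.2) = p') ∧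
      ContDiffAt ℝ 1 G p ∧ ContDiffAt ℝ 1 f p ∧
      (G p, p.2) ∈ Metric.ball ((0 : Y), α₀) δ :=
    hleft.eventually_nhds.and (hGe.and (hfe.and (hΘt.eventually (Metric.ball_mem_nhds _ hδ))))
  -- for each good zero, the sign of `f` along the branch
  have key : ∀ p : X × ℝ, (∀ᶠ p' in 𝓝 p, Ψ (G p', p'.2) = p') → ContDiffAt ℝ 1 G p →
      ContDiffAt ℝ 1 f p → (G p, p.2) ∈ Metric.ball ((0 : Y), α₀) δ → G p = 0 → f p = 0 →
      ∀ v : X, fderiv ℝ G p (v, 0) = y →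
      HasDerivAt (fun s : ℝ => f (Ψ (s • y, p.2))) (fderiv ℝ f p (v, 0)) 0 ∧
      f (Ψ ((0 : ℝ) • y, p.2)) = 0 := by
    intro p h1 h2 h3 h4 h5 h6 v hv
    refine ⟨hasDerivAt_branch G f Ψ p y v (h2.differentiableAt (by norm_num))
      (h3.differentiableAt (by norm_num)) h5 ((hball _ h4).1.differentiableAt (by norm_num)) h1 hv, ?_⟩
    have h7 : Ψ (G p, p.2) = p := h1.self_of_nhds
    rw [zero_smul, ← h5, h7, h6]
  obtain ⟨p, hp, hp0, hpf, v, hpv, hpd⟩ := hpos _ hleft'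
  obtain ⟨p', hp', hp'0, hp'f, v', hp'v, hp'd⟩ := hneg _ hleft'
  obtain ⟨hk1, hk2⟩ := key p hp.1 hp.2.1 hp.2.2.1 hp.2.2.2 hp0 hpf v hpv
  obtain ⟨hk1', hk2'⟩ := key p' hp'.1 hp'.2.1 hp'.2.2.1 hp'.2.2.2 hp'0 hp'f v' hp'v
  have e1 : ∀ᶠ s in 𝓝[>] (0 : ℝ), 0 < f (Ψ (s • y, p.2)) :=
    eventually_pos_of_hasDerivAt hk1 hk2 hpd
  have e2 : ∀ᶠ s in 𝓝[>] (0 : ℝ), 0 < -f (Ψ (s • y, p'.2)) :=
    eventually_pos_of_hasDerivAt (φ := fun s => -f (Ψ (s • y, p'.2))) hk1'.neg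
      (by simp only [hk2', neg_zero]) (by linarith)
  have e3 : ∀ᶠ s in 𝓝[>] (0 : ℝ), ‖s • y‖ < δ := by
    have hc : Tendsto (fun s : ℝ => ‖s • y‖) (𝓝 0) (𝓝 0) := by
      have : Continuous fun s : ℝ => ‖s • y‖ := by fun_prop
      simpa using this.tendsto 0
    exact (hc.eventually (gt_mem_nhds hδ)).filter_mono nhdsWithin_le_nhds
  obtain ⟨s, hs1, hs2, hs3, hs4⟩ := (e1.and (e2.and (e3.and self_mem_nhdsWithin))).exists
  have hs4 : 0 < s := hs4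
  have ha : |p.2 - α₀| < δ := by
    have := hp.2.2.2
    rw [hp0, Metric.mem_ball, Prod.dist_eq, max_lt_iff] at this
    exact this.2
  have ha' : |p'.2 - α₀| < δ := by
    have := hp'.2.2.2
    rw [hp'0, Metric.mem_ball, Prod.dist_eq, max_lt_iff] at this
    exact this.2
  -- intermediate values in `α`
  have hin : ∀ a : ℝ, |a - α₀| < δ → ((s • y, a) : Y × ℝ) ∈ Metric.ball ((0 : Y), α₀) δ := by
    intro a ha
    rw [Metric.mem_ball, Prod.dist_eq, max_lt_iff]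
    exact ⟨by simpa using hs3, ha⟩
  have hseg : ∀ a ∈ Set.uIcc p.2 p'.2, |a - α₀| < δ := by
    intro a ha0
    rw [Set.mem_uIcc] at ha0
    rw [abs_lt] at ha ha' ⊢
    rcases ha0 with h | h
    · constructor <;> linarith [ha.1, ha.2, ha'.1, ha'.2, h.1, h.2]
    · constructor <;> linarith [ha.1, ha.2, ha'.1, ha'.2, h.1, h.2]
  have hcont : ContinuousOn (fun a : ℝ => f (Ψ (s • y, a))) (Set.uIcc p.2 p'.2) := by
    intro a ha0
    have hb := hball _ (hin a (hseg a ha0))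
    have hc1 : ContinuousAt (fun a : ℝ => ((s • y, a) : Y × ℝ)) a := by fun_prop
    have hc2 : ContinuousAt (fun a : ℝ => Ψ (s • y, a)) a :=
      ContinuousAt.comp (g := Ψ) (f := fun a : ℝ => ((s • y, a) : Y × ℝ))
        hb.1.continuousAt hc1
    exact (ContinuousAt.comp (g := f) (f := fun a : ℝ => Ψ (s • y, a))
      hb.2.2.2.continuousAt hc2).continuousWithinAt
  have hivt := intermediate_value_uIcc hcont
  have h0mem : (0 : ℝ) ∈ Set.uIcc (f (Ψ (s • y, p.2))) (f (Ψ (s • y, p'.2))) := by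
    rw [Set.mem_uIcc]
    right
    constructor <;> linarith
  obtain ⟨a, ha0, hfa⟩ := hivt h0mem
  have hb := hball _ (hin a (hseg a ha0))
  refine ⟨Ψ (s • y, a), hb.2.2.1, s, hs4.ne', ?_, hfa⟩
  exact congrArg Prod.fst hb.2.1

end Bif

end Pool.Agent.Sch
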