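import Pool.Agent.Sch.RadBranch
import Pool.Agent.Sch.Bif
import Pool.Agent.Sch.Base

/-!
# The branch of nonradial solutions
-/

open scoped ENNReal Topology

set_option maxHeartbeats 400000

noncomputable section

namespace Pool.Agent.Sch

variable {α ρ : ℝ}

theorem mj_le (j : ℕ) : mj j ≤ 2 := by unfold mj; split_ifs <;> norm_num
theorem one_le_mj (j : ℕ) : 1 ≤ mj j := by unfold mj; split_ifs <;> norm_num

/-- The weights `c'_j = mj * c / ρ * (g_0 * sm κ)`. -/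
theorem weight_bound (c A : ℝ) (h0 : 0 < ρ) (j : ℕ) :
    ‖mj j * c / ρ * A‖ ≤ 2 * ‖c / ρ * A‖ := by
  rw [mul_div_assoc, mul_assoc, norm_mul, Real.norm_eq_abs, abs_of_pos (mj_pos j)]
  gcongr
  exact mj_le j

/-- Bijectivity of the derivative at a radial point. -/
theorem bij (R : Rng α ρ) (c : ℝ) (hdg : dg 0 α (ρ ^ 2 / 2) = 0)
    (hc : c * g 0 α (ρ ^ 2 / 2) = 1) (δ : ℝ) (hδ : 0 < δ)
    (hg : ∀ k, 8 ≤ k → δ ≤ g k α (ρ ^ 2 / 2)) :
    Function.Bijective fun v : XX => fderiv ℝ GG (x0 α ρ c, α) (v, 0) := by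
  have h1 := lt_one_of_rng R
  obtain ⟨L, hL, hLf⟩ := hasFDerivAt_opK (ρ • (e 0 : L1 ℕ)) (isUnit_rad ρ h1)
  have hLe := dK_rad ρ R.h0 h1 L hLf
  have hsm := sm_kp_pos R.h0 h1
  have hc0 : c ≠ 0 := fun h => by rw [h, zero_mul] at hc; exact zero_ne_one hc
  have hg0 : g 0 α (ρ ^ 2 / 2) ≠ 0 := fun h => by rw [h, mul_zero] at hc; exact zero_ne_one hc
  have hfd := fd_all R c L hL hLe hdg (2 * ‖c / ρ * (g 0 α (ρ ^ 2 / 2) * sm (kp ρ))‖)
    (fun j => weight_bound c _ R.h0 j)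
  -- the diagonal operator in `b`
  set d : ℕ → ℝ := fun j => if j = 1 then 1 else g (4 * j) α (ρ ^ 2 / 2) with hd
  have hgle : ∀ j, ‖g (4 * j) α (ρ ^ 2 / 2)‖ ≤ cA ρ := by
    intro j
    rw [← sm_Aj R j]
    calc ‖sm (Aj α ρ j)‖ ≤ 1 * ‖Aj α ρ j‖ := norm_clm_apply_le sm (fun n => by
          rw [sm_e, norm_pow]; exact pow_le_one₀ (norm_nonneg _) (by norm_num)) _
      _ ≤ cA ρ := by rw [one_mul]; exact norm_Aj_le R j
  have hd1 : ∀ j, ‖d j‖ ≤ max 1 (cA ρ) := by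
    intro j
    simp only [hd]
    split_ifs
    · simp
    · exact (hgle j).trans (le_max_right _ _)
  have hd0 : ∀ j, d j ≠ 0 := by
    intro j
    simp only [hd]
    split_ifs with hj
    · norm_num
    · rcases Nat.eq_zero_or_pos j with h | h
      · subst h; simpa using hg0
      · have := hg (4 * j) (by omega)
        exact (lt_of_lt_of_le hδ this).ne'
  have hd2 : ∀ j, ‖(d j)⁻¹‖ ≤ max 1 (max ‖(g 0 α (ρ ^ 2 / 2))⁻¹‖ δ⁻¹) := by
    intro j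
    simp only [hd]
    split_ifs with hj
    · simp
    · rcases Nat.eq_zero_or_pos j with h | h
      · subst h
        simp only [Nat.mul_zero]
        exact (le_max_left _ _).trans (le_max_right _ _)
      · have := hg (4 * j) (by omega)
        refine le_trans ?_ ((le_max_right _ _).trans (le_max_right _ _))
        rw [norm_inv, Real.norm_eq_abs, abs_of_pos (lt_of_lt_of_le hδ this)]
        exact inv_anti₀ hδ this
  have hD := Dg_bijective d _ hd1 _ hd0 hd2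
  have hPb : ∀ b : L1 ℕ, Pr (opDir (opL R b)) + (coord 1 b) • e 1 = Dg d _ hd1 b := by
    intro b
    refine lp.ext (funext fun j => ?_)
    rw [lp.coeFn_add, Pi.add_apply, lp.coeFn_smul, Pi.smul_apply, Pr_apply, opDir_opL, Dg_apply,
      smul_eq_mul, coord_apply, e_apply]
    simp only [hd]
    split_ifs with hj
    · subst hj; ring
    · ring
  -- the diagonal operator in `q`
  have hw0 : ∀ j, mj j * c / ρ * (g 0 α (ρ ^ 2 / 2) * sm (kp ρ)) ≠ 0 := by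
    intro j
    have := (mj_pos j).ne'
    have := R.h0.ne'
    have := hsm.ne'
    positivity
  have hQ := Dg_bijective (fun j => mj j * c / ρ * (g 0 α (ρ ^ 2 / 2) * sm (kp ρ))) _
    (fun j => weight_bound c (g 0 α (ρ ^ 2 / 2) * sm (kp ρ)) R.h0 j)
    (‖(c / ρ * (g 0 α (ρ ^ 2 / 2) * sm (kp ρ)))⁻¹‖) hw0 (fun j => by
      have h2 : (mj j * c / ρ * (g 0 α (ρ ^ 2 / 2) * sm (kp ρ)))⁻¹
          = (mj j)⁻¹ * (c / ρ * (g 0 α (ρ ^ 2 / 2) * sm (kp ρ)))⁻¹ := by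
        rw [mul_div_assoc, mul_assoc, mul_inv]
      rw [h2, norm_mul]
      have h3 : ‖(mj j)⁻¹‖ ≤ 1 := by
        rw [norm_inv, Real.norm_eq_abs, abs_of_pos (mj_pos j)]
        exact inv_le_one_of_one_le₀ (one_le_mj j)
      exact mul_le_of_le_one_left (norm_nonneg _) h3)
  have hV := opV_bijective (Hc 0 (kp ρ)) α
  have key : ∀ x : XX, x = (x.1, x.2.1, opL R x.1 + opQ α ρ c R.h0 x.2.1 +
      (x.2.2 - opL R x.1 - opQ α ρ c R.h0 x.2.1)) := by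
    intro x
    refine Prod.ext rfl (Prod.ext rfl ?_)
    simp only []
    abel
  constructor
  · intro x y hxy
    have hz : fderiv ℝ GG (x0 α ρ c, α) (x - y, 0) = 0 := by
      have h2 : ((x - y, 0) : XX × ℝ) = (x, 0) - (y, 0) := by simp
      rw [h2, map_sub]
      simp only [] at hxy
      rw [hxy, sub_self]
    set z := x - y with hzdef
    rw [key z, hfd] at hz
    have e1 := congrArg Prod.fst hz
    have e2 := congrArg (fun t => t.2.1) hz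
    have e3 := congrArg (fun t => t.2.2) hz
    simp only [Prod.fst_zero, Prod.snd_zero] at e1 e2 e3
    have hv : z.2.2 - opL R z.1 - opQ α ρ c R.h0 z.2.1 = 0 :=
      hV.1 (by rw [e1, map_zero])
    rw [hv] at e2 e3
    rw [map_zero, map_zero, add_zero, hPb] at e2
    have hb : z.1 = 0 := hD.1 (by rw [e2, map_zero])
    rw [hb] at e3
    rw [map_zero, mul_zero, map_zero, zero_add, add_zero] at e3
    have hq : z.2.1 = 0 := hQ.1 (by rw [e3, map_zero])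
    have hw : z.2.2 = 0 := by
      rw [hb, hq, map_zero, map_zero, sub_zero, sub_zero] at hv
      exact hv
    have hz0 : z = 0 := Prod.ext hb (Prod.ext hq hw)
    exact sub_eq_zero.mp hz0
  · rintro ⟨r1, r2, r3⟩
    obtain ⟨v, hv⟩ := hV.2 r1
    obtain ⟨b, hb⟩ := hD.2 (r2 - Pr (opDir v))
    obtain ⟨q, hq⟩ := hQ.2 (r3 - opNeu (Hc 0 (kp ρ) * v) - opNeu (Hc 0 (kp ρ) * opL R b))
    refine ⟨(b, q, opL R b + opQ α ρ c R.h0 q + v), ?_⟩
    simp only []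
    rw [hfd, hv, hPb, hb, hq]
    refine Prod.ext rfl (Prod.ext ?_ ?_)
    · simp
    · simp only []
      abel

/-- The critical direction. -/
theorem direction (R : Rng α ρ) (c : ℝ) (hdg : dg 0 α (ρ ^ 2 / 2) = 0)
    (hc : c * g 0 α (ρ ^ 2 / 2) = 1) :
    ∃ v : XX, fderiv ℝ GG (x0 α ρ c, α) (v, 0) = (0, e 1, 0) ∧
      fderiv ℝ ff (x0 α ρ c, α) (v, 0) = g 4 α (ρ ^ 2 / 2) := by
  have h1 := lt_one_of_rng R
  obtain ⟨L, hL, hLf⟩ := hasFDerivAt_opK (ρ • (e 0 : L1 ℕ)) (isUnit_rad ρ h1)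
  have hLe := dK_rad ρ R.h0 h1 L hLf
  have hsm := sm_kp_pos R.h0 h1
  have hc0 : c ≠ 0 := fun h => by rw [h, zero_mul] at hc; exact zero_ne_one hc
  have hg0 : g 0 α (ρ ^ 2 / 2) ≠ 0 := fun h => by rw [h, mul_zero] at hc; exact zero_ne_one hc
  have hfd := fd_all R c L hL hLe hdg (2 * ‖c / ρ * (g 0 α (ρ ^ 2 / 2) * sm (kp ρ))‖)
    (fun j => weight_bound c _ R.h0 j)
  set μ := nu 1 (cv (Aj α ρ 1) (kp ρ)) with hμ
  set γ := mj 1 * c / ρ * (g 0 α (ρ ^ 2 / 2) * sm (kp ρ)) with hγ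
  have hγ0 : γ ≠ 0 := by
    have := (mj_pos 1).ne'
    have := R.h0.ne'
    have := hsm.ne'
    positivity
  refine ⟨(e 1, (-(μ / γ)) • e 1, opL R (e 1) + opQ α ρ c R.h0 ((-(μ / γ)) • e 1) + 0), ?_, ?_⟩
  · rw [hfd]
    refine Prod.ext ?_ (Prod.ext ?_ ?_)
    · simp
    · simp only [map_zero, add_zero]
      rw [opL_e, opDir_Hc, map_smul, Pr_e, if_pos rfl, smul_zero, zero_add, coord_apply, e_self,
        one_smul]
    · simp only [mul_zero, map_zero, add_zero]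
      rw [opL_e, mul_comm, Hc_mul, opNeu_Hc, map_smul, Dg_e, smul_smul, ← add_smul, ← hμ, ← hγ]
      rw [show μ + -(μ / γ) * γ = 0 by field_simp; ring, zero_smul]
  · rw [fderiv_ff]
    simp only [add_zero]
    rw [map_add, map_smul, opL_e, opQ_e, opDir_Hc, sm_Aj R, map_smul, map_smul, opDir_Hc, sm_NA R,
      hdg, mul_zero, zero_smul, smul_zero, smul_zero, add_zero, map_smul, coord_apply, e_self]
    simp

theorem continuousAt_Aj (h0 : 0 < ρ) (hρ : ρ ^ 2 < 9 / 10) (hα : |α| < 30) :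
    ContinuousAt (fun p : ℝ × ℝ => Aj p.1 p.2 0) (α, ρ) := by
  have h1 : ∀ᶠ p : ℝ × ℝ in 𝓝 (α, ρ), Rng p.1 p.2 := by
    have e1 : ∀ᶠ p : ℝ × ℝ in 𝓝 (α, ρ), 0 < p.2 :=
      continuous_snd.continuousAt.eventually (lt_mem_nhds h0)
    have e2 : ∀ᶠ p : ℝ × ℝ in 𝓝 (α, ρ), p.2 ^ 2 < 9 / 10 :=
      (continuous_snd.pow 2).continuousAt.eventually (gt_mem_nhds hρ)
    have e3 : ∀ᶠ p : ℝ × ℝ in 𝓝 (α, ρ), |p.1| < 30 :=
      (continuous_fst.abs).continuousAt.eventually (gt_mem_nhds hα)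
    filter_upwards [e1, e2, e3] with p h1 h2 h3 using ⟨h1, h2, h3.le⟩
  have hR : Rng α ρ := ⟨h0, hρ, hα.le⟩
  have h2 : ∀ p : ℝ × ℝ, Rng p.1 p.2 →
      Aj p.1 p.2 0 = ∑' n, (cf 0 p.1 n * (p.2 ^ 2) ^ n) • (e n : L1 ℕ) := by
    intro p hp
    rw [← (hasSum_e (Aj p.1 p.2 0)).tsum_eq]
    refine tsum_congr fun n => ?_
    rw [Aj_apply hp]
  have h3 : Filter.Tendsto (fun p : ℝ × ℝ => ∑' n, (cf 0 p.1 n * (p.2 ^ 2) ^ n) • (e n : L1 ℕ))
      (𝓝 (α, ρ)) (𝓝 (∑' n, (cf 0 α n * (ρ ^ 2) ^ n) • (e n : L1 ℕ))) := by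
    refine tendsto_tsum_of_dominated_convergence
      (bound := fun n : ℕ => ((n + 29).choose 29 : ℝ) * (9 / 10) ^ n)
      (summable_choose (9 / 10) (by norm_num) (by norm_num)) (fun n => ?_) ?_
    · have hcf : Continuous fun p : ℝ × ℝ => (cf 0 p.1 n * (p.2 ^ 2) ^ n) • (e n : L1 ℕ) :=
        (((continuous_cf 0 n).comp continuous_fst).mul ((continuous_snd.pow 2).pow n)).smul
          continuous_const
      exact hcf.continuousAt
    · filter_upwards [h1] with p hp n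
      rw [norm_smul, norm_e, mul_one, norm_mul, norm_pow,
        Real.norm_of_nonneg (by positivity : (0 : ℝ) ≤ p.2 ^ 2)]
      have h4 := abs_cf_le 0 p.1 hp.ha n
      have h5 : (p.2 ^ 2) ^ n ≤ (9 / 10 : ℝ) ^ n := pow_le_pow_left₀ (by positivity) hp.h1.le n
      rw [Real.norm_eq_abs]
      exact mul_le_mul h4 h5 (by positivity) (Nat.cast_nonneg _)
  rw [ContinuousAt, h2 (α, ρ) hR]
  exact h3.congr' (h1.mono fun p hp => (h2 p hp).symm)

theorem continuousAt_x0 (h0 : 0 < ρ) (hρ : ρ ^ 2 < 9 / 10) (hα : |α| < 30)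
    (hg : g 0 α (ρ ^ 2 / 2) ≠ 0) :
    ContinuousAt (fun p : ℝ × ℝ => (x0 p.1 p.2 (g 0 p.1 (p.2 ^ 2 / 2))⁻¹, p.1)) (α, ρ) := by
  have h1 := continuousAt_Aj h0 hρ hα
  have ht : |ρ ^ 2 / 2| < 1 := by
    rw [abs_of_nonneg (by positivity)]; linarith
  have h2 : ContinuousAt (fun p : ℝ × ℝ => g 0 p.1 (p.2 ^ 2 / 2)) (α, ρ) := by
    have h3 : ContinuousAt (fun p : ℝ × ℝ => (p.1, p.2 ^ 2 / 2)) (α, ρ) := by fun_prop
    exact ContinuousAt.comp (g := fun p : ℝ × ℝ => g 0 p.1 p.2)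
      (f := fun p : ℝ × ℝ => (p.1, p.2 ^ 2 / 2)) (continuousAt_g 0 α (ρ ^ 2 / 2) hα ht) h3
  have h4 : ContinuousAt (fun p : ℝ × ℝ => (g 0 p.1 (p.2 ^ 2 / 2))⁻¹) (α, ρ) := h2.inv₀ hg
  have h5 : ContinuousAt (fun p : ℝ × ℝ => Hc 0 (Aj p.1 p.2 0)) (α, ρ) :=
    (Hc 0).continuous.continuousAt.comp h1
  have h6 : ContinuousAt (fun p : ℝ × ℝ => p.2) (α, ρ) := continuous_snd.continuousAt
  have h7 : ContinuousAt (fun p : ℝ × ℝ => p.1) (α, ρ) := continuous_fst.continuousAt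
  unfold x0
  exact ((h4.smul continuousAt_const).prodMk ((h6.smul continuousAt_const).prodMk
    (h4.smul h5))).prodMk h7

/-- The branch of nonradial solutions. -/
theorem branch (ε : ℝ) (hε : 0 < ε) : ∃ (b q : L1 ℕ) (w : W) (α ρ : ℝ),
    3 / 5 < ρ ^ 2 ∧ ρ ^ 2 < 4 / 5 ∧ 0 < ρ ∧ ‖q - ρ • (e 0 : L1 ℕ)‖ < ε ∧ 20 < α ∧ α < 30 ∧
    b 1 ≠ 0 ∧ Sol b q w α := by
  obtain ⟨t, α, ht1, ht2, hα1, hα2, hdg, hg0, hg8, hpos, hneg⟩ := base_point
  set ρ := √(2 * t) with hρdef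
  have hρ2 : ρ ^ 2 = 2 * t := Real.sq_sqrt (by linarith)
  have hρt : ρ ^ 2 / 2 = t := by rw [hρ2]; ring
  have hρ0 : 0 < ρ := Real.sqrt_pos.mpr (by linarith)
  have hρ9 : ρ ^ 2 < 9 / 10 := by rw [hρ2]; linarith
  have hαabs : |α| < 30 := by rw [abs_of_pos (by linarith)]; linarith
  have R : Rng α ρ := ⟨hρ0, hρ9, hαabs.le⟩
  have hc : (g 0 α (ρ ^ 2 / 2))⁻¹ * g 0 α (ρ ^ 2 / 2) = 1 := by
    rw [hρt]; exact inv_mul_cancel₀ hg0
  have hgρ : g 0 α (ρ ^ 2 / 2) ≠ 0 := by rw [hρt]; exact hg0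
  set c := (g 0 α (ρ ^ 2 / 2))⁻¹ with hcdef
  have hcont := continuousAt_x0 hρ0 hρ9 hαabs hgρ
  -- trivial solutions near the base point
  have hnear : ∀ (S : ℝ → Prop), (∀ ε > 0, ∃ t' α', |t' - t| < ε ∧ |α' - α| < ε ∧
      dg 0 α' t' = 0 ∧ S (g 4 α' t')) → (∀ x, S x → x ≠ 0) →
      ∀ U ∈ 𝓝 (x0 α ρ c, α), ∃ p ∈ U, GG p = 0 ∧ ff p = 0 ∧
        ∃ v : XX, fderiv ℝ GG p (v, 0) = (0, e 1, 0) ∧ S (fderiv ℝ ff p (v, 0)) := by
    intro S hS hS0 U hU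
    have h1 : ∀ᶠ p : ℝ × ℝ in 𝓝 (α, ρ), (x0 p.1 p.2 (g 0 p.1 (p.2 ^ 2 / 2))⁻¹, p.1) ∈ U :=
      hcont hU
    -- conditions on `(α', ρ')`
    have h2 : ∀ᶠ p : ℝ × ℝ in 𝓝 (α, ρ), 0 < p.2 ∧ p.2 ^ 2 < 9 / 10 ∧ |p.1| < 30 ∧ 0 < p.1 ∧
        g 0 p.1 (p.2 ^ 2 / 2) ≠ 0 := by
      have e1 : ∀ᶠ p : ℝ × ℝ in 𝓝 (α, ρ), 0 < p.2 :=
        continuous_snd.continuousAt.eventually (lt_mem_nhds hρ0)
      have e2 : ∀ᶠ p : ℝ × ℝ in 𝓝 (α, ρ), p.2 ^ 2 < 9 / 10 :=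
        (continuous_snd.pow 2).continuousAt.eventually (gt_mem_nhds hρ9)
      have e3 : ∀ᶠ p : ℝ × ℝ in 𝓝 (α, ρ), |p.1| < 30 :=
        (continuous_fst.abs).continuousAt.eventually (gt_mem_nhds hαabs)
      have e4 : ∀ᶠ p : ℝ × ℝ in 𝓝 (α, ρ), 0 < p.1 :=
        continuous_fst.continuousAt.eventually (lt_mem_nhds (by linarith))
      have ht : |ρ ^ 2 / 2| < 1 := by
        rw [abs_of_nonneg (by positivity)]; linarith
      have h3 : ContinuousAt (fun p : ℝ × ℝ => (p.1, p.2 ^ 2 / 2)) (α, ρ) := by fun_prop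
      have e5 : ContinuousAt (fun p : ℝ × ℝ => g 0 p.1 (p.2 ^ 2 / 2)) (α, ρ) :=
        ContinuousAt.comp (g := fun p : ℝ × ℝ => g 0 p.1 p.2)
          (f := fun p : ℝ × ℝ => (p.1, p.2 ^ 2 / 2)) (continuousAt_g 0 α (ρ ^ 2 / 2) hαabs ht) h3
      filter_upwards [e1, e2, e3, e4, e5.eventually_ne hgρ] with p h1 h2 h3 h4 h5
        using ⟨h1, h2, h3, h4, h5⟩
    -- pull back to `(α', t')`
    have h3 : Filter.Tendsto (fun p : ℝ × ℝ => (p.1, √(2 * p.2))) (𝓝 (α, t)) (𝓝 (α, ρ)) := by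
      have : Continuous fun p : ℝ × ℝ => (p.1, √(2 * p.2)) := by fun_prop
      exact this.tendsto (α, t)
    have h4 := h3.eventually (h1.and h2)
    have h5 : ∀ᶠ p : ℝ × ℝ in 𝓝 (α, t), 0 < p.2 :=
      continuous_snd.continuousAt.eventually (lt_mem_nhds (by linarith))
    obtain ⟨η, hη, hη2⟩ := Metric.eventually_nhds_iff.mp (h4.and h5)
    obtain ⟨t', α', a1, a2, a3, a4⟩ := hS η hη
    have hd : dist ((α', t') : ℝ × ℝ) (α, t) < η := by
      rw [Prod.dist_eq, Real.dist_eq, Real.dist_eq]; exact max_lt a2 a1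
    obtain ⟨⟨b1, b2, b3, b4, b5, b6⟩, b7⟩ := hη2 hd
    simp only [] at b1 b2 b3 b4 b5 b6 b7
    set ρ' := √(2 * t') with hρ'
    have hρt' : ρ' ^ 2 / 2 = t' := by
      rw [hρ', Real.sq_sqrt (by linarith)]; ring
    have R' : Rng α' ρ' := ⟨b2, b3, b4.le⟩
    have hc' : (g 0 α' (ρ' ^ 2 / 2))⁻¹ * g 0 α' (ρ' ^ 2 / 2) = 1 := inv_mul_cancel₀ b6
    have hdg' : dg 0 α' (ρ' ^ 2 / 2) = 0 := by rw [hρt']; exact a3
    obtain ⟨v, hv1, hv2⟩ := direction R' _ hdg' hc'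
    refine ⟨_, b1, GG_x0 R' _ b5.ne' hdg' hc', ff_x0 R' _, v, hv1, ?_⟩
    rw [hv2, hρt']
    exact a4
  have hG0 : GG (x0 α ρ c, α) = 0 :=
    GG_x0 R c (by linarith : (0 : ℝ) < α).ne' (by rw [hρt]; exact hdg) hc
  have hbij := bij R c (by rw [hρt]; exact hdg) hc (1 / 20) (by norm_num)
    (fun k hk => by rw [hρt]; exact hg8 k hk)
  have hu : IsUnit (1 - opI (x0 α ρ c, α).1.2.1 * opIb (x0 α ρ c, α).1.2.1) :=
    isUnit_rad ρ (lt_one_of_rng R)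
  have main := bifurcation GG ff (x0 α ρ c) α (0, e 1, 0) (contDiffAt_GG _ hu) (contDiffAt_ff _)
    hG0 hbij (hnear (fun x => 0 < x) hpos (fun x hx => ne_of_gt hx))
    (hnear (fun x => x < 0) hneg (fun x hx => ne_of_lt hx))
  -- choose the neighbourhood
  have hU : {p : XX × ℝ | ‖p.1.2.1 - ρ • (e 0 : L1 ℕ)‖ < ε ∧ 20 < p.2 ∧ p.2 < 30}
      ∈ 𝓝 (x0 α ρ c, α) := by
    have c1 : Continuous fun p : XX × ℝ => ‖p.1.2.1 - ρ • (e 0 : L1 ℕ)‖ := by fun_prop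
    have c2 : Continuous fun p : XX × ℝ => p.2 := continuous_snd
    have e1 : ∀ᶠ p : XX × ℝ in 𝓝 (x0 α ρ c, α), ‖p.1.2.1 - ρ • (e 0 : L1 ℕ)‖ < ε := by
      refine c1.continuousAt.eventually (gt_mem_nhds ?_)
      simpa [x0] using hε
    have e2 : ∀ᶠ p : XX × ℝ in 𝓝 (x0 α ρ c, α), 20 < p.2 :=
      c2.continuousAt.eventually (lt_mem_nhds (by linarith : (20 : ℝ) < α))
    have e3 : ∀ᶠ p : XX × ℝ in 𝓝 (x0 α ρ c, α), p.2 < 30 :=
      c2.continuousAt.eventually (gt_mem_nhds (by linarith : α < (30 : ℝ)))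
    filter_upwards [e1, e2, e3] with p h1 h2 h3 using ⟨h1, h2, h3⟩
  obtain ⟨⟨⟨b, q, w⟩, α'⟩, hp, s, hs, hGp, hfp⟩ := main _ hU
  simp only [Set.mem_ofPred_eq] at hp
  have e1 := congrArg Prod.fst hGp
  have e2 := congrArg (fun z => z.2.1) hGp
  have e3 := congrArg (fun z => z.2.2) hGp
  simp only [GG, Prod.smul_fst, Prod.smul_snd, smul_zero] at e1 e2 e3
  simp only [ff] at hfp
  have hb1 : b 1 = s := by
    have := congrArg (fun a : L1 ℕ => a 1) e2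
    simp only [] at this
    rw [lp.coeFn_add, Pi.add_apply, Pr_apply, if_pos rfl, zero_add, lp.coeFn_smul, Pi.smul_apply,
      lp.coeFn_smul, Pi.smul_apply, e_self] at this
    simpa using this
  refine ⟨b, q, w, α', ρ, by rw [hρ2]; linarith, by rw [hρ2]; linarith, hρ0, hp.1, hp.2.1, hp.2.2,
    by rw [hb1]; exact hs, ⟨sub_eq_zero.mp e1, ?_, e3⟩⟩
  refine lp.ext (funext fun j => ?_)
  by_cases hj : j = 1
  · subst hj
    rw [e_ne (by norm_num)]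
    exact hfp
  · have := congrArg (fun a : L1 ℕ => a j) e2
    simp only [] at this
    rw [lp.coeFn_add, Pi.add_apply, Pr_apply, if_neg hj, lp.coeFn_smul, Pi.smul_apply,
      lp.coeFn_smul, Pi.smul_apply, e_ne hj, smul_zero, add_zero, lp.coeFn_sub, Pi.sub_apply,
      smul_zero] at this
    exact sub_eq_zero.mp this

/-- A solution with a linear conformal map is radial. -/
theorem linear_trivial (b : L1 ℕ) (w : W) (α ρ : ℝ) (h0 : 0 < ρ) (hρ : ρ ^ 2 < 9 / 10)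
    (hα : 20 < α) (hα' : α < 30) (h : Sol b (ρ • (e 0 : L1 ℕ)) w α) : b 1 = 0 :=
  linear_trivial_of b w α ρ h0 hρ hα hα' (opK_rad ρ (by linarith)) h

end Pool.Agent.Sch
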