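import Pool.Agent.Sch.Alg

/-!
# Definitions for the Schiffer / Pompeiu problem in the hyperbolic plane
-/

open scoped ENNReal
open Complex (I)

noncomputable section

namespace Pool.Agent.Sch

/-! ### Scalar mode functions -/

/-- Taylor coefficients of the mode function `g_k(·;α)`,
`t g'' + (k+1) g' + α g / (1-t)^2 = 0`, `g(0) = 1`. -/
def cf {𝕜 : Type*} [Field 𝕜] (k : ℕ) (α : 𝕜) : ℕ → 𝕜
  | 0 => 1
  | 1 => -α / ((k : 𝕜) + 1)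
  | (n + 2) => ((2 * ((n : 𝕜) + 1) * (n + 1 + k) - α) * cf k α (n + 1) - n * (n + k) * cf k α n) /
      (((n : 𝕜) + 2) * (n + 2 + k))

/-- The mode function `g_k(t;α)`. -/
def g (k : ℕ) (α t : ℝ) : ℝ := ∑' n, cf k α n * t ^ n

/-- Its derivative in `t`. -/
def dg (k : ℕ) (α t : ℝ) : ℝ := ∑' n : ℕ, ((n : ℝ) + 1) * cf k α (n + 1) * t ^ n

/-! ### Operators -/

/-- `q ↦ ψ'(z) = ∑ q_j z^{4j}`. -/
def opJ : L1 ℕ →L[ℝ] W := lift (fun j => mono (4 * j, 0)) 1 (fun _ => (norm_mono _).le)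

/-- `q ↦ ψ'(z̄) = ∑ q_j z̄^{4j}`. -/
def opJb : L1 ℕ →L[ℝ] W := lift (fun j => mono (0, 4 * j)) 1 (fun _ => (norm_mono _).le)

theorem inv_le_one_aux (x : ℝ) (hx : 0 ≤ x) : ‖(1 / (x + 1) : ℝ)‖ ≤ 1 := by
  rw [Real.norm_eq_abs, abs_of_nonneg (by positivity), div_le_one (by positivity)]
  linarith

/-- `q ↦ ψ(z) = ∑ q_j z^{4j+1}/(4j+1)`. -/
def opI : L1 ℕ →L[ℝ] W :=
  lift (fun j => (1 / (4 * (j : ℝ) + 1)) • mono (4 * j + 1, 0)) 1 (fun j => by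
    rw [norm_smul, norm_mono, mul_one]; exact inv_le_one_aux _ (by positivity))

/-- `q ↦ ψ(z̄)`. -/
def opIb : L1 ℕ →L[ℝ] W :=
  lift (fun j => (1 / (4 * (j : ℝ) + 1)) • mono (0, 4 * j + 1)) 1 (fun j => by
    rw [norm_smul, norm_mono, mul_one]; exact inv_le_one_aux _ (by positivity))

/-- `b ↦ H_b = b_0 + ∑_{j≥1} b_j (z^{4j} + z̄^{4j})`. -/
def opH : L1 ℕ →L[ℝ] W :=
  lift (fun j => if j = 0 then mono (0, 0) else mono (4 * j, 0) + mono (0, 4 * j)) 2 (fun j => by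
    split_ifs
    · rw [norm_mono]; norm_num
    · refine (norm_add_le _ _).trans ?_
      rw [norm_mono, norm_mono]; norm_num)

/-- The Volterra operator `z^m z̄^n ↦ z^{m+1} z̄^{n+1}/((m+1)(n+1))`. -/
def opT : W →L[ℝ] W :=
  liftW (fun p => (1 / (((p.1 : ℝ) + 1) * ((p.2 : ℝ) + 1))) • mono (p.1 + 1, p.2 + 1)) 1
    (fun p => by
      rw [norm_smul, norm_mono, mul_one, ← one_div_mul_one_div, norm_mul]
      exact mul_le_one₀ (inv_le_one_aux _ (by positivity)) (norm_nonneg _)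
        (inv_le_one_aux _ (by positivity)))

/-- Fourier coefficients of order `4j ≥ 0` on the circle `|z|² = 1/2` (divided by `2^{-2j}`). -/
def opDir : W →L[ℝ] L1 ℕ :=
  liftW (fun p => if p.2 ≤ p.1 ∧ 4 ∣ p.1 - p.2 then ((1 / 2 : ℝ) ^ p.2) • e ((p.1 - p.2) / 4)
    else 0) 1 (fun p => by
      split_ifs
      · rw [norm_smul, norm_e, mul_one, norm_pow]
        exact pow_le_one₀ (norm_nonneg _) (by norm_num)
      · simp)

/-- `Neu(f)_j = (4j+1) ∑_n f_{n+4j,n} 2^{-n}/(n+4j+1)`. -/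
def opNeu : W →L[ℝ] L1 ℕ :=
  liftW (fun p => if p.2 ≤ p.1 ∧ 4 ∣ p.1 - p.2 then
      ((((p.1 : ℝ) - p.2 + 1) / (p.1 + 1)) * (1 / 2 : ℝ) ^ p.2) • e ((p.1 - p.2) / 4)
    else 0) 1 (fun p => by
      split_ifs with h
      · have h1 : (p.2 : ℝ) ≤ p.1 := by exact_mod_cast h.1
        rw [norm_smul, norm_e, mul_one, norm_mul, norm_pow]
        refine mul_le_one₀ ?_ (by positivity) (pow_le_one₀ (norm_nonneg _) (by norm_num))
        rw [Real.norm_eq_abs, abs_of_nonneg (by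
          apply div_nonneg <;> [linarith; positivity]), div_le_one (by positivity)]
        have : (0 : ℝ) ≤ p.2 := by positivity
        linarith
      · simp)

/-- `K_q = ψ'(z) ψ'(z̄) (1 - ψ(z) ψ(z̄))^{-2}`. -/
def opK (q : L1 ℕ) : W := opJ q * opJb q * (Ring.inverse (1 - opI q * opIb q)) ^ 2

/-- The system of equations: `w + α T(K_q w) = H_b`, `Dir w = e_0`, `Neu (K_q w) = 0`. -/
structure Sol (b q : L1 ℕ) (w : W) (α : ℝ) : Prop where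
  vol : w + α • opT (opK q * w) = opH b
  dir : opDir w = e 0
  neu : opNeu (opK q * w) = 0

/-! ### Evaluation -/

/-- Value of the double series at `(z, z')`. -/
def ev (z z' : ℂ) (a : W) : ℂ := ∑' p : ℕ × ℕ, (a p : ℂ) * (z ^ p.1 * z' ^ p.2)

/-- The conformal map `ψ(z) = ∑ q_j z^{4j+1}/(4j+1)`. -/
def psi (q : L1 ℕ) (z : ℂ) : ℂ := ∑' j : ℕ, (q j : ℂ) * (z ^ (4 * j + 1) / (4 * (j : ℂ) + 1))

/-- Its derivative `ψ'(z) = ∑ q_j z^{4j}`. -/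
def dpsi (q : L1 ℕ) (z : ℂ) : ℂ := ∑' j : ℕ, (q j : ℂ) * z ^ (4 * j)

/-- Radius of the parameter disc. -/
def kap : ℝ := √(1 / 2)

/-- Cayley transform from the disc to the upper half-plane. -/
def cay (z : ℂ) : ℂ := Complex.I * (1 + z) / (1 - z)

/-- The domain in the upper half-plane. -/
def dom (q : L1 ℕ) : Set UpperHalfPlane :=
  {τ : UpperHalfPlane | ∃ z ∈ Metric.ball (0 : ℂ) kap, (τ : ℂ) = cay (psi q z)}

/-! ### Polar calculus -/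

/-- `u(r,θ)` on `[0,1) × ℝ`, with `u1 = r ∂_r u`, `u2 = (r ∂_r)² u`, `v1 = ∂_θ u`,
`v2 = ∂_θ² u`. -/
structure Pol (u u1 u2 v1 v2 : ℝ → ℝ → ℂ) : Prop where
  cont_u : ContinuousOn (fun p : ℝ × ℝ => u p.1 p.2) (Set.Ico 0 1 ×ˢ Set.univ)
  cont_u1 : ContinuousOn (fun p : ℝ × ℝ => u1 p.1 p.2) (Set.Ico 0 1 ×ˢ Set.univ)
  cont_u2 : ContinuousOn (fun p : ℝ × ℝ => u2 p.1 p.2) (Set.Ico 0 1 ×ˢ Set.univ)
  cont_v1 : ContinuousOn (fun p : ℝ × ℝ => v1 p.1 p.2) (Set.Ico 0 1 ×ˢ Set.univ)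
  cont_v2 : ContinuousOn (fun p : ℝ × ℝ => v2 p.1 p.2) (Set.Ico 0 1 ×ˢ Set.univ)
  dr : ∀ r ∈ Set.Ioo (0 : ℝ) 1, ∀ θ, HasDerivAt (fun s => u s θ) (u1 r θ / r) r
  dr1 : ∀ r ∈ Set.Ioo (0 : ℝ) 1, ∀ θ, HasDerivAt (fun s => u1 s θ) (u2 r θ / r) r
  dθ : ∀ r ∈ Set.Ico (0 : ℝ) 1, ∀ θ, HasDerivAt (fun s => u r s) (v1 r θ) θ
  dθ1 : ∀ r ∈ Set.Ico (0 : ℝ) 1, ∀ θ, HasDerivAt (fun s => v1 r s) (v2 r θ) θ
  per : ∀ r ∈ Set.Ico (0 : ℝ) 1, ∀ θ, u r (θ + 2 * Real.pi) = u r θ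
  per1 : ∀ r ∈ Set.Ico (0 : ℝ) 1, ∀ θ, v1 r (θ + 2 * Real.pi) = v1 r θ
  zero : ∀ θ, u1 0 θ = 0

end Pool.Agent.Sch
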