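import Pool.Agent.Sch.KDeriv

/-!
# Diagonal operators, the nonlinear map and its derivative at radial points
-/

open scoped ENNReal Topology

set_option maxHeartbeats 400000

noncomputable section

namespace Pool.Agent.Sch

/-- Diagonal operators on `ℓ¹`. -/
def Dg (d : ℕ → ℝ) (C : ℝ) (hd : ∀ j, ‖d j‖ ≤ C) : L1 ℕ →L[ℝ] L1 ℕ :=
  lift (fun j => d j • e j) C (fun j => by rw [norm_smul, norm_e, mul_one]; exact hd j)

@[simp] theorem Dg_e (d : ℕ → ℝ) (C : ℝ) (hd : ∀ j, ‖d j‖ ≤ C) (j : ℕ) :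
    Dg d C hd (e j) = d j • e j := lift_e _ _ _ _

theorem Dg_apply (d : ℕ → ℝ) (C : ℝ) (hd : ∀ j, ‖d j‖ ≤ C) (a : L1 ℕ) (j : ℕ) :
    Dg d C hd a j = d j * a j := by
  have h : (coord j).comp (Dg d C hd) = d j • coord j := clm_ext fun i => by
    simp only [ContinuousLinearMap.comp_apply, Dg_e, map_smul, coord_apply, e_apply, smul_eq_mul,
      ContinuousLinearMap.smul_apply]
    by_cases hij : j = i
    · subst hij; ring
    · rw [if_neg hij]; ring
  exact congrArg (fun L => L a) h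

theorem Dg_bijective (d : ℕ → ℝ) (C : ℝ) (hd : ∀ j, ‖d j‖ ≤ C) (C' : ℝ) (h0 : ∀ j, d j ≠ 0)
    (hd' : ∀ j, ‖(d j)⁻¹‖ ≤ C') : Function.Bijective (Dg d C hd) := by
  constructor
  · intro a b hab
    refine lp.ext (funext fun j => ?_)
    have h := congrArg (fun x : L1 ℕ => x j) hab
    simp only [Dg_apply] at h
    exact mul_left_cancel₀ (h0 j) h
  · intro b
    refine ⟨Dg (fun j => (d j)⁻¹) C' hd' b, ?_⟩
    refine lp.ext (funext fun j => ?_)
    rw [Dg_apply, Dg_apply, ← mul_assoc, mul_inv_cancel₀ (h0 j), one_mul]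

/-- Kill coordinate `1`. -/
def Pr : L1 ℕ →L[ℝ] L1 ℕ := lift (fun j => if j = 1 then 0 else e j) 1 (fun j => by
  split_ifs
  · simp
  · simp)

@[simp] theorem Pr_e (j : ℕ) : Pr (e j) = if j = 1 then 0 else e j := lift_e _ _ _ _

theorem Pr_apply (a : L1 ℕ) (j : ℕ) : Pr a j = if j = 1 then 0 else a j := by
  have h : (coord j).comp Pr = (if j = 1 then (0 : ℝ) else 1) • coord j := clm_ext fun i => by
    simp only [ContinuousLinearMap.comp_apply, Pr_e, coord_apply, smul_eq_mul,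
      ContinuousLinearMap.smul_apply]
    by_cases hij : j = i
    · subst hij
      split_ifs <;> simp
    · rw [e_ne hij, mul_zero]
      split_ifs
      · rfl
      · exact e_ne hij
  have h2 := congrArg (fun L => L a) h
  simp only [ContinuousLinearMap.comp_apply, coord_apply, ContinuousLinearMap.smul_apply,
    smul_eq_mul] at h2
  rw [h2]
  split_ifs <;> simp

/-- Unknowns `(b, q, w)`. -/
abbrev XX : Type := L1 ℕ × L1 ℕ × W
/-- Equations. -/
abbrev YY : Type := W × L1 ℕ × L1 ℕ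

/-- The nonlinear map: Volterra equation, Dirichlet data without mode `1` (replaced by the
coordinate `b 1`), Neumann data. -/
def GG (p : XX × ℝ) : YY :=
  (p.1.2.2 + p.2 • opT (opK p.1.2.1 * p.1.2.2) - opH p.1.1,
    Pr (opDir p.1.2.2 - e 0) + (coord 1 p.1.1) • e 1,
    opNeu (opK p.1.2.1 * p.1.2.2))

/-- Dirichlet data of mode `1`. -/
def ff (p : XX × ℝ) : ℝ := coord 1 (opDir p.1.2.2)

theorem contDiffAt_GG (p : XX × ℝ) (hu : IsUnit (1 - opI p.1.2.1 * opIb p.1.2.1)) :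
    ContDiffAt ℝ 1 GG p := by
  have hK : ContDiffAt ℝ 1 (fun p : XX × ℝ => opK p.1.2.1) p :=
    ContDiffAt.comp (g := opK) (f := fun p : XX × ℝ => p.1.2.1) p (contDiffAt_opK _ hu)
      (by fun_prop)
  have hKw : ContDiffAt ℝ 1 (fun p : XX × ℝ => opK p.1.2.1 * p.1.2.2) p :=
    hK.mul (by fun_prop)
  unfold GG
  refine ContDiffAt.prodMk ?_ (ContDiffAt.prodMk ?_ ?_)
  · have hT : ContDiffAt ℝ 1 (fun p : XX × ℝ => opT (opK p.1.2.1 * p.1.2.2)) p :=
      opT.contDiff.contDiffAt.comp p hKw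
    have hα : ContDiffAt ℝ 1 (fun p : XX × ℝ => p.2) p := by fun_prop
    have hw : ContDiffAt ℝ 1 (fun p : XX × ℝ => p.1.2.2) p := by fun_prop
    have hb : ContDiffAt ℝ 1 (fun p : XX × ℝ => opH p.1.1) p := by fun_prop
    exact (hw.add (hα.smul hT)).sub hb
  · fun_prop
  · exact opNeu.contDiff.contDiffAt.comp p hKw

theorem contDiffAt_ff (p : XX × ℝ) : ContDiffAt ℝ 1 ff p := by
  unfold ff; fun_prop

theorem fderiv_ff (p : XX × ℝ) (v : XX) : fderiv ℝ ff p (v, 0) = coord 1 (opDir v.2.2) := by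
  let L : XX × ℝ →L[ℝ] ℝ := (coord 1).comp (opDir.comp
    ((ContinuousLinearMap.snd ℝ (L1 ℕ) W).comp ((ContinuousLinearMap.snd ℝ (L1 ℕ) (L1 ℕ × W)).comp
      (ContinuousLinearMap.fst ℝ XX ℝ))))
  have h : ff = L := rfl
  rw [h, L.fderiv]; rfl

/-- Directional derivative of the nonlinear map. -/
theorem fderiv_GG (p : XX × ℝ) (hu : IsUnit (1 - opI p.1.2.1 * opIb p.1.2.1))
    (L : L1 ℕ →L[ℝ] W) (hL : HasFDerivAt opK L p.1.2.1) (v : XX) :
    fderiv ℝ GG p (v, 0) =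
      (v.2.2 + p.2 • opT (L v.2.1 * p.1.2.2 + opK p.1.2.1 * v.2.2) - opH v.1,
        Pr (opDir v.2.2) + (coord 1 v.1) • e 1,
        opNeu (L v.2.1 * p.1.2.2 + opK p.1.2.1 * v.2.2)) := by
  let πb : XX × ℝ →L[ℝ] L1 ℕ := (ContinuousLinearMap.fst ℝ (L1 ℕ) (L1 ℕ × W)).comp
    (ContinuousLinearMap.fst ℝ XX ℝ)
  let πq : XX × ℝ →L[ℝ] L1 ℕ := (ContinuousLinearMap.fst ℝ (L1 ℕ) W).comp
    ((ContinuousLinearMap.snd ℝ (L1 ℕ) (L1 ℕ × W)).comp (ContinuousLinearMap.fst ℝ XX ℝ))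
  let πw : XX × ℝ →L[ℝ] W := (ContinuousLinearMap.snd ℝ (L1 ℕ) W).comp
    ((ContinuousLinearMap.snd ℝ (L1 ℕ) (L1 ℕ × W)).comp (ContinuousLinearMap.fst ℝ XX ℝ))
  let πα : XX × ℝ →L[ℝ] ℝ := ContinuousLinearMap.snd ℝ XX ℝ
  have hK : HasFDerivAt (fun p : XX × ℝ => opK p.1.2.1) (L.comp πq) p :=
    HasFDerivAt.comp p (show HasFDerivAt opK L (πq p) from hL) πq.hasFDerivAt
  have hKw := hK.mul πw.hasFDerivAt
  have hT := opT.hasFDerivAt.comp p hKw
  have h1 := (πw.hasFDerivAt.add (πα.hasFDerivAt.smul hT)).sub (opH.comp πb).hasFDerivAt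
  have h2 := (((Pr.comp opDir).comp πw).hasFDerivAt.sub_const (Pr (e 0))).add
    (((coord 1).comp πb).hasFDerivAt.smul_const (e 1 : L1 ℕ)) (x := p)
  have h3 := opNeu.hasFDerivAt.comp p hKw
  have h4 := h1.prodMk (h2.prodMk h3)
  have hG : GG = fun p : XX × ℝ => ((πw p + πα p • opT (opK p.1.2.1 * πw p) - (opH.comp πb) p),
      (((Pr.comp opDir).comp πw) p - Pr (e 0) + ((coord 1).comp πb) p • (e 1 : L1 ℕ),
        opNeu (opK p.1.2.1 * πw p))) := by
    funext p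
    simp only [GG, map_sub]
    rfl
  obtain ⟨M, hM, hMv⟩ : ∃ M : XX × ℝ →L[ℝ] YY, HasFDerivAt GG M p ∧ M (v, 0) =
      (v.2.2 + p.2 • opT (L v.2.1 * p.1.2.2 + opK p.1.2.1 * v.2.2) - opH v.1,
        Pr (opDir v.2.2) + (coord 1 v.1) • e 1,
        opNeu (L v.2.1 * p.1.2.2 + opK p.1.2.1 * v.2.2)) := by
    rw [hG]
    refine ⟨_, h4, ?_⟩
    refine Prod.ext ?_ (Prod.ext ?_ ?_)
    · simp [πb, πq, πw, πα, mul_comm]
      ring_nf
    · simp [πb, πq, πw, πα]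
    · simp [πb, πq, πw, πα, mul_comm]
      rw [add_comm]
  rw [hM.fderiv, hMv]

end Pool.Agent.Sch
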