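import Pool.Agent.Sch.Defs

/-!
# Evaluation of double power series on the closed bidisc
-/

open scoped ENNReal
open Complex (I)

noncomputable section

namespace Pool.Agent.Sch

theorem norm_pow_mul_pow_le {z z' : ℂ} (hz : ‖z‖ ≤ 1) (hz' : ‖z'‖ ≤ 1) (p : ℕ × ℕ) :
    ‖z ^ p.1 * z' ^ p.2‖ ≤ 1 := by
  rw [norm_mul, norm_pow, norm_pow]
  exact mul_le_one₀ (pow_le_one₀ (norm_nonneg _) hz) (pow_nonneg (norm_nonneg _) _)
    (pow_le_one₀ (norm_nonneg _) hz')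

/-- Evaluation as a continuous linear map. -/
def evL {z z' : ℂ} (hz : ‖z‖ ≤ 1) (hz' : ‖z'‖ ≤ 1) : W →L[ℝ] ℂ :=
  liftW (fun p => z ^ p.1 * z' ^ p.2) 1 (norm_pow_mul_pow_le hz hz')

variable {z z' : ℂ}

theorem hasSum_evL (hz : ‖z‖ ≤ 1) (hz' : ‖z'‖ ≤ 1) (a : W) :
    HasSum (fun p : ℕ × ℕ => (a p : ℂ) * (z ^ p.1 * z' ^ p.2)) (evL hz hz' a) := by
  have h := hasSum_liftW (fun p => z ^ p.1 * z' ^ p.2) 1 (norm_pow_mul_pow_le hz hz') a
  simp only [Complex.real_smul] at h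
  exact h

theorem evL_apply (hz : ‖z‖ ≤ 1) (hz' : ‖z'‖ ≤ 1) (a : W) : evL hz hz' a = ev z z' a :=
  (hasSum_evL hz hz' a).tsum_eq.symm

theorem hasSum_ev (hz : ‖z‖ ≤ 1) (hz' : ‖z'‖ ≤ 1) (a : W) :
    HasSum (fun p : ℕ × ℕ => (a p : ℂ) * (z ^ p.1 * z' ^ p.2)) (ev z z' a) := by
  rw [← evL_apply hz hz']
  exact hasSum_evL hz hz' a

@[simp] theorem evL_mono (hz : ‖z‖ ≤ 1) (hz' : ‖z'‖ ≤ 1) (p : ℕ × ℕ) :
    evL hz hz' (mono p) = z ^ p.1 * z' ^ p.2 := liftW_mono _ _ _ _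

theorem evL_mul (hz : ‖z‖ ≤ 1) (hz' : ‖z'‖ ≤ 1) (a b : W) :
    evL hz hz' (a * b) = evL hz hz' a * evL hz hz' b := by
  have h1 : ∀ p : ℕ × ℕ, (evL hz hz').comp (mulCLM (mono p))
      = (ContinuousLinearMap.mul ℝ ℂ (evL hz hz' (mono p))).comp (evL hz hz') := by
    intro p
    refine clmW_ext fun q => ?_
    simp only [ContinuousLinearMap.comp_apply, mulCLM_mono, evL_mono,
      ContinuousLinearMap.mul_apply', Prod.fst_add, Prod.snd_add, pow_add]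
    ring
  have h2 : (evL hz hz').comp (mulCLM.flip b)
      = ((ContinuousLinearMap.mul ℝ ℂ).flip (evL hz hz' b)).comp (evL hz hz') := by
    refine clmW_ext fun p => ?_
    have := congrArg (fun L : W →L[ℝ] ℂ => L b) (h1 p)
    simpa [mul_comm] using this
  have := congrArg (fun L : W →L[ℝ] ℂ => L a) h2
  rw [mul_def, mul_comm]
  simpa [mul_comm] using this

theorem ev_mul (hz : ‖z‖ ≤ 1) (hz' : ‖z'‖ ≤ 1) (a b : W) :
    ev z z' (a * b) = ev z z' a * ev z z' b := by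
  simp only [← evL_apply hz hz', evL_mul]

theorem evL_one (hz : ‖z‖ ≤ 1) (hz' : ‖z'‖ ≤ 1) : evL hz hz' 1 = 1 := by
  rw [one_def, evL_mono]; simp

theorem norm_opJ_le (q : L1 ℕ) : ‖opJ q‖ ≤ ‖q‖ := by
  have := norm_lift_apply_le (fun j => mono (4 * j, 0)) 1 (fun _ => (norm_mono _).le) q
  rw [one_mul] at this
  exact this

theorem norm_opI_le (q : L1 ℕ) : ‖opI q‖ ≤ ‖q‖ := by
  have := norm_lift_apply_le (fun j : ℕ => (1 / (4 * (j : ℝ) + 1)) • mono (4 * j + 1, 0)) 1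
    (fun j => by rw [norm_smul, norm_mono, mul_one]; exact inv_le_one_aux _ (by positivity)) q
  rw [one_mul] at this
  exact this

theorem norm_opIb_le (q : L1 ℕ) : ‖opIb q‖ ≤ ‖q‖ := by
  have := norm_lift_apply_le (fun j : ℕ => (1 / (4 * (j : ℝ) + 1)) • mono (0, 4 * j + 1)) 1
    (fun j => by rw [norm_smul, norm_mono, mul_one]; exact inv_le_one_aux _ (by positivity)) q
  rw [one_mul] at this
  exact this

theorem norm_opI_mul_opIb_lt (q : L1 ℕ) (hq : ‖q‖ < 1) : ‖opI q * opIb q‖ < 1 := by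
  have h1 : ‖opI q * opIb q‖ ≤ ‖opI q‖ * ‖opIb q‖ := norm_mul_le _ _
  have h2 : ‖opI q‖ * ‖opIb q‖ ≤ ‖q‖ * ‖q‖ :=
    mul_le_mul (norm_opI_le q) (norm_opIb_le q) (norm_nonneg _) (norm_nonneg _)
  nlinarith [norm_nonneg q]

theorem isUnit_one_sub (q : L1 ℕ) (hq : ‖q‖ < 1) : IsUnit (1 - opI q * opIb q) :=
  isUnit_one_sub_of_norm_lt_one (norm_opI_mul_opIb_lt q hq)

theorem evL_opJ (hz : ‖z‖ ≤ 1) (hz' : ‖z'‖ ≤ 1) (q : L1 ℕ) : evL hz hz' (opJ q) = dpsi q z := by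
  have h := (hasSum_lift (fun j => mono (4 * j, 0)) 1 (fun _ => (norm_mono _).le) q).mapL
    (evL hz hz')
  rw [dpsi, ← (show HasSum _ (evL hz hz' (opJ q)) from h).tsum_eq]
  refine tsum_congr fun j => ?_
  simp

theorem evL_opJb (hz : ‖z‖ ≤ 1) (hz' : ‖z'‖ ≤ 1) (q : L1 ℕ) :
    evL hz hz' (opJb q) = dpsi q z' := by
  have h := (hasSum_lift (fun j => mono (0, 4 * j)) 1 (fun _ => (norm_mono _).le) q).mapL
    (evL hz hz')
  rw [dpsi, ← (show HasSum _ (evL hz hz' (opJb q)) from h).tsum_eq]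
  refine tsum_congr fun j => ?_
  simp

theorem evL_opI (hz : ‖z‖ ≤ 1) (hz' : ‖z'‖ ≤ 1) (q : L1 ℕ) : evL hz hz' (opI q) = psi q z := by
  have h := (hasSum_lift (fun j : ℕ => (1 / (4 * (j : ℝ) + 1)) • mono (4 * j + 1, 0)) 1
    (fun j => by rw [norm_smul, norm_mono, mul_one]; exact inv_le_one_aux _ (by positivity))
    q).mapL (evL hz hz')
  rw [psi, ← (show HasSum _ (evL hz hz' (opI q)) from h).tsum_eq]
  refine tsum_congr fun j => ?_
  simp only [map_smul, evL_mono, pow_zero, mul_one, Complex.real_smul]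
  push_cast
  ring

theorem evL_opIb (hz : ‖z‖ ≤ 1) (hz' : ‖z'‖ ≤ 1) (q : L1 ℕ) :
    evL hz hz' (opIb q) = psi q z' := by
  have h := (hasSum_lift (fun j : ℕ => (1 / (4 * (j : ℝ) + 1)) • mono (0, 4 * j + 1)) 1
    (fun j => by rw [norm_smul, norm_mono, mul_one]; exact inv_le_one_aux _ (by positivity))
    q).mapL (evL hz hz')
  rw [psi, ← (show HasSum _ (evL hz hz' (opIb q)) from h).tsum_eq]
  refine tsum_congr fun j => ?_
  simp only [map_smul, evL_mono, pow_zero, one_mul, Complex.real_smul]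
  push_cast
  ring

theorem dpsi_conj (q : L1 ℕ) (z : ℂ) : dpsi q (starRingEnd ℂ z) = starRingEnd ℂ (dpsi q z) := by
  rw [dpsi, dpsi, Complex.conj_tsum]
  refine tsum_congr fun j => ?_
  simp

theorem psi_conj (q : L1 ℕ) (z : ℂ) : psi q (starRingEnd ℂ z) = starRingEnd ℂ (psi q z) := by
  rw [psi, psi, Complex.conj_tsum]
  refine tsum_congr fun j => ?_
  have h4 : (starRingEnd ℂ) 4 = 4 := Complex.conj_ofNat 4
  simp [h4]

theorem ev_opK (q : L1 ℕ) (hq : ‖q‖ < 1) (z : ℂ) (hz : ‖z‖ ≤ 1) :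
    ev z (starRingEnd ℂ z) (opK q)
      = ((‖dpsi q z‖ ^ 2 / (1 - ‖psi q z‖ ^ 2) ^ 2 : ℝ) : ℂ) := by
  have hz' : ‖starRingEnd ℂ z‖ ≤ 1 := by rwa [RCLike.norm_conj]
  rw [← evL_apply hz hz', opK, pow_two, evL_mul, evL_mul, evL_mul, evL_opJ, evL_opJb, dpsi_conj]
  set A := 1 - opI q * opIb q with hA
  have hu : A * Ring.inverse A = 1 := Ring.mul_inverse_cancel A (isUnit_one_sub q hq)
  have h1 : evL hz hz' A = ((1 - ‖psi q z‖ ^ 2 : ℝ) : ℂ) := by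
    rw [hA, map_sub, evL_one, evL_mul, evL_opI, evL_opIb, psi_conj, Complex.mul_conj']
    push_cast
    rfl
  have h2 : evL hz hz' A * evL hz hz' (Ring.inverse A) = 1 := by
    rw [← evL_mul, hu, evL_one]
  have h3 : evL hz hz' A ≠ 0 := left_ne_zero_of_mul_eq_one h2
  have h4 : evL hz hz' (Ring.inverse A) = (evL hz hz' A)⁻¹ := eq_inv_of_mul_eq_one_right h2
  rw [h4, h1, Complex.mul_conj']
  push_cast
  rw [div_eq_mul_inv, pow_two (1 - (‖psi q z‖ : ℂ) ^ 2), mul_inv]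

end Pool.Agent.Sch
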