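import Pool.Agent.Sch.Orth
import Pool.Agent.Sch.BallLin
import Pool.Agent.Sch.Branch

/-!
# A non-round domain in the hyperbolic plane without the Pompeiu property
-/

open scoped ENNReal Topology MatrixGroups
open Complex (I)
open MeasureTheory

noncomputable section

namespace Pool.Agent.Sch

/-- Nonempty open sets of the upper half-plane have positive hyperbolic area. -/
theorem volume_pos_of_isOpen {U : Set UpperHalfPlane} (hU : IsOpen U) (hne : U.Nonempty) :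
    (volume : Measure UpperHalfPlane) U ≠ 0 := by
  intro h
  rw [UpperHalfPlane.volume_eq_lintegral] at h
  have hopen : IsOpen (UpperHalfPlane.coe '' U) :=
    UpperHalfPlane.isOpenEmbedding_coe.isOpenMap U hU
  have hmeas : Measurable fun z : ℂ => (((1 / ‖z.im‖₊) ^ 2 : NNReal) : ℝ≥0∞) := by fun_prop
  rw [lintegral_eq_zero_iff hmeas, Filter.EventuallyEq,
    ae_restrict_iff' hopen.measurableSet] at h
  have h2 : (volume : Measure ℂ) (UpperHalfPlane.coe '' U) = 0 := by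
    refine measure_mono_null ?_ h
    rintro z ⟨τ, hτ, rfl⟩ h3
    have h4 := h3 ⟨τ, hτ, rfl⟩
    have h5 : ‖(τ : ℂ).im‖₊ ≠ 0 := by
      rw [ne_eq, nnnorm_eq_zero]
      exact τ.im_pos.ne'
    simp only [Pi.zero_apply, ENNReal.coe_eq_zero] at h4
    exact h5 (by simpa using h4)
  exact (hopen.measure_ne_zero volume (hne.image _)) h2

theorem main : ∃ D : Set UpperHalfPlane,
    IsOpen D ∧ IsConnected D ∧ IsCompact (closure D) ∧ IsConnected (closure D)ᶜ ∧
    (∃ (Φ : ℂ → ℂ) (r : ℝ), 0 < r ∧ r < 1 ∧ DifferentiableOn ℂ Φ (Metric.ball 0 1) ∧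
      Set.InjOn Φ (Metric.ball 0 1) ∧ UpperHalfPlane.coe '' D = Φ '' Metric.ball 0 r) ∧
    (∀ (c : UpperHalfPlane) (r : ℝ), closure D ≠ Metric.closedBall c r) ∧
    ∃ φ : UpperHalfPlane → ℝ, Continuous φ ∧ LocallyIntegrable φ volume ∧
      ¬ (φ =ᵐ[volume] 0) ∧
      ∀ g : SL(2, ℝ), ∫ τ : UpperHalfPlane in (fun τ => g • τ) '' closure D, φ τ = 0 := by
  obtain ⟨b, q, w, α, ρ, h1, h2, h0, hq, hα, hα', hb, hs⟩ := branch (1 / 100) (by norm_num)
  obtain ⟨d1, d2, d3, d4, d5⟩ := dom_geometry q ρ h1 h2 h0 hq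
  have hρ1 : ρ < 9 / 10 := by nlinarith
  have hρ2 : 7 / 10 < ρ := by nlinarith
  have hpsi1 : ∀ z : ℂ, ‖z‖ ≤ 1 → ‖psi q z‖ < 1 := norm_psi_lt q ρ h0 (by linarith)
  have hcont : Continuous fun τ : UpperHalfPlane =>
      (((τ.im : ℂ) ^ ((1 / 2 : ℂ) + (√(α - 1 / 4) : ℝ) * I)).re) :=
    Complex.continuous_re.comp (continuous_cpow_im _)
  refine ⟨dom q, d1, d2, d3, d5, ⟨fun z => cay (psi q z), kap, kap_pos, kap_lt_one, ?_, ?_, ?_⟩,
    fun c r hcr => ?_, fun τ =>
    (((τ.im : ℂ) ^ ((1 / 2 : ℂ) + (√(α - 1 / 4) : ℝ) * I)).re), hcont, hcont.locallyIntegrable, ?_,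
    fun g => orth b q w α ρ h1 h2 h0 hq hα hs g⟩
  · intro z hz
    rw [mem_ball_zero_iff] at hz
    have e1 : DifferentiableAt ℂ (psi q) z := (hasDerivAt_psi q z hz).differentiableAt
    have e2 : 1 - psi q z ≠ 0 := one_sub_ne_zero (hpsi1 z hz.le)
    unfold cay
    exact (DifferentiableAt.div ((e1.const_add 1).const_mul I) (e1.const_sub 1)
      e2).differentiableWithinAt
  · intro z hz z' hz' h
    simp only [] at h
    have hz1 := hpsi1 z (mem_ball_zero_iff.mp hz).le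
    have hz1' := hpsi1 z' (mem_ball_zero_iff.mp hz').le
    have e1 : toH (psi q z) = toH (psi q z') := by
      apply UpperHalfPlane.ext
      rw [coe_toH hz1, coe_toH hz1']
      exact h
    have e2 : psi q z = psi q z' := by
      rw [← icay_toH hz1, ← icay_toH hz1', e1]
    exact psi_inj q ρ h0 (by linarith) hz hz' e2
  · ext x
    constructor
    · rintro ⟨τ, ⟨z, hz, hτ⟩, rfl⟩
      exact ⟨z, hz, hτ.symm⟩
    · rintro ⟨z, hz, rfl⟩
      have hz1 : ‖psi q z‖ < 1 := hpsi1 z ((mem_ball_zero_iff.mp hz).trans kap_lt_one).le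
      exact ⟨toH (psi q z), ⟨z, hz, coe_toH hz1⟩, coe_toH hz1⟩
  · have hql := ball_linear q ρ h1 h2 h0 hq c r hcr
    have hs' : Sol b ((q 0) • (e 0 : L1 ℕ)) w α := by rw [← hql]; exact hs
    have h3 : ‖q 0 - ρ‖ < 1 / 100 := by
      have h4 := norm_coe_le (q - ρ • (e 0 : L1 ℕ)) 0
      have h5 : (q - ρ • (e 0 : L1 ℕ)) 0 = q 0 - ρ := by
        rw [lp.coeFn_sub, Pi.sub_apply, lp.coeFn_smul, Pi.smul_apply, e_self, smul_eq_mul,
          mul_one]
      rw [h5] at h4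
      exact h4.trans_lt hq
    rw [Real.norm_eq_abs, abs_lt] at h3
    have h6 : 0 < q 0 := by linarith [h3.1]
    refine hb (linear_trivial b w α (q 0) h6 ?_ hα hα' hs')
    nlinarith [h3.1, h3.2]
  · intro hae
    have hopen : IsOpen {τ : UpperHalfPlane |
        (((τ.im : ℂ) ^ ((1 / 2 : ℂ) + (√(α - 1 / 4) : ℝ) * I)).re) ≠ 0} :=
      isOpen_ne_fun hcont continuous_const
    exact volume_pos_of_isOpen hopen ⟨UpperHalfPlane.I, by simp⟩ hae

end Pool.Agent.Sch
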