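import Pool.Agent.Sch.Defs

/-!
# Geometry of the domain (module M8a)
-/

open scoped ENNReal Topology
open Complex (I)
open Metric Set

noncomputable section

namespace Pool.Agent.Sch

variable (q : L1 ℕ) (ρ : ℝ)

theorem summable_norm_psi (z : ℂ) (hz : ‖z‖ ≤ 1) :
    Summable fun j : ℕ => ‖(q j : ℂ) * (z ^ (4 * j + 1) / (4 * (j : ℂ) + 1))‖ := by
  refine Summable.of_nonneg_of_le (fun _ => norm_nonneg _) (fun j => ?_) (summable_norm_coe q)
  rw [norm_mul, norm_div, norm_pow, Complex.norm_real]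
  have h1 : ‖(4 * (j : ℂ) + 1)‖ = 4 * (j : ℝ) + 1 := by
    have : (4 * (j : ℂ) + 1) = ((4 * (j : ℝ) + 1 : ℝ) : ℂ) := by push_cast; ring
    rw [this, Complex.norm_real, Real.norm_of_nonneg (by positivity)]
  rw [h1]
  refine mul_le_of_le_one_right (norm_nonneg _) ?_
  rw [div_le_one (by positivity)]
  have := pow_le_one₀ (norm_nonneg z) hz (n := 4 * j + 1)
  have h2 : (0 : ℝ) ≤ j := by positivity
  linarith

theorem hasDerivAt_psi (z : ℂ) (hz : ‖z‖ < 1) : HasDerivAt (psi q) (dpsi q z) z := by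
  have key := hasDerivAt_tsum_of_isPreconnected (u := fun j : ℕ => ‖q j‖)
    (g := fun (j : ℕ) (w : ℂ) => (q j : ℂ) * (w ^ (4 * j + 1) / (4 * (j : ℂ) + 1)))
    (g' := fun (j : ℕ) (w : ℂ) => (q j : ℂ) * w ^ (4 * j))
    (t := ball (0 : ℂ) 1) (y₀ := 0) (y := z) (summable_norm_coe q) isOpen_ball
    (convex_ball _ _).isPreconnected ?_ ?_ (by simp) ?_ (by simpa using hz)
  · exact key
  · intro j w _
    have h0 : (4 * (j : ℂ) + 1) ≠ 0 := by
      have : (4 * (j : ℂ) + 1) = ((4 * j + 1 : ℕ) : ℂ) := by push_cast; ring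
      rw [this]
      exact Nat.cast_ne_zero.mpr (by omega)
    have h1 := (hasDerivAt_pow (4 * j + 1) w).div_const (4 * (j : ℂ) + 1)
    have h2 := h1.const_mul (q j : ℂ)
    refine h2.congr_deriv ?_
    rw [Nat.add_sub_cancel]
    push_cast
    field_simp
  · intro j w hw
    rw [mem_ball_zero_iff] at hw
    rw [norm_mul, norm_pow, Complex.norm_real]
    exact mul_le_of_le_one_right (norm_nonneg _) (pow_le_one₀ (norm_nonneg _) hw.le)
  · exact (summable_norm_psi q 0 (by simp)).of_norm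

theorem psi_rot (z : ℂ) : psi q (I * z) = I * psi q z := by
  unfold psi
  rw [← tsum_mul_left]
  refine tsum_congr fun j => ?_
  have h : (I * z) ^ (4 * j + 1) = I * z ^ (4 * j + 1) := by
    rw [mul_pow, pow_succ I, pow_mul, Complex.I_pow_four, one_pow, one_mul]
  rw [h]
  ring

/-- `|z^n - w^n| ≤ n |z - w|` in the closed unit disc. -/
theorem norm_pow_sub_pow_le (z w : ℂ) (hz : ‖z‖ ≤ 1) (hw : ‖w‖ ≤ 1) (n : ℕ) :
    ‖z ^ n - w ^ n‖ ≤ n * ‖z - w‖ := by
  induction n with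
  | zero => simp
  | succ n ih =>
    have h : z ^ (n + 1) - w ^ (n + 1) = z ^ n * (z - w) + (z ^ n - w ^ n) * w := by ring
    rw [h]
    refine (norm_add_le _ _).trans ?_
    rw [norm_mul, norm_mul, norm_pow]
    have h1 : ‖z‖ ^ n ≤ 1 := pow_le_one₀ (norm_nonneg _) hz
    have h2 : ‖z ^ n - w ^ n‖ * ‖w‖ ≤ (n * ‖z - w‖) * 1 :=
      mul_le_mul ih hw (norm_nonneg _) (by positivity)
    have h3 : ‖z‖ ^ n * ‖z - w‖ ≤ 1 * ‖z - w‖ := by gcongr
    push_cast
    linarith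

theorem psi_approx (z w : ℂ) (hz : ‖z‖ ≤ 1) (hw : ‖w‖ ≤ 1) :
    ‖psi q z - psi q w - ρ * (z - w)‖ ≤ ‖q - ρ • (e 0 : L1 ℕ)‖ * ‖z - w‖ := by
  set p : L1 ℕ := q - ρ • (e 0 : L1 ℕ) with hp
  have hpj : ∀ j, p j = q j - ρ * (e 0 : L1 ℕ) j := fun j => by
    rw [hp, lp.coeFn_sub, Pi.sub_apply, lp.coeFn_smul, Pi.smul_apply, smul_eq_mul]
  have hz' := (summable_norm_psi q z hz).of_norm
  have hw' := (summable_norm_psi q w hw).of_norm
  have h1 : psi q z - psi q w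
      = ∑' j : ℕ, (q j : ℂ) * ((z ^ (4 * j + 1) - w ^ (4 * j + 1)) / (4 * (j : ℂ) + 1)) := by
    unfold psi
    rw [← hz'.tsum_sub hw']
    refine tsum_congr fun j => ?_
    ring
  have hq' : Summable fun j : ℕ =>
      (q j : ℂ) * ((z ^ (4 * j + 1) - w ^ (4 * j + 1)) / (4 * (j : ℂ) + 1)) := by
    refine (hz'.sub hw').congr fun j => ?_
    ring
  have he : HasSum (fun j : ℕ => ((ρ * (e 0 : L1 ℕ) j : ℝ) : ℂ) *
      ((z ^ (4 * j + 1) - w ^ (4 * j + 1)) / (4 * (j : ℂ) + 1))) (ρ * (z - w)) := by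
    have := hasSum_single (f := fun j : ℕ => ((ρ * (e 0 : L1 ℕ) j : ℝ) : ℂ) *
      ((z ^ (4 * j + 1) - w ^ (4 * j + 1)) / (4 * (j : ℂ) + 1))) 0 (fun j hj => by
        rw [e_ne hj]; simp)
    simpa using this
  have h2 : psi q z - psi q w - ρ * (z - w)
      = ∑' j : ℕ, (p j : ℂ) * ((z ^ (4 * j + 1) - w ^ (4 * j + 1)) / (4 * (j : ℂ) + 1)) := by
    rw [h1, ← he.tsum_eq, ← hq'.tsum_sub he.summable]
    refine tsum_congr fun j => ?_
    rw [hpj]
    push_cast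
    ring
  rw [h2]
  have hb : ∀ j : ℕ, ‖(p j : ℂ) * ((z ^ (4 * j + 1) - w ^ (4 * j + 1)) / (4 * (j : ℂ) + 1))‖
      ≤ ‖p j‖ * ‖z - w‖ := by
    intro j
    have h1 : ‖(4 * (j : ℂ) + 1)‖ = 4 * (j : ℝ) + 1 := by
      have : (4 * (j : ℂ) + 1) = ((4 * (j : ℝ) + 1 : ℝ) : ℂ) := by push_cast; ring
      rw [this, Complex.norm_real, Real.norm_of_nonneg (by positivity)]
    rw [norm_mul, norm_div, Complex.norm_real, h1]
    refine mul_le_mul_of_nonneg_left ?_ (norm_nonneg _)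
    rw [div_le_iff₀ (by positivity)]
    refine (norm_pow_sub_pow_le z w hz hw _).trans (le_of_eq ?_)
    push_cast
    ring
  have hs : HasSum (fun j => ‖p j‖ * ‖z - w‖) (‖p‖ * ‖z - w‖) := by
    rw [norm_eq]
    exact (summable_norm_coe p).hasSum.mul_right _
  exact tsum_of_norm_bounded hs hb

theorem psi_zero : psi q 0 = 0 := by
  unfold psi
  simp

theorem psi_inj_closed (hq : ‖q - ρ • (e 0 : L1 ℕ)‖ < ρ) :
    Set.InjOn (psi q) (Metric.closedBall 0 1) := by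
  intro z hz w hw h
  rw [mem_closedBall_zero_iff] at hz hw
  by_contra hne
  have h1 := psi_approx q ρ z w hz hw
  have h2 : 0 < ‖z - w‖ := norm_pos_iff.mpr (sub_ne_zero.mpr hne)
  have h0 : 0 < ρ := (norm_nonneg _).trans_lt hq
  rw [h, sub_self, zero_sub, norm_neg, norm_mul, Complex.norm_real, Real.norm_of_nonneg h0.le] at h1
  have h3 := (mul_lt_mul_iff_left₀ h2).mpr hq
  linarith

theorem psi_inj (_h0 : 0 < ρ) (hq : ‖q - ρ • (e 0 : L1 ℕ)‖ < ρ) :
    Set.InjOn (psi q) (Metric.ball 0 1) :=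
  (psi_inj_closed q ρ hq).mono ball_subset_closedBall

theorem norm_psi_le (h0 : 0 < ρ) (z : ℂ) (hz : ‖z‖ ≤ 1) :
    ‖psi q z‖ ≤ (ρ + ‖q - ρ • (e 0 : L1 ℕ)‖) * ‖z‖ := by
  have h1 := psi_approx q ρ z 0 hz (by simp)
  rw [psi_zero, sub_zero, sub_zero] at h1
  have h2 : ‖psi q z‖ ≤ ‖psi q z - ρ * z‖ + ‖(ρ : ℂ) * z‖ := by
    simpa using norm_add_le (psi q z - ρ * z) (ρ * z)
  rw [norm_mul, Complex.norm_real, Real.norm_of_nonneg h0.le] at h2
  linarith

theorem le_norm_psi (h0 : 0 < ρ) (z : ℂ) (hz : ‖z‖ ≤ 1) :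
    (ρ - ‖q - ρ • (e 0 : L1 ℕ)‖) * ‖z‖ ≤ ‖psi q z‖ := by
  have h1 := psi_approx q ρ z 0 hz (by simp)
  rw [psi_zero, sub_zero, sub_zero] at h1
  have h2 : ‖(ρ : ℂ) * z‖ ≤ ‖psi q z - ρ * z‖ + ‖psi q z‖ := by
    have := norm_sub_le (psi q z) (psi q z - ρ * z)
    rw [sub_sub_cancel] at this
    linarith
  rw [norm_mul, Complex.norm_real, Real.norm_of_nonneg h0.le] at h2
  linarith

theorem norm_psi_lt (h0 : 0 < ρ) (hq : ‖q - ρ • (e 0 : L1 ℕ)‖ < 1 - ρ) (z : ℂ) (hz : ‖z‖ ≤ 1) :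
    ‖psi q z‖ < 1 := by
  have h1 := norm_psi_le q ρ h0 z hz
  have h2 : (ρ + ‖q - ρ • (e 0 : L1 ℕ)‖) * ‖z‖ ≤ (ρ + ‖q - ρ • (e 0 : L1 ℕ)‖) * 1 := by
    gcongr
  linarith

theorem dpsi_sub_le (z : ℂ) (hz : ‖z‖ ≤ 1) :
    ‖dpsi q z - ρ‖ ≤ ‖q - ρ • (e 0 : L1 ℕ)‖ := by
  set p : L1 ℕ := q - ρ • (e 0 : L1 ℕ) with hp
  have hpj : ∀ j, p j = q j - ρ * (e 0 : L1 ℕ) j := fun j => by
    rw [hp, lp.coeFn_sub, Pi.sub_apply, lp.coeFn_smul, Pi.smul_apply, smul_eq_mul]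
  have hb : ∀ (r : L1 ℕ) (j : ℕ), ‖(r j : ℂ) * z ^ (4 * j)‖ ≤ ‖r j‖ := by
    intro r j
    rw [norm_mul, norm_pow, Complex.norm_real]
    exact mul_le_of_le_one_right (norm_nonneg _) (pow_le_one₀ (norm_nonneg _) hz)
  have hs : Summable fun j : ℕ => (q j : ℂ) * z ^ (4 * j) :=
    Summable.of_norm_bounded (summable_norm_coe q) (hb q)
  have he : HasSum (fun j : ℕ => ((ρ * (e 0 : L1 ℕ) j : ℝ) : ℂ) * z ^ (4 * j)) ρ := by
    have := hasSum_single (f := fun j : ℕ => ((ρ * (e 0 : L1 ℕ) j : ℝ) : ℂ) * z ^ (4 * j)) 0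
      (fun j hj => by rw [e_ne hj]; simp)
    simpa using this
  have h2 : dpsi q z - ρ = ∑' j : ℕ, (p j : ℂ) * z ^ (4 * j) := by
    rw [dpsi, ← he.tsum_eq, ← hs.tsum_sub he.summable]
    refine tsum_congr fun j => ?_
    rw [hpj]
    push_cast
    ring
  rw [h2, norm_eq p]
  exact tsum_of_norm_bounded (summable_norm_coe p).hasSum (hb p)

theorem dpsi_ne_zero (hq : ‖q - ρ • (e 0 : L1 ℕ)‖ < ρ) (z : ℂ) (hz : ‖z‖ ≤ 1) :
    dpsi q z ≠ 0 := by
  intro h
  have h1 := dpsi_sub_le q ρ z hz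
  have h0 : 0 < ρ := (norm_nonneg _).trans_lt hq
  rw [h, zero_sub, norm_neg, Complex.norm_real, Real.norm_of_nonneg h0.le] at h1
  linarith

/-! ### The Cayley transform -/

theorem cay_im (z : ℂ) : (cay z).im = (1 - Complex.normSq z) / Complex.normSq (1 - z) := by
  unfold cay
  rw [Complex.div_im]
  simp only [Complex.mul_im, Complex.mul_re, Complex.I_re, Complex.I_im, Complex.add_re,
    Complex.add_im, Complex.one_re, Complex.one_im, Complex.sub_re, Complex.sub_im,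
    Complex.normSq_apply]
  ring

theorem one_sub_ne_zero {z : ℂ} (hz : ‖z‖ < 1) : 1 - z ≠ 0 := by
  intro h
  have : z = 1 := (sub_eq_zero.mp h).symm
  rw [this, norm_one] at hz
  exact lt_irrefl _ hz

theorem cay_im_pos {z : ℂ} (hz : ‖z‖ < 1) : 0 < (cay z).im := by
  rw [cay_im]
  refine div_pos ?_ (Complex.normSq_pos.mpr (one_sub_ne_zero hz))
  rw [Complex.normSq_eq_norm_sq]
  nlinarith [norm_nonneg z]

/-- The Cayley transform as a map to the upper half-plane (junk value outside the disc). -/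
def toH (z : ℂ) : UpperHalfPlane :=
  if h : 0 < (cay z).im then ⟨cay z, h⟩ else UpperHalfPlane.I

theorem coe_toH {z : ℂ} (hz : ‖z‖ < 1) : (toH z : ℂ) = cay z := by
  rw [toH, dif_pos (cay_im_pos hz)]

/-- Inverse Cayley transform. -/
def icay (τ : UpperHalfPlane) : ℂ := ((τ : ℂ) - I) / (τ + I)

theorem coe_add_I_ne_zero (τ : UpperHalfPlane) : (τ : ℂ) + I ≠ 0 := by
  intro h
  have h1 := congrArg Complex.im h
  rw [Complex.add_im, Complex.I_im, Complex.zero_im] at h1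
  have h2 : 0 < (τ : ℂ).im := τ.im_pos
  linarith

theorem continuous_icay : Continuous icay :=
  (UpperHalfPlane.continuous_coe.sub continuous_const).div
    (UpperHalfPlane.continuous_coe.add continuous_const) coe_add_I_ne_zero

theorem norm_icay_lt (τ : UpperHalfPlane) : ‖icay τ‖ < 1 := by
  unfold icay
  rw [norm_div, div_lt_one (norm_pos_iff.mpr (coe_add_I_ne_zero τ))]
  have h2 : 0 < (τ : ℂ).im := τ.im_pos
  rw [← sq_lt_sq₀ (norm_nonneg _) (norm_nonneg _), ← Complex.normSq_eq_norm_sq,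
    ← Complex.normSq_eq_norm_sq, Complex.normSq_apply, Complex.normSq_apply]
  simp only [Complex.sub_re, Complex.sub_im, Complex.add_re, Complex.add_im, Complex.I_re,
    Complex.I_im]
  nlinarith

theorem cay_icay (τ : UpperHalfPlane) : cay (icay τ) = τ := by
  have h := coe_add_I_ne_zero τ
  unfold cay icay
  have h1 : 1 - ((τ : ℂ) - I) / (τ + I) = 2 * I / (τ + I) := by
    field_simp
    ring
  have h2 : 1 + ((τ : ℂ) - I) / (τ + I) = 2 * τ / (τ + I) := by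
    field_simp
    ring
  rw [h1, h2]
  have hI : (I : ℂ) ≠ 0 := Complex.I_ne_zero
  field_simp

theorem icay_eq_of_coe {τ : UpperHalfPlane} {z : ℂ} (hz : ‖z‖ < 1) (h : (τ : ℂ) = cay z) :
    icay τ = z := by
  have h1 := one_sub_ne_zero hz
  have h3 := coe_add_I_ne_zero τ
  unfold icay
  rw [div_eq_iff h3, h, cay]
  field_simp
  ring

theorem icay_toH {z : ℂ} (hz : ‖z‖ < 1) : icay (toH z) = z :=
  icay_eq_of_coe hz (coe_toH hz)

theorem toH_icay (τ : UpperHalfPlane) : toH (icay τ) = τ :=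
  UpperHalfPlane.ext (by
    have := coe_toH (norm_icay_lt τ)
    rw [cay_icay] at this
    exact this)

theorem continuousOn_toH : ContinuousOn toH (ball (0 : ℂ) 1) := by
  rw [UpperHalfPlane.isEmbedding_coe.isInducing.continuousOn_iff]
  have h1 : ContinuousOn cay (ball (0 : ℂ) 1) := by
    unfold cay
    refine ContinuousOn.div (by fun_prop) (by fun_prop) fun z hz => ?_
    exact one_sub_ne_zero (mem_ball_zero_iff.mp hz)
  refine h1.congr fun z hz => ?_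
  exact coe_toH (mem_ball_zero_iff.mp hz)

/-- Image of a subset of the disc, two descriptions. -/
theorem setOf_cay_eq {S : Set ℂ} (hS : S ⊆ ball 0 1) :
    {τ : UpperHalfPlane | ∃ ζ ∈ S, (τ : ℂ) = cay ζ} = toH '' S := by
  ext τ
  constructor
  · rintro ⟨ζ, hζ, h⟩
    have h1 := mem_ball_zero_iff.mp (hS hζ)
    exact ⟨ζ, hζ, by rw [← icay_eq_of_coe h1 h, toH_icay]⟩
  · rintro ⟨ζ, hζ, rfl⟩
    exact ⟨ζ, hζ, coe_toH (mem_ball_zero_iff.mp (hS hζ))⟩

theorem toH_image_eq {S : Set ℂ} (hS : S ⊆ ball 0 1) : toH '' S = icay ⁻¹' S := by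
  ext τ
  constructor
  · rintro ⟨ζ, hζ, rfl⟩
    rw [mem_preimage, icay_toH (mem_ball_zero_iff.mp (hS hζ))]
    exact hζ
  · intro h
    exact ⟨icay τ, h, toH_icay τ⟩

/-! ### The domain -/

theorem kap_pos : 0 < kap := Real.sqrt_pos.mpr (by norm_num)
theorem kap_sq : kap ^ 2 = 1 / 2 := Real.sq_sqrt (by norm_num)
theorem kap_lt : kap < 71 / 100 := by
  have h1 := kap_sq
  have h2 := kap_pos
  nlinarith
theorem kap_lt_one : kap < 1 := kap_lt.trans (by norm_num)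

/-- Linear part. -/
def linρ : ℂ →L[ℂ] ℂ := (ρ : ℂ) • ContinuousLinearMap.id ℂ ℂ

/-- The linear part has an inverse of norm `1/ρ`. -/
def linInv (h0 : 0 < ρ) : (linρ ρ).NonlinearRightInverse where
  toFun y := (ρ : ℂ)⁻¹ * y
  nnnorm := ⟨ρ⁻¹, by positivity⟩
  bound' y := by
    rw [norm_mul, norm_inv, Complex.norm_real, Real.norm_of_nonneg h0.le]
    exact le_rfl
  right_inv' y := by
    have : (ρ : ℂ) ≠ 0 := by exact_mod_cast h0.ne'
    simp [linρ, this]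

theorem psi_approxLinearOn (C : NNReal) (hq : ‖q - ρ • (e 0 : L1 ℕ)‖ ≤ C) :
    ApproximatesLinearOn (psi q) (linρ ρ) (closedBall (0 : ℂ) 1) C := by
  intro z hz w hw
  rw [mem_closedBall_zero_iff] at hz hw
  have h := psi_approx q ρ z w hz hw
  refine (h.trans ?_)
  gcongr

theorem surj_aux (h0 : 0 < ρ) (C : NNReal) (hq : ‖q - ρ • (e 0 : L1 ℕ)‖ ≤ C) :
    SurjOn (psi q) (closedBall 0 (99 / 100)) (closedBall 0 ((ρ - C) * (99 / 100))) := by
  have h1 := psi_approxLinearOn q ρ C hq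
  have h2 := h1.surjOn_closedBall_of_nonlinearRightInverse (linInv ρ h0) (ε := 99 / 100) (b := 0)
    (by norm_num) (closedBall_subset_closedBall (by norm_num))
  rw [psi_zero] at h2
  have h3 : (((linInv ρ h0).nnnorm : ℝ))⁻¹ = ρ := inv_inv ρ
  rw [h3] at h2
  exact h2

theorem isOpen_psi_image (h0 : 0 < ρ) (C : NNReal) (hC : (C : ℝ) < ρ)
    (hq : ‖q - ρ • (e 0 : L1 ℕ)‖ ≤ C) {U : Set ℂ} (hU : IsOpen U) (hU1 : U ⊆ closedBall 0 1) :
    IsOpen (psi q '' U) := by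
  have h1 := (psi_approxLinearOn q ρ C hq).mono_set hU1
  refine h1.open_image (linInv ρ h0) hU (Or.inr ?_)
  rw [← NNReal.coe_lt_coe]
  have h3 : (((linInv ρ h0).nnnorm⁻¹ : NNReal) : ℝ) = ρ := by
    rw [NNReal.coe_inv]
    exact inv_inv ρ
  rw [h3]
  exact hC

theorem continuousOn_psi : ContinuousOn (psi q) (ball (0 : ℂ) 1) := fun z hz =>
  (hasDerivAt_psi q z (mem_ball_zero_iff.mp hz)).continuousAt.continuousWithinAt

theorem isConnected_annulus {a b : ℝ} (ha : 0 ≤ a) (hab : a < b) :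
    IsConnected {z : ℂ | a < ‖z‖ ∧ ‖z‖ < b} := by
  have h1 : IsConnected (Ioo a b ×ˢ (univ : Set ℝ)) := (isConnected_Ioo hab).prod isConnected_univ
  have h2 := h1.image (fun p : ℝ × ℝ => (p.1 : ℂ) * Complex.exp (p.2 * I)) (by fun_prop)
  convert h2 using 1
  ext z
  constructor
  · rintro ⟨hz1, hz2⟩
    refine ⟨(‖z‖, z.arg), ⟨⟨hz1, hz2⟩, mem_univ _⟩, ?_⟩
    exact Complex.norm_mul_exp_arg_mul_I z
  · rintro ⟨⟨r, θ⟩, ⟨⟨hr1, hr2⟩, _⟩, rfl⟩
    have h3 : ‖(r : ℂ) * Complex.exp (θ * I)‖ = r := by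
      rw [norm_mul, Complex.norm_exp_ofReal_mul_I, mul_one, Complex.norm_real,
        Real.norm_of_nonneg (ha.trans hr1.le)]
    change a < ‖(r : ℂ) * Complex.exp (θ * I)‖ ∧ ‖(r : ℂ) * Complex.exp (θ * I)‖ < b
    rw [h3]
    exact ⟨hr1, hr2⟩

section
variable (h1 : 3 / 5 < ρ ^ 2) (h2 : ρ ^ 2 < 4 / 5) (h0 : 0 < ρ)
  (hq : ‖q - ρ • (e 0 : L1 ℕ)‖ < 1 / 100)
include h1 h2 h0 hq

omit hq in
theorem rho_bounds : 77 / 100 < ρ ∧ ρ < 9 / 10 := by
  constructor <;> nlinarith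

theorem psi_lt_one {z : ℂ} (hz : ‖z‖ ≤ 1) : ‖psi q z‖ < 1 := by
  obtain ⟨hr1, hr2⟩ := rho_bounds ρ h1 h2 h0
  exact norm_psi_lt q ρ h0 (by linarith) z hz

theorem psi_inj' : Set.InjOn (psi q) (closedBall 0 1) := by
  obtain ⟨hr1, hr2⟩ := rho_bounds ρ h1 h2 h0
  exact psi_inj_closed q ρ (by linarith)

theorem psi_image_ball_subset {S : Set ℂ} (hS : S ⊆ closedBall 0 1) :
    psi q '' S ⊆ ball 0 1 := by
  rintro _ ⟨z, hz, rfl⟩
  rw [mem_ball_zero_iff]
  exact psi_lt_one q ρ h1 h2 h0 hq (mem_closedBall_zero_iff.mp (hS hz))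

theorem dom_eq : dom q = toH '' (psi q '' ball 0 kap) := by
  have hS : ball (0 : ℂ) kap ⊆ closedBall 0 1 :=
    ball_subset_closedBall.trans (closedBall_subset_closedBall kap_lt_one.le)
  rw [← setOf_cay_eq (psi_image_ball_subset q ρ h1 h2 h0 hq hS)]
  ext τ
  simp only [dom, mem_ofPred_eq, exists_mem_image]

theorem dom'_eq : {τ : UpperHalfPlane | ∃ z ∈ Metric.closedBall (0 : ℂ) kap,
    (τ : ℂ) = cay (psi q z)} = toH '' (psi q '' closedBall 0 kap) := by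
  have hS : closedBall (0 : ℂ) kap ⊆ closedBall 0 1 := closedBall_subset_closedBall kap_lt_one.le
  rw [← setOf_cay_eq (psi_image_ball_subset q ρ h1 h2 h0 hq hS)]
  ext τ
  simp only [mem_ofPred_eq, exists_mem_image]

theorem continuousOn_toH_psi : ContinuousOn (fun z => toH (psi q z)) (ball (0 : ℂ) 1) :=
  continuousOn_toH.comp (continuousOn_psi q) fun z hz => by
    rw [mem_ball_zero_iff]
    exact psi_lt_one q ρ h1 h2 h0 hq (mem_ball_zero_iff.mp hz).le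

theorem isOpen_dom : IsOpen (dom q) := by
  obtain ⟨hr1, hr2⟩ := rho_bounds ρ h1 h2 h0
  have hS : ball (0 : ℂ) kap ⊆ closedBall 0 1 :=
    ball_subset_closedBall.trans (closedBall_subset_closedBall kap_lt_one.le)
  rw [dom_eq q ρ h1 h2 h0 hq, toH_image_eq (psi_image_ball_subset q ρ h1 h2 h0 hq hS)]
  refine (isOpen_psi_image q ρ h0 (1 / 100) ?_ ?_ isOpen_ball hS).preimage continuous_icay
  · push_cast; linarith
  · push_cast; linarith

theorem isConnected_dom : IsConnected (dom q) := by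
  rw [dom_eq q ρ h1 h2 h0 hq, image_image]
  refine ((convex_ball (0 : ℂ) kap).isConnected ⟨0, mem_ball_self kap_pos⟩).image _ ?_
  exact (continuousOn_toH_psi q ρ h1 h2 h0 hq).mono (ball_subset_ball kap_lt_one.le)

theorem closure_dom : closure (dom q) = toH '' (psi q '' closedBall 0 kap) := by
  have hc : closedBall (0 : ℂ) kap ⊆ ball 0 1 := closedBall_subset_ball kap_lt_one
  have hcont := (continuousOn_toH_psi q ρ h1 h2 h0 hq).mono hc
  rw [dom_eq q ρ h1 h2 h0 hq, image_image, image_image]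
  apply subset_antisymm
  · refine closure_minimal (image_mono ball_subset_closedBall) ?_
    exact ((isCompact_closedBall _ _).image_of_continuousOn hcont).isClosed
  · have h := closure_ball (0 : ℂ) kap_pos.ne'
    have h3 : ContinuousOn (fun z => toH (psi q z)) (closure (ball 0 kap)) := by rwa [h]
    have h4 := h3.image_closure
    rwa [h] at h4

theorem isCompact_closure_dom : IsCompact (closure (dom q)) := by
  have hc : closedBall (0 : ℂ) kap ⊆ ball 0 1 := closedBall_subset_ball kap_lt_one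
  rw [closure_dom q ρ h1 h2 h0 hq, image_image]
  exact (isCompact_closedBall _ _).image_of_continuousOn
    ((continuousOn_toH_psi q ρ h1 h2 h0 hq).mono hc)

theorem compl_eq : (closure (dom q))ᶜ = toH '' (psi q '' {z | kap < ‖z‖ ∧ ‖z‖ < 1} ∪
    {z | 7 / 10 < ‖z‖ ∧ ‖z‖ < 1}) := by
  obtain ⟨hr1, hr2⟩ := rho_bounds ρ h1 h2 h0
  have hS : closedBall (0 : ℂ) kap ⊆ closedBall 0 1 := closedBall_subset_closedBall kap_lt_one.le
  have hA : {z : ℂ | kap < ‖z‖ ∧ ‖z‖ < 1} ⊆ closedBall 0 1 := fun z hz => by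
    rw [mem_closedBall_zero_iff]; exact hz.2.le
  have hU : psi q '' {z | kap < ‖z‖ ∧ ‖z‖ < 1} ∪ {z | 7 / 10 < ‖z‖ ∧ ‖z‖ < 1} ⊆ ball 0 1 := by
    refine union_subset (psi_image_ball_subset q ρ h1 h2 h0 hq hA) fun z hz => ?_
    rw [mem_ball_zero_iff]; exact hz.2
  rw [closure_dom q ρ h1 h2 h0 hq, toH_image_eq (psi_image_ball_subset q ρ h1 h2 h0 hq hS),
    toH_image_eq hU]
  ext τ
  have hτ := norm_icay_lt τ
  simp only [mem_compl_iff, mem_preimage, mem_union]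
  set ζ := icay τ
  constructor
  · intro hn
    by_cases h7 : 7 / 10 < ‖ζ‖
    · exact Or.inr ⟨h7, hτ⟩
    · left
      have hmem : ζ ∈ closedBall (0 : ℂ) ((ρ - (1 / 100 : NNReal)) * (99 / 100)) := by
        rw [mem_closedBall_zero_iff]
        push_cast
        push Not at h7
        nlinarith
      obtain ⟨z, hz, hzζ⟩ := surj_aux q ρ h0 (1 / 100) (by push_cast; linarith) hmem
      rw [mem_closedBall_zero_iff] at hz
      refine ⟨z, ⟨?_, by linarith⟩, hzζ⟩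
      by_contra hk
      push Not at hk
      exact hn ⟨z, mem_closedBall_zero_iff.mpr hk, hzζ⟩
  · rintro (⟨z, ⟨hz1, hz2⟩, hzζ⟩ | ⟨h7, _⟩)
    · rintro ⟨w, hw, hwζ⟩
      rw [mem_closedBall_zero_iff] at hw
      have := psi_inj' q ρ h1 h2 h0 hq (mem_closedBall_zero_iff.mpr hz2.le)
        (mem_closedBall_zero_iff.mpr (hw.trans kap_lt_one.le)) (hzζ.trans hwζ.symm)
      rw [this] at hz1
      linarith
    · rintro ⟨w, hw, hwζ⟩
      rw [mem_closedBall_zero_iff] at hw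
      have h3 := norm_psi_le q ρ h0 w (hw.trans kap_lt_one.le)
      rw [hwζ] at h3
      have hk := kap_lt
      have h4 : (ρ + ‖q - ρ • (e 0 : L1 ℕ)‖) * ‖w‖ ≤ (91 / 100) * (71 / 100) :=
        mul_le_mul (by linarith) (by linarith) (norm_nonneg _) (by norm_num)
      linarith

theorem isConnected_compl : IsConnected (closure (dom q))ᶜ := by
  obtain ⟨hr1, hr2⟩ := rho_bounds ρ h1 h2 h0
  rw [compl_eq q ρ h1 h2 h0 hq]
  have hA : {z : ℂ | kap < ‖z‖ ∧ ‖z‖ < 1} ⊆ closedBall 0 1 := fun z hz => by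
    rw [mem_closedBall_zero_iff]; exact hz.2.le
  have hU : psi q '' {z | kap < ‖z‖ ∧ ‖z‖ < 1} ∪ {z | 7 / 10 < ‖z‖ ∧ ‖z‖ < 1} ⊆ ball 0 1 := by
    refine union_subset (psi_image_ball_subset q ρ h1 h2 h0 hq hA) fun z hz => ?_
    rw [mem_ball_zero_iff]; exact hz.2
  refine IsConnected.image ?_ _ (continuousOn_toH.mono hU)
  refine IsConnected.union ?_ ?_ (isConnected_annulus (by norm_num) (by norm_num))
  · refine ⟨psi q ((99 / 100 : ℝ) : ℂ), ⟨((99 / 100 : ℝ) : ℂ), ⟨?_, ?_⟩, rfl⟩, ?_, ?_⟩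
    · rw [Complex.norm_real, Real.norm_of_nonneg (by norm_num)]
      have := kap_lt
      linarith
    · rw [Complex.norm_real, Real.norm_of_nonneg (by norm_num)]
      norm_num
    · have hn : ‖((99 / 100 : ℝ) : ℂ)‖ = 99 / 100 := by
        rw [Complex.norm_real, Real.norm_of_nonneg (by norm_num)]
      have h3 := le_norm_psi q ρ h0 ((99 / 100 : ℝ) : ℂ) (by rw [hn]; norm_num)
      rw [hn] at h3
      have h4 : (76 / 100 : ℝ) * (99 / 100) ≤ (ρ - ‖q - ρ • (e 0 : L1 ℕ)‖) * (99 / 100) := by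
        gcongr
        linarith
      linarith
    · refine psi_lt_one q ρ h1 h2 h0 hq ?_
      rw [Complex.norm_real, Real.norm_of_nonneg (by norm_num)]
      norm_num
  · refine (isConnected_annulus kap_pos.le kap_lt_one).image _ ?_
    refine (continuousOn_psi q).mono fun z hz => ?_
    rw [mem_ball_zero_iff]; exact hz.2

theorem dom_geometry :
    IsOpen (dom q) ∧ IsConnected (dom q) ∧ IsCompact (closure (dom q)) ∧
    closure (dom q) = {τ : UpperHalfPlane | ∃ z ∈ Metric.closedBall (0 : ℂ) kap,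
      (τ : ℂ) = cay (psi q z)} ∧
    IsConnected (closure (dom q))ᶜ :=
  ⟨isOpen_dom q ρ h1 h2 h0 hq, isConnected_dom q ρ h1 h2 h0 hq,
    isCompact_closure_dom q ρ h1 h2 h0 hq,
    by rw [closure_dom q ρ h1 h2 h0 hq, dom'_eq q ρ h1 h2 h0 hq],
    isConnected_compl q ρ h1 h2 h0 hq⟩

end

end Pool.Agent.Sch
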