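import Pool.Agent.Sch.Defs

/-!
# M7, part 1: Green's identity in polar coordinates
-/

open scoped Topology
open MeasureTheory Set
open Complex (I)

noncomputable section

namespace Pool.Agent.Sch

/-- Joint continuity on `[0,1) × ℝ` gives continuity of the slices. -/
theorem cont_slice {f : ℝ → ℝ → ℂ}
    (hf : ContinuousOn (fun p : ℝ × ℝ => f p.1 p.2) (Set.Ico 0 1 ×ˢ Set.univ))
    {r : ℝ} (hr : r ∈ Set.Ico (0 : ℝ) 1) : Continuous fun θ => f r θ := by
  have h : ContinuousOn (fun θ : ℝ => (fun p : ℝ × ℝ => f p.1 p.2) (r, θ)) Set.univ :=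
    hf.comp (by fun_prop) (fun θ _ => ⟨hr, mem_univ _⟩)
  exact continuousOn_univ.1 h

/-- Parametric integrals over `θ` are continuous in `r ∈ [0,κ]`. -/
theorem cont_param {f : ℝ → ℝ → ℂ}
    (hf : ContinuousOn (fun p : ℝ × ℝ => f p.1 p.2) (Set.Ico 0 1 ×ˢ Set.univ))
    {κ : ℝ} (h0 : 0 ≤ κ) (h1 : κ < 1) (a b : ℝ) :
    ContinuousOn (fun r => ∫ θ in a..b, f r θ) (Set.Icc 0 κ) := by
  have hproj : Continuous fun p : ℝ × ℝ => ((Set.projIcc 0 κ h0 p.1 : ℝ), p.2) :=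
    (continuous_subtype_val.comp (continuous_projIcc.comp continuous_fst)).prodMk continuous_snd
  have hcont : Continuous fun p : ℝ × ℝ => f (Set.projIcc 0 κ h0 p.1 : ℝ) p.2 := by
    have h := hf.comp (s := Set.univ) (f := fun p : ℝ × ℝ => ((Set.projIcc 0 κ h0 p.1 : ℝ), p.2))
      hproj.continuousOn (fun p _ => ⟨⟨(Set.projIcc 0 κ h0 p.1).2.1,
        lt_of_le_of_lt (Set.projIcc 0 κ h0 p.1).2.2 h1⟩, mem_univ _⟩)
    exact continuousOn_univ.1 h
  have hint : Continuous fun r : ℝ => ∫ θ in a..b, f (Set.projIcc 0 κ h0 r : ℝ) θ :=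
    intervalIntegral.continuous_parametric_intervalIntegral_of_continuous'
      (f := fun r θ => f (Set.projIcc 0 κ h0 r : ℝ) θ) hcont a b
  refine hint.continuousOn.congr fun r hr => ?_
  simp only [Set.projIcc_of_mem h0 hr]

/-- Differentiation under the integral sign. -/
theorem deriv_param {f g : ℝ → ℝ → ℂ}
    (hf : ContinuousOn (fun p : ℝ × ℝ => f p.1 p.2) (Set.Ico 0 1 ×ˢ Set.univ))
    (hg : ContinuousOn (fun p : ℝ × ℝ => g p.1 p.2) (Set.Ico 0 1 ×ˢ Set.univ))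
    (hd : ∀ r ∈ Set.Ioo (0 : ℝ) 1, ∀ θ, HasDerivAt (fun s => f s θ) (g r θ / r) r)
    {r : ℝ} (hr : r ∈ Set.Ioo (0 : ℝ) 1) (a b : ℝ) :
    HasDerivAt (fun s => ∫ θ in a..b, f s θ) (∫ θ in a..b, g r θ / r) r := by
  obtain ⟨hr0, hr1⟩ := hr
  set s : Set ℝ := Set.Icc (r / 2) ((1 + r) / 2) with hs
  have hsub : s ⊆ Set.Ioo 0 1 := fun x hx => ⟨by have := hx.1; linarith, by have := hx.2; linarith⟩
  have hsn : s ∈ 𝓝 r := Icc_mem_nhds (by linarith) (by linarith)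
  have hcomp : IsCompact (s ×ˢ Set.uIcc a b) := isCompact_Icc.prod isCompact_uIcc
  have hgc : ContinuousOn (fun p : ℝ × ℝ => g p.1 p.2 / p.1) (s ×ˢ Set.uIcc a b) := by
    refine ContinuousOn.div (hg.mono fun p hp => ⟨⟨(hsub hp.1).1.le, (hsub hp.1).2⟩, mem_univ _⟩)
      (Complex.continuous_ofReal.comp continuous_fst).continuousOn fun p hp => ?_
    exact_mod_cast (hsub hp.1).1.ne'
  obtain ⟨C, hC⟩ := hcomp.exists_bound_of_continuousOn hgc
  refine (intervalIntegral.hasDerivAt_integral_of_dominated_loc_of_deriv_le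
    (F := fun s θ => f s θ) (F' := fun s θ => g s θ / s) (bound := fun _ => C) (s := s) hsn
    ?_ ?_ ?_ ?_ ?_ ?_).2
  · filter_upwards [hsn] with x hx
    exact (cont_slice hf ⟨(hsub hx).1.le, (hsub hx).2⟩).aestronglyMeasurable
  · exact (cont_slice hf ⟨hr0.le, hr1⟩).intervalIntegrable _ _
  · exact ((cont_slice hg ⟨hr0.le, hr1⟩).div_const _).aestronglyMeasurable
  · refine Filter.Eventually.of_forall fun θ hθ x hx => ?_
    exact hC (x, θ) ⟨hx, Set.uIoc_subset_uIcc hθ⟩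
  · exact intervalIntegrable_const
  · exact Filter.Eventually.of_forall fun θ _ x hx => hd x (hsub hx) θ

/-- The integral over a period of a derivative vanishes. -/
theorem integral_period_deriv {G G' : ℝ → ℂ} (hG : ∀ θ, HasDerivAt G (G' θ) θ)
    (hG' : Continuous G') (hper : ∀ θ, G (θ + 2 * Real.pi) = G θ) :
    ∫ θ in (0 : ℝ)..(2 * Real.pi), G' θ = 0 := by
  rw [intervalIntegral.integral_eq_sub_of_hasDerivAt (fun θ _ => hG θ)
    (hG'.intervalIntegrable _ _)]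
  have := hper 0
  rw [zero_add] at this
  rw [this, sub_self]

/-- Green's identity. -/
theorem green (w w1 w2 x1 x2 E E1 E2 F1 F2 k : ℝ → ℝ → ℂ) (hw : Pol w w1 w2 x1 x2)
    (hE : Pol E E1 E2 F1 F2) (c : ℂ) (hc : c ≠ 0)
    (hk : ContinuousOn (fun p : ℝ × ℝ => k p.1 p.2) (Set.Ico 0 1 ×ˢ Set.univ))
    (pw : ∀ r ∈ Set.Ico (0 : ℝ) 1, ∀ θ, w2 r θ + x2 r θ = -c * r ^ 2 * k r θ * w r θ)
    (pE : ∀ r ∈ Set.Ico (0 : ℝ) 1, ∀ θ, E2 r θ + F2 r θ = -c * r ^ 2 * k r θ * E r θ)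
    (κ : ℝ) (h0 : 0 < κ) (h1 : κ < 1) (bw : ∀ θ, w κ θ = 1) (bw1 : ∀ θ, w1 κ θ = 0) :
    ∫ r in (0 : ℝ)..κ, ∫ θ in (0 : ℝ)..(2 * Real.pi), r * (k r θ * E r θ) = 0 := by
  have hκ : κ ∈ Set.Ico (0 : ℝ) 1 := ⟨h0.le, h1⟩
  -- step 1: `∫ E1 κ θ = 0`
  set J : ℝ → ℂ := fun r => ∫ θ in (0 : ℝ)..(2 * Real.pi), (w r θ * E1 r θ - E r θ * w1 r θ)
    with hJ
  have hJc : ContinuousOn J (Set.Icc 0 κ) :=
    cont_param (f := fun r θ => w r θ * E1 r θ - E r θ * w1 r θ)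
      ((hw.cont_u.mul hE.cont_u1).sub (hE.cont_u.mul hw.cont_u1)) h0.le h1 _ _
  have hJd : ∀ r ∈ Set.Ioo (0 : ℝ) κ, HasDerivAt J 0 r := by
    intro r hr
    have hr1 : r ∈ Set.Ioo (0 : ℝ) 1 := ⟨hr.1, hr.2.trans h1⟩
    have hr2 : r ∈ Set.Ico (0 : ℝ) 1 := ⟨hr.1.le, hr.2.trans h1⟩
    have hd := deriv_param (f := fun r θ => w r θ * E1 r θ - E r θ * w1 r θ)
      (g := fun r θ => w r θ * E2 r θ - E r θ * w2 r θ)
      ((hw.cont_u.mul hE.cont_u1).sub (hE.cont_u.mul hw.cont_u1))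
      ((hw.cont_u.mul hE.cont_u2).sub (hE.cont_u.mul hw.cont_u2))
      (fun r hr θ => by
        have e := ((hw.dr r hr θ).mul (hE.dr1 r hr θ)).sub ((hE.dr r hr θ).mul (hw.dr1 r hr θ))
        exact e.congr_deriv (by ring)) hr1 0 (2 * Real.pi)
    have hz : ∫ θ in (0 : ℝ)..(2 * Real.pi), (w r θ * E2 r θ - E r θ * w2 r θ) / r = 0 := by
      have h2 : ∀ θ, (w r θ * E2 r θ - E r θ * w2 r θ) / r =
          (E r θ * x2 r θ - w r θ * F2 r θ) * (r : ℂ)⁻¹ := by
        intro θ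
        have a1 := pw r hr2 θ
        have a2 := pE r hr2 θ
        have a3 : w2 r θ = -c * r ^ 2 * k r θ * w r θ - x2 r θ := by rw [← a1]; ring
        have a4 : E2 r θ = -c * r ^ 2 * k r θ * E r θ - F2 r θ := by rw [← a2]; ring
        rw [a3, a4]
        ring
      simp_rw [h2]
      rw [intervalIntegral.integral_mul_const]
      rw [integral_period_deriv (G := fun θ => E r θ * x1 r θ - w r θ * F1 r θ)
        (G' := fun θ => E r θ * x2 r θ - w r θ * F2 r θ), zero_mul]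
      · intro θ
        have e := ((hE.dθ r hr2 θ).mul (hw.dθ1 r hr2 θ)).sub
          ((hw.dθ r hr2 θ).mul (hE.dθ1 r hr2 θ))
        exact e.congr_deriv (by ring)
      · exact ((cont_slice hE.cont_u hr2).mul (cont_slice hw.cont_v2 hr2)).sub
          ((cont_slice hw.cont_u hr2).mul (cont_slice hE.cont_v2 hr2))
      · intro θ
        simp only [hE.per r hr2 θ, hw.per r hr2 θ, hE.per1 r hr2 θ, hw.per1 r hr2 θ]
    rw [hz] at hd
    exact hd
  have hJκ : J κ = 0 := by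
    have h := intervalIntegral.integral_eq_sub_of_hasDerivAt_of_le h0.le hJc
      (f' := fun _ => 0) hJd intervalIntegrable_const
    rw [intervalIntegral.integral_zero] at h
    have hJ0 : J 0 = 0 := by
      simp only [hJ, hE.zero, hw.zero, mul_zero, sub_zero, intervalIntegral.integral_zero]
    rw [hJ0, sub_zero] at h
    exact h.symm
  have hE1κ : ∫ θ in (0 : ℝ)..(2 * Real.pi), E1 κ θ = 0 := by
    simpa only [hJ, bw, bw1, one_mul, mul_zero, sub_zero] using hJκ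
  -- step 2
  set M : ℝ → ℂ := fun r => ∫ θ in (0 : ℝ)..(2 * Real.pi), E1 r θ with hM
  have hMc : ContinuousOn M (Set.Icc 0 κ) := cont_param hE.cont_u1 h0.le h1 _ _
  have hkE : ContinuousOn (fun p : ℝ × ℝ => (fun (r θ : ℝ) => (r : ℂ) * (k r θ * E r θ)) p.1 p.2)
      (Set.Ico 0 1 ×ˢ Set.univ) :=
    (Complex.continuous_ofReal.comp continuous_fst).continuousOn.mul (hk.mul hE.cont_u)
  have hMd : ∀ r ∈ Set.Ioo (0 : ℝ) κ, HasDerivAt M
      ((-c) * ∫ θ in (0 : ℝ)..(2 * Real.pi), (r : ℂ) * (k r θ * E r θ)) r := by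
    intro r hr
    have hr1 : r ∈ Set.Ioo (0 : ℝ) 1 := ⟨hr.1, hr.2.trans h1⟩
    have hr2 : r ∈ Set.Ico (0 : ℝ) 1 := ⟨hr.1.le, hr.2.trans h1⟩
    have hd := deriv_param hE.cont_u1 hE.cont_u2 hE.dr1 hr1 0 (2 * Real.pi)
    have hrne : (r : ℂ) ≠ 0 := by exact_mod_cast hr.1.ne'
    have h2 : ∀ θ, E2 r θ / r = (-c) * (r * (k r θ * E r θ)) - F2 r θ * (r : ℂ)⁻¹ := by
      intro θ
      have a2 := pE r hr2 θ
      have a4 : E2 r θ = -c * r ^ 2 * k r θ * E r θ - F2 r θ := by rw [← a2]; ring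
      rw [a4]
      field_simp
    have hz : ∫ θ in (0 : ℝ)..(2 * Real.pi), E2 r θ / r =
        (-c) * ∫ θ in (0 : ℝ)..(2 * Real.pi), (r : ℂ) * (k r θ * E r θ) := by
      simp_rw [h2]
      rw [intervalIntegral.integral_sub, intervalIntegral.integral_const_mul,
        intervalIntegral.integral_mul_const]
      · rw [integral_period_deriv (G := fun θ => F1 r θ) (G' := fun θ => F2 r θ)
          (hE.dθ1 r hr2) (cont_slice hE.cont_v2 hr2) (hE.per1 r hr2), zero_mul, sub_zero]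
      · exact ((cont_slice (f := fun r θ => (r : ℂ) * (k r θ * E r θ)) hkE hr2).intervalIntegrable
          _ _).const_mul _
      · exact ((cont_slice hE.cont_v2 hr2).mul_const _).intervalIntegrable _ _
    rw [hz] at hd
    exact hd
  have hfin := intervalIntegral.integral_eq_sub_of_hasDerivAt_of_le h0.le hMc hMd (by
    apply ContinuousOn.intervalIntegrable
    rw [Set.uIcc_of_le h0.le]
    exact continuousOn_const.mul
      (cont_param (f := fun r θ => (r : ℂ) * (k r θ * E r θ)) hkE h0.le h1 0 (2 * Real.pi)))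
  have hM0 : M 0 = 0 := by
    simp only [hM, hE.zero, intervalIntegral.integral_zero]
  have hMκ : M κ = 0 := hE1κ
  rw [hM0, hMκ, sub_zero, intervalIntegral.integral_const_mul] at hfin
  rcases mul_eq_zero.1 hfin with h | h
  · exact absurd (neg_eq_zero.1 h) hc
  · exact h

end Pool.Agent.Sch
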