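import Pool.Agent.Sch.RadSol

/-!
# The map `q ↦ K_q`: smoothness and derivative at radial points
-/

open scoped ENNReal Topology

set_option maxHeartbeats 400000

noncomputable section

namespace Pool.Agent.Sch

theorem contDiffAt_opK (q : L1 ℕ) (hu : IsUnit (1 - opI q * opIb q)) :
    ContDiffAt ℝ 1 opK q := by
  unfold opK
  have h1 : ContDiffAt ℝ 1 (fun q : L1 ℕ => 1 - opI q * opIb q) q := by fun_prop
  have h2 : ContDiffAt ℝ 1 (fun q : L1 ℕ => Ring.inverse (1 - opI q * opIb q)) q := by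
    obtain ⟨u, hu⟩ := hu
    have h3 := contDiffAt_ringInverse ℝ (n := 1) u
    rw [hu] at h3
    exact h3.comp q h1
  have h4 : ContDiffAt ℝ 1 (fun q : L1 ℕ => opJ q * opJb q) q := by fun_prop
  exact h4.mul (h2.pow 2)

theorem hasFDerivAt_opK (q : L1 ℕ) (hu : IsUnit (1 - opI q * opIb q)) :
    ∃ L : L1 ℕ →L[ℝ] W, HasFDerivAt opK L q ∧ ∀ δ, L δ =
      (opJ δ * opJb q + opJ q * opJb δ) * Ring.inverse (1 - opI q * opIb q) ^ 2 +
      2 * (opJ q * opJb q) * Ring.inverse (1 - opI q * opIb q) ^ 3 *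
        (opI δ * opIb q + opI q * opIb δ) := by
  obtain ⟨u, hu⟩ := hu
  have h1 : HasFDerivAt (fun q : L1 ℕ => 1 - opI q * opIb q)
      (-(opI q • opIb + opIb q • opI)) q :=
    (opI.hasFDerivAt.mul opIb.hasFDerivAt).const_sub 1
  have h3 := hasFDerivAt_ringInverse (𝕜 := ℝ) u
  rw [hu] at h3
  have h2 := h3.comp q h1
  have h4 : HasFDerivAt (fun q : L1 ℕ => opJ q * opJb q) (opJ q • opJb + opJb q • opJ) q :=
    opJ.hasFDerivAt.mul opJb.hasFDerivAt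
  have h5 := h4.mul (h2.pow 2)
  refine ⟨_, h5, fun δ => ?_⟩
  have h6 : (↑u⁻¹ : W) = Ring.inverse (1 - opI q * opIb q) := by
    rw [← hu, Ring.inverse_unit]
  simp only [Function.comp_apply, h6, ContinuousLinearMap.add_apply, ContinuousLinearMap.smul_apply,
    smul_eq_mul, ContinuousLinearMap.comp_apply, ContinuousLinearMap.neg_apply,
    ContinuousLinearMap.mulLeftRight_apply, nsmul_eq_mul, Nat.cast_ofNat, pow_one]
  ring

@[simp] theorem opJ_e (j : ℕ) : opJ (e j) = mono (4 * j, 0) := lift_e _ _ _ _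
@[simp] theorem opJb_e (j : ℕ) : opJb (e j) = mono (0, 4 * j) := lift_e _ _ _ _
@[simp] theorem opI_e (j : ℕ) : opI (e j) = (1 / (4 * (j : ℝ) + 1)) • mono (4 * j + 1, 0) :=
  lift_e _ _ _ _
@[simp] theorem opIb_e (j : ℕ) : opIb (e j) = (1 / (4 * (j : ℝ) + 1)) • mono (0, 4 * j + 1) :=
  lift_e _ _ _ _

theorem opI_rad (ρ : ℝ) : opI (ρ • e 0) = ρ • mono (1, 0) := by
  rw [map_smul, opI_e]; simp

theorem opIb_rad (ρ : ℝ) : opIb (ρ • e 0) = ρ • mono (0, 1) := by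
  rw [map_smul, opIb_e]; simp

theorem opJ_rad (ρ : ℝ) : opJ (ρ • e 0) = ρ • (1 : W) := by
  rw [map_smul, opJ_e]; rfl

theorem opJb_rad (ρ : ℝ) : opJb (ρ • e 0) = ρ • (1 : W) := by
  rw [map_smul, opJb_e]; rfl

theorem mono_pow (p : ℕ × ℕ) (n : ℕ) : mono p ^ n = mono (n • p) := by
  induction n with
  | zero => rw [pow_zero, zero_smul]; rfl
  | succ n ih => rw [pow_succ, ih, mono_mul_mono, add_smul, one_smul]

theorem x_eq (ρ : ℝ) : opI (ρ • e 0) * opIb (ρ • e 0) = (ρ ^ 2) • mono (1, 1) := by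
  rw [opI_rad, opIb_rad, smul_mul_smul_comm, mono_mul_mono]
  congr 1
  ring

theorem norm_x (ρ : ℝ) (h : ρ ^ 2 < 1) : ‖(ρ ^ 2) • mono (1, 1)‖ < 1 := by
  rw [norm_smul, norm_mono, mul_one, Real.norm_eq_abs, abs_of_nonneg (by positivity)]
  exact h

theorem isUnit_rad (ρ : ℝ) (h : ρ ^ 2 < 1) : IsUnit (1 - opI (ρ • e 0) * opIb (ρ • e 0)) := by
  rw [x_eq]; exact isUnit_one_sub_of_norm_lt_one (norm_x ρ h)

/-- Coefficients of `(1 - ρ² t)^{-(m+1)}`. -/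
def Rs (ρ : ℝ) (m : ℕ) : L1 ℕ := sq fun n => ((n + m).choose m : ℝ) * (ρ ^ 2) ^ n

theorem Rs_apply (ρ : ℝ) (h : ρ ^ 2 < 1) (m n : ℕ) :
    Rs ρ m n = ((n + m).choose m : ℝ) * (ρ ^ 2) ^ n := by
  refine sq_apply ?_ n
  have h1 : ‖ρ ^ 2‖ < 1 := by rw [Real.norm_eq_abs, abs_of_nonneg (by positivity)]; exact h
  exact (summable_choose_mul_geometric_of_norm_lt_one m h1).norm

theorem Rs_eq (ρ : ℝ) (h : ρ ^ 2 < 1) (m : ℕ) :
    Ring.inverse (1 - opI (ρ • e 0) * opIb (ρ • e 0)) ^ (m + 1) = Hc 0 (Rs ρ m) := by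
  rw [x_eq]
  have h1 := hasSum_choose_mul_geometric_of_norm_lt_one' m (norm_x ρ h)
  have h2 : HasSum (fun n => Rs ρ m n • Hm 0 n) (Hc 0 (Rs ρ m)) := hasSum_lift _ _ _ _
  have h3 : (fun n => Rs ρ m n • Hm 0 n)
      = fun n : ℕ => (((n + m).choose m : ℕ) : W) * ((ρ ^ 2) • mono (1, 1)) ^ n := by
    funext n
    have hc : (((n + m).choose m : ℕ) : W) = (((n + m).choose m : ℕ) : ℝ) • (1 : W) := by
      rw [Nat.cast_smul_eq_nsmul, nsmul_one]
    rw [Rs_apply ρ h, smul_pow, mono_pow, Hm, if_pos rfl, hc, smul_mul_assoc, one_mul, smul_smul]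
    congr 2
    ext <;> simp
  rw [h3] at h2
  exact h1.unique h2

theorem opK_rad (ρ : ℝ) (h : ρ ^ 2 < 1) : opK (ρ • e 0) = Hc 0 (kp ρ) := by
  rw [opK, Rs_eq ρ h 1, opJ_rad, opJb_rad, smul_mul_smul_comm, one_mul, smul_mul_assoc, one_mul,
    ← map_smul]
  congr 1
  refine lp.ext (funext fun n => ?_)
  rw [lp.coeFn_smul, Pi.smul_apply, smul_eq_mul, Rs_apply ρ h, kp_apply h, Nat.choose_one_right]
  push_cast
  ring

theorem mono_pair (j n : ℕ) : mono (4 * j + n, n) + mono (n, 4 * j + n) = mj j • Hm j n := by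
  rw [← mono_add_mono, add_comm (4 * j) n]

/-- The derivative of `K` at a radial point in the direction `e j`. -/
theorem dK_rad (ρ : ℝ) (h0 : 0 < ρ) (h : ρ ^ 2 < 1) (L : L1 ℕ →L[ℝ] W)
    (hL : ∀ δ, L δ =
      (opJ δ * opJb (ρ • e 0) + opJ (ρ • e 0) * opJb δ) *
        Ring.inverse (1 - opI (ρ • e 0) * opIb (ρ • e 0)) ^ 2 +
      2 * (opJ (ρ • e 0) * opJb (ρ • e 0)) *
        Ring.inverse (1 - opI (ρ • e 0) * opIb (ρ • e 0)) ^ 3 *
        (opI δ * opIb (ρ • e 0) + opI (ρ • e 0) * opIb δ)) (j : ℕ) :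
    L (e j) = (mj j / (ρ * (4 * j + 1))) • Hc j (kq ρ (4 * j)) := by
  have h1 : opJ (e j) * opJb (ρ • e 0) + opJ (ρ • e 0) * opJb (e j) = (ρ * mj j) • Hm j 0 := by
    have hR : (ρ * mj j) • Hm j 0 = ρ • (mono (4 * j + 0, 0) + mono (0, 4 * j + 0)) := by
      rw [mono_pair, smul_smul]
    rw [hR, opJ_rad, opJb_rad, opJ_e, opJb_e, mul_smul_comm, mul_one, smul_mul_assoc, one_mul,
      ← smul_add]
    rfl
  have h2 : opI (e j) * opIb (ρ • e 0) + opI (ρ • e 0) * opIb (e j)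
      = (ρ / (4 * j + 1) * mj j) • Hm j 1 := by
    have hR : (ρ / (4 * j + 1) * mj j) • Hm j 1
        = (ρ / (4 * j + 1)) • (mono (4 * j + 1, 1) + mono (1, 4 * j + 1)) := by
      rw [mono_pair, smul_smul]
    rw [hR, opI_rad, opIb_rad, opI_e, opIb_e, smul_mul_smul_comm, smul_mul_smul_comm,
      mono_mul_mono, mono_mul_mono, smul_add]
    congr 1
    · congr 1
      ring
    · congr 1
      · ring
      · congr 1
        ext <;> simp
  have h3 : (2 : W) * ((ρ * ρ) • (1 : W)) * Hc 0 (Rs ρ 2) * ((ρ / (4 * j + 1) * mj j) • Hc j (e 1))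
      = (2 * (ρ * ρ) * (ρ / (4 * j + 1) * mj j)) • (Hc j (e 1) * Hc 0 (Rs ρ 2)) := by
    simp only [Algebra.smul_def, map_mul, map_ofNat]
    ring
  have hj : (4 * (j : ℝ) + 1) ≠ 0 := by positivity
  have hc : ∀ n : ℕ, cv (e 1) (Rs ρ 2) n = if n = 0 then 0 else Rs ρ 2 (n - 1) := by
    intro n
    rw [cv_apply]
    cases n with
    | zero => simp [e_apply]
    | succ n =>
      rw [if_neg (by omega), Finset.sum_eq_single_of_mem 1 (Finset.mem_range.mpr (by omega))]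
      · simp
      · intro m _ hm
        rw [e_ne hm, zero_mul]
  have key : (ρ * mj j) • Rs ρ 1 +
      (2 * (ρ * ρ) * (ρ / (4 * j + 1) * mj j)) • cv (e 1) (Rs ρ 2)
      = (mj j / (ρ * (4 * j + 1))) • kq ρ (4 * j) := by
    refine lp.ext (funext fun n => ?_)
    rw [lp.coeFn_add, Pi.add_apply, lp.coeFn_smul, Pi.smul_apply, smul_eq_mul, lp.coeFn_smul,
      Pi.smul_apply, smul_eq_mul, lp.coeFn_smul, Pi.smul_apply, smul_eq_mul, hc, Rs_apply ρ h,
      kq_apply h, Nat.choose_one_right]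
    cases n with
    | zero =>
      simp
      field_simp
    | succ n =>
      rw [if_neg (by omega), Nat.add_sub_cancel, Rs_apply ρ h]
      have h5 : (((n + 2).choose 2 : ℕ) : ℝ) = ((n : ℝ) + 2) * ((n : ℝ) + 1) / 2 := by
        rw [Nat.cast_choose_two]; push_cast; ring
      rw [h5]
      push_cast
      rw [pow_succ (ρ ^ 2) (n + 1), pow_succ (ρ ^ 2) n]
      field_simp
      ring
  rw [hL, h1, h2, Rs_eq ρ h 1, Rs_eq ρ h 2, opJ_rad, opJb_rad, ← Hc_e, ← Hc_e,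
    smul_mul_smul_comm, one_mul, h3, smul_mul_assoc, Hc_mul, Hc_mul, cv_zero_left]
  calc (ρ * mj j) • Hc j (Rs ρ 1)
        + (2 * (ρ * ρ) * (ρ / (4 * j + 1) * mj j)) • Hc j (cv (e 1) (Rs ρ 2))
      = Hc j ((ρ * mj j) • Rs ρ 1 +
          (2 * (ρ * ρ) * (ρ / (4 * j + 1) * mj j)) • cv (e 1) (Rs ρ 2)) := by
        rw [map_add, map_smul, map_smul]
    _ = _ := by rw [key, map_smul]

end Pool.Agent.Sch
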