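import Mathlib

/-!
# The sequence space `ℓ¹(ι)` and continuous linear maps defined on basis vectors
-/

open scoped ENNReal

noncomputable section

namespace Pool.Agent.Sch

/-- The real sequence space `ℓ¹(ι)`. -/
abbrev L1 (ι : Type) : Type := lp (fun _ : ι => ℝ) 1

variable {ι : Type}
variable {E : Type*} [NormedAddCommGroup E] [NormedSpace ℝ E] [CompleteSpace E]

theorem summable_norm_coe (a : L1 ι) : Summable fun i => ‖a i‖ := by
  have h := (lp.memℓp a).summable (p := 1) (by simp)
  simpa using h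

theorem summable_coe (a : L1 ι) : Summable fun i => a i := (summable_norm_coe a).of_norm

theorem norm_eq (a : L1 ι) : ‖a‖ = ∑' i, ‖a i‖ := by
  have h := lp.norm_eq_tsum_rpow (p := 1) (by simp) a
  simpa using h

theorem norm_coe_le (a : L1 ι) (i : ι) : ‖a i‖ ≤ ‖a‖ :=
  lp.norm_apply_le_norm (by simp) a i

/-- Element of `ℓ¹` from a summable family. -/
def mk (f : ι → ℝ) (hf : Summable fun i => ‖f i‖) : L1 ι :=
  ⟨f, memℓp_gen (by simpa using hf)⟩

@[simp] theorem mk_apply (f : ι → ℝ) (hf : Summable fun i => ‖f i‖) (i : ι) : mk f hf i = f i := rfl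

theorem norm_mk (f : ι → ℝ) (hf : Summable fun i => ‖f i‖) : ‖mk f hf‖ = ∑' i, ‖f i‖ :=
  norm_eq _

/-- Coordinates as continuous linear maps. -/
def coord (i : ι) : L1 ι →L[ℝ] ℝ := lp.evalCLM ℝ (fun _ : ι => ℝ) 1 i

@[simp] theorem coord_apply (i : ι) (a : L1 ι) : coord i a = a i := rfl

variable [DecidableEq ι]

/-- Basis vectors. -/
def e (i : ι) : L1 ι := lp.single 1 i (1 : ℝ)

@[simp] theorem e_self (i : ι) : (e i : L1 ι) i = 1 := lp.single_apply_self _ _ _

theorem e_ne {i j : ι} (h : j ≠ i) : (e i : L1 ι) j = 0 := lp.single_apply_ne _ _ _ h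

theorem e_apply (i j : ι) : (e i : L1 ι) j = if j = i then 1 else 0 := by
  split_ifs with h
  · subst h; simp
  · exact e_ne h

@[simp] theorem norm_e (i : ι) : ‖(e i : L1 ι)‖ = 1 := by
  rw [e, lp.norm_single (by simp)]; simp

theorem hasSum_e (a : L1 ι) : HasSum (fun i => a i • (e i : L1 ι)) a := by
  have h := lp.hasSum_single (p := 1) (by simp) a
  convert h using 2 with i
  ext j
  by_cases hj : j = i
  · subst hj; simp
  · rw [lp.single_apply_ne _ _ _ hj, lp.coeFn_smul, Pi.smul_apply, e_ne hj, smul_zero]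

theorem summable_smul_of_bound (a : L1 ι) (v : ι → E) {C : ℝ} (hv : ∀ i, ‖v i‖ ≤ C) :
    Summable fun i => a i • v i := by
  refine Summable.of_norm_bounded ((summable_norm_coe a).mul_right C) fun i => ?_
  rw [norm_smul]
  exact mul_le_mul_of_nonneg_left (hv i) (norm_nonneg _)

/-- The continuous linear map `ℓ¹(ι) → E` with prescribed bounded values on basis vectors. -/
def lift (v : ι → E) (C : ℝ) (hv : ∀ i, ‖v i‖ ≤ C) : L1 ι →L[ℝ] E :=
  LinearMap.mkContinuous
    { toFun := fun a => ∑' i, a i • v i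
      map_add' := fun a b => by
        rw [← (summable_smul_of_bound a v hv).tsum_add (summable_smul_of_bound b v hv)]
        refine tsum_congr fun i => ?_
        rw [lp.coeFn_add, Pi.add_apply, add_smul]
      map_smul' := fun c a => by
        rw [RingHom.id_apply, ← (summable_smul_of_bound a v hv).tsum_const_smul c]
        refine tsum_congr fun i => ?_
        rw [lp.coeFn_smul, Pi.smul_apply, smul_assoc] } C
    (fun a => by
      change ‖∑' i, a i • v i‖ ≤ _
      have h1 : Summable fun i => ‖a i‖ * C := (summable_norm_coe a).mul_right C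
      refine (tsum_of_norm_bounded h1.hasSum fun i => ?_).trans ?_
      · rw [norm_smul]
        exact mul_le_mul_of_nonneg_left (hv i) (norm_nonneg _)
      · rw [tsum_mul_right, norm_eq, mul_comm])

theorem lift_apply (v : ι → E) (C : ℝ) (hv : ∀ i, ‖v i‖ ≤ C) (a : L1 ι) :
    lift v C hv a = ∑' i, a i • v i := rfl

theorem hasSum_lift (v : ι → E) (C : ℝ) (hv : ∀ i, ‖v i‖ ≤ C) (a : L1 ι) :
    HasSum (fun i => a i • v i) (lift v C hv a) :=
  (summable_smul_of_bound a v hv).hasSum

@[simp] theorem lift_e (v : ι → E) (C : ℝ) (hv : ∀ i, ‖v i‖ ≤ C) (i : ι) :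
    lift v C hv (e i) = v i := by
  rw [lift_apply, tsum_eq_single i]
  · simp
  · intro j hj
    rw [e_ne hj, zero_smul]

theorem norm_lift_le (v : ι → E) (C : ℝ) (hv : ∀ i, ‖v i‖ ≤ C) (hC : 0 ≤ C) :
    ‖lift v C hv‖ ≤ C :=
  LinearMap.mkContinuous_norm_le _ hC _

theorem norm_lift_apply_le (v : ι → E) (C : ℝ) (hv : ∀ i, ‖v i‖ ≤ C) (a : L1 ι) :
    ‖lift v C hv a‖ ≤ C * ‖a‖ := by
  rw [lift_apply]
  have h1 : Summable fun i => ‖a i‖ * C := (summable_norm_coe a).mul_right C
  refine (tsum_of_norm_bounded h1.hasSum fun i => ?_).trans ?_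
  · rw [norm_smul]
    exact mul_le_mul_of_nonneg_left (hv i) (norm_nonneg _)
  · rw [tsum_mul_right, norm_eq, mul_comm]

/-- Two continuous linear maps on `ℓ¹` which agree on basis vectors are equal. -/
theorem clm_ext {F : Type*} [NormedAddCommGroup F] [NormedSpace ℝ F] {A B : L1 ι →L[ℝ] F}
    (h : ∀ i, A (e i) = B (e i)) : A = B := by
  ext1 a
  have h1 := (hasSum_e a).mapL A
  have h2 := (hasSum_e a).mapL B
  simp only [map_smul] at h1 h2
  simp only [h] at h1
  exact h1.unique h2

/-- Bound for the operator norm through basis vectors. -/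
theorem norm_clm_apply_le {F : Type*} [NormedAddCommGroup F] [NormedSpace ℝ F] (A : L1 ι →L[ℝ] F)
    {C : ℝ} (h : ∀ i, ‖A (e i)‖ ≤ C) (a : L1 ι) : ‖A a‖ ≤ C * ‖a‖ := by
  have h1 := (hasSum_e a).mapL A
  simp only [map_smul] at h1
  have h2 : Summable fun i => ‖a i‖ * C := (summable_norm_coe a).mul_right C
  rw [← h1.tsum_eq]
  refine (tsum_of_norm_bounded h2.hasSum fun i => ?_).trans ?_
  · rw [norm_smul]
    exact mul_le_mul_of_nonneg_left (h i) (norm_nonneg _)
  · rw [tsum_mul_right, norm_eq, mul_comm]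

/-- Coordinates of a lifted map. -/
theorem coe_lift {κ : Type} [DecidableEq κ] (v : ι → L1 κ) (C : ℝ) (hv : ∀ i, ‖v i‖ ≤ C)
    (a : L1 ι) (k : κ) : lift v C hv a k = ∑' i, a i * v i k := by
  have h := (hasSum_lift v C hv a).mapL (coord k)
  rw [← coord_apply, ← h.tsum_eq]
  refine tsum_congr fun i => ?_
  simp

end Pool.Agent.Sch
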