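import Pool.Agent.Sch.RadSol

/-!
# A solution with a linear conformal map is radial
-/

open scoped ENNReal Topology

noncomputable section

namespace Pool.Agent.Sch

variable {α ρ : ℝ}

/-- Uniform bound of the mode sequences. -/
def cA (ρ : ℝ) : ℝ := ∑' n : ℕ, ((n + 29).choose 29 : ℝ) * (ρ ^ 2) ^ n

theorem norm_Aj_le (h : Rng α ρ) (j : ℕ) : ‖Aj α ρ j‖ ≤ cA ρ := by
  have hs : Summable fun n : ℕ => ((n + 29).choose 29 : ℝ) * (ρ ^ 2) ^ n :=
    summable_choose (ρ ^ 2) (by positivity) (by linarith [h.h1])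
  rw [norm_eq, cA]
  refine (summable_norm_coe _).tsum_le_tsum (fun n => ?_) hs
  rw [Aj_apply h, norm_mul, norm_pow, Real.norm_of_nonneg (by positivity : (0 : ℝ) ≤ ρ ^ 2)]
  exact mul_le_mul_of_nonneg_right (abs_cf_le (4 * j) α h.ha n) (by positivity)

/-- Solution operator for linear conformal maps. -/
def opL (h : Rng α ρ) : L1 ℕ →L[ℝ] W :=
  lift (fun j => Hc j (Aj α ρ j)) (2 * cA ρ)
    (fun j => (norm_Hc_apply_le j _).trans (by linarith [norm_Aj_le h j]))

@[simp] theorem opL_e (h : Rng α ρ) (j : ℕ) : opL h (e j) = Hc j (Aj α ρ j) := lift_e _ _ _ _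

theorem opV_opL (h : Rng α ρ) (b : L1 ℕ) : opV (Hc 0 (kp ρ)) α (opL h b) = opH b := by
  have hh : (opV (Hc 0 (kp ρ)) α).comp (opL h) = opH := by
    refine clm_ext fun j => ?_
    rw [ContinuousLinearMap.comp_apply, opL_e, opV_apply, mul_comm, Hc_mul, opT_Hc, opH_e,
      ← Aj_eq h j, map_add, map_smul]
  exact congrArg (fun L => L b) hh

theorem opDir_opL (h : Rng α ρ) (b : L1 ℕ) (i : ℕ) :
    opDir (opL h b) i = b i * g (4 * i) α (ρ ^ 2 / 2) := by
  have hh : (coord i).comp (opDir.comp (opL h)) = (g (4 * i) α (ρ ^ 2 / 2)) • coord i := by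
    refine clm_ext fun j => ?_
    simp only [ContinuousLinearMap.comp_apply, opL_e, opDir_Hc, map_smul, coord_apply, e_apply,
      smul_apply, smul_eq_mul, sm_Aj h]
    by_cases hij : i = j
    · subst hij; ring
    · rw [if_neg hij]; ring
  have h2 := congrArg (fun L => L b) hh
  simp only [ContinuousLinearMap.comp_apply, coord_apply, smul_apply,
    smul_eq_mul] at h2
  rw [h2]; ring

theorem opNeu_opL (h : Rng α ρ) (b : L1 ℕ) (i : ℕ) :
    opNeu (Hc 0 (kp ρ) * opL h b) i = b i * nu i (cv (Aj α ρ i) (kp ρ)) := by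
  have hh : (coord i).comp (opNeu.comp ((mulCLM (Hc 0 (kp ρ))).comp (opL h)))
      = (nu i (cv (Aj α ρ i) (kp ρ))) • coord i := by
    refine clm_ext fun j => ?_
    have : mulCLM (Hc 0 (kp ρ)) (Hc j (Aj α ρ j)) = Hc j (cv (Aj α ρ j) (kp ρ)) := by
      rw [mulCLM_apply, mul_comm, Hc_mul]
    simp only [ContinuousLinearMap.comp_apply, opL_e, this, opNeu_Hc, map_smul, coord_apply,
      e_apply, smul_apply, smul_eq_mul]
    by_cases hij : i = j
    · subst hij; ring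
    · rw [if_neg hij]; ring
  have h2 := congrArg (fun L => L b) hh
  simp only [ContinuousLinearMap.comp_apply, coord_apply, smul_apply,
    smul_eq_mul, mulCLM_apply] at h2
  rw [h2]; ring

/-- The Neumann functional of a mode. -/
theorem nu_cv (h : Rng α ρ) (j : ℕ) :
    α * nu j (cv (Aj α ρ j) (kp ρ)) = -(4 * j + 1) * ρ ^ 2 * dg (4 * j) α (ρ ^ 2 / 2) := by
  have h2 : |ρ ^ 2 / 2| < 1 := by
    rw [abs_of_nonneg (by positivity)]; linarith [h.h1]
  have h1 := (hasSum_nu j (cv (Aj α ρ j) (kp ρ))).mul_left α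
  have h3 := (hasSum_dg (4 * j) α (ρ ^ 2 / 2) h.ha h2).mul_left (-(4 * (j : ℝ) + 1) * ρ ^ 2)
  refine h1.unique (hs_congr h3 fun n => ?_)
  have h4 := congrArg (fun a : L1 ℕ => a (n + 1)) (Aj_eq h j)
  simp only [] at h4
  rw [lp.coeFn_add, Pi.add_apply, lp.coeFn_smul, Pi.smul_apply, smul_eq_mul, e_apply,
    if_neg (by omega), Sh_succ, Aj_apply h] at h4
  push_cast at h4
  generalize (cv (Aj α ρ j) (kp ρ) : L1 ℕ) n = c at *
  have h5 : ((n : ℝ) + 1 + 4 * j) ≠ 0 := by positivity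
  have h6 : ((n : ℝ) + 1) ≠ 0 := by positivity
  have h7 : ((n : ℝ) + 4 * j + 1) ≠ 0 := by positivity
  have h8 : α * c = -(((n : ℝ) + 1 + 4 * j) * ((n : ℝ) + 1)) *
      (cf (4 * j) α (n + 1) * (ρ ^ 2) ^ (n + 1)) := by
    field_simp at h4
    linear_combination h4
  have h9 : α * (c * ((4 * (j : ℝ) + 1) / ((n : ℝ) + 4 * j + 1) * (1 / 2 : ℝ) ^ n)) =
      (α * c) * ((4 * (j : ℝ) + 1) / ((n : ℝ) + 4 * j + 1) * (1 / 2 : ℝ) ^ n) := by ring
  rw [h9, h8, div_pow (ρ ^ 2) 2 n, div_pow 1 2 n, one_pow, pow_succ,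
    show (n : ℝ) + 1 + 4 * j = n + 4 * j + 1 by ring]
  field_simp

theorem no_double_zero (α t : ℝ) (hα : 0 < α) (hα' : α ≤ 30) (ht0 : 0 < t) (ht : t < 1)
    (h4 : g 4 α t = 0) (h4' : dg 4 α t = 0) : g 0 α t = 0 := by
  have ha : |α| ≤ 30 := by rw [abs_of_pos hα]; exact hα'
  have hb : |t| < 1 := by rw [abs_of_pos ht0]; exact ht
  have r4 := rel_k 4 α t ha hb
  have t3 := relT 3 α t ha hb
  have t2 := relT 2 α t ha hb
  have t1 := relT 1 α t ha hb
  have t0 := relT 0 α t ha hb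
  norm_num at r4 t3 t2 t1 t0
  rw [h4, h4'] at r4
  have g5 : g 5 α t = 0 := by
    have : (α + 20) * g 5 α t = 0 := by linarith
    exact (mul_eq_zero.mp this).resolve_left (by positivity)
  have g3 : g 3 α t = 0 := by
    rw [g5, h4] at t3; linarith
  have g2 : g 2 α t = 0 := by
    rw [h4, g3] at t2; linarith
  have g1 : g 1 α t = 0 := by
    rw [g3, g2] at t1; linarith
  rw [g2, g1] at t0
  linarith

/-- A solution with a linear conformal map is radial (given the formula for `K`). -/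
theorem linear_trivial_of (b : L1 ℕ) (w : W) (α ρ : ℝ) (h0 : 0 < ρ) (hρ : ρ ^ 2 < 9 / 10)
    (hα : 20 < α) (hα' : α < 30) (hK : opK (ρ • (e 0 : L1 ℕ)) = Hc 0 (kp ρ))
    (h : Sol b (ρ • (e 0 : L1 ℕ)) w α) : b 1 = 0 := by
  have R : Rng α ρ := ⟨h0, hρ, by rw [abs_of_pos (by linarith)]; linarith⟩
  have hw : w = opL R b := by
    refine (opV_bijective (Hc 0 (kp ρ)) α).1 ?_
    rw [opV_opL, opV_apply, ← hK, h.vol]
  have hd := h.dir
  have hn := h.neu
  rw [hK, hw] at hn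
  rw [hw] at hd
  have d0 := opDir_opL R b 0
  have d1 := opDir_opL R b 1
  have n1 := opNeu_opL R b 1
  rw [hd, e_apply, if_pos rfl] at d0
  rw [hd, e_apply, if_neg (by norm_num)] at d1
  rw [hn] at n1
  have n1' : (0 : ℝ) = b 1 * nu 1 (cv (Aj α ρ 1) (kp ρ)) := n1
  by_contra hb
  have g4 : g 4 α (ρ ^ 2 / 2) = 0 := by
    have := (mul_eq_zero.mp d1.symm).resolve_left hb
    simpa using this
  have hnu : nu 1 (cv (Aj α ρ 1) (kp ρ)) = 0 := (mul_eq_zero.mp n1'.symm).resolve_left hb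
  have g4' : dg 4 α (ρ ^ 2 / 2) = 0 := by
    have h5 := nu_cv R 1
    rw [hnu, mul_zero] at h5
    norm_num at h5
    rcases h5 with h5 | h5
    · exact absurd h5 h0.ne'
    · exact h5
  have h6 := no_double_zero α (ρ ^ 2 / 2) (by linarith) hα'.le (by positivity) (by linarith) g4 g4'
  have h7 : (4 * 0 : ℕ) = 0 := rfl
  rw [h7, h6, mul_zero] at d0
  exact one_ne_zero d0

end Pool.Agent.Sch
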