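import Pool.Agent.Sch.Defs

/-!
# M7, part 2: powers of the imaginary part of a holomorphic map to the upper half-plane
-/

open scoped Topology
open MeasureTheory Set
open Complex (I)

noncomputable section

namespace Pool.Agent.Sch

private theorem hasDerivAt_im' {f : ℝ → ℂ} {f' : ℂ} {x : ℝ} (h : HasDerivAt f f' x) :
    HasDerivAt (fun s => (f s).im) f'.im x :=
  Complex.imCLM.hasFDerivAt.comp_hasDerivAt x h

private theorem hasDerivAt_re' {f : ℝ → ℂ} {f' : ℂ} {x : ℝ} (h : HasDerivAt f f' x) :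
    HasDerivAt (fun s => (f s).re) f'.re x :=
  Complex.reCLM.hasFDerivAt.comp_hasDerivAt x h

private theorem hasDerivAt_cpow' {f : ℝ → ℝ} {f' : ℝ} {x : ℝ} (h : HasDerivAt f f' x)
    (hx : 0 < f x) (a : ℂ) :
    HasDerivAt (fun s => (f s : ℂ) ^ a) (a * f' / f x * (f x : ℂ) ^ a) x := by
  have h1 : HasDerivAt (fun s => (f s : ℂ)) (f' : ℂ) x := h.ofReal_comp
  have hs : (f x : ℂ) ∈ Complex.slitPlane := by
    rw [Complex.ofReal_mem_slitPlane]; exact hx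
  have hne : (f x : ℂ) ≠ 0 := by exact_mod_cast hx.ne'
  have h2 : HasDerivAt (fun w : ℂ => w ^ a) (a * (f x : ℂ) ^ (a - 1)) (f x : ℂ) :=
    (Complex.hasStrictDerivAt_cpow_const hs).hasDerivAt
  have h3 := h2.comp x h1
  refine h3.congr_deriv ?_
  rw [Complex.cpow_sub _ _ hne, Complex.cpow_one]
  field_simp

/-- The point with polar coordinates `(r,θ)`. -/
private def Zp (r θ : ℝ) : ℂ := r * Complex.exp (θ * I)

private theorem norm_Zp {r : ℝ} (hr : 0 ≤ r) (θ : ℝ) : ‖Zp r θ‖ = r := by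
  rw [Zp, norm_mul, Complex.norm_exp_ofReal_mul_I, mul_one, Complex.norm_real, Real.norm_eq_abs,
    abs_of_nonneg hr]

private theorem Zp_mem {r : ℝ} (hr : r ∈ Set.Ico (0 : ℝ) 1) (θ : ℝ) :
    Zp r θ ∈ Metric.ball (0 : ℂ) 1 := by
  rw [mem_ball_zero_iff, norm_Zp hr.1]; exact hr.2

private theorem continuous_Zp : Continuous fun p : ℝ × ℝ => Zp p.1 p.2 := by
  unfold Zp; fun_prop

private theorem Zp_dr (r θ : ℝ) : HasDerivAt (fun s => Zp s θ) (Complex.exp (θ * I)) r := by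
  have h : HasDerivAt (fun s : ℝ => (s : ℂ)) 1 r := (hasDerivAt_id r).ofReal_comp
  have h1 := h.mul_const (Complex.exp (θ * I))
  rw [one_mul] at h1
  exact h1

private theorem Zp_dθ (r θ : ℝ) : HasDerivAt (fun s => Zp r s) (I * Zp r θ) θ := by
  have h : HasDerivAt (fun s : ℝ => (s : ℂ)) 1 θ := (hasDerivAt_id θ).ofReal_comp
  have h1 := ((h.mul_const I).cexp).const_mul (r : ℂ)
  refine h1.congr_deriv ?_
  rw [Zp]; ring

private theorem Zp_per (r θ : ℝ) : Zp r (θ + 2 * Real.pi) = Zp r θ := by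
  rw [Zp, Zp]
  congr 1
  have h := Complex.exp_periodic (θ * I)
  rw [← h]
  congr 1
  push_cast
  ring

private theorem Zp_zero (θ : ℝ) : Zp 0 θ = 0 := by simp [Zp]

private theorem hol_dr {F : ℂ → ℂ} (hF : DifferentiableOn ℂ F (Metric.ball 0 1)) {r : ℝ}
    (hr : r ∈ Set.Ioo (0 : ℝ) 1) (θ : ℝ) :
    HasDerivAt (fun s => F (Zp s θ)) (Zp r θ * deriv F (Zp r θ) / r) r := by
  have h1 : HasDerivAt F (deriv F (Zp r θ)) (Zp r θ) :=
    (hF.differentiableAt (Metric.isOpen_ball.mem_nhds (Zp_mem ⟨hr.1.le, hr.2⟩ θ))).hasDerivAt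
  have h2 := h1.comp r (Zp_dr r θ)
  refine h2.congr_deriv ?_
  have hne : (r : ℂ) ≠ 0 := by exact_mod_cast hr.1.ne'
  rw [Zp]
  field_simp

private theorem hol_dθ {F : ℂ → ℂ} (hF : DifferentiableOn ℂ F (Metric.ball 0 1)) {r : ℝ}
    (hr : r ∈ Set.Ico (0 : ℝ) 1) (θ : ℝ) :
    HasDerivAt (fun s => F (Zp r s)) (I * (Zp r θ * deriv F (Zp r θ))) θ := by
  have h1 : HasDerivAt F (deriv F (Zp r θ)) (Zp r θ) :=
    (hF.differentiableAt (Metric.isOpen_ball.mem_nhds (Zp_mem hr θ))).hasDerivAt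
  have h2 := h1.comp θ (Zp_dθ r θ)
  refine h2.congr_deriv ?_
  ring

private theorem hol_cont {F : ℂ → ℂ} (hF : DifferentiableOn ℂ F (Metric.ball 0 1)) :
    ContinuousOn (fun p : ℝ × ℝ => F (Zp p.1 p.2)) (Set.Ico 0 1 ×ˢ Set.univ) :=
  hF.continuousOn.comp continuous_Zp.continuousOn fun p hp => Zp_mem hp.1 p.2

/-- Complex powers of `Im Φ` in polar coordinates. -/
theorem pol_phi (Φ : ℂ → ℂ) (hΦ : DifferentiableOn ℂ Φ (Metric.ball 0 1))
    (him : ∀ z ∈ Metric.ball (0 : ℂ) 1, 0 < (Φ z).im) (a : ℂ) :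
    ∃ E1 E2 F1 F2 : ℝ → ℝ → ℂ,
      Pol (fun r θ => ((Φ (r * Complex.exp (θ * I))).im : ℂ) ^ a) E1 E2 F1 F2 ∧
      ∀ r ∈ Set.Ico (0 : ℝ) 1, ∀ θ, E2 r θ + F2 r θ = -(a * (1 - a)) * r ^ 2 *
        ((‖deriv Φ (r * Complex.exp (θ * I))‖ ^ 2 / (Φ (r * Complex.exp (θ * I))).im ^ 2 : ℝ) : ℂ) *
        ((Φ (r * Complex.exp (θ * I))).im : ℂ) ^ a := by
  set A : ℂ → ℂ := fun z => z * deriv Φ z with hA
  set B : ℂ → ℂ := fun z => z * deriv A z with hB
  have hdΦ : DifferentiableOn ℂ (deriv Φ) (Metric.ball 0 1) := hΦ.deriv Metric.isOpen_ball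
  have hdA : DifferentiableOn ℂ A (Metric.ball 0 1) := differentiableOn_id.mul hdΦ
  have hdB : DifferentiableOn ℂ B (Metric.ball 0 1) :=
    differentiableOn_id.mul (hdA.deriv Metric.isOpen_ball)
  set y : ℝ → ℝ → ℝ := fun r θ => (Φ (Zp r θ)).im with hy
  set P : ℝ → ℝ → ℝ := fun r θ => (A (Zp r θ)).im with hP
  set Q : ℝ → ℝ → ℝ := fun r θ => (A (Zp r θ)).re with hQ
  set R : ℝ → ℝ → ℝ := fun r θ => (B (Zp r θ)).im with hR
  set E : ℝ → ℝ → ℂ := fun r θ => (y r θ : ℂ) ^ a with hE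
  have ypos : ∀ r ∈ Set.Ico (0 : ℝ) 1, ∀ θ, 0 < y r θ := fun r hr θ => him _ (Zp_mem hr θ)
  have yne : ∀ r ∈ Set.Ico (0 : ℝ) 1, ∀ θ, (y r θ : ℂ) ≠ 0 := fun r hr θ => by
    exact_mod_cast (ypos r hr θ).ne'
  -- continuity
  have cy : ContinuousOn (fun p : ℝ × ℝ => ((y p.1 p.2 : ℝ) : ℂ)) (Set.Ico 0 1 ×ˢ Set.univ) :=
    Complex.continuous_ofReal.comp_continuousOn (Complex.continuous_im.comp_continuousOn
      (hol_cont hΦ))
  have cP : ContinuousOn (fun p : ℝ × ℝ => ((P p.1 p.2 : ℝ) : ℂ)) (Set.Ico 0 1 ×ˢ Set.univ) :=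
    Complex.continuous_ofReal.comp_continuousOn (Complex.continuous_im.comp_continuousOn
      (hol_cont hdA))
  have cQ : ContinuousOn (fun p : ℝ × ℝ => ((Q p.1 p.2 : ℝ) : ℂ)) (Set.Ico 0 1 ×ˢ Set.univ) :=
    Complex.continuous_ofReal.comp_continuousOn (Complex.continuous_re.comp_continuousOn
      (hol_cont hdA))
  have cR : ContinuousOn (fun p : ℝ × ℝ => ((R p.1 p.2 : ℝ) : ℂ)) (Set.Ico 0 1 ×ˢ Set.univ) :=
    Complex.continuous_ofReal.comp_continuousOn (Complex.continuous_im.comp_continuousOn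
      (hol_cont hdB))
  have cE : ContinuousOn (fun p : ℝ × ℝ => E p.1 p.2) (Set.Ico 0 1 ×ˢ Set.univ) := by
    refine ContinuousOn.cpow cy continuousOn_const fun p hp => ?_
    rw [Complex.ofReal_mem_slitPlane]
    exact ypos p.1 hp.1 p.2
  -- derivatives
  have dy : ∀ r ∈ Set.Ioo (0 : ℝ) 1, ∀ θ, HasDerivAt (fun s => y s θ) (P r θ / r) r := by
    intro r hr θ
    have h := hasDerivAt_im' (hol_dr hΦ hr θ)
    refine h.congr_deriv ?_
    rw [Complex.div_ofReal_im]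
  have dP : ∀ r ∈ Set.Ioo (0 : ℝ) 1, ∀ θ, HasDerivAt (fun s => P s θ) (R r θ / r) r := by
    intro r hr θ
    have h := hasDerivAt_im' (hol_dr hdA hr θ)
    refine h.congr_deriv ?_
    rw [Complex.div_ofReal_im]
  have dyθ : ∀ r ∈ Set.Ico (0 : ℝ) 1, ∀ θ, HasDerivAt (fun s => y r s) (Q r θ) θ := by
    intro r hr θ
    have h := hasDerivAt_im' (hol_dθ hΦ hr θ)
    refine h.congr_deriv ?_
    rw [Complex.I_mul_im]
  have dQθ : ∀ r ∈ Set.Ico (0 : ℝ) 1, ∀ θ, HasDerivAt (fun s => Q r s) (-R r θ) θ := by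
    intro r hr θ
    have h := hasDerivAt_re' (hol_dθ hdA hr θ)
    refine h.congr_deriv ?_
    rw [Complex.I_mul_re]
  have dE : ∀ r ∈ Set.Ioo (0 : ℝ) 1, ∀ θ, HasDerivAt (fun s => E s θ)
      (a * (P r θ / r : ℝ) / y r θ * E r θ) r := fun r hr θ =>
    hasDerivAt_cpow' (dy r hr θ) (ypos r ⟨hr.1.le, hr.2⟩ θ) a
  have dEθ : ∀ r ∈ Set.Ico (0 : ℝ) 1, ∀ θ, HasDerivAt (fun s => E r s)
      (a * (Q r θ : ℝ) / y r θ * E r θ) θ := fun r hr θ =>
    hasDerivAt_cpow' (dyθ r hr θ) (ypos r hr θ) a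
  refine ⟨fun r θ => a * P r θ / y r θ * E r θ,
    fun r θ => (a * P r θ / y r θ) ^ 2 * E r θ + a * (R r θ / y r θ - P r θ ^ 2 / y r θ ^ 2) * E r θ,
    fun r θ => a * Q r θ / y r θ * E r θ,
    fun r θ => (a * Q r θ / y r θ) ^ 2 * E r θ + a * (-R r θ / y r θ - Q r θ ^ 2 / y r θ ^ 2) * E r θ,
    ?_, ?_⟩
  · have cyne : ∀ p ∈ Set.Ico (0 : ℝ) 1 ×ˢ (Set.univ : Set ℝ), (y p.1 p.2 : ℂ) ≠ 0 :=
      fun p hp => yne p.1 hp.1 p.2
    have cyne2 : ∀ p ∈ Set.Ico (0 : ℝ) 1 ×ˢ (Set.univ : Set ℝ), (y p.1 p.2 : ℂ) ^ 2 ≠ 0 :=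
      fun p hp => pow_ne_zero 2 (yne p.1 hp.1 p.2)
    refine
      { cont_u := cE
        cont_u1 := ((continuousOn_const.mul cP).div cy cyne).mul cE
        cont_u2 := ((((continuousOn_const.mul cP).div cy cyne).pow 2).mul cE).add
          ((continuousOn_const.mul ((cR.div cy cyne).sub ((cP.pow 2).div (cy.pow 2) cyne2))).mul cE)
        cont_v1 := ((continuousOn_const.mul cQ).div cy cyne).mul cE
        cont_v2 := ((((continuousOn_const.mul cQ).div cy cyne).pow 2).mul cE).add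
          ((continuousOn_const.mul ((cR.neg.div cy cyne).sub
            ((cQ.pow 2).div (cy.pow 2) cyne2))).mul cE)
        dr := ?_
        dr1 := ?_
        dθ := ?_
        dθ1 := ?_
        per := ?_
        per1 := ?_
        zero := ?_ }
    · intro r hr θ
      refine (dE r hr θ).congr_deriv ?_
      push_cast
      ring
    · intro r hr θ
      have hyne := yne r ⟨hr.1.le, hr.2⟩ θ
      have h1 : HasDerivAt (fun s => (P s θ : ℂ)) ((R r θ / r : ℝ) : ℂ) r := (dP r hr θ).ofReal_comp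
      have h2 : HasDerivAt (fun s => (y s θ : ℂ)) ((P r θ / r : ℝ) : ℂ) r := (dy r hr θ).ofReal_comp
      have h3 := ((h1.const_mul a).div h2 hyne).mul (dE r hr θ)
      refine h3.congr_deriv ?_
      have hrne : (r : ℂ) ≠ 0 := by exact_mod_cast hr.1.ne'
      simp only [Pi.div_apply]
      push_cast
      field_simp
      ring
    · intro r hr θ
      exact dEθ r hr θ
    · intro r hr θ
      have hyne := yne r hr θ
      have h1 : HasDerivAt (fun s => (Q r s : ℂ)) ((-R r θ : ℝ) : ℂ) θ := (dQθ r hr θ).ofReal_comp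
      have h2 : HasDerivAt (fun s => (y r s : ℂ)) ((Q r θ : ℝ) : ℂ) θ := (dyθ r hr θ).ofReal_comp
      have h3 := ((h1.const_mul a).div h2 hyne).mul (dEθ r hr θ)
      refine h3.congr_deriv ?_
      simp only [Pi.div_apply]
      push_cast
      field_simp
      ring
    · intro r _ θ
      change (((Φ (Zp r (θ + 2 * Real.pi))).im : ℝ) : ℂ) ^ a = (((Φ (Zp r θ)).im : ℝ) : ℂ) ^ a
      rw [Zp_per]
    · intro r _ θ
      simp only [hQ, hy, hE, Zp_per]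
    · intro θ
      simp [hP, hA, Zp_zero]
  · intro r hr θ
    have hyne := yne r hr θ
    have hnorm : ((‖deriv Φ (Zp r θ)‖ ^ 2 : ℝ) : ℂ) * (r : ℂ) ^ 2 =
        (P r θ : ℂ) ^ 2 + (Q r θ : ℂ) ^ 2 := by
      have h1 : ‖A (Zp r θ)‖ ^ 2 = Q r θ ^ 2 + P r θ ^ 2 := by
        rw [← Complex.normSq_eq_norm_sq, Complex.normSq_apply]
        simp only [hQ, hP]; ring
      have h2 : ‖A (Zp r θ)‖ ^ 2 = ‖deriv Φ (Zp r θ)‖ ^ 2 * r ^ 2 := by
        simp only [hA]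
        rw [norm_mul, norm_Zp hr.1]; ring
      rw [h2] at h1
      have h3 : ((‖deriv Φ (Zp r θ)‖ ^ 2 * r ^ 2 : ℝ) : ℂ) = ((Q r θ ^ 2 + P r θ ^ 2 : ℝ) : ℂ) := by
        rw [h1]
      push_cast at h3 ⊢
      rw [h3]; ring
    change (a * P r θ / y r θ) ^ 2 * E r θ + a * (R r θ / y r θ - P r θ ^ 2 / y r θ ^ 2) * E r θ +
      ((a * Q r θ / y r θ) ^ 2 * E r θ + a * (-R r θ / y r θ - Q r θ ^ 2 / y r θ ^ 2) * E r θ) =
      -(a * (1 - a)) * r ^ 2 * ((‖deriv Φ (Zp r θ)‖ ^ 2 / y r θ ^ 2 : ℝ) : ℂ) * E r θ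
    have h4 : (r : ℂ) ^ 2 * ((‖deriv Φ (Zp r θ)‖ ^ 2 / y r θ ^ 2 : ℝ) : ℂ) =
        ((P r θ : ℂ) ^ 2 + (Q r θ : ℂ) ^ 2) / (y r θ : ℂ) ^ 2 := by
      rw [← hnorm]
      push_cast
      ring
    rw [mul_assoc (-(a * (1 - a))), h4]
    field_simp
    ring

end Pool.Agent.Sch
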