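import Pool.Agent.Sch.PolW
import Pool.Agent.Sch.Phi
import Pool.Agent.Sch.Green
import Pool.Agent.Sch.Geom

open scoped ENNReal Topology MatrixGroups
open Complex (I)
open MeasureTheory

noncomputable section

namespace Pool.Agent.Sch

/-- Möbius transformation as a function on `ℂ`. -/
def mob (g : SL(2, ℝ)) (z : ℂ) : ℂ :=
  ((g 0 0 : ℝ) * z + (g 0 1 : ℝ)) / ((g 1 0 : ℝ) * z + (g 1 1 : ℝ))

theorem coe_smul_mob (g : SL(2, ℝ)) (τ : UpperHalfPlane) :
    ((g • τ : UpperHalfPlane) : ℂ) = mob g τ := by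
  rw [UpperHalfPlane.coe_specialLinearGroup_apply]; rfl

theorem sl_det (g : SL(2, ℝ)) : g 0 0 * g 1 1 - g 0 1 * g 1 0 = 1 := by
  have := g.det_coe
  rwa [Matrix.det_fin_two] at this

theorem den_ne (g : SL(2, ℝ)) {z : ℂ} (hz : 0 < z.im) :
    ((g 1 0 : ℝ) * z + (g 1 1 : ℝ) : ℂ) ≠ 0 := by
  intro h
  have h1 := congrArg Complex.im h
  have h2 := congrArg Complex.re h
  simp only [Complex.add_im, Complex.mul_im, Complex.ofReal_re, Complex.ofReal_im, zero_mul,
    add_zero, Complex.zero_im, Complex.add_re, Complex.mul_re, Complex.zero_re, sub_zero] at h1 h2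
  have h3 : g 1 0 = 0 := by
    rcases mul_eq_zero.mp h1 with h | h
    · exact h
    · exact absurd h hz.ne'
  have h4 : g 1 1 = 0 := by rw [h3] at h2; simpa using h2
  have := sl_det g
  rw [h3, h4] at this
  simp at this

theorem hasDerivAt_mob (g : SL(2, ℝ)) {z : ℂ} (hz : 0 < z.im) :
    HasDerivAt (mob g) (1 / ((g 1 0 : ℝ) * z + (g 1 1 : ℝ)) ^ 2) z := by
  have hd := den_ne g hz
  have h1 : HasDerivAt (fun z : ℂ => (g 0 0 : ℝ) * z + (g 0 1 : ℝ)) ((g 0 0 : ℝ) : ℂ) z := by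
    simpa using ((hasDerivAt_id z).const_mul ((g 0 0 : ℝ) : ℂ)).add_const ((g 0 1 : ℝ) : ℂ)
  have h2 : HasDerivAt (fun z : ℂ => (g 1 0 : ℝ) * z + (g 1 1 : ℝ)) ((g 1 0 : ℝ) : ℂ) z := by
    simpa using ((hasDerivAt_id z).const_mul ((g 1 0 : ℝ) : ℂ)).add_const ((g 1 1 : ℝ) : ℂ)
  have h3 := h1.div h2 hd
  refine h3.congr_deriv ?_
  congr 1
  have := sl_det g
  have h4 : ((g 0 0 : ℝ) : ℂ) * (g 1 1 : ℝ) - (g 0 1 : ℝ) * (g 1 0 : ℝ) = 1 := by
    exact_mod_cast this
  linear_combination h4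

theorem im_mob (g : SL(2, ℝ)) {z : ℂ} (hz : 0 < z.im) :
    (mob g z).im = z.im / ‖((g 1 0 : ℝ) * z + (g 1 1 : ℝ) : ℂ)‖ ^ 2 := by
  have hd := den_ne g hz
  have h1 := UpperHalfPlane.im_smul_eq_div_normSq (g : GL (Fin 2) ℝ) ⟨z, hz⟩
  have h2 := coe_smul_mob g ⟨z, hz⟩
  have h3 : (mob g z).im = ((g • (⟨z, hz⟩ : UpperHalfPlane) : UpperHalfPlane) : ℂ).im := by
    rw [h2]
  rw [h3]
  have h4 : (g • (⟨z, hz⟩ : UpperHalfPlane)) = ((g : GL (Fin 2) ℝ) • (⟨z, hz⟩ : UpperHalfPlane)) := rfl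
  rw [h4]
  change UpperHalfPlane.im _ = _
  rw [h1, Complex.normSq_eq_norm_sq]
  simp [UpperHalfPlane.denom]

theorem im_mob_pos (g : SL(2, ℝ)) {z : ℂ} (hz : 0 < z.im) : 0 < (mob g z).im := by
  rw [im_mob g hz]
  have := norm_pos_iff.mpr (den_ne g hz)
  positivity

theorem mob_inj (g : SL(2, ℝ)) {z w : ℂ} (hz : 0 < z.im) (hw : 0 < w.im)
    (h : mob g z = mob g w) : z = w := by
  unfold mob at h
  rw [div_eq_div_iff (den_ne g hz) (den_ne g hw)] at h
  have h4 : ((g 0 0 : ℝ) : ℂ) * (g 1 1 : ℝ) - (g 0 1 : ℝ) * (g 1 0 : ℝ) = 1 := by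
    exact_mod_cast sl_det g
  linear_combination h - (z - w) * h4

/-! ### Cayley transform -/

theorem one_sub_ne {z : ℂ} (hz : ‖z‖ < 1) : 1 - z ≠ 0 := by
  intro h
  have : z = 1 := by linear_combination -h
  rw [this] at hz
  simp at hz

theorem hasDerivAt_cay {z : ℂ} (hz : ‖z‖ < 1) : HasDerivAt cay (2 * I / (1 - z) ^ 2) z := by
  have hd := one_sub_ne hz
  have h1 : HasDerivAt (fun z : ℂ => I * (1 + z)) I z := by
    simpa using ((hasDerivAt_id z).const_add 1).const_mul I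
  have h2 : HasDerivAt (fun z : ℂ => 1 - z) (-1) z := by
    simpa using (hasDerivAt_id z).const_sub 1
  have h3 := h1.div h2 hd
  refine h3.congr_deriv ?_
  congr 1
  ring

theorem im_cay {z : ℂ} (hz : ‖z‖ < 1) : (cay z).im = (1 - ‖z‖ ^ 2) / ‖1 - z‖ ^ 2 := by
  have hd := one_sub_ne hz
  unfold cay
  rw [← Complex.normSq_eq_norm_sq, ← Complex.normSq_eq_norm_sq, Complex.div_im]
  have h1 : Complex.normSq (1 - z) ≠ 0 := by
    rwa [Ne, Complex.normSq_eq_zero]
  simp only [Complex.mul_im, Complex.mul_re, Complex.I_re, Complex.I_im, Complex.add_re,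
    Complex.add_im, Complex.one_re, Complex.one_im, Complex.sub_re, Complex.sub_im]
  field_simp
  rw [Complex.normSq_apply z]
  ring

theorem im_cay_pos {z : ℂ} (hz : ‖z‖ < 1) : 0 < (cay z).im := by
  rw [im_cay hz]
  have h1 := norm_pos_iff.mpr (one_sub_ne hz)
  have h2 : ‖z‖ ^ 2 < 1 := by
    have := norm_nonneg z
    nlinarith
  apply div_pos (by linarith) (by positivity)

theorem cay_inj {z w : ℂ} (hz : ‖z‖ < 1) (hw : ‖w‖ < 1) (h : cay z = cay w) : z = w := by
  have h1 := one_sub_ne hz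
  have h2 := one_sub_ne hw
  unfold cay at h
  rw [div_eq_div_iff h1 h2] at h
  have h3 : (2 * I) * (z - w) = 0 := by linear_combination h
  rcases mul_eq_zero.mp h3 with h | h
  · simp at h
  · linear_combination h

/-- The map `Φ_g`. -/
def Phi (q : L1 ℕ) (g : SL(2, ℝ)) (z : ℂ) : ℂ := mob g (cay (psi q z))

/-- Density. -/
def dens (q : L1 ℕ) (z : ℂ) : ℝ := ‖dpsi q z‖ ^ 2 / (1 - ‖psi q z‖ ^ 2) ^ 2

section
variable {q : L1 ℕ} (hpsi : ∀ z : ℂ, ‖z‖ < 1 → HasDerivAt (psi q) (dpsi q z) z)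
  (hlt : ∀ z : ℂ, ‖z‖ < 1 → ‖psi q z‖ < 1) (g : SL(2, ℝ))
include hpsi hlt

theorem hasDerivAt_Phi {z : ℂ} (hz : ‖z‖ < 1) : HasDerivAt (Phi q g)
    (1 / ((g 1 0 : ℝ) * cay (psi q z) + (g 1 1 : ℝ)) ^ 2 * (2 * I / (1 - psi q z) ^ 2 * dpsi q z))
    z :=
  (hasDerivAt_mob g (im_cay_pos (hlt z hz))).comp z
    ((hasDerivAt_cay (hlt z hz)).comp z (hpsi z hz))

omit hpsi in
theorem im_Phi_pos {z : ℂ} (hz : ‖z‖ < 1) : 0 < (Phi q g z).im :=
  im_mob_pos g (im_cay_pos (hlt z hz))

theorem norm_deriv_Phi {z : ℂ} (hz : ‖z‖ < 1) :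
    ‖deriv (Phi q g) z‖ ^ 2 / (Phi q g z).im ^ 2 = 4 * dens q z := by
  rw [(hasDerivAt_Phi hpsi hlt g hz).deriv]
  unfold Phi
  rw [im_mob g (im_cay_pos (hlt z hz)), im_cay (hlt z hz)]
  have h1 := norm_pos_iff.mpr (one_sub_ne (hlt z hz))
  have h2 := norm_pos_iff.mpr (den_ne g (im_cay_pos (hlt z hz)))
  have h3 : 0 < 1 - ‖psi q z‖ ^ 2 := by
    have := norm_nonneg (psi q z)
    nlinarith [hlt z hz]
  simp only [norm_mul, norm_div, norm_pow, norm_one, Complex.norm_I, Complex.norm_ofNat]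
  unfold dens
  field_simp
  norm_num
  ring

end


/-- Integral over a set in the upper half plane, in coordinates. -/
theorem setIntegral_uhp (s : Set UpperHalfPlane) (hs : MeasurableSet s) (F : ℂ → ℂ) :
    ∫ τ : UpperHalfPlane in s, F τ = ∫ z : ℂ in UpperHalfPlane.coe '' s,
      ((1 / z.im ^ 2 : ℝ) : ℂ) * F z := by
  have hm : MeasurePreserving UpperHalfPlane.coe (volume.comap UpperHalfPlane.coe)
      (volume.restrict (.range UpperHalfPlane.coe)) :=
    ⟨UpperHalfPlane.measurable_coe, by rw [UpperHalfPlane.measurableEmbedding_coe.map_comap]⟩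
  rw [UpperHalfPlane.volume_def, setIntegral_withDensity_eq_setIntegral_smul]
  · have h1 := hm.setIntegral_image_emb UpperHalfPlane.measurableEmbedding_coe
      (fun z : ℂ => ((1 / z.im ^ 2 : ℝ) : ℂ) * F z) s
    rw [Measure.restrict_restrict', Set.inter_eq_self_of_subset_left (Set.image_subset_range _ _)]
      at h1
    · rw [h1]
      apply setIntegral_congr_fun hs
      intro τ _
      change ((1 / NNReal.mk τ.im τ.im_pos.le) ^ 2 : NNReal) • F τ = _
      rw [NNReal.smul_def, Complex.real_smul]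
      congr 1
      push_cast
      simp
    · exact UpperHalfPlane.measurableEmbedding_coe.measurableSet_range
  · apply Measurable.pow_const
    apply Measurable.div measurable_const
    apply Measurable.subtype_mk
    exact UpperHalfPlane.continuous_im.measurable
  · exact hs

/-- Holomorphic change of variables. -/
theorem setIntegral_holo (s : Set ℂ) (hs : MeasurableSet s) (Φ : ℂ → ℂ)
    (hΦ : ∀ z ∈ s, DifferentiableAt ℂ Φ z) (hi : Set.InjOn Φ s) (G : ℂ → ℂ) :
    ∫ z in Φ '' s, G z = ∫ z in s, ((‖deriv Φ z‖ ^ 2 : ℝ) : ℂ) * G (Φ z) := by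
  have h1 : ∀ z ∈ s, HasFDerivWithinAt Φ
      (ContinuousLinearMap.restrictScalars ℝ
        (ContinuousLinearMap.toSpanSingleton ℂ (deriv Φ z))) s z := by
    intro z hz
    have := (hΦ z hz).hasDerivAt.hasFDerivAt
    exact (this.restrictScalars ℝ).hasFDerivWithinAt
  rw [integral_image_eq_integral_abs_det_fderiv_smul volume hs h1 hi]
  apply setIntegral_congr_fun hs
  intro z _
  simp only
  rw [Complex.real_smul]
  congr 2
  rw [ContinuousLinearMap.det, ContinuousLinearMap.coe_restrictScalars,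
    LinearMap.det_restrictScalars, Algebra.norm_complex_apply]
  simp [Complex.normSq_eq_norm_sq]

/-- Polar coordinates on a closed disc. -/
theorem setIntegral_disc (κ : ℝ) (h0 : 0 < κ) (h : ℂ → ℂ)
    (hc : ContinuousOn h (Metric.closedBall 0 κ)) :
    ∫ z in Metric.closedBall (0 : ℂ) κ, h z =
      ∫ r in (0 : ℝ)..κ, ∫ θ in (0 : ℝ)..(2 * Real.pi), r * h (r * Complex.exp (θ * I)) := by
  have hexp : ∀ p : ℝ × ℝ, Complex.polarCoord.symm p = p.1 * Complex.exp (p.2 * I) := by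
    intro p
    rw [Complex.polarCoord_symm_apply, Complex.exp_mul_I]
    push_cast
    ring
  rw [← integral_indicator Metric.isClosed_closedBall.measurableSet,
    ← Complex.integral_comp_polarCoord_symm]
  have e1 : (∫ p in polarCoord.target, p.1 • (Metric.closedBall (0 : ℂ) κ).indicator h
      (Complex.polarCoord.symm p)) =
      ∫ p in (Set.Ioc (0 : ℝ) κ ×ˢ Set.Ioc (-Real.pi) Real.pi),
        (p.1 : ℂ) * h (p.1 * Complex.exp (p.2 * I)) := by
    rw [← integral_indicator polarCoord.open_target.measurableSet,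
      ← integral_indicator (measurableSet_Ioc.prod measurableSet_Ioc)]
    have hae : ∀ᵐ p : ℝ × ℝ, p.2 ≠ Real.pi := by
      rw [ae_iff]
      have : {p : ℝ × ℝ | ¬p.2 ≠ Real.pi} = Set.univ ×ˢ {Real.pi} := by
        ext p; simp
      rw [this, Measure.volume_eq_prod, Measure.prod_prod]
      simp
    apply integral_congr_ae
    filter_upwards [hae] with p hp
    by_cases h1 : p ∈ Set.Ioc (0 : ℝ) κ ×ˢ Set.Ioc (-Real.pi) Real.pi
    · have h2 : p ∈ polarCoord.target := by
        rw [polarCoord_target]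
        exact ⟨h1.1.1, h1.2.1, lt_of_le_of_ne h1.2.2 hp⟩
      rw [Set.indicator_of_mem h1, Set.indicator_of_mem h2, Set.indicator_of_mem]
      · rw [hexp, Complex.real_smul]
      · rw [mem_closedBall_zero_iff, Complex.norm_polarCoord_symm, abs_of_pos h1.1.1]
        exact h1.1.2
    · rw [Set.indicator_of_notMem h1]
      by_cases h2 : p ∈ polarCoord.target
      · rw [Set.indicator_of_mem h2, Set.indicator_of_notMem, smul_zero]
        rw [polarCoord_target] at h2
        rw [mem_closedBall_zero_iff, Complex.norm_polarCoord_symm, abs_of_pos h2.1]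
        intro h3
        exact h1 ⟨⟨h2.1, h3⟩, h2.2.1, h2.2.2.le⟩
      · rw [Set.indicator_of_notMem h2]
  have hcont : ContinuousOn (fun p : ℝ × ℝ => (p.1 : ℂ) * h (p.1 * Complex.exp (p.2 * I)))
      (Set.Icc (0 : ℝ) κ ×ˢ Set.univ) := by
    apply ContinuousOn.mul
    · fun_prop
    · apply hc.comp
      · fun_prop
      · intro p hp
        rw [mem_closedBall_zero_iff, norm_mul, Complex.norm_exp_ofReal_mul_I, mul_one,
          Complex.norm_real, Real.norm_eq_abs, abs_of_nonneg hp.1.1]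
        exact hp.1.2
  have hint : IntegrableOn (fun p : ℝ × ℝ => (p.1 : ℂ) * h (p.1 * Complex.exp (p.2 * I)))
      (Set.Ioc (0 : ℝ) κ ×ˢ Set.Ioc (-Real.pi) Real.pi) := by
    have hK : IsCompact (Set.Icc (0 : ℝ) κ ×ˢ Set.Icc (-Real.pi) Real.pi) :=
      isCompact_Icc.prod isCompact_Icc
    refine ((hcont.mono ?_).integrableOn_compact hK).mono_set ?_
    · exact Set.prod_mono subset_rfl (Set.subset_univ _)
    · exact Set.prod_mono Set.Ioc_subset_Icc_self Set.Ioc_subset_Icc_self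
  rw [e1, Measure.volume_eq_prod, setIntegral_prod _ hint,
    intervalIntegral.integral_of_le h0.le]
  apply setIntegral_congr_fun measurableSet_Ioc
  intro r _
  simp only
  have hper : Function.Periodic (fun θ : ℝ => (r : ℂ) * h (r * Complex.exp (θ * I)))
      (2 * Real.pi) := by
    intro θ
    simp only
    congr 3
    push_cast
    rw [add_mul, Complex.exp_add, Complex.exp_two_pi_mul_I, mul_one]
  have h2 := hper.intervalIntegral_add_eq (-Real.pi) 0
  rw [zero_add, show -Real.pi + 2 * Real.pi = Real.pi by ring] at h2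
  rw [← h2, intervalIntegral.integral_of_le (by linarith [Real.pi_pos])]


/-! ### The integral over the moved domain -/

theorem continuous_cpow_im (a : ℂ) : Continuous fun τ : UpperHalfPlane => (τ.im : ℂ) ^ a := by
  apply Continuous.cpow
  · exact Complex.continuous_ofReal.comp UpperHalfPlane.continuous_im
  · exact continuous_const
  · intro τ
    left
    simpa using τ.im_pos

theorem kap_lt_o : kap < 1 := by
  unfold kap
  rw [Real.sqrt_lt' one_pos]
  norm_num

section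
variable {q : L1 ℕ} (hpsi : ∀ z : ℂ, ‖z‖ < 1 → HasDerivAt (psi q) (dpsi q z) z)
  (hlt : ∀ z : ℂ, ‖z‖ < 1 → ‖psi q z‖ < 1) (g : SL(2, ℝ))
include hpsi hlt

theorem continuousOn_dens : ContinuousOn (dens q) (Metric.ball 0 1) := by
  have h1 : DifferentiableOn ℂ (psi q) (Metric.ball 0 1) := fun z hz =>
    (hpsi z (mem_ball_zero_iff.mp hz)).differentiableAt.differentiableWithinAt
  have h2 : DifferentiableOn ℂ (deriv (psi q)) (Metric.ball 0 1) :=
    h1.deriv Metric.isOpen_ball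
  have h3 : ContinuousOn (dpsi q) (Metric.ball 0 1) := by
    refine h2.continuousOn.congr fun z hz => ?_
    exact (hpsi z (mem_ball_zero_iff.mp hz)).deriv.symm
  unfold dens
  apply ContinuousOn.div
  · exact h3.norm.pow 2
  · exact ((continuousOn_const).sub (h1.continuousOn.norm.pow 2)).pow 2
  · intro z hz
    have h4 := hlt z (mem_ball_zero_iff.mp hz)
    have : 0 < 1 - ‖psi q z‖ ^ 2 := by
      have := norm_nonneg (psi q z)
      nlinarith
    positivity

omit hpsi in
theorem image_coe_smul :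
    UpperHalfPlane.coe '' ((fun τ : UpperHalfPlane => g • τ) ''
      {τ : UpperHalfPlane | ∃ z ∈ Metric.closedBall (0 : ℂ) kap, (τ : ℂ) = cay (psi q z)}) =
      Phi q g '' Metric.closedBall 0 kap := by
  have hsub : Metric.closedBall (0 : ℂ) kap ⊆ Metric.ball 0 1 :=
    Metric.closedBall_subset_ball kap_lt_o
  apply Set.Subset.antisymm
  · intro z hz
    obtain ⟨τ', hτ', hz1⟩ := hz
    obtain ⟨τ, hτ, hτ1⟩ := hτ'
    obtain ⟨ζ, hζ, hτζ⟩ := hτ
    refine ⟨ζ, hζ, ?_⟩
    rw [← hz1, ← hτ1]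
    change _ = ((g • τ : UpperHalfPlane) : ℂ)
    rw [coe_smul_mob, hτζ]
    rfl
  · intro z hz
    obtain ⟨ζ, hζ, hz1⟩ := hz
    have h3 := im_cay_pos (hlt ζ (mem_ball_zero_iff.mp (hsub hζ)))
    let τ : UpperHalfPlane := ⟨cay (psi q ζ), h3⟩
    have h4 : ((g • τ : UpperHalfPlane) : ℂ) = z := by
      rw [coe_smul_mob, ← hz1]
      rfl
    rw [← h4]
    apply Set.mem_image_of_mem
    apply Set.mem_image_of_mem
    exact ⟨ζ, hζ, rfl⟩

theorem continuousOn_cpow_Phi (a : ℂ) :
    ContinuousOn (fun z => ((Phi q g z).im : ℂ) ^ a) (Metric.ball 0 1) := by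
  have h1 : ContinuousOn (Phi q g) (Metric.ball 0 1) := fun z hz =>
    (hasDerivAt_Phi hpsi hlt g (mem_ball_zero_iff.mp hz)).continuousAt.continuousWithinAt
  apply ContinuousOn.cpow_const
  · exact (Complex.continuous_ofReal.comp Complex.continuous_im).comp_continuousOn h1
  · intro z hz
    left
    simpa using im_Phi_pos hlt g (mem_ball_zero_iff.mp hz)

end

theorem orth (b q : L1 ℕ) (w : W) (α ρ : ℝ) (h1 : 3 / 5 < ρ ^ 2) (h2 : ρ ^ 2 < 4 / 5) (h0 : 0 < ρ)
    (hq : ‖q - ρ • (e 0 : L1 ℕ)‖ < 1 / 100) (hα : 20 < α) (h : Sol b q w α) (g : SL(2, ℝ)) :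
    ∫ τ : UpperHalfPlane in (fun τ => g • τ) '' closure (dom q),
      (((τ.im : ℂ) ^ ((1 / 2 : ℂ) + (√(α - 1 / 4) : ℝ) * I)).re) = 0 := by
  have hρ1 : ρ < 9 / 10 := by nlinarith
  have hρ2 : 7 / 10 < ρ := by nlinarith
  have hq1 : ‖q‖ < 1 := by
    have e1 : ‖q‖ ≤ ‖q - ρ • (e 0 : L1 ℕ)‖ + ‖ρ • (e 0 : L1 ℕ)‖ := by
      simpa using norm_add_le (q - ρ • (e 0 : L1 ℕ)) (ρ • (e 0 : L1 ℕ))
    rw [norm_smul, norm_e, mul_one, Real.norm_eq_abs, abs_of_pos h0] at e1
    linarith
  have hpsi : ∀ z : ℂ, ‖z‖ < 1 → HasDerivAt (psi q) (dpsi q z) z := hasDerivAt_psi q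
  have hlt : ∀ z : ℂ, ‖z‖ < 1 → ‖psi q z‖ < 1 := fun z hz =>
    norm_psi_lt q ρ h0 (by linarith) z hz.le
  have hinj : Set.InjOn (psi q) (Metric.ball 0 1) := psi_inj q ρ h0 (by linarith)
  obtain ⟨-, -, hcomp, hcl, -⟩ := dom_geometry q ρ h1 h2 h0 hq
  have hsub : Metric.closedBall (0 : ℂ) kap ⊆ Metric.ball 0 1 :=
    Metric.closedBall_subset_ball kap_lt_o
  set a : ℂ := (1 / 2 : ℂ) + (√(α - 1 / 4) : ℝ) * I with ha
  have haa : a * (1 - a) = α := by
    have h3 : ((√(α - 1 / 4) : ℝ) : ℂ) ^ 2 = α - 1 / 4 := by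
      rw [← Complex.ofReal_pow, Real.sq_sqrt (by linarith)]
      push_cast
      ring
    rw [ha]
    linear_combination h3 - ((√(α - 1 / 4) : ℝ) : ℂ) ^ 2 * Complex.I_sq
  -- the complex integral
  have hsm : Continuous fun τ : UpperHalfPlane => g • τ := continuous_const_smul g
  have hScomp : IsCompact ((fun τ : UpperHalfPlane => g • τ) '' closure (dom q)) :=
    hcomp.image hsm
  have hFc : Continuous fun τ : UpperHalfPlane => (τ.im : ℂ) ^ a := by
    exact continuous_cpow_im a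
  have key : ∫ τ : UpperHalfPlane in (fun τ => g • τ) '' closure (dom q), (τ.im : ℂ) ^ a = 0 := by
    have hset := image_coe_smul hlt g
    rw [← hcl] at hset
    have hi := setIntegral_uhp ((fun τ : UpperHalfPlane => g • τ) '' closure (dom q))
      hScomp.isClosed.measurableSet (fun z : ℂ => (z.im : ℂ) ^ a)
    have hi' : ∫ τ : UpperHalfPlane in (fun τ => g • τ) '' closure (dom q), (τ.im : ℂ) ^ a =
      ∫ z : ℂ in UpperHalfPlane.coe '' ((fun τ : UpperHalfPlane => g • τ) '' closure (dom q)),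
      ((1 / z.im ^ 2 : ℝ) : ℂ) * (z.im : ℂ) ^ a := hi
    rw [hi', hset, setIntegral_holo]
    rotate_left
    · exact Metric.isClosed_closedBall.measurableSet
    · intro z hz
      exact (hasDerivAt_Phi hpsi hlt g (mem_ball_zero_iff.mp (hsub hz))).differentiableAt
    · intro z hz z' hz' hzz
      have h3 := hlt z (mem_ball_zero_iff.mp (hsub hz))
      have h4 := hlt z' (mem_ball_zero_iff.mp (hsub hz'))
      exact hinj (hsub hz) (hsub hz') (cay_inj h3 h4
        (mob_inj g (im_cay_pos h3) (im_cay_pos h4) hzz))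
    have hcongr : ∀ z ∈ Metric.closedBall (0 : ℂ) kap,
        ((‖deriv (Phi q g) z‖ ^ 2 : ℝ) : ℂ) *
          (((1 / (Phi q g z).im ^ 2 : ℝ) : ℂ) * ((Phi q g z).im : ℂ) ^ a) =
        4 * ((dens q z : ℂ) * ((Phi q g z).im : ℂ) ^ a) := by
      intro z hz
      have h3 := norm_deriv_Phi hpsi hlt g (mem_ball_zero_iff.mp (hsub hz))
      rw [← mul_assoc, ← mul_assoc, ← Complex.ofReal_mul]
      congr 1
      rw [mul_one_div, h3]
      push_cast
      ring
    rw [setIntegral_congr_fun Metric.isClosed_closedBall.measurableSet hcongr,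
      integral_const_mul, setIntegral_disc kap kap_pos]
    rotate_left
    · apply ContinuousOn.mul
      · exact Complex.continuous_ofReal.comp_continuousOn
          ((continuousOn_dens hpsi hlt).mono hsub)
      · exact (continuousOn_cpow_Phi hpsi hlt g a).mono hsub
    obtain ⟨u, u1, u2, v1, v2, hu, hpde, hb0, hb1⟩ := sol_polar b q w α hq1 h
    obtain ⟨E1, E2, F1, F2, hE, hEpde⟩ := pol_phi (Phi q g) (fun z hz =>
        (hasDerivAt_Phi hpsi hlt g
          (mem_ball_zero_iff.mp hz)).differentiableAt.differentiableWithinAt)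
      (fun z hz => im_Phi_pos hlt g (mem_ball_zero_iff.mp hz)) a
    have hmem : ∀ r ∈ Set.Ico (0 : ℝ) 1, ∀ θ : ℝ, ‖(r : ℂ) * Complex.exp (θ * I)‖ < 1 := by
      intro r hr θ
      rw [norm_mul, Complex.norm_exp_ofReal_mul_I, mul_one, Complex.norm_real,
        Real.norm_eq_abs, abs_of_nonneg hr.1]
      exact hr.2
    have hgr := green u u1 u2 v1 v2 _ E1 E2 F1 F2
      (fun r θ => ((dens q (r * Complex.exp (θ * I)) : ℝ) : ℂ)) hu hE (4 * α)
      (by
        have : (α : ℂ) ≠ 0 := by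
          exact_mod_cast (by linarith : α ≠ 0)
        simpa using this)
      (by
        apply Complex.continuous_ofReal.comp_continuousOn
        apply (continuousOn_dens hpsi hlt).comp
        · fun_prop
        · intro p hp
          exact mem_ball_zero_iff.mpr (hmem p.1 hp.1 p.2))
      (by
        intro r hr θ
        rw [hpde r hr θ]
        rfl)
      (by
        intro r hr θ
        rw [hEpde r hr θ, norm_deriv_Phi hpsi hlt g (hmem r hr θ), haa]
        push_cast
        ring)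
      kap kap_pos kap_lt_o hb0 hb1
    rw [hgr, mul_zero]
  have hInt : Integrable (fun τ : UpperHalfPlane => (τ.im : ℂ) ^ a)
      (volume.restrict ((fun τ => g • τ) '' closure (dom q))) :=
    hFc.continuousOn.integrableOn_compact hScomp
  have h5 := integral_re hInt
  simp only [RCLike.re_eq_complex_re] at h5
  rw [h5, key, Complex.zero_re]

end Pool.Agent.Sch
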