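import Mathlib

/-!
# Double series `∑ c (m,n) r^{m+n} e^{i(m-n)θ}` and their derivatives
-/

open Complex (I)

noncomputable section

namespace Pool.Agent.Sch

/-- The family `c` has convergence radius at least one. -/
def Adm (c : ℕ × ℕ → ℂ) : Prop :=
  ∀ ρ : ℝ, 0 ≤ ρ → ρ < 1 → Summable fun p : ℕ × ℕ => ‖c p‖ * ρ ^ (p.1 + p.2)

/-- The phase `e^{i(m-n)θ}`. -/
def ph (p : ℕ × ℕ) (θ : ℝ) : ℂ := Complex.exp (((p.1 : ℂ) - p.2) * θ * I)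

theorem norm_ph (p : ℕ × ℕ) (θ : ℝ) : ‖ph p θ‖ = 1 := by
  have : ((p.1 : ℂ) - p.2) * θ * I = ((((p.1 : ℝ) - p.2) * θ : ℝ) : ℂ) * I := by
    push_cast; ring
  rw [ph, this, Complex.norm_exp_ofReal_mul_I]

theorem ph_per (p : ℕ × ℕ) (θ : ℝ) : ph p (θ + 2 * Real.pi) = ph p θ := by
  have h : ((p.1 : ℂ) - p.2) * ((θ + 2 * Real.pi : ℝ) : ℂ) * I
      = ((p.1 : ℂ) - p.2) * θ * I + (((p.1 : ℤ) - p.2 : ℤ) : ℂ) * (2 * Real.pi * I) := by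
    push_cast; ring
  rw [ph, ph, h, Complex.exp_add, Complex.exp_int_mul_two_pi_mul_I, mul_one]

theorem hasDerivAt_ph (p : ℕ × ℕ) (θ : ℝ) :
    HasDerivAt (ph p) (((p.1 : ℂ) - p.2) * I * ph p θ) θ := by
  have h1 : HasDerivAt (fun θ : ℝ => ((p.1 : ℂ) - p.2) * (θ : ℂ) * I)
      (((p.1 : ℂ) - p.2) * I) θ := by
    have h2 : HasDerivAt (fun θ : ℝ => (θ : ℂ)) 1 θ := Complex.ofRealCLM.hasDerivAt
    simpa using (h2.const_mul ((p.1 : ℂ) - p.2)).mul_const I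
  have h3 := h1.cexp
  rw [ph, mul_comm]
  exact h3

theorem continuous_ph (p : ℕ × ℕ) : Continuous (ph p) := by
  unfold ph
  fun_prop

/-- The sum of the series. -/
def FS (c : ℕ × ℕ → ℂ) (r θ : ℝ) : ℂ := ∑' p : ℕ × ℕ, c p * ((r : ℂ) ^ (p.1 + p.2) * ph p θ)

theorem norm_term (c : ℕ × ℕ → ℂ) (p : ℕ × ℕ) (r θ : ℝ) :
    ‖c p * ((r : ℂ) ^ (p.1 + p.2) * ph p θ)‖ = ‖c p‖ * |r| ^ (p.1 + p.2) := by
  rw [norm_mul, norm_mul, norm_ph, mul_one, norm_pow, Complex.norm_real, Real.norm_eq_abs]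

theorem Adm.summable {c : ℕ × ℕ → ℂ} (h : Adm c) {r : ℝ} (h0 : 0 ≤ r) (h1 : r < 1) (θ : ℝ) :
    Summable fun p : ℕ × ℕ => c p * ((r : ℂ) ^ (p.1 + p.2) * ph p θ) := by
  refine Summable.of_norm ?_
  simp only [norm_term, abs_of_nonneg h0]
  exact h r h0 h1

theorem exists_bound (x : ℝ) (h0 : 0 ≤ x) (h1 : x < 1) : ∃ C : ℝ, 0 ≤ C ∧ ∀ n : ℕ,
    (n : ℝ) * x ^ n ≤ C := by
  have h := tendsto_self_mul_const_pow_of_lt_one h0 h1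
  obtain ⟨C, hC⟩ := h.bddAbove_range
  refine ⟨C, ?_, fun n => hC ⟨n, rfl⟩⟩
  have := hC ⟨0, rfl⟩
  simpa using this

/-- Multiplication by factors of linear growth keeps admissibility. -/
theorem Adm.mul_of_le {c : ℕ × ℕ → ℂ} (h : Adm c) (m : ℕ × ℕ → ℂ)
    (hm : ∀ p, ‖m p‖ ≤ (p.1 + p.2 : ℕ)) : Adm fun p => m p * c p := by
  intro ρ h0 h1
  obtain ⟨σ, hσ1, hσ2⟩ := exists_between h1
  have hσ0 : 0 < σ := lt_of_le_of_lt h0 hσ1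
  obtain ⟨C, hC0, hC⟩ := exists_bound (ρ / σ) (by positivity) ((div_lt_one hσ0).2 hσ1)
  refine Summable.of_nonneg_of_le (fun p => by positivity) (fun p => ?_)
    ((h σ hσ0.le hσ2).mul_left C)
  have h2 := hC (p.1 + p.2)
  have h3 : ρ ^ (p.1 + p.2) = (ρ / σ) ^ (p.1 + p.2) * σ ^ (p.1 + p.2) := by
    rw [← mul_pow, div_mul_cancel₀ _ hσ0.ne']
  calc ‖m p * c p‖ * ρ ^ (p.1 + p.2)
      = ‖m p‖ * (ρ / σ) ^ (p.1 + p.2) * (‖c p‖ * σ ^ (p.1 + p.2)) := by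
        rw [norm_mul, h3]; ring
    _ ≤ ((p.1 + p.2 : ℕ) : ℝ) * (ρ / σ) ^ (p.1 + p.2) * (‖c p‖ * σ ^ (p.1 + p.2)) := by
        gcongr
        exact hm p
    _ ≤ C * (‖c p‖ * σ ^ (p.1 + p.2)) := by gcongr

theorem norm_sum_le (p : ℕ × ℕ) : ‖((p.1 : ℂ) + p.2)‖ ≤ (p.1 + p.2 : ℕ) := by
  have : ((p.1 : ℂ) + p.2) = ((p.1 + p.2 : ℕ) : ℂ) := by push_cast; rfl
  rw [this, Complex.norm_natCast]

theorem norm_diff_le (p : ℕ × ℕ) : ‖((p.1 : ℂ) - p.2) * I‖ ≤ (p.1 + p.2 : ℕ) := by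
  rw [norm_mul, Complex.norm_I, mul_one]
  refine (norm_sub_le _ _).trans ?_
  rw [Complex.norm_natCast, Complex.norm_natCast]
  push_cast
  rfl

theorem Adm.sum {c : ℕ × ℕ → ℂ} (h : Adm c) : Adm fun p => ((p.1 : ℂ) + p.2) * c p :=
  h.mul_of_le _ norm_sum_le

theorem Adm.diff {c : ℕ × ℕ → ℂ} (h : Adm c) : Adm fun p => ((p.1 : ℂ) - p.2) * I * c p :=
  h.mul_of_le _ norm_diff_le

theorem FS_per (c : ℕ × ℕ → ℂ) (r θ : ℝ) : FS c r (θ + 2 * Real.pi) = FS c r θ := by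
  simp only [FS, ph_per]

theorem continuousOn_FS {c : ℕ × ℕ → ℂ} (h : Adm c) :
    ContinuousOn (fun x : ℝ × ℝ => FS c x.1 x.2) (Set.Ico 0 1 ×ˢ Set.univ) := by
  rintro ⟨r, θ⟩ ⟨⟨hr0, hr1⟩, -⟩
  obtain ⟨ρ, h1, h2⟩ := exists_between hr1
  have hρ : 0 ≤ ρ := hr0.trans h1.le
  have hc : ContinuousOn (fun x : ℝ × ℝ => FS c x.1 x.2) (Set.Ico 0 ρ ×ˢ Set.univ) := by
    refine continuousOn_tsum (fun p => ?_) (h ρ hρ h2) ?_
    · refine Continuous.continuousOn ?_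
      have := continuous_ph p
      fun_prop
    · rintro p ⟨s, t⟩ ⟨⟨hs0, hs1⟩, -⟩
      rw [norm_term, abs_of_nonneg hs0]
      gcongr
  have hmem : ((r, θ) : ℝ × ℝ) ∈ Set.Ico 0 ρ ×ˢ (Set.univ : Set ℝ) := ⟨⟨hr0, h1⟩, trivial⟩
  refine (hc _ hmem).mono_of_mem_nhdsWithin ?_
  have h3 : Set.Iio ρ ×ˢ (Set.univ : Set ℝ) ∈ nhds ((r, θ) : ℝ × ℝ) :=
    (isOpen_Iio.prod isOpen_univ).mem_nhds ⟨h1, trivial⟩
  filter_upwards [nhdsWithin_le_nhds h3, self_mem_nhdsWithin] with x hx hx'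
  exact ⟨⟨hx'.1.1, hx.1⟩, trivial⟩

/-- Radial derivative. -/
theorem hasDerivAt_FS_r {c : ℕ × ℕ → ℂ} (h : Adm c) {r : ℝ} (hr : r ∈ Set.Ioo (0 : ℝ) 1) (θ : ℝ) :
    HasDerivAt (fun s => FS c s θ) (FS (fun p => ((p.1 : ℂ) + p.2) * c p) r θ / r) r := by
  obtain ⟨ρ, h1, h2⟩ := exists_between hr.2
  obtain ⟨δ, h3, h4⟩ := exists_between hr.1
  have hρ : 0 < ρ := hr.1.trans h1
  have hder : ∀ (p : ℕ × ℕ) (s : ℝ), s ∈ Set.Ioo δ ρ →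
      HasDerivAt (fun s : ℝ => c p * ((s : ℂ) ^ (p.1 + p.2) * ph p θ))
        ((((p.1 : ℂ) + p.2) * c p) * ((s : ℂ) ^ (p.1 + p.2) * ph p θ) / s) s := by
    intro p s hs
    have hs0 : (s : ℂ) ≠ 0 := by
      have : s ≠ 0 := (h3.trans hs.1).ne'
      exact_mod_cast this
    have hd : HasDerivAt (fun s : ℝ => (s : ℂ)) 1 s := Complex.ofRealCLM.hasDerivAt
    have hp := hd.fun_pow (p.1 + p.2)
    have h5 := (hp.mul_const (ph p θ)).const_mul (c p)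
    refine h5.congr_deriv ?_
    rw [mul_one]
    rcases Nat.eq_zero_or_pos (p.1 + p.2) with h6 | h6
    · have h7 : ((p.1 : ℂ) + p.2) = 0 := by exact_mod_cast congrArg (Nat.cast : ℕ → ℂ) h6
      rw [h7, h6]; simp
    · obtain ⟨k, hk⟩ : ∃ k, p.1 + p.2 = k + 1 := ⟨p.1 + p.2 - 1, by omega⟩
      have h7 : ((p.1 : ℂ) + p.2) = k + 1 := by exact_mod_cast congrArg (Nat.cast : ℕ → ℂ) hk
      rw [h7, hk, Nat.add_sub_cancel, pow_succ]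
      push_cast
      field_simp
  have hbd : ∀ (p : ℕ × ℕ) (s : ℝ), s ∈ Set.Ioo δ ρ →
      ‖(((p.1 : ℂ) + p.2) * c p) * ((s : ℂ) ^ (p.1 + p.2) * ph p θ) / s‖
        ≤ ‖((p.1 : ℂ) + p.2) * c p‖ * ρ ^ (p.1 + p.2) / δ := by
    intro p s hs
    have hs0 : 0 < s := h3.trans hs.1
    rw [norm_div, norm_term (fun p : ℕ × ℕ => ((p.1 : ℂ) + p.2) * c p) p s θ, Complex.norm_real,
      Real.norm_eq_abs, abs_of_pos hs0]
    have := hs.1.le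
    have := hs.2.le
    gcongr
  have hsum : Summable fun p : ℕ × ℕ => ‖((p.1 : ℂ) + p.2) * c p‖ * ρ ^ (p.1 + p.2) / δ :=
    (h.sum ρ hρ.le h2).div_const δ
  have hmem : r ∈ Set.Ioo δ ρ := ⟨h4, h1⟩
  have h8 := hasDerivAt_tsum_of_isPreconnected hsum isOpen_Ioo isPreconnected_Ioo hder hbd hmem
    (h.summable hr.1.le hr.2 θ) hmem
  have h9 : FS (fun p => ((p.1 : ℂ) + p.2) * c p) r θ / r
      = ∑' p : ℕ × ℕ, (((p.1 : ℂ) + p.2) * c p) * ((r : ℂ) ^ (p.1 + p.2) * ph p θ) / r := by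
    rw [FS, tsum_div_const]
  rw [h9]
  exact h8

/-- Angular derivative. -/
theorem hasDerivAt_FS_θ {c : ℕ × ℕ → ℂ} (h : Adm c) {r : ℝ} (hr : r ∈ Set.Ico (0 : ℝ) 1) (θ : ℝ) :
    HasDerivAt (fun s => FS c r s) (FS (fun p => ((p.1 : ℂ) - p.2) * I * c p) r θ) θ := by
  have hder : ∀ (p : ℕ × ℕ) (s : ℝ), s ∈ (Set.univ : Set ℝ) →
      HasDerivAt (fun s : ℝ => c p * ((r : ℂ) ^ (p.1 + p.2) * ph p s))
        ((((p.1 : ℂ) - p.2) * I * c p) * ((r : ℂ) ^ (p.1 + p.2) * ph p s)) s := by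
    intro p s _
    have h5 := ((hasDerivAt_ph p s).const_mul ((r : ℂ) ^ (p.1 + p.2))).const_mul (c p)
    refine h5.congr_deriv ?_
    ring
  have hbd : ∀ (p : ℕ × ℕ) (s : ℝ), s ∈ (Set.univ : Set ℝ) →
      ‖(((p.1 : ℂ) - p.2) * I * c p) * ((r : ℂ) ^ (p.1 + p.2) * ph p s)‖
        ≤ ‖((p.1 : ℂ) - p.2) * I * c p‖ * r ^ (p.1 + p.2) := by
    intro p s _
    rw [norm_term (fun p : ℕ × ℕ => ((p.1 : ℂ) - p.2) * I * c p) p r s, abs_of_nonneg hr.1]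
  exact hasDerivAt_tsum_of_isPreconnected (h.diff r hr.1 hr.2) isOpen_univ isPreconnected_univ
    hder hbd (Set.mem_univ θ) (h.summable hr.1 hr.2 θ) (Set.mem_univ θ)

theorem FS_sum_zero (c : ℕ × ℕ → ℂ) (θ : ℝ) : FS (fun p => ((p.1 : ℂ) + p.2) * c p) 0 θ = 0 := by
  rw [FS]
  convert tsum_zero with p
  rcases Nat.eq_zero_or_pos (p.1 + p.2) with h6 | h6
  · have h7 : ((p.1 : ℂ) + p.2) = 0 := by exact_mod_cast congrArg (Nat.cast : ℕ → ℂ) h6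
    rw [h7]; simp
  · rw [Complex.ofReal_zero, zero_pow h6.ne']; simp

end Pool.Agent.Sch
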