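import Pool.Agent.Sch.Sym
import Pool.Agent.Sch.PolSum

/-!
# The solution as a function on the disc
-/

open scoped ENNReal
open Complex (I)

noncomputable section

namespace Pool.Agent.Sch

/-- Coefficients as complex numbers. -/
def cw (w : W) (p : ℕ × ℕ) : ℂ := (w p : ℂ)

theorem adm_cw (w : W) : Adm (cw w) := by
  intro ρ h0 h1
  refine Summable.of_nonneg_of_le (fun p => by positivity) (fun p => ?_) (W_summable_norm w)
  rw [cw, Complex.norm_real]
  exact mul_le_of_le_one_right (norm_nonneg _) (pow_le_one₀ h0 h1.le)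

theorem polar_mul (p : ℕ × ℕ) (r θ : ℝ) :
    ((r : ℂ) * Complex.exp (θ * I)) ^ p.1 * (starRingEnd ℂ ((r : ℂ) * Complex.exp (θ * I))) ^ p.2
      = (r : ℂ) ^ (p.1 + p.2) * ph p θ := by
  have h1 : starRingEnd ℂ ((r : ℂ) * Complex.exp (θ * I)) = (r : ℂ) * Complex.exp (-(θ * I)) := by
    rw [map_mul, Complex.conj_ofReal, ← Complex.exp_conj, map_mul, Complex.conj_ofReal,
      Complex.conj_I, mul_neg]
  rw [h1, mul_pow, mul_pow, ← Complex.exp_nat_mul, ← Complex.exp_nat_mul, ph, pow_add]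
  have h2 : ((p.1 : ℂ) - p.2) * θ * I = (p.1 : ℂ) * (θ * I) + (p.2 : ℂ) * -(θ * I) := by ring
  rw [h2, Complex.exp_add]
  ring

theorem norm_polar_le {r : ℝ} (h0 : 0 ≤ r) (h1 : r < 1) (θ : ℝ) :
    ‖(r : ℂ) * Complex.exp (θ * I)‖ ≤ 1 := by
  rw [norm_mul, Complex.norm_exp_ofReal_mul_I, mul_one, Complex.norm_real, Real.norm_eq_abs,
    abs_of_nonneg h0]
  exact h1.le

theorem FS_cw (w : W) (r θ : ℝ) :
    FS (cw w) r θ = ev ((r : ℂ) * Complex.exp (θ * I))
      (starRingEnd ℂ ((r : ℂ) * Complex.exp (θ * I))) w := by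
  rw [FS, ev]
  refine tsum_congr fun p => ?_
  rw [polar_mul]
  rfl

/-! ### The differential equation -/

theorem opT_apply_succ (f : W) (m n : ℕ) :
    opT f (m + 1, n + 1) = f (m, n) / (((m : ℝ) + 1) * ((n : ℝ) + 1)) := by
  have h : (coeffW (m + 1, n + 1)).comp opT = (1 / (((m : ℝ) + 1) * ((n : ℝ) + 1))) • coeffW (m, n) := by
    refine clmW_ext fun p => ?_
    simp only [ContinuousLinearMap.comp_apply, opT_mono, map_smul, coeffW_apply, mono_apply,
      smul_apply, smul_eq_mul]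
    by_cases hp : p = (m, n)
    · subst hp; simp
    · have h1 : ((m + 1, n + 1) : ℕ × ℕ) ≠ (p.1 + 1, p.2 + 1) := by
        intro h
        apply hp
        have h2 := congrArg Prod.fst h
        have h3 := congrArg Prod.snd h
        simp only at h2 h3
        ext <;> omega
      rw [if_neg h1, if_neg (fun h => hp h.symm), mul_zero, mul_zero]
  have := congrArg (fun L : W →L[ℝ] ℝ => L f) h
  simp only [ContinuousLinearMap.comp_apply, coeffW_apply, smul_apply,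
    smul_eq_mul] at this
  rw [this]
  ring

theorem opH_apply_succ (b : L1 ℕ) (m n : ℕ) : opH b (m + 1, n + 1) = 0 := by
  have h : (coeffW (m + 1, n + 1)).comp opH = 0 := by
    refine clm_ext fun j => ?_
    simp only [ContinuousLinearMap.comp_apply, opH_eS]
    split_ifs with hj
    · simp [mono_apply]
    · simp [mono_apply]
  exact congrArg (fun L : L1 ℕ →L[ℝ] ℝ => L b) h

theorem Sol.coeff {b q : L1 ℕ} {w : W} {α : ℝ} (h : Sol b q w α) (m n : ℕ) :
    ((m : ℝ) + 1) * ((n : ℝ) + 1) * w (m + 1, n + 1) = -α * (opK q * w) (m, n) := by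
  have h1 := congrArg (fun a : W => a (m + 1, n + 1)) h.vol
  simp only [W_add_apply, W_smul_apply, opT_apply_succ, opH_apply_succ] at h1
  have h2 : ((m : ℝ) + 1) * ((n : ℝ) + 1) ≠ 0 := by positivity
  field_simp at h1
  linarith

theorem tsum_succ_of_zero {c : ℕ × ℕ → ℂ} (h1 : ∀ n, c (0, n) = 0) (h2 : ∀ m, c (m, 0) = 0) :
    ∑' p, c p = ∑' p : ℕ × ℕ, c (p.1 + 1, p.2 + 1) := by
  have hinj : Function.Injective fun p : ℕ × ℕ => (p.1 + 1, p.2 + 1) := by
    intro p q h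
    have h3 := congrArg Prod.fst h
    have h4 := congrArg Prod.snd h
    simp only at h3 h4
    ext <;> omega
  symm
  refine hinj.tsum_eq (f := c) ?_
  intro p hp
  rcases p with ⟨_ | m, _ | n⟩
  · exact absurd (h1 0) hp
  · exact absurd (h1 (n + 1)) hp
  · exact absurd (h2 (m + 1)) hp
  · exact ⟨(m, n), rfl⟩

theorem Sol.pde {b q : L1 ℕ} {w : W} {α : ℝ} (hq : ‖q‖ < 1) (h : Sol b q w α) {r : ℝ}
    (h0 : 0 ≤ r) (h1 : r < 1) (θ : ℝ) :
    FS (fun p => ((p.1 : ℂ) + p.2) * (((p.1 : ℂ) + p.2) * cw w p)) r θ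
      + FS (fun p => ((p.1 : ℂ) - p.2) * I * (((p.1 : ℂ) - p.2) * I * cw w p)) r θ
      = -(4 * α) * r ^ 2 *
        ((‖dpsi q (r * Complex.exp (θ * I))‖ ^ 2 /
          (1 - ‖psi q (r * Complex.exp (θ * I))‖ ^ 2) ^ 2 : ℝ) : ℂ) * FS (cw w) r θ := by
  have hz := norm_polar_le h0 h1 θ
  have hz' : ‖starRingEnd ℂ ((r : ℂ) * Complex.exp (θ * I))‖ ≤ 1 := by rwa [RCLike.norm_conj]
  rw [← ev_opK q hq _ hz, FS_cw, mul_assoc (-(4 * (α : ℂ)) * (r : ℂ) ^ 2), ← ev_mul hz hz', ← FS_cw]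
  have a1 := (adm_cw w).sum.sum.summable h0 h1 θ
  have a2 := (adm_cw w).diff.diff.summable h0 h1 θ
  rw [FS, FS, ← a1.tsum_add a2, tsum_succ_of_zero, FS, ← tsum_mul_left]
  · refine tsum_congr fun p => ?_
    have h3 := h.coeff p.1 p.2
    have h4 : ((p.1 : ℂ) + 1) * ((p.2 : ℂ) + 1) * cw w (p.1 + 1, p.2 + 1)
        = -α * cw (opK q * w) p := by
      unfold cw
      exact_mod_cast h3
    have h5 : ph (p.1 + 1, p.2 + 1) θ = ph p θ := by
      unfold ph
      congr 1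
      push_cast
      ring
    rw [h5]
    have hI : I * I = -1 := Complex.I_mul_I
    calc _ = (4 * (((p.1 : ℂ) + 1) * ((p.2 : ℂ) + 1) * cw w (p.1 + 1, p.2 + 1)))
          * ((r : ℂ) ^ (p.1 + 1 + (p.2 + 1)) * ph p θ) := by
          push_cast
          linear_combination ((p.1 : ℂ) - p.2) ^ 2 * cw w (p.1 + 1, p.2 + 1)
            * ((r : ℂ) ^ (p.1 + 1 + (p.2 + 1)) * ph p θ) * hI
      _ = _ := by
          rw [h4]
          ring
  · intro n
    have hI : I * I = -1 := Complex.I_mul_I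
    push_cast
    linear_combination ((n : ℂ)) ^ 2 * cw w (0, n) * ((r : ℂ) ^ (0 + n) * ph (0, n) θ) * hI
  · intro n
    have hI : I * I = -1 := Complex.I_mul_I
    push_cast
    linear_combination ((n : ℂ)) ^ 2 * cw w (n, 0) * ((r : ℂ) ^ (n + 0) * ph (n, 0) θ) * hI

/-! ### The boundary values -/

theorem kap_posS : 0 < kap := Real.sqrt_pos.2 (by norm_num)

theorem kap_sqS : kap ^ 2 = 1 / 2 := Real.sq_sqrt (by norm_num)

theorem kap_lt_oneS : kap < 1 := by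
  have h := kap_sqS
  have h0 := kap_posS
  nlinarith

theorem kap_pow_two_mul (n : ℕ) : (kap : ℂ) ^ (2 * n) = (1 / 2) ^ n := by
  rw [pow_mul]
  have : (kap : ℂ) ^ 2 = 1 / 2 := by
    rw [← Complex.ofReal_pow, kap_sqS]; norm_num
  rw [this]

theorem ph_shift (m n k : ℕ) (θ : ℝ) : ph (m + k, n + k) θ = ph (m, n) θ := by
  unfold ph
  congr 1
  push_cast
  ring

/-- Evaluation on the circle `|z|² = 1/2`. -/
def bd0 (θ : ℝ) : W →L[ℝ] ℂ :=
  liftW (fun p => (kap : ℂ) ^ (p.1 + p.2) * ph p θ) 1 (fun p => by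
    rw [norm_mul, norm_ph, mul_one, norm_pow, Complex.norm_real, Real.norm_eq_abs,
      abs_of_pos kap_posS]
    exact pow_le_one₀ kap_posS.le kap_lt_oneS.le)

theorem bd0_mono (θ : ℝ) (p : ℕ × ℕ) : bd0 θ (mono p) = (kap : ℂ) ^ (p.1 + p.2) * ph p θ :=
  liftW_mono _ _ _ _

theorem FS_cw_kap (w : W) (θ : ℝ) : FS (cw w) kap θ = bd0 θ w := by
  have h := hasSum_liftW (fun p : ℕ × ℕ => (kap : ℂ) ^ (p.1 + p.2) * ph p θ) 1 (fun p => by
    rw [norm_mul, norm_ph, mul_one, norm_pow, Complex.norm_real, Real.norm_eq_abs,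
      abs_of_pos kap_posS]
    exact pow_le_one₀ kap_posS.le kap_lt_oneS.le) w
  simp only [Complex.real_smul] at h
  exact h.tsum_eq

/-- A constant with `n κ^n ≤ C`. -/
theorem exists_kap_bound : ∃ C : ℝ, 0 ≤ C ∧ ∀ n : ℕ, (n : ℝ) * kap ^ n ≤ C :=
  exists_bound kap kap_posS.le kap_lt_oneS

def kC : ℝ := exists_kap_bound.choose

theorem kC_nonneg : 0 ≤ kC := exists_kap_bound.choose_spec.1

theorem le_kC (n : ℕ) : (n : ℝ) * kap ^ n ≤ kC := exists_kap_bound.choose_spec.2 n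

theorem bd1_bound (θ : ℝ) (p : ℕ × ℕ) :
    ‖((p.1 : ℂ) + p.2) * ((kap : ℂ) ^ (p.1 + p.2) * ph p θ)‖ ≤ kC := by
  have h : ((p.1 : ℂ) + p.2) = ((p.1 + p.2 : ℕ) : ℂ) := by push_cast; rfl
  rw [norm_mul, norm_mul, norm_ph, mul_one, norm_pow, Complex.norm_real, Real.norm_eq_abs,
      abs_of_pos kap_posS, h, Complex.norm_natCast]
  exact le_kC _

/-- The radial derivative on the circle `|z|² = 1/2`. -/
def bd1 (θ : ℝ) : W →L[ℝ] ℂ :=
  liftW (fun p => ((p.1 : ℂ) + p.2) * ((kap : ℂ) ^ (p.1 + p.2) * ph p θ)) kC (bd1_bound θ)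

theorem bd1_mono (θ : ℝ) (p : ℕ × ℕ) :
    bd1 θ (mono p) = ((p.1 : ℂ) + p.2) * ((kap : ℂ) ^ (p.1 + p.2) * ph p θ) :=
  liftW_mono _ _ _ _

theorem FS_cw_kap1 (w : W) (θ : ℝ) :
    FS (fun p => ((p.1 : ℂ) + p.2) * cw w p) kap θ = bd1 θ w := by
  have h := hasSum_liftW (fun p : ℕ × ℕ => ((p.1 : ℂ) + p.2) * ((kap : ℂ) ^ (p.1 + p.2) * ph p θ))
    kC (bd1_bound θ) w
  simp only [Complex.real_smul] at h
  have h2 : bd1 θ w = ∑' p : ℕ × ℕ, (w p : ℂ) *
      (((p.1 : ℂ) + p.2) * ((kap : ℂ) ^ (p.1 + p.2) * ph p θ)) := h.tsum_eq.symm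
  rw [h2, FS]
  refine tsum_congr fun p => ?_
  unfold cw
  ring

theorem opDir_monoS (p : ℕ × ℕ) :
    opDir (mono p) = if p.2 ≤ p.1 ∧ 4 ∣ p.1 - p.2 then ((1 / 2 : ℝ) ^ p.2) • e ((p.1 - p.2) / 4)
      else 0 := liftW_mono _ _ _ _

theorem opNeu_monoS (p : ℕ × ℕ) :
    opNeu (mono p) = if p.2 ≤ p.1 ∧ 4 ∣ p.1 - p.2 then
      ((((p.1 : ℝ) - p.2 + 1) / (p.1 + 1)) * (1 / 2 : ℝ) ^ p.2) • e ((p.1 - p.2) / 4)
    else 0 := liftW_mono _ _ _ _

theorem nat_mul_half_pow_le (n : ℕ) : ‖((n : ℝ) * (1 / 2 : ℝ) ^ n)‖ ≤ 1 := by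
  rw [Real.norm_eq_abs, abs_of_nonneg (by positivity), one_div, inv_pow, ← div_eq_mul_inv,
    div_le_one (by positivity)]
  exact_mod_cast n.lt_two_pow_self.le

/-- Fourier coefficients of `z̄ ∂_z̄`. -/
def opN : W →L[ℝ] L1 ℕ :=
  liftW (fun p => if p.2 ≤ p.1 ∧ 4 ∣ p.1 - p.2 then
    ((p.2 : ℝ) * (1 / 2 : ℝ) ^ p.2) • e ((p.1 - p.2) / 4) else 0) 1 (fun p => by
      split_ifs
      · rw [norm_smul, norm_e, mul_one]
        exact nat_mul_half_pow_le _
      · simp)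

theorem opN_mono (p : ℕ × ℕ) :
    opN (mono p) = if p.2 ≤ p.1 ∧ 4 ∣ p.1 - p.2 then
    ((p.2 : ℝ) * (1 / 2 : ℝ) ^ p.2) • e ((p.1 - p.2) / 4) else 0 := liftW_mono _ _ _ _

/-- The sum over the modes `±4j`. -/
def md (j : ℕ) (θ : ℝ) : ℂ := if j = 0 then 1 else ph (4 * j, 0) θ + ph (0, 4 * j) θ

theorem norm_md_le (j : ℕ) (θ : ℝ) : ‖md j θ‖ ≤ 2 := by
  unfold md
  split_ifs
  · simp
  · refine (norm_add_le _ _).trans ?_
    rw [norm_ph, norm_ph]; norm_num

def lc0 (θ : ℝ) : L1 ℕ →L[ℝ] ℂ :=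
  lift (fun j => (kap : ℂ) ^ (4 * j) * md j θ) 2 (fun j => by
    rw [norm_mul, norm_pow, Complex.norm_real, Real.norm_eq_abs, abs_of_pos kap_posS]
    calc kap ^ (4 * j) * ‖md j θ‖ ≤ 1 * 2 :=
          mul_le_mul (pow_le_one₀ kap_posS.le kap_lt_oneS.le) (norm_md_le _ _) (norm_nonneg _)
            zero_le_one
      _ = 2 := one_mul 2)

theorem lc0_e (θ : ℝ) (j : ℕ) : lc0 θ (e j) = (kap : ℂ) ^ (4 * j) * md j θ := lift_e _ _ _ _

def lc1 (θ : ℝ) : L1 ℕ →L[ℝ] ℂ :=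
  lift (fun j => ((4 * j : ℕ) : ℂ) * ((kap : ℂ) ^ (4 * j) * md j θ)) (kC * 2) (fun j => by
    rw [norm_mul, norm_mul, norm_pow, Complex.norm_real, Real.norm_eq_abs, abs_of_pos kap_posS,
      Complex.norm_natCast, ← mul_assoc]
    exact mul_le_mul (le_kC _) (norm_md_le _ _) (norm_nonneg _) kC_nonneg)

theorem lc1_e (θ : ℝ) (j : ℕ) :
    lc1 θ (e j) = ((4 * j : ℕ) : ℂ) * ((kap : ℂ) ^ (4 * j) * md j θ) := lift_e _ _ _ _

theorem opN_opH (b : L1 ℕ) : opN (opH b) = 0 := by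
  have h : opN.comp opH = 0 := by
    refine clm_ext fun j => ?_
    simp only [ContinuousLinearMap.comp_apply, opH_eS]
    split_ifs with hj
    · simp [opN_mono]
    · rw [map_add, opN_mono, opN_mono, if_neg (c := (0, 4 * j).2 ≤ (0, 4 * j).1 ∧ _) (by
        simp only; omega)]
      simp
  exact congrArg (fun L : L1 ℕ →L[ℝ] L1 ℕ => L b) h

def opM : L1 ℕ →L[ℝ] L1 ℕ :=
  lift (fun j => ((1 / (4 * (j : ℝ) + 1)) * (1 / 2)) • e j) 1 (fun j => by
    rw [norm_smul, norm_e, mul_one, norm_mul]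
    have h1 := inv_le_one_aux (4 * (j : ℝ)) (by positivity)
    have h2 : ‖(1 / 2 : ℝ)‖ ≤ 1 := by norm_num
    exact mul_le_one₀ h1 (norm_nonneg _) h2)

theorem opM_e (j : ℕ) : opM (e j) = ((1 / (4 * (j : ℝ) + 1)) * (1 / 2)) • e j := lift_e _ _ _ _

theorem opN_opT (f : W) : opN (opT f) = opM (opNeu f) := by
  have h : opN.comp opT = opM.comp opNeu := by
    refine clmW_ext fun p => ?_
    rcases p with ⟨m, n⟩
    simp only [ContinuousLinearMap.comp_apply, opT_mono, map_smul, opN_mono, opNeu_monoS]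
    by_cases hc : n ≤ m ∧ 4 ∣ m - n
    · obtain ⟨j, hj⟩ := hc.2
      obtain ⟨rfl⟩ : m = n + 4 * j := by omega
      have h1 : n + 1 ≤ n + 4 * j + 1 ∧ 4 ∣ n + 4 * j + 1 - (n + 1) := ⟨by omega, by omega⟩
      have h2 : (n + 4 * j + 1 - (n + 1)) / 4 = j := by omega
      have h3 : (n + 4 * j - n) / 4 = j := by omega
      rw [if_pos h1, if_pos hc, h2, h3, map_smul, opM_e, smul_smul, smul_smul]
      congr 1
      push_cast
      have h5 : (n : ℝ) + 4 * j + 1 ≠ 0 := by positivity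
      have h6 : (n : ℝ) + 1 ≠ 0 := by positivity
      have h7 : 4 * (j : ℝ) + 1 ≠ 0 := by positivity
      have h8 : (n : ℝ) + 4 * j - n + 1 = 4 * j + 1 := by ring
      rw [h8, pow_succ]
      field_simp
    · rw [if_neg hc, if_neg (fun h => hc ⟨by omega, by omega⟩), smul_zero, map_zero]
  exact congrArg (fun L : W →L[ℝ] L1 ℕ => L f) h

/-- The two symmetrised boundary functionals agree. -/
theorem bd0_sym (θ : ℝ) (a : W) :
    bd0 θ (prj a) + bd0 θ (swp (prj a)) = lc0 θ (opDir a) + lc0 θ (opDir (swp a)) := by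
  have key : ∀ n j : ℕ, bd0 θ (prj (mono (n + 4 * j, n))) + bd0 θ (swp (prj (mono (n + 4 * j, n))))
      = lc0 θ (opDir (mono (n + 4 * j, n))) + lc0 θ (opDir (mono (n, n + 4 * j))) := by
    intro n j
    have h1 : (4 : ℤ) ∣ ((n + 4 * j : ℕ) : ℤ) - n := ⟨j, by push_cast; ring⟩
    have h2 : n ≤ n + 4 * j ∧ 4 ∣ n + 4 * j - n := ⟨by omega, by omega⟩
    have h3 : (n + 4 * j - n) / 4 = j := by omega
    rw [prj_mono, if_pos h1, swp_mono, bd0_mono, bd0_mono, opDir_monoS, if_pos h2, h3, opDir_monoS,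
      map_smul, lc0_e, Complex.real_smul]
    simp only [Prod.swap_prod_mk]
    have h4 : (kap : ℂ) ^ (n + 4 * j + n) = (1 / 2) ^ n * kap ^ (4 * j) := by
      rw [← kap_pow_two_mul, ← pow_add]; congr 1; ring
    have h5 : (kap : ℂ) ^ (n + (n + 4 * j)) = (1 / 2) ^ n * kap ^ (4 * j) := by
      rw [← kap_pow_two_mul, ← pow_add]; congr 1; ring
    have h6 : ph (n + 4 * j, n) θ = ph (4 * j, 0) θ := by
      have := ph_shift (4 * j) 0 n θ
      rwa [zero_add, add_comm (4 * j) n] at this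
    have h7 : ph (n, n + 4 * j) θ = ph (0, 4 * j) θ := by
      have := ph_shift 0 (4 * j) n θ
      rwa [zero_add, add_comm (4 * j) n] at this
    rw [h4, h5, h6, h7]
    rcases Nat.eq_zero_or_pos j with hj | hj
    · subst hj
      rw [if_pos ⟨by omega, by omega⟩]
      simp only [mul_zero, add_zero, Nat.sub_self, Nat.zero_div, map_smul, lc0_e, md, if_true,
        Complex.real_smul, pow_zero]
      have h8 : ph (0, 0) θ = 1 := by simp [ph]
      rw [h8]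
      push_cast
      ring
    · rw [if_neg (by omega), map_zero, md, if_neg (by omega)]
      push_cast
      ring
  have h : (bd0 θ).comp prj + ((bd0 θ).comp swp).comp prj
      = (lc0 θ).comp opDir + ((lc0 θ).comp opDir).comp swp := by
    refine clmW_ext fun p => ?_
    change bd0 θ (prj (mono p)) + bd0 θ (swp (prj (mono p)))
      = lc0 θ (opDir (mono p)) + lc0 θ (opDir (swp (mono p)))
    rcases p with ⟨m, n⟩
    rw [swp_mono]
    simp only [Prod.swap_prod_mk]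
    by_cases hd : (4 : ℤ) ∣ (m : ℤ) - n
    · rcases le_total n m with hmn | hmn
      · obtain ⟨j, rfl⟩ : ∃ j, m = n + 4 * j := ⟨(m - n) / 4, by omega⟩
        exact key n j
      · obtain ⟨j, rfl⟩ : ∃ j, n = m + 4 * j := ⟨(n - m) / 4, by omega⟩
        have h1 := key m j
        have h2 : (4 : ℤ) ∣ ((m + 4 * j : ℕ) : ℤ) - m := ⟨j, by push_cast; ring⟩
        have h3 : (4 : ℤ) ∣ (m : ℤ) - ((m + 4 * j : ℕ) : ℤ) := ⟨-j, by push_cast; ring⟩
        rw [prj_mono, if_pos h2, swp_mono] at h1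
        rw [prj_mono, if_pos h3, swp_mono]
        simp only [Prod.swap_prod_mk] at h1 ⊢
        rw [add_comm, h1, add_comm]
    · rw [prj_mono, if_neg hd, map_zero, map_zero, opDir_monoS, opDir_monoS,
        if_neg (by simp only; omega), if_neg (by simp only; omega), map_zero, map_zero]
  exact congrArg (fun L : W →L[ℝ] ℂ => L a) h

theorem bd1_sym (θ : ℝ) (a : W) :
    bd1 θ (prj a) + bd1 θ (swp (prj a)) = (lc1 θ (opDir a) + 2 * lc0 θ (opN a))
      + (lc1 θ (opDir (swp a)) + 2 * lc0 θ (opN (swp a))) := by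
  have key : ∀ n j : ℕ, bd1 θ (prj (mono (n + 4 * j, n))) + bd1 θ (swp (prj (mono (n + 4 * j, n))))
      = (lc1 θ (opDir (mono (n + 4 * j, n))) + 2 * lc0 θ (opN (mono (n + 4 * j, n))))
      + (lc1 θ (opDir (mono (n, n + 4 * j))) + 2 * lc0 θ (opN (mono (n, n + 4 * j)))) := by
    intro n j
    have h1 : (4 : ℤ) ∣ ((n + 4 * j : ℕ) : ℤ) - n := ⟨j, by push_cast; ring⟩
    have h2 : n ≤ n + 4 * j ∧ 4 ∣ n + 4 * j - n := ⟨by omega, by omega⟩
    have h3 : (n + 4 * j - n) / 4 = j := by omega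
    rw [prj_mono, if_pos h1, swp_mono, bd1_mono, bd1_mono, opDir_monoS, if_pos h2, opDir_monoS,
      opN_mono, if_pos h2, opN_mono, h3, map_smul, map_smul, lc0_e, lc1_e, Complex.real_smul,
      Complex.real_smul]
    simp only [Prod.swap_prod_mk]
    have h4 : (kap : ℂ) ^ (n + 4 * j + n) = (1 / 2) ^ n * kap ^ (4 * j) := by
      rw [← kap_pow_two_mul, ← pow_add]; congr 1; ring
    have h5 : (kap : ℂ) ^ (n + (n + 4 * j)) = (1 / 2) ^ n * kap ^ (4 * j) := by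
      rw [← kap_pow_two_mul, ← pow_add]; congr 1; ring
    have h6 : ph (n + 4 * j, n) θ = ph (4 * j, 0) θ := by
      have := ph_shift (4 * j) 0 n θ
      rwa [zero_add, add_comm (4 * j) n] at this
    have h7 : ph (n, n + 4 * j) θ = ph (0, 4 * j) θ := by
      have := ph_shift 0 (4 * j) n θ
      rwa [zero_add, add_comm (4 * j) n] at this
    rw [h4, h5, h6, h7]
    rcases Nat.eq_zero_or_pos j with hj | hj
    · subst hj
      rw [if_pos ⟨by omega, by omega⟩, if_pos ⟨by omega, by omega⟩]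
      simp only [mul_zero, add_zero, Nat.sub_self, Nat.zero_div, map_smul, lc0_e, lc1_e, md,
        if_true, Complex.real_smul, pow_zero, Nat.cast_zero, zero_mul]
      have h8 : ph (0, 0) θ = 1 := by simp [ph]
      rw [h8]
      push_cast
      ring
    · rw [if_neg (by omega), if_neg (by omega), map_zero, map_zero, md, if_neg (by omega)]
      push_cast
      ring
  have h : (bd1 θ).comp prj + ((bd1 θ).comp swp).comp prj
      = ((lc1 θ).comp opDir + (2 : ℝ) • (lc0 θ).comp opN)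
        + ((lc1 θ).comp opDir + (2 : ℝ) • (lc0 θ).comp opN).comp swp := by
    refine clmW_ext fun p => ?_
    change bd1 θ (prj (mono p)) + bd1 θ (swp (prj (mono p)))
      = (lc1 θ (opDir (mono p)) + ((2 : ℝ) : ℂ) * lc0 θ (opN (mono p)))
      + (lc1 θ (opDir (swp (mono p))) + ((2 : ℝ) : ℂ) * lc0 θ (opN (swp (mono p))))
    rw [Complex.ofReal_ofNat]
    rcases p with ⟨m, n⟩
    rw [swp_mono]
    simp only [Prod.swap_prod_mk]
    by_cases hd : (4 : ℤ) ∣ (m : ℤ) - n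
    · rcases le_total n m with hmn | hmn
      · obtain ⟨j, rfl⟩ : ∃ j, m = n + 4 * j := ⟨(m - n) / 4, by omega⟩
        exact key n j
      · obtain ⟨j, rfl⟩ : ∃ j, n = m + 4 * j := ⟨(n - m) / 4, by omega⟩
        have h1 := key m j
        have h2 : (4 : ℤ) ∣ ((m + 4 * j : ℕ) : ℤ) - m := ⟨j, by push_cast; ring⟩
        have h3 : (4 : ℤ) ∣ (m : ℤ) - ((m + 4 * j : ℕ) : ℤ) := ⟨-j, by push_cast; ring⟩
        rw [prj_mono, if_pos h2, swp_mono] at h1
        rw [prj_mono, if_pos h3, swp_mono]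
        simp only [Prod.swap_prod_mk] at h1 ⊢
        rw [add_comm, h1, add_comm]
    · rw [prj_mono, if_neg hd, map_zero, map_zero, opDir_monoS, opDir_monoS, opN_mono, opN_mono,
        if_neg (by simp only; omega), if_neg (by simp only; omega),
        if_neg (by simp only; omega), if_neg (by simp only; omega), map_zero, map_zero]
      simp
  have h9 := congrArg (fun L : W →L[ℝ] ℂ => L a) h
  have h10 : bd1 θ (prj a) + bd1 θ (swp (prj a))
      = (lc1 θ (opDir a) + ((2 : ℝ) : ℂ) * lc0 θ (opN a))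
      + (lc1 θ (opDir (swp a)) + ((2 : ℝ) : ℂ) * lc0 θ (opN (swp a))) := h9
  rw [Complex.ofReal_ofNat] at h10
  exact h10

theorem Sol.opN_eq {b q : L1 ℕ} {w : W} {α : ℝ} (h : Sol b q w α) : opN w = 0 := by
  have h1 := congrArg opN h.vol
  rw [map_add, map_smul, opN_opT, opN_opH, h.neu, map_zero, smul_zero, add_zero] at h1
  exact h1

theorem Sol.bd0_eq {b q : L1 ℕ} {w : W} {α : ℝ} (hq : ‖q‖ < 1) (h : Sol b q w α) (θ : ℝ) :
    bd0 θ w = 1 := by
  have h1 := bd0_sym θ w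
  rw [h.prj_eq hq, h.swp_eq hq, h.dir, lc0_e, md, if_pos rfl] at h1
  simp only [mul_zero, pow_zero, mul_one] at h1
  linear_combination h1 / 2

theorem Sol.bd1_eq {b q : L1 ℕ} {w : W} {α : ℝ} (hq : ‖q‖ < 1) (h : Sol b q w α) (θ : ℝ) :
    bd1 θ w = 0 := by
  have h1 := bd1_sym θ w
  rw [h.prj_eq hq, h.swp_eq hq, h.dir, h.opN_eq, lc1_e, map_zero] at h1
  simp only [mul_zero, Nat.cast_zero, zero_mul, add_zero] at h1
  linear_combination h1 / 2

/-- The solution as a function on the disc. -/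
theorem sol_polar (b q : L1 ℕ) (w : W) (α : ℝ) (hq : ‖q‖ < 1) (h : Sol b q w α) :
    ∃ u u1 u2 v1 v2 : ℝ → ℝ → ℂ, Pol u u1 u2 v1 v2 ∧
      (∀ r ∈ Set.Ico (0 : ℝ) 1, ∀ θ, u2 r θ + v2 r θ = -(4 * α) * r ^ 2 *
        ((‖dpsi q (r * Complex.exp (θ * I))‖ ^ 2 /
          (1 - ‖psi q (r * Complex.exp (θ * I))‖ ^ 2) ^ 2 : ℝ) : ℂ) * u r θ) ∧
      (∀ θ, u kap θ = 1) ∧ (∀ θ, u1 kap θ = 0) := by
  have a0 := adm_cw w
  refine ⟨FS (cw w), FS (fun p => ((p.1 : ℂ) + p.2) * cw w p),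
    FS (fun p => ((p.1 : ℂ) + p.2) * (((p.1 : ℂ) + p.2) * cw w p)),
    FS (fun p => ((p.1 : ℂ) - p.2) * I * cw w p),
    FS (fun p => ((p.1 : ℂ) - p.2) * I * (((p.1 : ℂ) - p.2) * I * cw w p)), ?_, ?_, ?_, ?_⟩
  · exact {
      cont_u := continuousOn_FS a0
      cont_u1 := continuousOn_FS a0.sum
      cont_u2 := continuousOn_FS a0.sum.sum
      cont_v1 := continuousOn_FS a0.diff
      cont_v2 := continuousOn_FS a0.diff.diff
      dr := fun r hr θ => hasDerivAt_FS_r a0 hr θ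
      dr1 := fun r hr θ => hasDerivAt_FS_r a0.sum hr θ
      dθ := fun r hr θ => hasDerivAt_FS_θ a0 hr θ
      dθ1 := fun r hr θ => hasDerivAt_FS_θ a0.diff hr θ
      per := fun r _ θ => FS_per _ r θ
      per1 := fun r _ θ => FS_per _ r θ
      zero := fun θ => FS_sum_zero _ θ }
  · intro r hr θ
    exact h.pde hq hr.1 hr.2 θ
  · intro θ
    rw [FS_cw_kap, h.bd0_eq hq]
  · intro θ
    rw [FS_cw_kap1, h.bd1_eq hq]

end Pool.Agent.Sch
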