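import Pool.Agent.Sch.Diag
import Pool.Agent.Sch.LinTriv

/-!
# Derivative of the nonlinear map at radial solutions
-/

open scoped ENNReal Topology

set_option maxHeartbeats 400000

noncomputable section

namespace Pool.Agent.Sch

variable {α ρ : ℝ}

/-- The radial point. -/
def x0 (α ρ c : ℝ) : XX := (c • e 0, ρ • e 0, c • Hc 0 (Aj α ρ 0))

theorem cv_comm (a b : L1 ℕ) : cv a b = cv b a := by
  have h : cv = cv.flip := by
    refine clm_ext fun n => clm_ext fun m => ?_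
    rw [ContinuousLinearMap.flip_apply, cv_e, cv_e, add_comm]
  conv_lhs => rw [h]
  rfl

theorem lt_one_of_rng (R : Rng α ρ) : ρ ^ 2 < 1 := by linarith [R.h1]

theorem GG_x0 (R : Rng α ρ) (c : ℝ) (hα : α ≠ 0) (hdg : dg 0 α (ρ ^ 2 / 2) = 0)
    (hc : c * g 0 α (ρ ^ 2 / 2) = 1) : GG (x0 α ρ c, α) = 0 := by
  have hK : opK (ρ • (e 0 : L1 ℕ)) = Hc 0 (kp ρ) := opK_rad ρ (lt_one_of_rng R)
  have hw : c • Hc 0 (Aj α ρ 0) = opL R (c • e 0) := by rw [map_smul, opL_e]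
  refine Prod.ext ?_ (Prod.ext ?_ ?_)
  · simp only [GG, x0]
    rw [hK, hw]
    have h := opV_opL R (c • e 0)
    rw [opV_apply] at h
    rw [h, sub_self]; rfl
  · simp only [GG, x0]
    have h1 : opDir (c • Hc 0 (Aj α ρ 0)) = e 0 := by
      rw [map_smul, opDir_Hc, sm_Aj R, smul_smul]
      simp only [Nat.mul_zero]
      rw [hc, one_smul]
    rw [h1, sub_self, map_zero, zero_add, map_smul, coord_apply, e_ne (by norm_num), smul_zero,
      zero_smul]; rfl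
  · simp only [GG, x0]
    rw [hK, mul_smul_comm, mul_comm, Hc_mul, map_smul, opNeu_Hc]
    have h1 := nu_cv R 0
    rw [show (4 * 0 : ℕ) = 0 from rfl, hdg, mul_zero] at h1
    have h2 : nu 0 (cv (Aj α ρ 0) (kp ρ)) = 0 := (mul_eq_zero.mp h1).resolve_left hα
    rw [h2, zero_smul, smul_zero]; rfl

theorem ff_x0 (R : Rng α ρ) (c : ℝ) : ff (x0 α ρ c, α) = 0 := by
  simp only [ff, x0]
  rw [map_smul, opDir_Hc, map_smul, map_smul, coord_apply, e_ne (by norm_num), smul_zero, smul_zero]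

/-- The transport part of the kernel directions. -/
def opQ (α ρ c : ℝ) (h0 : 0 < ρ) : L1 ℕ →L[ℝ] W :=
  lift (fun j => (mj j * c / (ρ * (4 * j + 1))) • Hc j (NA α ρ)) (4 * |c| / ρ * ‖NA α ρ‖)
    (fun j => by
      rw [norm_smul]
      have h1 : ‖mj j * c / (ρ * (4 * j + 1))‖ ≤ 2 * |c| / ρ := by
        rw [norm_div, norm_mul, Real.norm_eq_abs, Real.norm_eq_abs, Real.norm_eq_abs,
          abs_of_pos (mj_pos j), abs_of_pos (by positivity : 0 < ρ * (4 * (j : ℝ) + 1)),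
          div_le_div_iff₀ (by positivity) h0]
        have h2 : mj j ≤ 2 := by unfold mj; split_ifs <;> norm_num
        have h3 : mj j * |c| ≤ 2 * |c| := by gcongr
        have h4 : (0 : ℝ) ≤ j := by positivity
        have h5 : 0 ≤ 2 * |c| * ρ := by positivity
        nlinarith [mul_nonneg h5 h4]
      calc ‖mj j * c / (ρ * (4 * j + 1))‖ * ‖Hc j (NA α ρ)‖
          ≤ (2 * |c| / ρ) * (2 * ‖NA α ρ‖) := by
            gcongr
            exact norm_Hc_apply_le j _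
        _ = _ := by ring)

@[simp] theorem opQ_e (α ρ c : ℝ) (h0 : 0 < ρ) (j : ℕ) :
    opQ α ρ c h0 (e j) = (mj j * c / (ρ * (4 * j + 1))) • Hc j (NA α ρ) := lift_e _ _ _ _

/-- The weights `c'_j`. -/
theorem nu_NA_kq (R : Rng α ρ) (j : ℕ) :
    nu j (cv (NA α ρ) (kp ρ) + cv (Aj α ρ 0) (kq ρ (4 * j)))
      = (4 * j + 1) * (g 0 α (ρ ^ 2 / 2) * sm (kp ρ)) := by
  have h1 := hasSum_nu j (cv (NA α ρ) (kp ρ) + cv (Aj α ρ 0) (kq ρ (4 * j)))
  have h2 := (hasSum_sm (cv (Aj α ρ 0) (kp ρ))).mul_left (4 * (j : ℝ) + 1)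
  rw [sm_cv, sm_Aj R] at h2
  refine h1.unique (hs_congr h2 fun n => ?_)
  rw [NA_kq R]
  have h7 : ((n : ℝ) + 4 * j + 1) ≠ 0 := by positivity
  push_cast
  field_simp

theorem sm_kp_pos (h0 : 0 < ρ) (h : ρ ^ 2 < 1) : 0 < sm (kp ρ) := by
  have h1 := hasSum_sm (kp ρ)
  have h2 : ∀ n, 0 ≤ kp ρ n * (1 / 2 : ℝ) ^ n := by
    intro n; rw [kp_apply h]; positivity
  have h3 : kp ρ 0 * (1 / 2 : ℝ) ^ 0 ≤ sm (kp ρ) := le_hasSum h1 0 (fun j _ => h2 j)
  refine lt_of_lt_of_le ?_ h3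
  rw [kp_apply h]; positivity

section deriv

variable (R : Rng α ρ) (c : ℝ) (L : L1 ℕ →L[ℝ] W)
  (hL : HasFDerivAt opK L (ρ • (e 0 : L1 ℕ)))
  (hLe : ∀ j, L (e j) = (mj j / (ρ * (4 * j + 1))) • Hc j (kq ρ (4 * j)))

include R hL in
theorem fd_eq (v : XX) : fderiv ℝ GG (x0 α ρ c, α) (v, 0) =
      (v.2.2 + α • opT (L v.2.1 * (c • Hc 0 (Aj α ρ 0)) + Hc 0 (kp ρ) * v.2.2) - opH v.1,
        Pr (opDir v.2.2) + (coord 1 v.1) • e 1,
        opNeu (L v.2.1 * (c • Hc 0 (Aj α ρ 0)) + Hc 0 (kp ρ) * v.2.2)) := by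
  have h := fderiv_GG (x0 α ρ c, α) (isUnit_rad ρ (lt_one_of_rng R)) L hL v
  rw [h]
  simp only [x0]
  rw [opK_rad ρ (lt_one_of_rng R)]

include hLe in
theorem Lw_eq (j : ℕ) : L (e j) * (c • Hc 0 (Aj α ρ 0)) + Hc 0 (kp ρ) * opQ α ρ c R.h0 (e j)
    = (mj j * c / (ρ * (4 * j + 1))) •
      Hc j (cv (NA α ρ) (kp ρ) + cv (Aj α ρ 0) (kq ρ (4 * j))) := by
  rw [hLe, opQ_e, smul_mul_smul_comm, Hc_mul, mul_smul_comm, mul_comm (Hc 0 _), Hc_mul, map_add,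
    smul_add, cv_comm (kq ρ (4 * j)), add_comm, div_mul_eq_mul_div]

include R hL hLe in
theorem fd_q (q : L1 ℕ) (hdg : dg 0 α (ρ ^ 2 / 2) = 0) (C : ℝ)
    (hC : ∀ j, ‖mj j * c / ρ * (g 0 α (ρ ^ 2 / 2) * sm (kp ρ))‖ ≤ C) :
    fderiv ℝ GG (x0 α ρ c, α) ((0, q, opQ α ρ c R.h0 q), 0)
      = (0, 0, Dg (fun j => mj j * c / ρ * (g 0 α (ρ ^ 2 / 2) * sm (kp ρ))) C hC q) := by
  rw [fd_eq R c L hL]
  have h1 : (mulCLM.flip (c • Hc 0 (Aj α ρ 0))).comp L +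
      (mulCLM (Hc 0 (kp ρ))).comp (opQ α ρ c R.h0) =
      lift (fun j => (mj j * c / (ρ * (4 * j + 1))) •
        Hc j (cv (NA α ρ) (kp ρ) + cv (Aj α ρ 0) (kq ρ (4 * j))))
        (‖(mulCLM.flip (c • Hc 0 (Aj α ρ 0))).comp L +
          (mulCLM (Hc 0 (kp ρ))).comp (opQ α ρ c R.h0)‖) (fun j => by
          rw [← Lw_eq R c L hLe j]
          have := ContinuousLinearMap.le_opNorm ((mulCLM.flip (c • Hc 0 (Aj α ρ 0))).comp L +
            (mulCLM (Hc 0 (kp ρ))).comp (opQ α ρ c R.h0)) (e j)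
          rw [norm_e, mul_one] at this
          exact this) := by
    refine clm_ext fun j => ?_
    rw [lift_e, ← Lw_eq R c L hLe j]
    rfl
  have h2 : L q * (c • Hc 0 (Aj α ρ 0)) + Hc 0 (kp ρ) * opQ α ρ c R.h0 q
      = ((mulCLM.flip (c • Hc 0 (Aj α ρ 0))).comp L +
      (mulCLM (Hc 0 (kp ρ))).comp (opQ α ρ c R.h0)) q := rfl
  set M := (mulCLM.flip (c • Hc 0 (Aj α ρ 0))).comp L +
      (mulCLM (Hc 0 (kp ρ))).comp (opQ α ρ c R.h0) with hM
  have hMe : ∀ j, M (e j) = (mj j * c / (ρ * (4 * j + 1))) •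
      Hc j (cv (NA α ρ) (kp ρ) + cv (Aj α ρ 0) (kq ρ (4 * j))) := fun j => by
    rw [← Lw_eq R c L hLe j]; rfl
  simp only [h2]
  refine Prod.ext ?_ (Prod.ext ?_ ?_)
  · simp only [map_zero, sub_zero]
    have h3 : opQ α ρ c R.h0 + α • opT.comp M = 0 := by
      refine clm_ext fun j => ?_
      rw [ContinuousLinearMap.add_apply, ContinuousLinearMap.smul_apply,
        ContinuousLinearMap.comp_apply, hMe, opQ_e, map_smul, opT_Hc, smul_comm α, ← smul_add,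
        ← map_smul, ← map_add, NA_eq R j, map_zero, smul_zero]
      rfl
    exact congrArg (fun A => A q) h3
  · simp only [map_zero, zero_smul, add_zero]
    have h3 : opDir.comp (opQ α ρ c R.h0) = 0 := by
      refine clm_ext fun j => ?_
      rw [ContinuousLinearMap.comp_apply, opQ_e, map_smul, opDir_Hc, sm_NA R, hdg, mul_zero,
        zero_smul, smul_zero]
      rfl
    have h4 : opDir (opQ α ρ c R.h0 q) = 0 := congrArg (fun A => A q) h3
    rw [h4, map_zero]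
  · have h3 : opNeu.comp M = Dg (fun j => mj j * c / ρ * (g 0 α (ρ ^ 2 / 2) * sm (kp ρ))) C hC := by
      refine clm_ext fun j => ?_
      rw [ContinuousLinearMap.comp_apply, hMe, map_smul, opNeu_Hc, nu_NA_kq R, Dg_e, smul_smul]
      congr 1
      have h5 : (4 * (j : ℝ) + 1) ≠ 0 := by positivity
      have h6 := R.h0.ne'
      field_simp
    exact congrArg (fun A => A q) h3

include R hL in
theorem fd_b (b : L1 ℕ) : fderiv ℝ GG (x0 α ρ c, α) ((b, 0, opL R b), 0)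
      = (0, Pr (opDir (opL R b)) + (coord 1 b) • e 1, opNeu (Hc 0 (kp ρ) * opL R b)) := by
  rw [fd_eq R c L hL]
  simp only [map_zero, zero_mul, zero_add]
  have h := opV_opL R b
  rw [opV_apply] at h
  rw [h, sub_self]

include R hL in
theorem fd_w (v : W) : fderiv ℝ GG (x0 α ρ c, α) ((0, 0, v), 0)
      = (opV (Hc 0 (kp ρ)) α v, Pr (opDir v), opNeu (Hc 0 (kp ρ) * v)) := by
  rw [fd_eq R c L hL]
  simp only [map_zero, zero_mul, zero_add, sub_zero, zero_smul, add_zero]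
  rfl

include R hL hLe in
theorem fd_all (hdg : dg 0 α (ρ ^ 2 / 2) = 0) (C : ℝ)
    (hC : ∀ j, ‖mj j * c / ρ * (g 0 α (ρ ^ 2 / 2) * sm (kp ρ))‖ ≤ C) (b q : L1 ℕ) (v : W) :
    fderiv ℝ GG (x0 α ρ c, α) ((b, q, opL R b + opQ α ρ c R.h0 q + v), 0)
      = (opV (Hc 0 (kp ρ)) α v,
        Pr (opDir (opL R b)) + (coord 1 b) • e 1 + Pr (opDir v),
        opNeu (Hc 0 (kp ρ) * opL R b) +
          Dg (fun j => mj j * c / ρ * (g 0 α (ρ ^ 2 / 2) * sm (kp ρ))) C hC q +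
          opNeu (Hc 0 (kp ρ) * v)) := by
  have h1 : (((b, q, opL R b + opQ α ρ c R.h0 q + v), 0) : XX × ℝ)
      = ((b, 0, opL R b), 0) + ((0, q, opQ α ρ c R.h0 q), 0) + ((0, 0, v), 0) := by
    simp
  rw [h1, map_add, map_add, fd_b R c L hL, fd_q R c L hL hLe q hdg C hC, fd_w R c L hL]
  simp

end deriv

end Pool.Agent.Sch
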