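import Pool.Agent.Sch.Defs

/-!
# M1: the scalar series of the mode functions
-/

open scoped ENNReal Topology
open Complex (I)

noncomputable section

namespace Pool.Agent.Sch

section Alg
variable {𝕜 : Type*} [Field 𝕜] [CharZero 𝕜]

omit [CharZero 𝕜] in
theorem cf_zero (k : ℕ) (α : 𝕜) : cf k α 0 = 1 := rfl

omit [CharZero 𝕜] in
theorem cf_one (k : ℕ) (α : 𝕜) : cf k α 1 = -α / ((k : 𝕜) + 1) := rfl

omit [CharZero 𝕜] in
theorem cf_add_two (k : ℕ) (α : 𝕜) (n : ℕ) : cf k α (n + 2) =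
    ((2 * ((n : 𝕜) + 1) * (n + 1 + k) - α) * cf k α (n + 1) - n * (n + k) * cf k α n) /
      (((n : 𝕜) + 2) * (n + 2 + k)) := rfl

theorem cast_add_ne (k n j : ℕ) (h : 0 < j) : ((n : 𝕜) + j + k) ≠ 0 := by
  have : ((n + j + k : ℕ) : 𝕜) ≠ 0 := by
    rw [Nat.cast_ne_zero]; omega
  push_cast at this
  exact this

/-- Three-term recursion without division. -/
theorem cf_rec (k : ℕ) (α : 𝕜) (n : ℕ) :
    ((n : 𝕜) + 2) * (n + 2 + k) * cf k α (n + 2) =
      (2 * ((n : 𝕜) + 1) * (n + 1 + k) - α) * cf k α (n + 1) - n * (n + k) * cf k α n := by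
  have h1 : ((n : 𝕜) + 2) ≠ 0 := by
    have := cast_add_ne (𝕜 := 𝕜) 0 n 2 (by norm_num)
    simpa using this
  have h2 : ((n : 𝕜) + 2 + k) ≠ 0 := by
    have := cast_add_ne (𝕜 := 𝕜) k n 2 (by norm_num)
    simpa using this
  rw [cf_add_two]
  field_simp

omit [CharZero 𝕜] in
theorem sum_step (c : ℕ → 𝕜) (n : ℕ) :
    ∑ m ∈ Finset.range (n + 3), ((n + 2 : ℕ) - m + 1 : 𝕜) * c m
      = 2 * ∑ m ∈ Finset.range (n + 2), ((n + 1 : ℕ) - m + 1 : 𝕜) * c m
        - ∑ m ∈ Finset.range (n + 1), ((n : ℕ) - m + 1 : 𝕜) * c m + c (n + 2) := by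
  rw [Finset.sum_range_succ _ (n + 2), Finset.sum_range_succ _ (n + 1),
    Finset.sum_range_succ _ (n + 1)]
  have : ∑ m ∈ Finset.range (n + 1), ((n + 2 : ℕ) - m + 1 : 𝕜) * c m
      = 2 * ∑ m ∈ Finset.range (n + 1), ((n + 1 : ℕ) - m + 1 : 𝕜) * c m
        - ∑ m ∈ Finset.range (n + 1), ((n : ℕ) - m + 1 : 𝕜) * c m := by
    rw [Finset.mul_sum, ← Finset.sum_sub_distrib]
    refine Finset.sum_congr rfl fun m _ => ?_
    push_cast
    ring
  rw [this]
  push_cast
  ring

theorem cf_conv (k : ℕ) (α : 𝕜) (n : ℕ) :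
    ((n : 𝕜) + 1) * ((n : 𝕜) + 1 + k) * cf k α (n + 1)
      = -α * ∑ m ∈ Finset.range (n + 1), ((n : 𝕜) - m + 1) * cf k α m := by
  have hk : ((k : 𝕜) + 1) ≠ 0 := by
    have := cast_add_ne (𝕜 := 𝕜) 0 k 1 (by norm_num)
    simpa using this
  induction n using Nat.twoStepInduction with
  | zero =>
    simp [cf_zero, cf_one]
    field_simp
    ring
  | one =>
    have h := cf_rec k α 0
    rw [Finset.sum_range_succ, Finset.sum_range_one]
    rw [cf_zero] at h ⊢
    have h1 : ((k : 𝕜) + 1) * cf k α 1 = -α := by rw [cf_one]; field_simp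
    push_cast at h ⊢
    linear_combination h + 2 * h1
  | more n h0 h1 =>
    have h := cf_rec k α (n + 1)
    have hs := sum_step (cf k α) n
    push_cast at h hs h0 h1 ⊢
    rw [hs]
    linear_combination h + 2 * h1 - h0

/-- Raising relation for the coefficients. -/
theorem cf_rel (k : ℕ) (α : 𝕜) (n : ℕ) :
    (α + k * (k + 1)) * cf (k + 1) α n =
      (k + 1) * ((n + k) * cf k α n - (n + 1) * cf k α (n + 1)) := by
  have hk : ((k : 𝕜) + 1) ≠ 0 := by
    have := cast_add_ne (𝕜 := 𝕜) 0 k 1 (by norm_num)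
    simpa using this
  have hk2 : ((k : 𝕜) + 2) ≠ 0 := by
    have := cast_add_ne (𝕜 := 𝕜) 0 k 2 (by norm_num)
    simpa using this
  have e1 : ((k : 𝕜) + 1) * cf k α 1 = -α := by rw [cf_one]; field_simp
  have e2 : ((k : 𝕜) + 2) * cf (k + 1) α 1 = -α := by
    rw [cf_one]; push_cast
    have : ((k : 𝕜) + 1 + 1) = k + 2 := by ring
    rw [this]; field_simp
  induction n using Nat.twoStepInduction with
  | zero =>
    rw [cf_zero, cf_zero]
    push_cast
    linear_combination e1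
  | one =>
    have h := cf_rec k α 0
    rw [cf_zero] at h
    push_cast at h ⊢
    have h3 : ((k : 𝕜) + 2) * ((α + k * (k + 1)) * cf (k + 1) α 1) =
      ((k : 𝕜) + 2) * ((k + 1) * ((1 + k) * cf k α 1 - (1 + 1) * cf k α (1 + 1))) := by
      have h' : (2 : 𝕜) * (2 + k) * cf k α 2 = (2 * (1 + k) - α) * cf k α 1 := by
        linear_combination h
      linear_combination (α + k * (k + 1)) * e2 - (k + 1) * h' * (-1) -
        ((k : 𝕜) + 2) * (k + 1) * e1 + (2 * (1 + k) - α) * e1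
    exact mul_left_cancel₀ hk2 h3
  | more n h0 h1 =>
    have c2 := cf_rec k α n
    have c3 := cf_rec k α (n + 1)
    have d2 := cf_rec (k + 1) α n
    have hn2 : ((n : 𝕜) + 2) ≠ 0 := by
      have := cast_add_ne (𝕜 := 𝕜) 0 n 2 (by norm_num)
      simpa using this
    have hn3 : ((n : 𝕜) + 3 + k) ≠ 0 := by
      have := cast_add_ne (𝕜 := 𝕜) k n 3 (by norm_num)
      simpa using this
    push_cast at c2 c3 d2 h0 h1 ⊢
    refine mul_left_cancel₀ (mul_ne_zero hn2 hn3) ?_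
    linear_combination (α + k * (k + 1)) * d2 + (2 * ((n : 𝕜) + 1) * (n + 2 + k) - α) * h1
      - (n : 𝕜) * (n + k + 1) * h0 + ((k : 𝕜) + 1) * (n + 2) * c3
      - ((k : 𝕜) + 1) * (n + k + 1) * c2

/-- Lowering relation for the coefficients. -/
theorem cf_low (k : ℕ) (α : 𝕜) (n : ℕ) :
    ((k : 𝕜) + 1) * cf k α (n + 1) =
      (n + k + 2) * cf (k + 1) α (n + 1) - n * cf (k + 1) α n := by
  have hk : ((k : 𝕜) + 1) ≠ 0 := by
    have := cast_add_ne (𝕜 := 𝕜) 0 k 1 (by norm_num)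
    simpa using this
  have hk2 : ((k : 𝕜) + 2) ≠ 0 := by
    have := cast_add_ne (𝕜 := 𝕜) 0 k 2 (by norm_num)
    simpa using this
  have e1 : ((k : 𝕜) + 1) * cf k α 1 = -α := by rw [cf_one]; field_simp
  have e2 : ((k : 𝕜) + 2) * cf (k + 1) α 1 = -α := by
    rw [cf_one]; push_cast
    have : ((k : 𝕜) + 1 + 1) = k + 2 := by ring
    rw [this]; field_simp
  induction n using Nat.twoStepInduction with
  | zero =>
    push_cast
    linear_combination e1 - e2
  | one =>
    have h := cf_rec k α 0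
    have h' := cf_rec (k + 1) α 0
    push_cast at h h' ⊢
    refine mul_left_cancel₀ hk2 ?_
    linear_combination (1 / 2 : 𝕜) * ((k : 𝕜) + 1) * h - (1 / 2 : 𝕜) * ((k : 𝕜) + 2) * h'
      + (1 / 2 : 𝕜) * (2 * (1 + k) - α) * e1 - (1 / 2 : 𝕜) * (2 * (2 + k) - α) * e2 + e2
  | more n h0 h1 =>
    have c3 := cf_rec k α (n + 1)
    have d2 := cf_rec (k + 1) α n
    have d3 := cf_rec (k + 1) α (n + 1)
    have hn2 : ((n : 𝕜) + 3) ≠ 0 := by
      have := cast_add_ne (𝕜 := 𝕜) 0 n 3 (by norm_num)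
      simpa using this
    have hn3 : ((n : 𝕜) + 3 + k) ≠ 0 := by
      have := cast_add_ne (𝕜 := 𝕜) k n 3 (by norm_num)
      simpa using this
    push_cast at c3 d2 d3 h0 h1 ⊢
    refine mul_left_cancel₀ (mul_ne_zero hn2 hn3) ?_
    linear_combination ((k : 𝕜) + 1) * c3 + (2 * ((n : 𝕜) + 2) * (n + 2 + k) - α) * h1
      - ((n : 𝕜) + 1) * (n + 1 + k) * h0 - ((n : 𝕜) + 3 + k) * d3 + ((n : 𝕜) + 1) * d2

/-- Coefficient form of the three-term relation between `g_k`, `g_{k+1}`, `g_{k+2}`. -/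
theorem cf_relT (k : ℕ) (α : 𝕜) (n : ℕ) :
    (α + (k + 1) * (k + 2)) * cf (k + 2) α n = (k + 1) * (k + 2) *
      (cf (k + 1) α (n + 1) + cf (k + 1) α n - cf k α (n + 1)) := by
  have h1 := cf_rel (k + 1) α n
  have h2 := cf_low k α n
  push_cast at h1
  linear_combination h1 + ((k : 𝕜) + 2) * h2

omit [CharZero 𝕜] in
theorem cf_map {𝕝 : Type*} [Field 𝕝] (φ : 𝕜 →+* 𝕝) (k : ℕ) (α : 𝕜) (n : ℕ) :
    φ (cf k α n) = cf k (φ α) n := by
  induction n using Nat.twoStepInduction with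
  | zero => simp [cf_zero]
  | one => simp [cf_one, map_div₀]
  | more n h0 h1 =>
    rw [cf_add_two, cf_add_two, ← h0, ← h1]
    simp only [map_div₀, map_sub, map_mul, map_add, map_natCast, map_one, map_ofNat]

end Alg

theorem cf_ofReal (k : ℕ) (α : ℝ) (n : ℕ) : ((cf k α n : ℝ) : ℂ) = cf k (α : ℂ) n :=
  cf_map Complex.ofRealHom k α n

theorem continuous_cf' {𝕜 : Type*} [RCLike 𝕜] (k n : ℕ) : Continuous fun α : 𝕜 => cf k α n := by
  induction n using Nat.twoStepInduction with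
  | zero => simpa [cf_zero] using continuous_const
  | one =>
    simp only [cf_one]
    exact continuous_neg.div_const _
  | more n h0 h1 =>
    simp only [cf_add_two]
    exact (((continuous_const.sub continuous_id).mul h1).sub (continuous_const.mul h0)).div_const _

theorem continuous_cf (k n : ℕ) : Continuous fun α : ℝ => cf k α n := continuous_cf' k n

theorem differentiable_cf (k n : ℕ) : Differentiable ℂ fun α : ℂ => cf k α n := by
  induction n using Nat.twoStepInduction with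
  | zero => simp only [cf_zero]; exact differentiable_const _
  | one =>
    simp only [cf_one]
    exact differentiable_neg.div_const _
  | more n h0 h1 =>
    simp only [cf_add_two]
    exact ((((differentiable_const _).sub differentiable_id).mul h1).sub
      ((differentiable_const _).mul h0)).div_const _

/-! ### Growth of the coefficients -/

theorem hockey (p n : ℕ) :
    ∑ m ∈ Finset.range (n + 1), (m + p).choose p = (n + p + 1).choose (p + 1) := by
  induction n with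
  | zero => simp
  | succ n ih =>
    rw [Finset.sum_range_succ, ih, show n + 1 + p = n + p + 1 by ring,
      Nat.choose_succ_succ (n + p + 1) p]
    ring

theorem hockey2 (p n : ℕ) :
    ∑ m ∈ Finset.range (n + 1), ((n : ℝ) - m + 1) * ((m + p).choose p : ℝ)
    = ((n + p + 2).choose (p + 2) : ℝ) := by
  induction n with
  | zero => simp
  | succ n ih =>
    rw [Finset.sum_range_succ]
    have h1 : ∑ m ∈ Finset.range (n + 1), (((n + 1 : ℕ) : ℝ) - m + 1) * ((m + p).choose p : ℝ)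
        = ∑ m ∈ Finset.range (n + 1), ((n : ℝ) - m + 1) * ((m + p).choose p : ℝ)
          + ∑ m ∈ Finset.range (n + 1), ((m + p).choose p : ℝ) := by
      rw [← Finset.sum_add_distrib]
      refine Finset.sum_congr rfl fun m _ => ?_
      push_cast; ring
    have h2 : ∑ m ∈ Finset.range (n + 1), ((m + p).choose p : ℝ) =
        ((n + p + 1).choose (p + 1) : ℝ) := by
      rw [← hockey p n]; push_cast; rfl
    rw [h1, ih, h2]
    have h3 : ((n + 1 + p + 2).choose (p + 2) : ℝ) =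
        ((n + p + 2).choose (p + 1) : ℝ) + ((n + p + 2).choose (p + 2) : ℝ) := by
      rw [show n + 1 + p + 2 = (n + p + 2) + 1 by ring, Nat.choose_succ_succ (n + p + 2) (p + 1)]
      push_cast; ring
    have h4 : ((n + p + 2).choose (p + 1) : ℝ) =
        ((n + p + 1).choose p : ℝ) + ((n + p + 1).choose (p + 1) : ℝ) := by
      rw [Nat.choose_succ_succ (n + p + 1) p]
      push_cast; ring
    rw [h3, h4, show n + 1 + p = n + p + 1 by ring]
    push_cast
    ring

theorem choose_bound (p n : ℕ) :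
    ((p : ℝ) + 1) * ((n + p + 2).choose (p + 2) : ℝ) ≤
      ((n : ℝ) + 1) * (n + 1) * ((n + p + 1).choose p : ℝ) := by
  have h1 : (n + p + 1 + 1) * (n + p + 1).choose (p + 1) =
      (n + p + 1 + 1).choose (p + 1 + 1) * (p + 1 + 1) :=
    Nat.add_one_mul_choose_eq (n + p + 1) (p + 1)
  have h2 : (n + p + 1).choose (p + 1) * (p + 1) = (n + p + 1).choose p * (n + 1) := by
    have := Nat.choose_succ_right_eq (n + p + 1) p
    rwa [show n + p + 1 - p = n + 1 by omega] at this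
  have h1' : ((n : ℝ) + p + 2) * ((n + p + 1).choose (p + 1) : ℝ) =
      ((n + p + 2).choose (p + 2) : ℝ) * (p + 2) := by
    have : (((n + p + 1 + 1) * (n + p + 1).choose (p + 1) : ℕ) : ℝ) =
      (((n + p + 1 + 1).choose (p + 1 + 1) * (p + 1 + 1) : ℕ) : ℝ) := by rw [h1]
    push_cast at this
    linear_combination this
  have h2' : ((n + p + 1).choose (p + 1) : ℝ) * (p + 1) = ((n + p + 1).choose p : ℝ) * (n + 1) := by
    exact_mod_cast h2
  have hp : (0 : ℝ) ≤ p := Nat.cast_nonneg p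
  have hn : (0 : ℝ) ≤ n := Nat.cast_nonneg n
  have h3 : ((p : ℝ) + 1) * ((n + p + 2).choose (p + 2) : ℝ) * (p + 2) =
      ((n : ℝ) + p + 2) * (n + 1) * ((n + p + 1).choose p : ℝ) := by
    linear_combination (-(p : ℝ) - 1) * h1' + ((n : ℝ) + p + 2) * h2'
  have h4 : ((n : ℝ) + p + 2) * (n + 1) ≤ (n + 1) * (n + 1) * (p + 2) := by nlinarith [mul_nonneg hn hp, mul_nonneg (mul_nonneg hn hn) hp]
  have h5 : ((p : ℝ) + 1) * ((n + p + 2).choose (p + 2) : ℝ) * (p + 2) ≤
      ((n : ℝ) + 1) * (n + 1) * ((n + p + 1).choose p : ℝ) * (p + 2) := by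
    rw [h3]
    have := mul_le_mul_of_nonneg_right h4 (Nat.cast_nonneg (α := ℝ) ((n + p + 1).choose p))
    linarith
  exact le_of_mul_le_mul_right h5 (by positivity)

theorem norm_cf_le_gen {𝕜 : Type*} [RCLike 𝕜] (p k : ℕ) (α : 𝕜) (hα : ‖α‖ ≤ p + 1) (n : ℕ) :
    ‖cf k α n‖ ≤ ((n + p).choose p : ℝ) := by
  induction n using Nat.strong_induction_on with
  | _ n ih =>
    rcases n with _ | n
    · simp [cf_zero]
    · have h := cf_conv k α n
      have hn : ‖((n : 𝕜) + 1) * ((n : 𝕜) + 1 + k)‖ = ((n : ℝ) + 1) * ((n : ℝ) + 1 + k) := by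
        have h1 : ‖((n + 1 : ℕ) : 𝕜)‖ = ((n + 1 : ℕ) : ℝ) := RCLike.norm_natCast _
        have h2 : ‖((n + 1 + k : ℕ) : 𝕜)‖ = ((n + 1 + k : ℕ) : ℝ) := RCLike.norm_natCast _
        push_cast at h1 h2
        rw [norm_mul, h1, h2]
      have h5 : ((n : ℝ) + 1) * ((n : ℝ) + 1 + k) * ‖cf k α (n + 1)‖ ≤
          ((p : ℝ) + 1) * ((n + p + 2).choose (p + 2) : ℝ) := by
        rw [← hn, ← norm_mul, h, norm_mul, norm_neg]
        refine mul_le_mul hα ?_ (norm_nonneg _) (by positivity)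
        rw [← hockey2 p n]
        refine norm_sum_le_of_le _ fun m hm => ?_
        rw [Finset.mem_range] at hm
        rw [norm_mul]
        have h6 : ‖((n : 𝕜) - m + 1)‖ = (n : ℝ) - m + 1 := by
          have h1 : ‖((n - m + 1 : ℕ) : 𝕜)‖ = ((n - m + 1 : ℕ) : ℝ) := RCLike.norm_natCast _
          rw [Nat.cast_add, Nat.cast_sub (by omega), Nat.cast_add, Nat.cast_sub (by omega)] at h1
          simpa using h1
        rw [h6]
        refine mul_le_mul_of_nonneg_left (ih m (by omega)) ?_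
        have : (m : ℝ) ≤ n := by exact_mod_cast (by omega : m ≤ n)
        linarith
      have h7 := choose_bound p n
      have hnn : (0 : ℝ) ≤ n := Nat.cast_nonneg n
      have hkk : (0 : ℝ) ≤ k := Nat.cast_nonneg k
      have h8 : ((n : ℝ) + 1) * ((n : ℝ) + 1) * ‖cf k α (n + 1)‖ ≤
          ((n : ℝ) + 1) * (n + 1) * ((n + p + 1).choose p : ℝ) := by
        refine le_trans ?_ (h5.trans h7)
        refine mul_le_mul_of_nonneg_right ?_ (norm_nonneg _)
        nlinarith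
      rw [show n + 1 + p = n + p + 1 by ring]
      exact le_of_mul_le_mul_left h8 (by positivity)

theorem norm_cf_le' {𝕜 : Type*} [RCLike 𝕜] (k : ℕ) (α : 𝕜) (hα : ‖α‖ ≤ 30) (n : ℕ) :
    ‖cf k α n‖ ≤ ((n + 29).choose 29 : ℝ) :=
  norm_cf_le_gen 29 k α (by push_cast; linarith) n

theorem norm_cf_le (k : ℕ) (α : ℂ) (hα : ‖α‖ ≤ 30) (n : ℕ) :
    ‖cf k α n‖ ≤ ((n + 29).choose 29 : ℝ) := norm_cf_le' k α hα n

theorem abs_cf_le (k : ℕ) (α : ℝ) (hα : |α| ≤ 30) (n : ℕ) :
    |cf k α n| ≤ ((n + 29).choose 29 : ℝ) := norm_cf_le' k α hα n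

theorem summable_choose (r : ℝ) (h0 : 0 ≤ r) (h1 : r < 1) :
    Summable fun n : ℕ => ((n + 29).choose 29 : ℝ) * r ^ n :=
  summable_choose_mul_geometric_of_norm_lt_one 29 (by rwa [Real.norm_of_nonneg h0])

theorem summable_gen (p : ℕ) (r : ℝ) (h0 : 0 ≤ r) (h1 : r < 1) :
    Summable fun n : ℕ => ((n + p).choose p : ℝ) * r ^ n :=
  summable_choose_mul_geometric_of_norm_lt_one p (by rwa [Real.norm_of_nonneg h0])

theorem summable_dgen (p : ℕ) (r : ℝ) (h0 : 0 ≤ r) (h1 : r < 1) :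
    Summable fun n : ℕ => ((n : ℝ) + 1) * ((n + 1 + p).choose p : ℝ) * r ^ n := by
  refine ((summable_gen (p + 1) r h0 h1).mul_left ((p : ℝ) + 1)).congr fun n => ?_
  have h2 : (n + p + 1).choose (p + 1) * (p + 1) = (n + p + 1).choose p * (n + 1) := by
    have := Nat.choose_succ_right_eq (n + p + 1) p
    rwa [show n + p + 1 - p = n + 1 by omega] at this
  have h2' : ((n + p + 1).choose (p + 1) : ℝ) * (p + 1) = ((n + p + 1).choose p : ℝ) * (n + 1) := by
    exact_mod_cast h2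
  rw [show n + (p + 1) = n + p + 1 by ring, show n + 1 + p = n + p + 1 by ring]
  linear_combination r ^ n * h2'

section Series
variable {𝕜 : Type*} [RCLike 𝕜]

theorem summable_ps (p : ℕ) (a : ℕ → 𝕜) (ha : ∀ n, ‖a n‖ ≤ ((n + p).choose p : ℝ)) (t : 𝕜)
    (ht : ‖t‖ < 1) : Summable fun n => a n * t ^ n := by
  refine Summable.of_norm_bounded (summable_gen p ‖t‖ (norm_nonneg _) ht) fun n => ?_
  rw [norm_mul, norm_pow]
  exact mul_le_mul_of_nonneg_right (ha n) (by positivity)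

theorem summable_dps (p : ℕ) (a : ℕ → 𝕜) (ha : ∀ n, ‖a n‖ ≤ ((n + p).choose p : ℝ)) (t : 𝕜)
    (ht : ‖t‖ < 1) : Summable fun n : ℕ => ((n : 𝕜) + 1) * a (n + 1) * t ^ n := by
  refine Summable.of_norm_bounded (summable_dgen p ‖t‖ (norm_nonneg _) ht) fun n => ?_
  rw [norm_mul, norm_mul, norm_pow]
  have h1 : ‖((n + 1 : ℕ) : 𝕜)‖ = ((n + 1 : ℕ) : ℝ) := RCLike.norm_natCast _
  push_cast at h1
  rw [h1]
  refine mul_le_mul_of_nonneg_right ?_ (by positivity)
  exact mul_le_mul_of_nonneg_left (ha (n + 1)) (by positivity)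

theorem hasDerivAt_ps (p : ℕ) (a : ℕ → 𝕜) (ha : ∀ n, ‖a n‖ ≤ ((n + p).choose p : ℝ)) (t : 𝕜)
    (ht : ‖t‖ < 1) : HasDerivAt (fun z => ∑' n, a n * z ^ n)
      (∑' n : ℕ, ((n : 𝕜) + 1) * a (n + 1) * t ^ n) t := by
  obtain ⟨r, hr1, hr2⟩ := exists_between ht
  have hr0 : 0 ≤ r := (norm_nonneg _).trans hr1.le
  have hu : Summable fun n : ℕ => ((n + p).choose p : ℝ) * ((n : ℝ) * r ^ (n - 1)) := by
    rw [← summable_nat_add_iff 1]
    refine (summable_dgen p r hr0 hr2).congr fun n => ?_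
    rw [Nat.add_sub_cancel]
    push_cast
    ring
  have key := hasDerivAt_tsum_of_isPreconnected (t := Metric.ball (0 : 𝕜) r)
    (g := fun n z => a n * z ^ n) (g' := fun n z => a n * ((n : 𝕜) * z ^ (n - 1)))
    (y := t) (y₀ := 0) hu Metric.isOpen_ball (convex_ball (0 : 𝕜) r).isPreconnected
    (fun n y _ => (hasDerivAt_pow n y).const_mul (a n)) ?_ ?_ ?_ ?_
  · have hs : Summable fun n : ℕ => a n * ((n : 𝕜) * t ^ (n - 1)) := by
      refine Summable.of_norm_bounded hu fun n => ?_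
      rw [norm_mul, norm_mul, norm_pow, RCLike.norm_natCast]
      refine mul_le_mul (ha n) ?_ (by positivity) (by positivity)
      exact mul_le_mul_of_nonneg_left (pow_le_pow_left₀ (norm_nonneg _) hr1.le _) (by positivity)
    have e : ∑' n : ℕ, a n * ((n : 𝕜) * t ^ (n - 1)) =
        ∑' n : ℕ, ((n : 𝕜) + 1) * a (n + 1) * t ^ n := by
      rw [hs.tsum_eq_zero_add]
      simp only [Nat.cast_zero, zero_mul, mul_zero, zero_add, Nat.add_sub_cancel]
      refine tsum_congr fun n => ?_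
      push_cast
      ring
    rw [← e]
    exact key
  · intro n y hy
    rw [mem_ball_zero_iff] at hy
    rw [norm_mul, norm_mul, norm_pow, RCLike.norm_natCast]
    refine mul_le_mul (ha n) ?_ (by positivity) (by positivity)
    exact mul_le_mul_of_nonneg_left (pow_le_pow_left₀ (norm_nonneg _) hy.le _) (by positivity)
  · rw [mem_ball_zero_iff, norm_zero]
    exact lt_of_le_of_lt (norm_nonneg _) hr1
  · exact summable_ps p a ha 0 (by simp)
  · rw [mem_ball_zero_iff]; exact hr1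

end Series

theorem hasSum_g (k : ℕ) (α t : ℝ) (hα : |α| ≤ 30) (ht : |t| < 1) :
    HasSum (fun n => cf k α n * t ^ n) (g k α t) :=
  (summable_ps 29 (cf k α) (abs_cf_le k α hα) t ht).hasSum

theorem hasSum_dg (k : ℕ) (α t : ℝ) (hα : |α| ≤ 30) (ht : |t| < 1) :
    HasSum (fun n : ℕ => ((n : ℝ) + 1) * cf k α (n + 1) * t ^ n) (dg k α t) :=
  (summable_dps 29 (cf k α) (abs_cf_le k α hα) t ht).hasSum

theorem hasDerivAt_g (k : ℕ) (α t : ℝ) (hα : |α| ≤ 30) (ht : |t| < 1) :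
    HasDerivAt (g k α) (dg k α t) t :=
  hasDerivAt_ps 29 (cf k α) (abs_cf_le k α hα) t ht

theorem hs_congr {f h : ℕ → ℝ} {a : ℝ} (hh : HasSum h a) (e : ∀ n, f n = h n) : HasSum f a := by
  rwa [funext e]

/-- Cauchy product with `1/(1-t)²` in convolution form. -/
theorem hasSum_conv (c : ℕ → ℝ) (t : ℝ) (ht : |t| < 1) (hc : Summable fun n => ‖c n * t ^ n‖) :
    HasSum (fun n : ℕ => (∑ m ∈ Finset.range (n + 1), ((n : ℝ) - m + 1) * c m) * t ^ n)
      ((∑' n, c n * t ^ n) / (1 - t) ^ 2) := by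
  have hg : HasSum (fun n : ℕ => ((n + 1).choose 1 : ℝ) * t ^ n) (1 / (1 - t) ^ (1 + 1)) :=
    hasSum_choose_mul_geometric_of_norm_lt_one 1 ht
  have hgs : Summable fun n : ℕ => ‖((n + 1).choose 1 : ℝ) * t ^ n‖ := hg.summable.norm
  have h := hasSum_sum_range_mul_of_summable_norm' hc hc.of_norm hgs hg.summable
  rw [hg.tsum_eq] at h
  have e : (∑' n, c n * t ^ n) * (1 / (1 - t) ^ (1 + 1)) = (∑' n, c n * t ^ n) / (1 - t) ^ 2 := by
    ring
  rw [e] at h
  refine hs_congr h fun n => ?_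
  rw [Finset.sum_mul]
  refine Finset.sum_congr rfl fun m hm => ?_
  rw [Finset.mem_range] at hm
  have h1 : t ^ n = t ^ m * t ^ (n - m) := by rw [← pow_add]; congr 1; omega
  rw [h1, Nat.choose_one_right]
  have h2 : ((n - m + 1 : ℕ) : ℝ) = (n : ℝ) - m + 1 := by
    rw [Nat.cast_add, Nat.cast_sub (by omega)]; simp
  rw [h2]
  ring

theorem summable_norm_g (k : ℕ) (α t : ℝ) (hα : |α| ≤ 30) (ht : |t| < 1) :
    Summable fun n => ‖cf k α n * t ^ n‖ :=
  (hasSum_g k α t hα ht).summable.norm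

/-- The second-order expression as a series. -/
theorem hasSum_ode (k : ℕ) (α t : ℝ) (hα : |α| ≤ 30) (ht : |t| < 1) :
    HasSum (fun n : ℕ => ((n : ℝ) + 1) * ((n : ℝ) + 1 + k) * cf k α (n + 1) * t ^ n)
      (-α * (g k α t / (1 - t) ^ 2)) := by
  have h := (hasSum_conv (cf k α) t ht (summable_norm_g k α t hα ht)).mul_left (-α)
  refine hs_congr h fun n => ?_
  rw [cf_conv]
  ring

theorem choose_step (p n : ℕ) :
    ((n : ℝ) + 1) * ((n + 1 + p).choose p : ℝ) = (p + 1) * ((n + (p + 1)).choose (p + 1) : ℝ) := by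
  have h2 : (n + p + 1).choose (p + 1) * (p + 1) = (n + p + 1).choose p * (n + 1) := by
    have := Nat.choose_succ_right_eq (n + p + 1) p
    rwa [show n + p + 1 - p = n + 1 by omega] at this
  have h2' : ((n + p + 1).choose (p + 1) : ℝ) * (p + 1) = ((n + p + 1).choose p : ℝ) * (n + 1) := by
    exact_mod_cast h2
  rw [show n + (p + 1) = n + p + 1 by ring, show n + 1 + p = n + p + 1 by ring]
  linear_combination -h2'

theorem abs_dcf_gen (p k : ℕ) (α : ℝ) (hα : |α| ≤ p + 1) (n : ℕ) :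
    |((n : ℝ) + 1) * cf k α (n + 1)| ≤ (p + 1) * ((n + (p + 1)).choose (p + 1) : ℝ) := by
  have h := norm_cf_le_gen p k α hα (n + 1)
  rw [Real.norm_eq_abs] at h
  rw [abs_mul, abs_of_nonneg (by positivity : (0 : ℝ) ≤ n + 1), ← choose_step]
  exact mul_le_mul_of_nonneg_left h (by positivity)

theorem dcf_scaled (p k : ℕ) (α : ℝ) (hα : |α| ≤ p + 1) (n : ℕ) :
    ‖((p : ℝ) + 1)⁻¹ * (((n : ℝ) + 1) * cf k α (n + 1))‖ ≤ ((n + (p + 1)).choose (p + 1) : ℝ) := by
  rw [norm_mul, norm_inv, Real.norm_eq_abs, Real.norm_eq_abs,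
    abs_of_nonneg (by positivity : (0 : ℝ) ≤ p + 1), inv_mul_le_iff₀ (by positivity)]
  exact abs_dcf_gen p k α hα n

/-- The derivative of `dg`. -/
def ddg (k : ℕ) (α t : ℝ) : ℝ := ∑' n : ℕ, ((n : ℝ) + 1) * (((n : ℝ) + 2) * cf k α (n + 2)) * t ^ n

theorem hasDerivAt_dg (k : ℕ) (α t : ℝ) (hα : |α| ≤ 30) (ht : |t| < 1) :
    HasDerivAt (dg k α) (ddg k α t) t := by
  have h := hasDerivAt_ps _ _ (dcf_scaled 29 k α (by push_cast; linarith)) t (by simpa using ht)
  have h' := h.const_mul (((29 : ℕ) : ℝ) + 1)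
  have e : (((29 : ℕ) : ℝ) + 1) ≠ 0 := by positivity
  convert! h' using 1
  · ext z
    rw [dg, ← tsum_mul_left]
    refine tsum_congr fun n => ?_
    field_simp
  · rw [ddg, ← tsum_mul_left]
    refine tsum_congr fun n => ?_
    field_simp
    push_cast
    ring

theorem hasSum_ddg (k : ℕ) (α t : ℝ) (hα : |α| ≤ 30) (ht : |t| < 1) :
    HasSum (fun n : ℕ => ((n : ℝ) + 1) * (((n : ℝ) + 2) * cf k α (n + 2)) * t ^ n) (ddg k α t) := by
  have h := (summable_dps _ _ (dcf_scaled 29 k α (by push_cast; linarith)) t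
    (by simpa using ht)).mul_left (((29 : ℕ) : ℝ) + 1)
  have e : (((29 : ℕ) : ℝ) + 1) ≠ 0 := by positivity
  refine (h.congr fun n => ?_).hasSum
  field_simp
  push_cast
  ring

/-- The differential equation. -/
theorem ode (k : ℕ) (α t : ℝ) (hα : |α| ≤ 30) (ht : |t| < 1) :
    t * ddg k α t + (k + 1) * dg k α t = -α * (g k α t / (1 - t) ^ 2) := by
  have h1 := hasSum_ode k α t hα ht
  have h2 := (hasSum_dg k α t hα ht).mul_left ((k : ℝ) + 1)
  have h3 := (hasSum_ddg k α t hα ht).mul_left t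
  have h4 : HasSum (fun n : ℕ => (n : ℝ) * (((n : ℝ) + 1) * cf k α (n + 1)) * t ^ n)
      (t * ddg k α t) := by
    rw [← hasSum_nat_add_iff' 1]
    simp only [Finset.sum_range_one, Nat.cast_zero, zero_mul, sub_zero]
    refine hs_congr h3 fun n => ?_
    push_cast
    ring
  refine (h4.add h2).unique (hs_congr h1 fun n => ?_)
  ring

theorem hasDerivAt_ode (k : ℕ) (α t : ℝ) (hα : |α| ≤ 30) (ht : |t| < 1) :
    HasDerivAt (fun s => s ^ (k + 1) * dg k α s) (-(α * t ^ k * g k α t) / (1 - t) ^ 2) t := by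
  have h := (hasDerivAt_pow (k + 1) t).mul (hasDerivAt_dg k α t hα ht)
  convert! h using 1
  have h1 := ode k α t hα ht
  rw [Nat.add_sub_cancel]
  push_cast
  linear_combination -t ^ k * h1

theorem continuousAt_g (k : ℕ) (α t : ℝ) (hα : |α| < 30) (ht : |t| < 1) :
    ContinuousAt (fun p : ℝ × ℝ => g k p.1 p.2) (α, t) := by
  obtain ⟨r, hr1, hr2⟩ := exists_between ht
  have hr0 : 0 ≤ r := (abs_nonneg _).trans hr1.le
  have hS : (Metric.ball (0 : ℝ) 30 ×ˢ Metric.ball (0 : ℝ) r) ∈ 𝓝 ((α, t) : ℝ × ℝ) := by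
    refine prod_mem_nhds (Metric.isOpen_ball.mem_nhds ?_) (Metric.isOpen_ball.mem_nhds ?_)
    · rw [mem_ball_zero_iff]; exact hα
    · rw [mem_ball_zero_iff]; exact hr1
  refine ContinuousOn.continuousAt (s := Metric.ball (0 : ℝ) 30 ×ˢ Metric.ball (0 : ℝ) r) ?_ hS
  refine continuousOn_tsum (u := fun n : ℕ => ((n + 29).choose 29 : ℝ) * r ^ n) (fun n => ?_)
    (summable_choose r hr0 hr2) ?_
  · exact (((continuous_cf k n).comp continuous_fst).mul (continuous_snd.pow n)).continuousOn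
  · rintro n ⟨a, b⟩ ⟨h1, h2⟩
    rw [mem_ball_zero_iff] at h1 h2
    rw [norm_mul, norm_pow]
    exact mul_le_mul (norm_cf_le' k a h1.le n) (pow_le_pow_left₀ (norm_nonneg _) h2.le _)
      (pow_nonneg (norm_nonneg _) _) (Nat.cast_nonneg _)

theorem continuousAt_dg (k : ℕ) (α t : ℝ) (hα : |α| < 30) (ht : |t| < 1) :
    ContinuousAt (fun p : ℝ × ℝ => dg k p.1 p.2) (α, t) := by
  obtain ⟨r, hr1, hr2⟩ := exists_between ht
  have hr0 : 0 ≤ r := (abs_nonneg _).trans hr1.le
  have hS : (Metric.ball (0 : ℝ) 30 ×ˢ Metric.ball (0 : ℝ) r) ∈ 𝓝 ((α, t) : ℝ × ℝ) := by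
    refine prod_mem_nhds (Metric.isOpen_ball.mem_nhds ?_) (Metric.isOpen_ball.mem_nhds ?_)
    · rw [mem_ball_zero_iff]; exact hα
    · rw [mem_ball_zero_iff]; exact hr1
  refine ContinuousOn.continuousAt (s := Metric.ball (0 : ℝ) 30 ×ˢ Metric.ball (0 : ℝ) r) ?_ hS
  refine continuousOn_tsum
    (u := fun n : ℕ => ((n : ℝ) + 1) * ((n + 1 + 29).choose 29 : ℝ) * r ^ n) (fun n => ?_)
    (summable_dgen 29 r hr0 hr2) ?_
  · exact ((continuous_const.mul ((continuous_cf k (n + 1)).comp continuous_fst)).mul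
      (continuous_snd.pow n)).continuousOn
  · rintro n ⟨a, b⟩ ⟨h1, h2⟩
    rw [mem_ball_zero_iff] at h1 h2
    rw [norm_mul, norm_mul, norm_pow, Real.norm_of_nonneg (by positivity : (0 : ℝ) ≤ n + 1)]
    exact mul_le_mul (mul_le_mul_of_nonneg_left (norm_cf_le' k a h1.le (n + 1)) (by positivity))
      (pow_le_pow_left₀ (norm_nonneg _) h2.le _) (pow_nonneg (norm_nonneg _) _)
      (mul_nonneg (by positivity) (Nat.cast_nonneg _))

theorem hasSum_tdg (k : ℕ) (α t : ℝ) (hα : |α| ≤ 30) (ht : |t| < 1) :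
    HasSum (fun n : ℕ => (n : ℝ) * cf k α n * t ^ n) (t * dg k α t) := by
  rw [← hasSum_nat_add_iff' 1]
  simp only [Finset.sum_range_one, Nat.cast_zero, zero_mul, sub_zero]
  refine hs_congr ((hasSum_dg k α t hα ht).mul_left t) fun n => ?_
  push_cast
  ring

theorem rel_k (k : ℕ) (α t : ℝ) (hα : |α| ≤ 30) (ht : |t| < 1) :
    (α + k * (k + 1)) * g (k + 1) α t = (k + 1) * (k * g k α t - (1 - t) * dg k α t) := by
  have h1 := (hasSum_g (k + 1) α t hα ht).mul_left (α + k * (k + 1))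
  have h2 := ((((hasSum_g k α t hα ht).mul_left (k : ℝ)).sub (hasSum_dg k α t hα ht)).add
    (hasSum_tdg k α t hα ht)).mul_left ((k : ℝ) + 1)
  have h3 := h1.unique (hs_congr h2 fun n => ?_)
  · rw [h3]; ring
  · have := cf_rel k α n
    linear_combination t ^ n * this

theorem relT (k : ℕ) (α t : ℝ) (hα : |α| ≤ 30) (ht : |t| < 1) :
    (α + (k + 1) * (k + 2)) * t * g (k + 2) α t
      = (k + 1) * (k + 2) * ((1 + t) * g (k + 1) α t - g k α t) := by
  have h1 := (hasSum_g (k + 2) α t hα ht).mul_left ((α + (k + 1) * (k + 2)) * t)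
  have s1 : HasSum (fun n => cf (k + 1) α (n + 1) * t ^ (n + 1)) (g (k + 1) α t - 1) := by
    have := (hasSum_nat_add_iff' 1).mpr (hasSum_g (k + 1) α t hα ht)
    simpa [cf_zero] using this
  have s2 : HasSum (fun n => cf k α (n + 1) * t ^ (n + 1)) (g k α t - 1) := by
    have := (hasSum_nat_add_iff' 1).mpr (hasSum_g k α t hα ht)
    simpa [cf_zero] using this
  have s3 := (hasSum_g (k + 1) α t hα ht).mul_left t
  have h2 := ((s1.add s3).sub s2).mul_left (((k : ℝ) + 1) * (k + 2))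
  have h3 := h1.unique (hs_congr h2 fun n => ?_)
  · rw [h3]; ring
  · have := cf_relT k α n
    rw [pow_succ]
    linear_combination t ^ n * t * this

theorem g1_formula (α t : ℝ) (hα : |α| ≤ 30) (ht : |t| < 1) :
    α * g 1 α t = -(1 - t) * dg 0 α t := by
  have h := rel_k 0 α t hα ht
  simp only [Nat.cast_zero, zero_mul, add_zero, zero_add, zero_sub, one_mul] at h
  rw [h]; ring

theorem g4_formula (α t : ℝ) (hα : |α| ≤ 30) (ht : |t| < 1) (h : dg 0 α t = 0) (h0 : 0 < α) :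
    (α + 2) * (α + 6) * (α + 12) * t ^ 3 * g 4 α t
      = 24 * g 0 α t * (α * t - 6 * (1 + t + t ^ 2)) := by
  have h1 : g 1 α t = 0 := by
    have := g1_formula α t hα ht
    rw [h, mul_zero] at this
    exact (mul_eq_zero.mp this).resolve_left h0.ne'
  have t0 := relT 0 α t hα ht
  have t1 := relT 1 α t hα ht
  have t2 := relT 2 α t hα ht
  rw [zero_add] at t0
  norm_num at t0 t1 t2
  rw [h1] at t0 t1
  linear_combination (α + 2) * (α + 6) * t ^ 2 * t2 + 12 * (1 + t) * (α + 2) * t * t1 +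
    (72 * (1 + t) ^ 2 - 12 * (α + 6) * t) * t0

/-- The open set of complex parameters on which the series for `Z` converges. -/
def Zdom : Set ℂ := {z | z ≠ 0 ∧ ‖z‖ < 3 / 4 ∧ ‖6 * (1 + z + 1 / z)‖ < 30}

theorem continuousOn_Zfun : ContinuousOn (fun z : ℂ => 6 * (1 + z + 1 / z)) {z | z ≠ 0} := by
  refine continuousOn_const.mul ((continuousOn_const.add continuousOn_id).add ?_)
  exact continuousOn_const.div continuousOn_id fun z hz => hz

theorem isOpen_Zdom : IsOpen Zdom := by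
  have h0 : IsOpen {z : ℂ | z ≠ 0} := isOpen_ne
  have h1 : IsOpen ({z : ℂ | z ≠ 0} ∩ (fun z : ℂ => 6 * (1 + z + 1 / z)) ⁻¹' Metric.ball 0 30) :=
    continuousOn_Zfun.isOpen_inter_preimage h0 Metric.isOpen_ball
  have h2 : Zdom = ({z : ℂ | z ≠ 0} ∩ (fun z : ℂ => 6 * (1 + z + 1 / z)) ⁻¹' Metric.ball 0 30) ∩
      Metric.ball 0 (3 / 4) := by
    ext z
    simp only [Zdom, Set.mem_ofPred_eq, Set.mem_inter_iff, Set.mem_preimage, mem_ball_zero_iff]
    tauto
  rw [h2]
  exact h1.inter Metric.isOpen_ball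

/-- Complex version of `Z`. -/
def Zc (z : ℂ) : ℂ := ∑' n : ℕ, ((n : ℂ) + 1) * cf 0 (6 * (1 + z + 1 / z)) (n + 1) * z ^ n

theorem differentiableOn_Zc : DifferentiableOn ℂ Zc Zdom := by
  refine Complex.differentiableOn_tsum_of_summable_norm
    (u := fun n : ℕ => ((n : ℝ) + 1) * ((n + 1 + 29).choose 29 : ℝ) * (3 / 4) ^ n)
    (summable_dgen 29 (3 / 4) (by norm_num) (by norm_num)) (fun n => ?_) isOpen_Zdom ?_
  · have h1 : DifferentiableOn ℂ (fun z : ℂ => 6 * (1 + z + 1 / z)) Zdom := by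
      refine (differentiableOn_const _).mul (((differentiableOn_const _).add differentiableOn_id).add ?_)
      exact (differentiableOn_const _).div differentiableOn_id fun z hz => hz.1
    have h2 : DifferentiableOn ℂ (fun z : ℂ => cf 0 (6 * (1 + z + 1 / z)) (n + 1)) Zdom :=
      (differentiable_cf 0 (n + 1)).comp_differentiableOn h1
    exact ((differentiableOn_const _).mul h2).mul (differentiableOn_pow n)
  · intro n z hz
    rw [norm_mul, norm_mul, norm_pow]
    have h1 : ‖((n + 1 : ℕ) : ℂ)‖ = ((n + 1 : ℕ) : ℝ) := Complex.norm_natCast _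
    push_cast at h1
    rw [h1]
    exact mul_le_mul (mul_le_mul_of_nonneg_left (norm_cf_le' 0 _ hz.2.2.le (n + 1)) (by positivity))
      (pow_le_pow_left₀ (norm_nonneg _) hz.2.1.le _) (pow_nonneg (norm_nonneg _) _)
      (mul_nonneg (by positivity) (Nat.cast_nonneg _))

theorem A_bounds (t : ℝ) (h1 : 3 / 10 < t) (h2 : t < 1 / 2) :
    20 < 6 * (1 + t + 1 / t) ∧ 6 * (1 + t + 1 / t) < 30 := by
  have ht : 0 < t := by linarith
  have h3 : 1 / t * t = 1 := by field_simp
  have h4 : 0 < 1 / t := by positivity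
  constructor
  · nlinarith
  · nlinarith

theorem ofReal_mem_Zdom (t : ℝ) (h1 : 3 / 10 < t) (h2 : t < 1 / 2) : (t : ℂ) ∈ Zdom := by
  have ht : 0 < t := by linarith
  refine ⟨by exact_mod_cast ht.ne', ?_, ?_⟩
  · rw [Complex.norm_real, Real.norm_of_nonneg ht.le]; linarith
  · have h := A_bounds t h1 h2
    have e : (6 * (1 + (t : ℂ) + 1 / t)) = ((6 * (1 + t + 1 / t) : ℝ) : ℂ) := by push_cast; rfl
    rw [e, Complex.norm_real, Real.norm_of_nonneg (by linarith)]
    exact h.2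

theorem Zc_ofReal (t : ℝ) : (Zc (t : ℂ)).re = dg 0 (6 * (1 + t + 1 / t)) t := by
  have : Zc (t : ℂ) = ((dg 0 (6 * (1 + t + 1 / t)) t : ℝ) : ℂ) := by
    rw [Zc, dg, Complex.ofReal_tsum]
    refine tsum_congr fun n => ?_
    push_cast
    rw [cf_ofReal]
    push_cast
    rfl
  rw [this, Complex.ofReal_re]

theorem Z_analytic : AnalyticOnNhd ℝ (fun t : ℝ => dg 0 (6 * (1 + t + 1 / t)) t)
    (Set.Ioo (3 / 10) (1 / 2)) := by
  intro t ht
  have h := (differentiableOn_Zc.analyticAt (isOpen_Zdom.mem_nhds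
    (ofReal_mem_Zdom t ht.1 ht.2))).re_ofReal
  simp only [Zc_ofReal] at h
  exact h

end Pool.Agent.Sch
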