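import Pool.Agent.Sch.Radial
import Pool.Agent.Sch.Scal

/-!
# Radial solutions and mode solutions in the algebra
-/

open scoped ENNReal Topology

set_option maxHeartbeats 400000

noncomputable section

namespace Pool.Agent.Sch

open Classical in
/-- A sequence made into an element of `ℓ¹` (zero if not summable). -/
def sq (f : ℕ → ℝ) : L1 ℕ := if h : Summable fun n => ‖f n‖ then mk f h else 0

theorem sq_apply {f : ℕ → ℝ} (h : Summable fun n => ‖f n‖) (n : ℕ) : sq f n = f n := by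
  rw [sq, dif_pos h]; rfl

/-- The constant `ρ` range. -/
structure Rng (α ρ : ℝ) : Prop where
  h0 : 0 < ρ
  h1 : ρ ^ 2 < 9 / 10
  ha : |α| ≤ 30

variable {α ρ : ℝ}

theorem summable_poly_mul (C : ℕ → ℝ) (hC : ∀ n, 0 ≤ C n)
    (hs : ∀ r : ℝ, 0 ≤ r → r < 1 → Summable fun n : ℕ => C n * r ^ n)
    (r : ℝ) (h0 : 0 ≤ r) (h1 : r < 1) (m : ℕ) :
    Summable fun n : ℕ => ((n : ℝ) + 1) ^ m * C n * r ^ n := by
  obtain ⟨s, hs1, hs2⟩ := exists_between h1
  have hs0 : 0 < s := lt_of_le_of_lt h0 hs1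
  have hrs : |r / s| < 1 := by
    rw [abs_of_nonneg (by positivity), div_lt_one hs0]; exact hs1
  have hlim : Filter.Tendsto (fun n : ℕ => ((n : ℝ) + 1) ^ m * (r / s) ^ (n + 1))
      Filter.atTop (𝓝 0) := by
    have h2 := tendsto_pow_const_mul_const_pow_of_abs_lt_one m hrs
    refine (h2.comp (Filter.tendsto_add_atTop_nat 1)).congr fun n => ?_
    simp
  obtain ⟨D, hD⟩ := hlim.bddAbove_range
  rcases eq_or_lt_of_le h0 with h | h
  · subst h
    refine summable_of_ne_finset_zero (s := {0}) fun n hn => ?_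
    rw [zero_pow (by simpa using hn), mul_zero]
  · refine Summable.of_nonneg_of_le (fun n => by have := hC n; positivity) (fun n => ?_)
      ((hs s hs0.le hs2).mul_left (D * (s / r)))
    have h4 : ((n : ℝ) + 1) ^ m * (r / s) ^ (n + 1) ≤ D := hD ⟨n, rfl⟩
    have h5 := hC n
    have h6 : ((n : ℝ) + 1) ^ m * r ^ n
        = ((((n : ℝ) + 1) ^ m * (r / s) ^ (n + 1)) * (s / r)) * s ^ n := by
      rw [div_pow, pow_succ, pow_succ]; field_simp
    calc ((n : ℝ) + 1) ^ m * C n * r ^ n = C n * (((n : ℝ) + 1) ^ m * r ^ n) := by ring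
      _ = C n * (((((n : ℝ) + 1) ^ m * (r / s) ^ (n + 1)) * (s / r)) * s ^ n) := by rw [h6]
      _ ≤ C n * ((D * (s / r)) * s ^ n) := by gcongr
      _ = _ := by ring

theorem summable_poly_choose (r : ℝ) (h0 : 0 ≤ r) (h1 : r < 1) (m : ℕ) :
    Summable fun n : ℕ => ((n : ℝ) + 1) ^ m * ((n + 29).choose 29 : ℝ) * r ^ n :=
  summable_poly_mul (fun n => ((n + 29).choose 29 : ℝ)) (fun _ => Nat.cast_nonneg _)
    (fun r h0 h1 => summable_choose r h0 h1) r h0 h1 m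

theorem summable_cf (h : Rng α ρ) (k m : ℕ) :
    Summable fun n : ℕ => ‖((n : ℝ) + 1) ^ m * cf k α n * (ρ ^ 2) ^ n‖ := by
  refine Summable.of_nonneg_of_le (fun n => norm_nonneg _) (fun n => ?_)
    (summable_poly_choose (ρ ^ 2) (by positivity) (by linarith [h.h1]) m)
  rw [norm_mul, norm_mul, Real.norm_eq_abs, Real.norm_eq_abs, Real.norm_eq_abs,
    abs_of_nonneg (by positivity : (0 : ℝ) ≤ ((n : ℝ) + 1) ^ m),
    abs_of_nonneg (by positivity : (0 : ℝ) ≤ (ρ ^ 2) ^ n)]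
  gcongr
  exact abs_cf_le k α h.ha n

/-- `A_j = (cf (4j) α n ρ^{2n})_n`. -/
def Aj (α ρ : ℝ) (j : ℕ) : L1 ℕ := sq fun n => cf (4 * j) α n * (ρ ^ 2) ^ n

theorem Aj_apply (h : Rng α ρ) (j n : ℕ) : Aj α ρ j n = cf (4 * j) α n * (ρ ^ 2) ^ n :=
  sq_apply (by simpa using summable_cf h (4 * j) 0) n

/-- `n A_0 n`. -/
def NA (α ρ : ℝ) : L1 ℕ := sq fun n => n * (cf 0 α n * (ρ ^ 2) ^ n)

theorem NA_apply (h : Rng α ρ) (n : ℕ) : NA α ρ n = n * (cf 0 α n * (ρ ^ 2) ^ n) := by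
  refine sq_apply ?_ n
  refine Summable.of_nonneg_of_le (fun n => norm_nonneg _) (fun n => ?_) (summable_cf h 0 1)
  rw [norm_mul, norm_mul, norm_mul, norm_mul, pow_one, mul_assoc]
  gcongr
  rw [Real.norm_eq_abs, Real.norm_eq_abs, abs_of_nonneg (by positivity),
    abs_of_nonneg (by positivity)]
  linarith

/-- Coefficients of `K_0 = ρ² (1 - ρ² t)^{-2}`. -/
def kp (ρ : ℝ) : L1 ℕ := sq fun n => ((n : ℝ) + 1) * (ρ ^ 2) ^ (n + 1)

theorem summable_geo (ρ : ℝ) (h : ρ ^ 2 < 1) (m : ℕ) :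
    Summable fun n : ℕ => ‖((n : ℝ) + 1) ^ m * (ρ ^ 2) ^ n‖ := by
  refine (summable_poly_mul (fun _ => 1) (fun _ => zero_le_one) (fun r h0 h1 => by
    simpa using summable_geometric_of_lt_one h0 h1) (ρ ^ 2) (by positivity) h m).congr fun n => ?_
  rw [Real.norm_eq_abs, abs_of_nonneg (by positivity), mul_one]

theorem kp_apply (h : ρ ^ 2 < 1) (n : ℕ) : kp ρ n = ((n : ℝ) + 1) * (ρ ^ 2) ^ (n + 1) := by
  refine sq_apply ?_ n
  refine ((summable_geo ρ h 1).mul_left (ρ ^ 2)).congr fun n => ?_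
  rw [Real.norm_eq_abs, Real.norm_eq_abs, abs_of_nonneg (by positivity),
    abs_of_nonneg (by positivity)]
  ring

/-- Coefficients of `(k+1) K_0 + t K_0'`. -/
def kq (ρ : ℝ) (k : ℕ) : L1 ℕ :=
  sq fun n => ((k : ℝ) + 1 + n) * (((n : ℝ) + 1) * (ρ ^ 2) ^ (n + 1))

theorem kq_apply (h : ρ ^ 2 < 1) (k n : ℕ) :
    kq ρ k n = ((k : ℝ) + 1 + n) * (((n : ℝ) + 1) * (ρ ^ 2) ^ (n + 1)) := by
  refine sq_apply ?_ n
  refine Summable.of_nonneg_of_le (fun n => norm_nonneg _) (fun n => ?_)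
    ((summable_geo ρ h 2).mul_left (((k : ℝ) + 1) * ρ ^ 2))
  rw [Real.norm_eq_abs, Real.norm_eq_abs, abs_of_nonneg (by positivity),
    abs_of_nonneg (by positivity)]
  have h1 : (k : ℝ) + 1 + n ≤ ((k : ℝ) + 1) * ((n : ℝ) + 1) := by
    have : (0 : ℝ) ≤ (k : ℝ) * n := by positivity
    nlinarith
  calc ((k : ℝ) + 1 + n) * (((n : ℝ) + 1) * (ρ ^ 2) ^ (n + 1))
      ≤ (((k : ℝ) + 1) * ((n : ℝ) + 1)) * (((n : ℝ) + 1) * (ρ ^ 2) ^ (n + 1)) := by gcongr
    _ = _ := by ring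

/-- Mode equation: `A_j + α Sh (A_j * κ) = e 0`. -/
theorem Aj_eq (h : Rng α ρ) (j : ℕ) : Aj α ρ j + α • Sh (4 * j) (cv (Aj α ρ j) (kp ρ)) = e 0 := by
  have h1 : ρ ^ 2 < 1 := by linarith [h.h1]
  refine lp.ext (funext fun n => ?_)
  rw [lp.coeFn_add, Pi.add_apply, lp.coeFn_smul, Pi.smul_apply, smul_eq_mul, e_apply]
  cases n with
  | zero =>
    rw [Sh_zero, Aj_apply h]
    simp [cf]
  | succ n =>
    rw [Sh_succ, if_neg (by omega), Aj_apply h, cv_apply]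
    have h2 : ∑ m ∈ Finset.range (n + 1), Aj α ρ j m * kp ρ (n - m)
        = (ρ ^ 2) ^ (n + 1) * ∑ m ∈ Finset.range (n + 1), ((n : ℝ) - m + 1) * cf (4 * j) α m := by
      rw [Finset.mul_sum]
      refine Finset.sum_congr rfl fun m hm => ?_
      rw [Finset.mem_range] at hm
      rw [Aj_apply h, kp_apply h1, Nat.cast_sub (by omega)]
      have : (ρ ^ 2) ^ (n + 1) = (ρ ^ 2) ^ m * (ρ ^ 2) ^ (n - m + 1) := by
        rw [← pow_add]; congr 1; omega
      rw [this]; ring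
    have h3 := cf_conv (4 * j) α n
    push_cast at h3
    rw [h2]
    have h4 : ((n : ℝ) + 1 + 4 * j) ≠ 0 := by positivity
    have h5 : ((n : ℝ) + 1) ≠ 0 := by positivity
    push_cast
    field_simp
    linear_combination (ρ ^ 2) ^ (n + 1) * h3

/-- `(n + k + 1)` times the convolution `A_0 * κ`. -/
theorem NA_kq (h : Rng α ρ) (k n : ℕ) :
    (cv (NA α ρ) (kp ρ) + cv (Aj α ρ 0) (kq ρ k) : L1 ℕ) n
      = ((n : ℝ) + k + 1) * cv (Aj α ρ 0) (kp ρ) n := by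
  have h1 : ρ ^ 2 < 1 := by linarith [h.h1]
  rw [lp.coeFn_add, Pi.add_apply, cv_apply, cv_apply, cv_apply, ← Finset.sum_add_distrib,
    Finset.mul_sum]
  refine Finset.sum_congr rfl fun m hm => ?_
  rw [Finset.mem_range] at hm
  rw [NA_apply h, Aj_apply h, kp_apply h1, kq_apply h1, Nat.cast_sub (by omega)]
  simp only [Nat.mul_zero]
  ring

/-- Transport identity. -/
theorem NA_eq (h : Rng α ρ) (j : ℕ) :
    NA α ρ + α • Sh (4 * j) (cv (NA α ρ) (kp ρ) + cv (Aj α ρ 0) (kq ρ (4 * j))) = 0 := by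
  refine lp.ext (funext fun n => ?_)
  rw [lp.coeFn_add, Pi.add_apply, lp.coeFn_smul, Pi.smul_apply, smul_eq_mul]
  cases n with
  | zero =>
    rw [Sh_zero, NA_apply h]
    simp
  | succ n =>
    rw [Sh_succ, NA_kq h, NA_apply h]
    have h2 := congrArg (fun a : L1 ℕ => a (n + 1)) (Aj_eq h 0)
    simp only [] at h2
    rw [lp.coeFn_add, Pi.add_apply, lp.coeFn_smul, Pi.smul_apply, smul_eq_mul, e_apply,
      if_neg (by omega), Sh_succ, Aj_apply h] at h2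
    simp only [Nat.mul_zero, Nat.cast_zero, add_zero] at h2
    have h4 : ((n : ℝ) + 1 + 4 * j) ≠ 0 := by positivity
    have h5 : ((n : ℝ) + 1) ≠ 0 := by positivity
    have h6 : (0 : L1 ℕ) (n + 1) = 0 := rfl
    rw [h6]
    push_cast
    generalize (cv (Aj α ρ 0) (kp ρ) : L1 ℕ) n = c at *
    have h7 : ((n : ℝ) + 4 * j + 1) * c / (((n : ℝ) + 1 + 4 * j) * ((n : ℝ) + 1))
        = ((n : ℝ) + 1) * (c / (((n : ℝ) + 1) * ((n : ℝ) + 1))) := by
      field_simp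
      ring
    rw [h7]
    linear_combination ((n : ℝ) + 1) * h2

theorem sm_Aj (h : Rng α ρ) (j : ℕ) : sm (Aj α ρ j) = g (4 * j) α (ρ ^ 2 / 2) := by
  rw [← (hasSum_sm (Aj α ρ j)).tsum_eq, g]
  refine tsum_congr fun n => ?_
  rw [Aj_apply h]
  rw [div_pow, div_pow, one_pow]; ring

theorem sm_NA (h : Rng α ρ) : sm (NA α ρ) = ρ ^ 2 / 2 * dg 0 α (ρ ^ 2 / 2) := by
  have h1 := hasSum_sm (NA α ρ)
  have h2 : |ρ ^ 2 / 2| < 1 := by
    rw [abs_of_nonneg (by positivity)]; linarith [h.h1]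
  have h3 := hasSum_dg 0 α (ρ ^ 2 / 2) h.ha h2
  have h4 : HasSum (fun n => NA α ρ n * (1 / 2 : ℝ) ^ n) (ρ ^ 2 / 2 * dg 0 α (ρ ^ 2 / 2)) := by
    rw [← hasSum_nat_add_iff' 1]
    simp only [Finset.range_one, Finset.sum_singleton]
    rw [NA_apply h 0]
    simp only [Nat.cast_zero, zero_mul, sub_zero]
    refine (h3.mul_left (ρ ^ 2 / 2)).congr_fun fun n => ?_
    rw [NA_apply h, div_pow, div_pow, one_pow]
    push_cast
    rw [pow_succ, pow_succ]
    field_simp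
    ring
  exact h1.unique h4

end Pool.Agent.Sch
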