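import Pool.Agent.Sch.Volt

/-!
# Radial calculus: elements `(z^{4j} + z̄^{4j}) ∑ a_n (z z̄)^n`
-/

open scoped ENNReal Topology

noncomputable section

namespace Pool.Agent.Sch

/-- Convolution of sequences. -/
def cv : L1 ℕ →L[ℝ] L1 ℕ →L[ℝ] L1 ℕ :=
  lift (fun n => lift (fun m => e (n + m)) 1 (fun m => (norm_e (n + m)).le)) 1
    (fun _ => norm_lift_le _ _ _ zero_le_one)

@[simp] theorem cv_e (n m : ℕ) : cv (e n) (e m) = e (n + m) := by simp [cv]

theorem cv_apply (a b : L1 ℕ) (n : ℕ) :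
    cv a b n = ∑ m ∈ Finset.range (n + 1), a m * b (n - m) := by
  -- bilinear identity, check on basis vectors
  let B : L1 ℕ →L[ℝ] L1 ℕ →L[ℝ] ℝ :=
    ∑ m ∈ Finset.range (n + 1), (coord m).smulRight (coord (n - m))
  have hB : ∀ a b : L1 ℕ, B a b = ∑ m ∈ Finset.range (n + 1), a m * b (n - m) := by
    intro a b
    simp [B, ContinuousLinearMap.sum_apply]
  have h : (ContinuousLinearMap.compL ℝ (L1 ℕ) (L1 ℕ) ℝ (coord n)).comp cv = B := by
    refine clm_ext fun i => clm_ext fun j => ?_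
    rw [hB]
    simp only [ContinuousLinearMap.comp_apply, ContinuousLinearMap.compL_apply, cv_e, coord_apply,
      e_apply]
    by_cases hij : n = i + j
    · rw [if_pos hij, Finset.sum_eq_single_of_mem i (Finset.mem_range.mpr (by omega))]
      · rw [if_pos rfl, if_pos (by omega)]; ring
      · intro m _ hm
        rw [if_neg hm]; ring
    · rw [if_neg hij]
      symm
      refine Finset.sum_eq_zero fun m hm => ?_
      rw [Finset.mem_range] at hm
      by_cases h1 : m = i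
      · rw [if_pos h1, if_neg (by omega)]; ring
      · rw [if_neg h1]; ring
  have h2 := congrArg (fun L => L a b) h
  rw [← hB a b, ← h2]
  rfl

/-- Volterra shift on radial sequences. -/
def Sh (k : ℕ) : L1 ℕ →L[ℝ] L1 ℕ :=
  lift (fun n => (1 / (((n : ℝ) + 1 + k) * ((n : ℝ) + 1))) • e (n + 1)) 1 (fun n => by
    rw [norm_smul, norm_e, mul_one, Real.norm_eq_abs, abs_of_nonneg (by positivity),
      div_le_one (by positivity)]
    have h1 : (0 : ℝ) ≤ n := by positivity
    have h2 : (0 : ℝ) ≤ k := by positivity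
    nlinarith [mul_nonneg h1 h2])

@[simp] theorem Sh_e (k n : ℕ) :
    Sh k (e n) = (1 / (((n : ℝ) + 1 + k) * ((n : ℝ) + 1))) • e (n + 1) := lift_e _ _ _ _

theorem Sh_zero (k : ℕ) (a : L1 ℕ) : Sh k a 0 = 0 := by
  have h : (coord 0).comp (Sh k) = 0 := clm_ext fun n => by
    simp [e_apply]
  exact congrArg (fun L => L a) h

theorem Sh_succ (k : ℕ) (a : L1 ℕ) (n : ℕ) :
    Sh k a (n + 1) = a n / (((n : ℝ) + 1 + k) * ((n : ℝ) + 1)) := by
  have h : (coord (n + 1)).comp (Sh k)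
      = (1 / (((n : ℝ) + 1 + k) * ((n : ℝ) + 1))) • coord n := clm_ext fun m => by
    simp only [ContinuousLinearMap.comp_apply, Sh_e, map_smul, coord_apply, e_apply,
      ContinuousLinearMap.smul_apply, smul_eq_mul]
    by_cases hm : n = m
    · subst hm; simp
    · rw [if_neg (by omega), if_neg hm]; ring
  have h2 := congrArg (fun L => L a) h
  simp only [ContinuousLinearMap.comp_apply, coord_apply, ContinuousLinearMap.smul_apply,
    smul_eq_mul] at h2
  rw [h2]; ring

/-- Basis of the `4j`-mode. -/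
def Hm (j n : ℕ) : W := if j = 0 then mono (n, n) else mono (n + 4 * j, n) + mono (n, n + 4 * j)

theorem norm_Hm (j n : ℕ) : ‖Hm j n‖ ≤ 2 := by
  unfold Hm
  split_ifs
  · rw [norm_mono]; norm_num
  · refine (norm_add_le _ _).trans ?_
    rw [norm_mono, norm_mono]; norm_num

/-- `a ↦ (z^{4j}+z̄^{4j}) ∑ a_n (z z̄)^n` (only once for `j = 0`). -/
def Hc (j : ℕ) : L1 ℕ →L[ℝ] W := lift (Hm j) 2 (norm_Hm j)

@[simp] theorem Hc_e (j n : ℕ) : Hc j (e n) = Hm j n := lift_e _ _ _ _

theorem norm_Hc_apply_le (j : ℕ) (a : L1 ℕ) : ‖Hc j a‖ ≤ 2 * ‖a‖ := norm_lift_apply_le _ _ _ a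

theorem Hm_mul (j n m : ℕ) : Hm j n * mono (m, m) = Hm j (n + m) := by
  unfold Hm
  split_ifs
  · rw [mono_mul_mono]; rfl
  · rw [add_mul, mono_mul_mono, mono_mul_mono]
    congr 2 <;> ext <;> simp <;> ring

theorem Hc_mul (j : ℕ) (a b : L1 ℕ) : Hc j a * Hc 0 b = Hc j (cv a b) := by
  have h : (mulCLM.comp (Hc j)).flip.comp (Hc 0)
      = ((ContinuousLinearMap.compL ℝ (L1 ℕ) (L1 ℕ) W (Hc j)).comp cv).flip := by
    refine clm_ext fun m => clm_ext fun n => ?_
    simp only [ContinuousLinearMap.comp_apply, ContinuousLinearMap.flip_apply,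
      ContinuousLinearMap.compL_apply, cv_e, Hc_e, mulCLM_apply]
    rw [← Hm_mul]
    rfl
  have h2 := congrArg (fun L => L b a) h
  simpa [mulCLM_apply] using h2

theorem opT_Hc (j : ℕ) (a : L1 ℕ) : opT (Hc j a) = Hc j (Sh (4 * j) a) := by
  have h : opT.comp (Hc j) = (Hc j).comp (Sh (4 * j)) := by
    refine clm_ext fun n => ?_
    simp only [ContinuousLinearMap.comp_apply, Hc_e, Sh_e, map_smul]
    unfold Hm
    split_ifs with hj
    · rw [opT_mono]; subst hj; simp
    · rw [map_add, opT_mono, opT_mono, smul_add]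
      congr 1
      · congr 2
        · push_cast; ring
        · ext <;> simp; ring
      · congr 2
        · push_cast; ring
        · ext <;> simp; ring
  exact congrArg (fun L => L a) h

/-- `∑ a_n 2^{-n}`. -/
def sm : L1 ℕ →L[ℝ] ℝ := lift (fun n => (1 / 2 : ℝ) ^ n) 1 (fun n => by
  rw [norm_pow]; exact pow_le_one₀ (norm_nonneg _) (by norm_num))

@[simp] theorem sm_e (n : ℕ) : sm (e n) = (1 / 2 : ℝ) ^ n := lift_e _ _ _ _

theorem hasSum_sm (a : L1 ℕ) : HasSum (fun n => a n * (1 / 2 : ℝ) ^ n) (sm a) :=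
  hasSum_lift _ _ _ a

theorem sm_cv (a b : L1 ℕ) : sm (cv a b) = sm a * sm b := by
  have h : (ContinuousLinearMap.compL ℝ (L1 ℕ) (L1 ℕ) ℝ sm).comp cv
      = sm.smulRight sm := by
    refine clm_ext fun n => clm_ext fun m => ?_
    simp [pow_add]
  have h2 := congrArg (fun L => L a b) h
  simpa using h2

@[simp] theorem opDir_mono (p : ℕ × ℕ) : opDir (mono p) =
    if p.2 ≤ p.1 ∧ 4 ∣ p.1 - p.2 then ((1 / 2 : ℝ) ^ p.2) • e ((p.1 - p.2) / 4) else 0 :=
  liftW_mono _ _ _ _

@[simp] theorem opNeu_mono (p : ℕ × ℕ) : opNeu (mono p) =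
    if p.2 ≤ p.1 ∧ 4 ∣ p.1 - p.2 then
      ((((p.1 : ℝ) - p.2 + 1) / (p.1 + 1)) * (1 / 2 : ℝ) ^ p.2) • e ((p.1 - p.2) / 4) else 0 :=
  liftW_mono _ _ _ _

theorem opDir_Hc (j : ℕ) (a : L1 ℕ) : opDir (Hc j a) = sm a • e j := by
  have h : opDir.comp (Hc j) = sm.smulRight (e j) := by
    refine clm_ext fun n => ?_
    simp only [ContinuousLinearMap.comp_apply, Hc_e, ContinuousLinearMap.smulRight_apply, sm_e]
    unfold Hm
    split_ifs with hj
    · rw [opDir_mono]; subst hj; simp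
    · rw [map_add, opDir_mono, opDir_mono, if_pos ⟨by simp, by simp⟩, if_neg (by
        rintro ⟨h1, h2⟩
        simp at h1
        exact hj h1), add_zero]
      simp
  exact congrArg (fun L => L a) h

/-- Neumann weight functional. -/
def nu (j : ℕ) : L1 ℕ →L[ℝ] ℝ :=
  lift (fun n => (4 * (j : ℝ) + 1) / ((n : ℝ) + 4 * j + 1) * (1 / 2 : ℝ) ^ n) 1 (fun n => by
    rw [norm_mul, norm_pow]
    refine mul_le_one₀ ?_ (by positivity) (pow_le_one₀ (norm_nonneg _) (by norm_num))
    rw [Real.norm_eq_abs, abs_of_nonneg (by positivity), div_le_one (by positivity)]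
    have : (0 : ℝ) ≤ n := by positivity
    linarith)

@[simp] theorem nu_e (j n : ℕ) :
    nu j (e n) = (4 * (j : ℝ) + 1) / ((n : ℝ) + 4 * j + 1) * (1 / 2 : ℝ) ^ n := lift_e _ _ _ _

theorem hasSum_nu (j : ℕ) (a : L1 ℕ) :
    HasSum (fun n => a n * ((4 * (j : ℝ) + 1) / ((n : ℝ) + 4 * j + 1) * (1 / 2 : ℝ) ^ n))
      (nu j a) := hasSum_lift _ _ _ a

theorem norm_nu_apply_le (j : ℕ) (a : L1 ℕ) : ‖nu j a‖ ≤ ‖a‖ := by
  have := norm_clm_apply_le (nu j) (C := 1) (fun n => by
    rw [nu_e, norm_mul, norm_pow]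
    refine mul_le_one₀ ?_ (by positivity) (pow_le_one₀ (norm_nonneg _) (by norm_num))
    rw [Real.norm_eq_abs, abs_of_nonneg (by positivity), div_le_one (by positivity)]
    have : (0 : ℝ) ≤ n := by positivity
    linarith) a
  rwa [one_mul] at this

theorem opNeu_Hc (j : ℕ) (a : L1 ℕ) : opNeu (Hc j a) = nu j a • e j := by
  have h : opNeu.comp (Hc j) = (nu j).smulRight (e j) := by
    refine clm_ext fun n => ?_
    simp only [ContinuousLinearMap.comp_apply, Hc_e, ContinuousLinearMap.smulRight_apply, nu_e]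
    unfold Hm
    split_ifs with hj
    · rw [opNeu_mono]; subst hj; simp
    · rw [map_add, opNeu_mono, opNeu_mono, if_pos ⟨by simp, by simp⟩, if_neg (by
        rintro ⟨h1, h2⟩
        simp at h1
        exact hj h1), add_zero]
      have h1 : n + 4 * j - n = 4 * j := by omega
      simp only [h1]
      rw [Nat.mul_div_cancel_left j (by norm_num)]
      congr 2
      push_cast
      ring
  exact congrArg (fun L => L a) h

theorem opH_e (j : ℕ) : opH (e j) = Hc j (e 0) := by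
  rw [Hc_e, opH, lift_e]
  unfold Hm
  split_ifs <;> simp

/-- Multiplicity: `z^0 + z̄^0 = 2`. -/
def mj (j : ℕ) : ℝ := if j = 0 then 2 else 1

theorem mj_pos (j : ℕ) : 0 < mj j := by unfold mj; split_ifs <;> norm_num

theorem mono_add_mono (j n : ℕ) :
    mono (n + 4 * j, n) + mono (n, n + 4 * j) = mj j • Hm j n := by
  unfold Hm mj
  split_ifs with hj
  · subst hj; simp [two_smul]
  · simp

theorem cv_zero_left (b : L1 ℕ) : cv (e 0) b = b := by
  have h : cv (e 0) = ContinuousLinearMap.id ℝ _ := clm_ext fun n => by simp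
  rw [h]; rfl

end Pool.Agent.Sch
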