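import Pool.Agent.Sch.Defs

/-!
# The Volterra operator `v ↦ v + α T (K v)` is invertible
-/

open scoped ENNReal Topology

noncomputable section

namespace Pool.Agent.Sch

/-- Multiplication by `K` followed by `T`. -/
def opB (K : W) : W →L[ℝ] W := opT.comp (mulCLM K)

theorem opB_apply (K v : W) : opB K v = opT (K * v) := rfl

@[simp] theorem opT_mono (p : ℕ × ℕ) :
    opT (mono p) = (1 / (((p.1 : ℝ) + 1) * ((p.2 : ℝ) + 1))) • mono (p.1 + 1, p.2 + 1) :=
  liftW_mono _ _ _ _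

/-- The shifted operator `z^p ↦ z^p / ((p.1+n+1)(p.2+n+1))`. -/
def opTn (n : ℕ) : W →L[ℝ] W :=
  liftW (fun p => (1 / (((p.1 : ℝ) + n + 1) * ((p.2 : ℝ) + n + 1))) • mono p)
    (1 / ((n : ℝ) + 1) ^ 2) (fun p => by
      rw [norm_smul, norm_mono, mul_one, Real.norm_eq_abs, abs_of_nonneg (by positivity)]
      apply one_div_le_one_div_of_le (by positivity)
      rw [pow_two]
      gcongr
      · have : (0 : ℝ) ≤ p.1 := by positivity
        linarith
      · have : (0 : ℝ) ≤ p.2 := by positivity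
        linarith)

theorem opT_mono_mul (n : ℕ) (v : W) : opT (mono (n, n) * v) = mono (n + 1, n + 1) * opTn n v := by
  have h : opT.comp (mulCLM (mono (n, n))) = (mulCLM (mono (n + 1, n + 1))).comp (opTn n) := by
    refine clmW_ext fun p => ?_
    rw [ContinuousLinearMap.comp_apply, ContinuousLinearMap.comp_apply, mulCLM_mono, opT_mono,
      opTn, liftW_mono, map_smul, mulCLM_mono]
    have h1 : ((n, n) + p : ℕ × ℕ).1 = n + p.1 := rfl
    have h2 : ((n, n) + p : ℕ × ℕ).2 = n + p.2 := rfl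
    have h3 : ((n + 1, n + 1) + p : ℕ × ℕ) = (n + p.1 + 1, n + p.2 + 1) := by
      ext <;> simp <;> ring
    rw [h1, h2, h3]
    congr 2
    push_cast
    ring
  exact congrArg (fun L => L v) h

theorem opB_pow (K v : W) (n : ℕ) :
    ∃ u : W, (opB K ^ n) v = mono (n, n) * u ∧ ‖u‖ ≤ ‖K‖ ^ n / (n.factorial : ℝ) ^ 2 * ‖v‖ := by
  induction n with
  | zero =>
    refine ⟨v, ?_, by simp⟩
    have : mono (0, 0) = (1 : W) := rfl
    rw [this]; simp
  | succ n ih =>
    obtain ⟨u, hu, hb⟩ := ih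
    refine ⟨opTn n (K * u), ?_, ?_⟩
    · rw [pow_succ', ContinuousLinearMap.mul_apply, hu, opB_apply,
        show K * (mono (n, n) * u) = mono (n, n) * (K * u) by ring, opT_mono_mul]
    · have h1 : ‖opTn n (K * u)‖ ≤ 1 / ((n : ℝ) + 1) ^ 2 * ‖K * u‖ := norm_liftW_apply_le _ _ _ _
      have h2 : ‖K * u‖ ≤ ‖K‖ * (‖K‖ ^ n / (n.factorial : ℝ) ^ 2 * ‖v‖) :=
        (norm_mul_le _ _).trans (by gcongr)
      calc ‖opTn n (K * u)‖ ≤ 1 / ((n : ℝ) + 1) ^ 2 * ‖K * u‖ := h1
        _ ≤ 1 / ((n : ℝ) + 1) ^ 2 * (‖K‖ * (‖K‖ ^ n / (n.factorial : ℝ) ^ 2 * ‖v‖)) := by gcongr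
        _ = ‖K‖ ^ (n + 1) / ((n + 1).factorial : ℝ) ^ 2 * ‖v‖ := by
          rw [Nat.factorial_succ]
          push_cast
          have : (n.factorial : ℝ) ≠ 0 := by positivity
          rw [pow_succ ‖K‖ n]
          field_simp

theorem norm_opB_pow_le (K : W) (n : ℕ) : ‖opB K ^ n‖ ≤ ‖K‖ ^ n / (n.factorial : ℝ) ^ 2 := by
  refine ContinuousLinearMap.opNorm_le_bound _ (by positivity) fun v => ?_
  obtain ⟨u, hu, hb⟩ := opB_pow K v n
  rw [hu]
  refine (norm_mul_le _ _).trans ?_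
  rw [norm_mono, one_mul]
  exact hb

theorem isUnit_one_sub_of_pow {R : Type*} [NormedRing R] [CompleteSpace R] (x : R) (n : ℕ)
    (h : ‖x ^ n‖ < 1) : IsUnit (1 - x) := by
  have h1 : IsUnit (1 - x ^ n) := isUnit_one_sub_of_norm_lt_one h
  rw [← mul_neg_geom_sum x n] at h1
  have hc : Commute (1 - x) (∑ i ∈ Finset.range n, x ^ i) :=
    Commute.sub_left (Commute.one_left _) (Commute.sum_right _ _ _ fun i _ => Commute.pow_right rfl i)
  exact (hc.isUnit_mul_iff.mp h1).1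

/-- `V = 1 + α T K`. -/
def opV (K : W) (α : ℝ) : W →L[ℝ] W := ContinuousLinearMap.id ℝ W + α • opB K

theorem opV_apply (K v : W) (α : ℝ) : opV K α v = v + α • opT (K * v) := rfl

theorem opB_smul (K : W) (α : ℝ) : opB (α • K) = α • opB K := by
  rw [opB, opB, map_smul, ContinuousLinearMap.comp_smul]

theorem isUnit_opV (K : W) (α : ℝ) : IsUnit (opV K α) := by
  have h : opV K α = 1 - opB ((-α) • K) := by
    rw [opB_smul]
    ext1 v
    simp [opV]
  rw [h]
  have hlim : Filter.Tendsto (fun n : ℕ => (|α| * ‖K‖) ^ n / (n.factorial : ℝ)) Filter.atTop (𝓝 0) :=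
    FloorSemiring.tendsto_pow_div_factorial_atTop _
  obtain ⟨n, hn⟩ := ((hlim.eventually (gt_mem_nhds (one_pos))).exists)
  refine isUnit_one_sub_of_pow _ n ?_
  have h1 : (1 : ℝ) ≤ n.factorial := by exact_mod_cast Nat.factorial_pos n
  calc ‖opB ((-α) • K) ^ n‖ ≤ ‖(-α) • K‖ ^ n / (n.factorial : ℝ) ^ 2 := norm_opB_pow_le _ n
    _ = (|α| * ‖K‖) ^ n / (n.factorial : ℝ) ^ 2 := by rw [norm_smul, norm_neg, Real.norm_eq_abs]
    _ ≤ (|α| * ‖K‖) ^ n / (n.factorial : ℝ) := by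
        apply div_le_div_of_nonneg_left (by positivity) (by positivity)
        nlinarith
    _ < 1 := hn

theorem opV_bijective (K : W) (α : ℝ) : Function.Bijective (opV K α) := by
  obtain ⟨u, hu⟩ := isUnit_opV K α
  rw [← hu]
  constructor
  · intro x y hxy
    have := congrArg (fun z => (↑u⁻¹ : W →L[ℝ] W) z) hxy
    simpa [← ContinuousLinearMap.mul_apply] using this
  · intro y
    refine ⟨(↑u⁻¹ : W →L[ℝ] W) y, ?_⟩
    rw [← ContinuousLinearMap.mul_apply, Units.mul_inv]; rfl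

theorem volterra_inj (K v : W) (α : ℝ) (h : v + α • opT (K * v) = 0) : v = 0 := by
  have h1 : opV K α v = opV K α 0 := by rw [opV_apply, h, map_zero]
  exact (opV_bijective K α).1 h1

end Pool.Agent.Sch
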