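import Pool.Agent.Sch.Eval
import Pool.Agent.Sch.Volt

/-!
# Symmetries of the solutions
-/

open scoped ENNReal
open Complex (I)

noncomputable section

namespace Pool.Agent.Sch

/-- Exchange of `z` and `z̄`. -/
def swp : W →L[ℝ] W := liftW (fun p => mono p.swap) 1 (fun _ => (norm_mono _).le)

@[simp] theorem swp_mono (p : ℕ × ℕ) : swp (mono p) = mono p.swap := liftW_mono _ _ _ _

theorem swp_mul (a b : W) : swp (a * b) = swp a * swp b := by
  have h1 : ∀ p : ℕ × ℕ, swp.comp (mulCLM (mono p)) = (mulCLM (swp (mono p))).comp swp := by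
    intro p
    refine clmW_ext fun q => ?_
    simp
  have h2 : swp.comp (mulCLM.flip b) = (mulCLM.flip (swp b)).comp swp := by
    refine clmW_ext fun p => ?_
    have := congrArg (fun L : W →L[ℝ] W => L b) (h1 p)
    simpa using this
  have := congrArg (fun L : W →L[ℝ] W => L a) h2
  simpa [mul_def] using this

theorem swp_one : swp 1 = 1 := by rw [one_def, swp_mono]; rfl

theorem swp_opT (a : W) : swp (opT a) = opT (swp a) := by
  have h : swp.comp opT = opT.comp swp := by
    refine clmW_ext fun p => ?_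
    simp [mul_comm]
  exact congrArg (fun L : W →L[ℝ] W => L a) h

@[simp] theorem opJ_eS (j : ℕ) : opJ (e j) = mono (4 * j, 0) := lift_e _ _ _ _
@[simp] theorem opJb_eS (j : ℕ) : opJb (e j) = mono (0, 4 * j) := lift_e _ _ _ _
@[simp] theorem opI_eS (j : ℕ) : opI (e j) = (1 / (4 * (j : ℝ) + 1)) • mono (4 * j + 1, 0) :=
  lift_e _ _ _ _
@[simp] theorem opIb_eS (j : ℕ) : opIb (e j) = (1 / (4 * (j : ℝ) + 1)) • mono (0, 4 * j + 1) :=
  lift_e _ _ _ _
@[simp] theorem opH_eS (j : ℕ) :
    opH (e j) = if j = 0 then mono (0, 0) else mono (4 * j, 0) + mono (0, 4 * j) := lift_e _ _ _ _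

theorem swp_opJ (q : L1 ℕ) : swp (opJ q) = opJb q := by
  have h : swp.comp opJ = opJb := by
    refine clm_ext fun j => ?_
    simp
  exact congrArg (fun L : L1 ℕ →L[ℝ] W => L q) h

theorem swp_opJb (q : L1 ℕ) : swp (opJb q) = opJ q := by
  have h : swp.comp opJb = opJ := by
    refine clm_ext fun j => ?_
    simp
  exact congrArg (fun L : L1 ℕ →L[ℝ] W => L q) h

theorem swp_opI (q : L1 ℕ) : swp (opI q) = opIb q := by
  have h : swp.comp opI = opIb := by
    refine clm_ext fun j => ?_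
    simp
  exact congrArg (fun L : L1 ℕ →L[ℝ] W => L q) h

theorem swp_opIb (q : L1 ℕ) : swp (opIb q) = opI q := by
  have h : swp.comp opIb = opI := by
    refine clm_ext fun j => ?_
    simp
  exact congrArg (fun L : L1 ℕ →L[ℝ] W => L q) h

theorem swp_opH (b : L1 ℕ) : swp (opH b) = opH b := by
  have h : swp.comp opH = opH := by
    refine clm_ext fun j => ?_
    simp only [ContinuousLinearMap.comp_apply, opH_eS]
    split_ifs with hj
    · simp
    · simp [add_comm]
  exact congrArg (fun L : L1 ℕ →L[ℝ] W => L b) h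

theorem swp_inverse (x : W) (hx : IsUnit x) (hs : swp x = x) :
    swp (Ring.inverse x) = Ring.inverse x := by
  have h1 : x * Ring.inverse x = 1 := Ring.mul_inverse_cancel x hx
  have h2 : x * swp (Ring.inverse x) = 1 := by
    have := congrArg swp h1
    rwa [swp_mul, swp_one, hs] at this
  calc swp (Ring.inverse x) = (Ring.inverse x * x) * swp (Ring.inverse x) := by
        rw [Ring.inverse_mul_cancel x hx, one_mul]
    _ = Ring.inverse x * (x * swp (Ring.inverse x)) := by rw [mul_assoc]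
    _ = Ring.inverse x := by rw [h2, mul_one]

theorem swp_opK (q : L1 ℕ) (hq : ‖q‖ < 1) : swp (opK q) = opK q := by
  have h1 : swp (1 - opI q * opIb q) = 1 - opI q * opIb q := by
    rw [map_sub, swp_one, swp_mul, swp_opI, swp_opIb, mul_comm]
  have h2 := swp_inverse _ (isUnit_one_sub q hq) h1
  rw [opK, pow_two, swp_mul, swp_mul, swp_mul, h2, swp_opJ, swp_opJb, mul_comm (opJb q)]

/-- Projection to the monomials with `4 ∣ m - n`. -/
def prj : W →L[ℝ] W :=
  liftW (fun p => if (4 : ℤ) ∣ (p.1 : ℤ) - p.2 then mono p else 0) 1 (fun p => by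
    split_ifs
    · exact (norm_mono _).le
    · simp)

@[simp] theorem prj_mono (p : ℕ × ℕ) :
    prj (mono p) = if (4 : ℤ) ∣ (p.1 : ℤ) - p.2 then mono p else 0 := liftW_mono _ _ _ _

theorem prj_opT (a : W) : prj (opT a) = opT (prj a) := by
  have h : prj.comp opT = opT.comp prj := by
    refine clmW_ext fun p => ?_
    have h2 : (((p.1 + 1 : ℕ) : ℤ) - ((p.2 + 1 : ℕ) : ℤ)) = (p.1 : ℤ) - p.2 := by
      push_cast; ring
    simp only [ContinuousLinearMap.comp_apply, opT_mono, map_smul, prj_mono, h2]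
    split_ifs
    · rw [opT_mono]
    · rw [map_zero, smul_zero]
  exact congrArg (fun L : W →L[ℝ] W => L a) h

theorem prj_opH (b : L1 ℕ) : prj (opH b) = opH b := by
  have h : prj.comp opH = opH := by
    refine clm_ext fun j => ?_
    simp only [ContinuousLinearMap.comp_apply, opH_eS]
    split_ifs with hj
    · simp
    · rw [map_add, prj_mono, prj_mono, if_pos, if_pos]
      · push_cast; exact ⟨-j, by ring⟩
      · push_cast; exact ⟨j, by ring⟩
  exact congrArg (fun L : L1 ℕ →L[ℝ] W => L b) h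

/-- The commutator of the projection with multiplication. -/
def cmt : W →L[ℝ] (W →L[ℝ] W) :=
  (ContinuousLinearMap.compL ℝ W W W prj).comp mulCLM
    - ((ContinuousLinearMap.compL ℝ W W W).flip prj).comp mulCLM

theorem cmt_apply (a b : W) : cmt a b = prj (a * b) - a * prj b := rfl

theorem cmt_mono {p : ℕ × ℕ} (hp : (4 : ℤ) ∣ (p.1 : ℤ) - p.2) : cmt (mono p) = 0 := by
  refine clmW_ext fun q => ?_
  rw [cmt_apply, mono_mul_mono, prj_mono, prj_mono]
  change _ = (0 : W)
  have h : (((p + q).1 : ℕ) : ℤ) - ((p + q).2 : ℕ)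
      = ((p.1 : ℤ) - p.2) + ((q.1 : ℤ) - q.2) := by
    simp only [Prod.fst_add, Prod.snd_add]
    push_cast
    ring
  have h' : (4 : ℤ) ∣ (((p + q).1 : ℕ) : ℤ) - ((p + q).2 : ℕ) ↔ (4 : ℤ) ∣ (q.1 : ℤ) - q.2 := by
    rw [h, dvd_add_right hp]
  by_cases hq : (4 : ℤ) ∣ (q.1 : ℤ) - q.2
  · rw [if_pos (h'.2 hq), if_pos hq, mono_mul_mono, sub_self]
  · rw [if_neg (fun hc => hq (h'.1 hc)), if_neg hq, mul_zero, sub_zero]

theorem cmt_eq_zero_iff (a : W) : cmt a = 0 ↔ ∀ b, prj (a * b) = a * prj b := by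
  constructor
  · intro h b
    have := congrArg (fun L : W →L[ℝ] W => L b) h
    simpa [cmt_apply, sub_eq_zero] using this
  · intro h
    ext1 b
    rw [cmt_apply, h b, sub_self]; rfl

theorem cmt_mul {a b : W} (ha : cmt a = 0) (hb : cmt b = 0) : cmt (a * b) = 0 := by
  rw [cmt_eq_zero_iff] at *
  intro c
  rw [mul_assoc, ha, hb, mul_assoc]

theorem cmt_inverse {a : W} (hu : IsUnit a) (ha : cmt a = 0) : cmt (Ring.inverse a) = 0 := by
  rw [cmt_eq_zero_iff] at *
  intro c
  have h := ha (Ring.inverse a * c)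
  rw [← mul_assoc, Ring.mul_inverse_cancel a hu, one_mul] at h
  rw [h, ← mul_assoc, Ring.inverse_mul_cancel a hu, one_mul]

theorem cmt_opJ (q : L1 ℕ) : cmt (opJ q) = 0 := by
  have h : cmt.comp opJ = 0 := by
    refine clm_ext fun j => ?_
    rw [ContinuousLinearMap.comp_apply, opJ_eS, cmt_mono]
    · rfl
    · push_cast; exact ⟨j, by ring⟩
  exact congrArg (fun L : L1 ℕ →L[ℝ] (W →L[ℝ] W) => L q) h

theorem cmt_opJb (q : L1 ℕ) : cmt (opJb q) = 0 := by
  have h : cmt.comp opJb = 0 := by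
    refine clm_ext fun j => ?_
    rw [ContinuousLinearMap.comp_apply, opJb_eS, cmt_mono]
    · rfl
    · push_cast; exact ⟨-j, by ring⟩
  exact congrArg (fun L : L1 ℕ →L[ℝ] (W →L[ℝ] W) => L q) h

theorem cmt_opI_mul_opIb (q : L1 ℕ) : cmt (opI q * opIb q) = 0 := by
  have h1 : ∀ i j : ℕ, cmt (opI (e i) * opIb (e j)) = 0 := by
    intro i j
    have h0 : cmt (mono ((4 * i + 1, 0) + (0, 4 * j + 1))) = 0 := by
      refine cmt_mono ?_
      simp only [Prod.fst_add, Prod.snd_add]
      push_cast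
      exact ⟨(i : ℤ) - j, by ring⟩
    rw [opI_eS, opIb_eS, smul_mul_smul_comm, map_smul, mono_mul_mono, h0]
    exact smul_zero (A := W →L[ℝ] W) (1 / (4 * (i : ℝ) + 1) * (1 / (4 * (j : ℝ) + 1)))
  have h2 : ∀ (i : ℕ) (r : L1 ℕ), cmt (opI (e i) * opIb r) = 0 := by
    intro i r
    have h : (cmt.comp (mulCLM (opI (e i)))).comp opIb = 0 := by
      refine clm_ext fun j => ?_
      exact h1 i j
    exact congrArg (fun L : L1 ℕ →L[ℝ] (W →L[ℝ] W) => L r) h
  have h : (cmt.comp (mulCLM.flip (opIb q))).comp opI = 0 := by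
    refine clm_ext fun j => ?_
    exact h2 j q
  exact congrArg (fun L : L1 ℕ →L[ℝ] (W →L[ℝ] W) => L q) h

theorem cmt_opK (q : L1 ℕ) (hq : ‖q‖ < 1) : cmt (opK q) = 0 := by
  have h1 : cmt (1 - opI q * opIb q) = 0 := by
    rw [map_sub, cmt_opI_mul_opIb, sub_zero, one_def]
    exact cmt_mono (by simp)
  have h2 := cmt_inverse (isUnit_one_sub q hq) h1
  rw [opK, pow_two]
  exact cmt_mul (cmt_mul (cmt_opJ q) (cmt_opJb q)) (cmt_mul h2 h2)

theorem Sol.swp_eq {b q : L1 ℕ} {w : W} {α : ℝ} (hq : ‖q‖ < 1) (h : Sol b q w α) : swp w = w := by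
  have h1 : swp w + α • opT (opK q * swp w) = opH b := by
    have := congrArg swp h.vol
    rwa [map_add, map_smul, swp_opT, swp_mul, swp_opK q hq, swp_opH] at this
  have h2 : (swp w - w) + α • opT (opK q * (swp w - w)) = 0 := by
    rw [mul_sub, map_sub, smul_sub]
    have h3 := h.vol
    calc swp w - w + (α • opT (opK q * swp w) - α • opT (opK q * w))
        = (swp w + α • opT (opK q * swp w)) - (w + α • opT (opK q * w)) := by abel
      _ = 0 := by rw [h1, h3, sub_self]
  exact sub_eq_zero.1 (volterra_inj _ _ _ h2)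

theorem Sol.prj_eq {b q : L1 ℕ} {w : W} {α : ℝ} (hq : ‖q‖ < 1) (h : Sol b q w α) : prj w = w := by
  have h0 := (cmt_eq_zero_iff _).1 (cmt_opK q hq) w
  have h1 : prj w + α • opT (opK q * prj w) = opH b := by
    have := congrArg prj h.vol
    rwa [map_add, map_smul, prj_opT, h0, prj_opH] at this
  have h2 : (prj w - w) + α • opT (opK q * (prj w - w)) = 0 := by
    rw [mul_sub, map_sub, smul_sub]
    have h3 := h.vol
    calc prj w - w + (α • opT (opK q * prj w) - α • opT (opK q * w))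
        = (prj w + α • opT (opK q * prj w)) - (w + α • opT (opK q * w)) := by abel
      _ = 0 := by rw [h1, h3, sub_self]
  exact sub_eq_zero.1 (volterra_inj _ _ _ h2)

end Pool.Agent.Sch
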